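import Mathlib

open Finset

namespace Pool.Agent.H52

/-- e(x) = exp(2 pi i x) -/
noncomputable def ee (x : ℝ) : ℂ := Complex.exp (2 * Real.pi * x * Complex.I)

lemma ls_ee_zero : ee 0 = 1 := by simp [ee]

lemma ls_ee_add (x y : ℝ) : ee (x + y) = ee x * ee y := by
  unfold ee
  rw [← Complex.exp_add]
  congr 1
  push_cast
  ring

lemma ls_ee_int (n : ℤ) : ee n = 1 := by
  unfold ee
  rw [Complex.exp_eq_one_iff]
  exact ⟨n, by push_cast; ring⟩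

lemma ls_ee_nat (n : ℕ) : ee n = 1 := by
  have := ls_ee_int (n : ℤ)
  simpa using this

lemma ls_norm_ee (x : ℝ) : ‖ee x‖ = 1 := by
  unfold ee
  rw [show (2 * Real.pi * x * Complex.I : ℂ) = ((2 * Real.pi * x : ℝ) : ℂ) * Complex.I by
    push_cast; ring]
  exact Complex.norm_exp_ofReal_mul_I _

lemma ls_ee_ne_zero (x : ℝ) : ee x ≠ 0 := by
  intro h
  have := ls_norm_ee x
  rw [h] at this
  simp at this

lemma ls_conj_ee (x : ℝ) : (starRingEnd ℂ) (ee x) = ee (-x) := by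
  unfold ee
  rw [← Complex.exp_conj]
  congr 1
  simp only [map_mul, Complex.conj_I, Complex.conj_ofReal, map_ofNat]
  push_cast
  ring

lemma ls_ee_nat_mul (n : ℕ) (x : ℝ) : ee (n * x) = ee x ^ n := by
  unfold ee
  rw [← Complex.exp_nat_mul]
  congr 1
  push_cast
  ring

/-- e(x) = 1 only for integers x -/
lemma ls_ee_eq_one {x : ℝ} (h : ee x = 1) : ∃ n : ℤ, x = n := by
  unfold ee at h
  rw [Complex.exp_eq_one_iff] at h
  obtain ⟨n, hn⟩ := h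
  refine ⟨n, ?_⟩
  have h2 : (2 * Real.pi * Complex.I : ℂ) ≠ 0 := Complex.two_pi_I_ne_zero
  have h3 : ((x : ℂ) - n) * (2 * Real.pi * Complex.I : ℂ) = 0 := by
    have : (2 * Real.pi * x * Complex.I : ℂ) = n * (2 * Real.pi * Complex.I) := hn
    linear_combination this
  rcases mul_eq_zero.mp h3 with h4 | h4
  · have : (x : ℂ) = ((n : ℝ) : ℂ) := by
      push_cast
      linear_combination h4
    exact_mod_cast this
  · exact absurd h4 h2

/-- Dirichlet kernel -/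
noncomputable def lsD (M : ℕ) (t : ℝ) : ℂ := ∑ j ∈ range M, ee (j * t)

lemma lsD_add_int (M : ℕ) (t : ℝ) (k : ℤ) : lsD M (t + k) = lsD M t := by
  unfold lsD
  refine Finset.sum_congr rfl fun j _ => ?_
  have : (j : ℝ) * (t + k) = j * t + ((j * k : ℤ) : ℝ) := by push_cast; ring
  rw [this, ls_ee_add, ls_ee_int, mul_one]

lemma lsD_fract (M : ℕ) (t : ℝ) : lsD M (Int.fract t) = lsD M t := by
  conv_rhs => rw [← Int.fract_add_floor t]
  rw [lsD_add_int]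

lemma lsD_zero (M : ℕ) : lsD M 0 = M := by
  simp [lsD, ls_ee_zero]

lemma lsD_neg (M : ℕ) (t : ℝ) : lsD M (-t) = (starRingEnd ℂ) (lsD M t) := by
  unfold lsD
  rw [map_sum]
  refine Finset.sum_congr rfl fun j _ => ?_
  rw [ls_conj_ee]
  congr 1
  ring

lemma lsD_norm_neg (M : ℕ) (t : ℝ) : ‖lsD M (-t)‖ = ‖lsD M t‖ := by
  rw [lsD_neg, RCLike.norm_conj]

lemma ls_norm_ee_sub_one (t : ℝ) : ‖ee t - 1‖ = |2 * Real.sin (Real.pi * t)| := by
  unfold ee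
  have h := Complex.norm_exp_I_mul_ofReal_sub_one (2 * Real.pi * t)
  rw [show (2 * Real.pi * t * Complex.I : ℂ) = Complex.I * ((2 * Real.pi * t : ℝ) : ℂ) by
    push_cast; ring, h, Real.norm_eq_abs]
  congr 3
  ring

lemma lsD_bound_sin (M : ℕ) (t : ℝ) (h0 : 0 < t) (h1 : t < 1) :
    ‖lsD M t‖ * Real.sin (Real.pi * t) ≤ 1 := by
  have hs : 0 < Real.sin (Real.pi * t) := by
    apply Real.sin_pos_of_pos_of_lt_pi
    · positivity
    · nlinarith [Real.pi_pos]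
  have h2 : lsD M t * (ee t - 1) = ee t ^ M - 1 := by
    unfold lsD
    have : ∀ j ∈ range M, ee (j * t) = ee t ^ j := fun j _ => ls_ee_nat_mul j t
    rw [Finset.sum_congr rfl this, geom_sum_mul]
  have h3 : ‖lsD M t‖ * ‖ee t - 1‖ ≤ 2 := by
    rw [← norm_mul, h2]
    calc ‖ee t ^ M - 1‖ ≤ ‖ee t ^ M‖ + ‖(1 : ℂ)‖ := norm_sub_le _ _
      _ = 2 := by rw [norm_pow, ls_norm_ee]; norm_num
  rw [ls_norm_ee_sub_one, abs_of_pos (by linarith)] at h3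
  nlinarith

lemma lsD_bound (M : ℕ) (t : ℝ) (h0 : 0 < t) (h1 : t < 1) :
    ‖lsD M t‖ ^ 2 ≤ (1 / 4) * (1 / t ^ 2 + 1 / (1 - t) ^ 2) := by
  have hb := lsD_bound_sin M t h0 h1
  have hn : 0 ≤ ‖lsD M t‖ := norm_nonneg _
  have hpos : 0 < Real.pi := Real.pi_pos
  rcases le_total t (1 / 2) with h | h
  · have hs : 2 * t ≤ Real.sin (Real.pi * t) := by
      have := Real.mul_le_sin (x := Real.pi * t) (by positivity) (by nlinarith)
      have e : 2 / Real.pi * (Real.pi * t) = 2 * t := by field_simp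
      linarith
    have h3 : ‖lsD M t‖ * (2 * t) ≤ 1 :=
      le_trans (mul_le_mul_of_nonneg_left hs hn) hb
    have h4 : ‖lsD M t‖ ≤ 1 / (2 * t) := by
      rw [le_div_iff₀ (by positivity)]
      exact h3
    have h5 : ‖lsD M t‖ ^ 2 ≤ (1 / (2 * t)) ^ 2 := pow_le_pow_left₀ hn h4 2
    have h6 : (1 / (2 * t)) ^ 2 = (1 / 4) * (1 / t ^ 2) := by
      field_simp
      norm_num
    have h7 : 0 ≤ 1 / (1 - t) ^ 2 := by positivity
    linarith
  · have hs : 2 * (1 - t) ≤ Real.sin (Real.pi * t) := by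
      have := Real.mul_le_sin (x := Real.pi * (1 - t))
        (mul_nonneg hpos.le (by linarith)) (by nlinarith)
      have e : 2 / Real.pi * (Real.pi * (1 - t)) = 2 * (1 - t) := by field_simp
      have e2 : Real.sin (Real.pi * (1 - t)) = Real.sin (Real.pi * t) := by
        rw [show Real.pi * (1 - t) = Real.pi - Real.pi * t by ring, Real.sin_pi_sub]
      linarith
    have ht : 0 < 1 - t := by linarith
    have h3 : ‖lsD M t‖ * (2 * (1 - t)) ≤ 1 :=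
      le_trans (mul_le_mul_of_nonneg_left hs hn) hb
    have h4 : ‖lsD M t‖ ≤ 1 / (2 * (1 - t)) := by
      rw [le_div_iff₀ (by positivity)]
      exact h3
    have h5 : ‖lsD M t‖ ^ 2 ≤ (1 / (2 * (1 - t))) ^ 2 := pow_le_pow_left₀ hn h4 2
    have h6 : (1 / (2 * (1 - t))) ^ 2 = (1 / 4) * (1 / (1 - t) ^ 2) := by
      field_simp
      norm_num
    have h7 : 0 ≤ 1 / t ^ 2 := by positivity
    linarith

lemma ls_sum_inv_sq (n : ℕ) :
    ∑ k ∈ Icc 1 (n + 1), 1 / (k : ℝ) ^ 2 ≤ 2 - 1 / ((n : ℝ) + 1) := by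
  induction n with
  | zero => norm_num
  | succ n ih =>
    rw [Finset.sum_Icc_succ_top (by omega)]
    push_cast
    have h1 : (0 : ℝ) < (n : ℝ) + 1 := by positivity
    have h3 : 1 / ((n : ℝ) + 1 + 1) ^ 2 ≤ 1 / ((n : ℝ) + 1) - 1 / ((n : ℝ) + 1 + 1) := by
      rw [div_sub_div _ _ (by positivity) (by positivity), div_le_div_iff₀ (by positivity)
        (by positivity)]
      ring_nf
      nlinarith
    linarith

/-- distinct positive integers have reciprocal square sum at most two -/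
lemma ls_sum_inv_sq_inj {ι : Type*} (R : Finset ι) (k : ι → ℕ) (hk : ∀ r ∈ R, 1 ≤ k r)
    (hinj : Set.InjOn k R) : ∑ r ∈ R, 1 / (k r : ℝ) ^ 2 ≤ 2 := by
  classical
  rw [← Finset.sum_image (f := fun m : ℕ => 1 / (m : ℝ) ^ 2) hinj]
  set M := (R.image k).sup id with hM
  have hsub : R.image k ⊆ Icc 1 (M + 1) := by
    intro m hm
    have h1 : m ≤ M := Finset.le_sup (f := id) hm
    rw [mem_image] at hm
    obtain ⟨r, hr, rfl⟩ := hm
    rw [mem_Icc]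
    exact ⟨hk r hr, by omega⟩
  calc ∑ m ∈ R.image k, 1 / (m : ℝ) ^ 2 ≤ ∑ m ∈ Icc 1 (M + 1), 1 / (m : ℝ) ^ 2 :=
        Finset.sum_le_sum_of_subset_of_nonneg hsub (fun _ _ _ => by positivity)
    _ ≤ 2 - 1 / ((M : ℝ) + 1) := ls_sum_inv_sq M
    _ ≤ 2 := by
        have : 0 ≤ 1 / ((M : ℝ) + 1) := by positivity
        linarith

/-- separation: the distance to the nearest integer is at least 1/K -/
def lsSep (K : ℕ) (x : ℝ) : Prop := 1 / (K : ℝ) ≤ Int.fract x ∧ Int.fract x ≤ 1 - 1 / (K : ℝ)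

lemma lsSep_neg {K : ℕ} (hK : 1 ≤ K) {x : ℝ} (h : lsSep K x) :
    lsSep K (-x) ∧ Int.fract (-x) = 1 - Int.fract x := by
  have hK' : (0 : ℝ) < 1 / (K : ℝ) := by positivity
  have h0 : Int.fract x ≠ 0 := by
    have := h.1
    linarith
  have h1 : Int.fract (-x) = 1 - Int.fract x := Int.fract_neg h0
  refine ⟨⟨?_, ?_⟩, h1⟩
  · rw [h1]
    linarith [h.2]
  · rw [h1]
    linarith [h.1]

/-- one-sided sum -/
lemma ls_onesided {ι : Type*} (R : Finset ι) (ξ : ι → ℝ) (K : ℕ) (hK : 1 ≤ K)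
    (hsep : ∀ r ∈ R, ∀ s ∈ R, r ≠ s → lsSep K (ξ s - ξ r)) (y : ℝ)
    (hy : ∀ s ∈ R, lsSep K (ξ s - y)) :
    ∑ s ∈ R, 1 / Int.fract (ξ s - y) ^ 2 ≤ 2 * (K : ℝ) ^ 2 := by
  have hK0 : (0 : ℝ) < K := by exact_mod_cast hK
  set k : ι → ℕ := fun s => ⌊(K : ℝ) * Int.fract (ξ s - y)⌋₊ with hk
  have hk1 : ∀ s ∈ R, 1 ≤ k s := by
    intro s hs
    have h1 := (hy s hs).1
    rw [hk]
    apply Nat.le_floor
    push_cast
    rw [div_le_iff₀ hK0] at h1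
    linarith
  have hinj : Set.InjOn k R := by
    intro s hs s' hs' heq
    by_contra hne
    have hsp := hsep s hs s' hs' hne
    set t := Int.fract (ξ s - y) with ht
    set t' := Int.fract (ξ s' - y) with ht'
    have e0 : 0 ≤ t := Int.fract_nonneg _
    have e0' : 0 ≤ t' := Int.fract_nonneg _
    have e1 : (k s : ℝ) ≤ K * t := Nat.floor_le (by positivity)
    have e2 : (K : ℝ) * t < k s + 1 := Nat.lt_floor_add_one _
    have e3 : (k s' : ℝ) ≤ K * t' := Nat.floor_le (by positivity)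
    have e4 : (K : ℝ) * t' < k s' + 1 := Nat.lt_floor_add_one _
    rw [heq] at e1 e2
    have e5 : (K : ℝ) * (t' - t) < 1 := by linarith
    have e6 : -1 < (K : ℝ) * (t' - t) := by linarith
    have e7 : t' - t < 1 / K := by
      rw [lt_div_iff₀ hK0]
      linarith
    have e8 : -(1 / (K : ℝ)) < t' - t := by
      rw [neg_lt, lt_div_iff₀ hK0]
      linarith
    have e9 : ξ s' - ξ s = (t' - t) + ((⌊ξ s' - y⌋ - ⌊ξ s - y⌋ : ℤ) : ℝ) := by
      have a1 := Int.fract_add_floor (ξ s - y)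
      have a2 := Int.fract_add_floor (ξ s' - y)
      rw [← ht] at a1
      rw [← ht'] at a2
      push_cast
      linarith
    have e10 : Int.fract (ξ s' - ξ s) = Int.fract (t' - t) := by
      rw [e9, Int.fract_add_intCast]
    unfold lsSep at hsp
    rw [e10] at hsp
    rcases le_or_gt 0 (t' - t) with h | h
    · have : Int.fract (t' - t) = t' - t := by
        rw [Int.fract_eq_self]
        refine ⟨h, ?_⟩
        have : 1 / (K : ℝ) ≤ 1 := by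
          rw [div_le_one hK0]
          exact_mod_cast hK
        linarith
      rw [this] at hsp
      linarith [hsp.1]
    · have : Int.fract (t' - t) = t' - t + 1 := by
        rw [Int.fract_eq_iff]
        refine ⟨?_, ?_, ⟨-1, by push_cast; ring⟩⟩
        · have : 1 / (K : ℝ) ≤ 1 := by
            rw [div_le_one hK0]
            exact_mod_cast hK
          linarith
        · linarith
      rw [this] at hsp
      linarith [hsp.2]
  have hle : ∀ s ∈ R, 1 / Int.fract (ξ s - y) ^ 2 ≤ (K : ℝ) ^ 2 * (1 / (k s : ℝ) ^ 2) := by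
    intro s hs
    have h1 : (k s : ℝ) ≤ K * Int.fract (ξ s - y) :=
      Nat.floor_le (mul_nonneg hK0.le (Int.fract_nonneg _))
    have h2 : (1 : ℝ) ≤ k s := by exact_mod_cast hk1 s hs
    have h3 : 0 < Int.fract (ξ s - y) := by
      have := (hy s hs).1
      have h4 : 0 < 1 / (K : ℝ) := by positivity
      linarith
    rw [mul_one_div, div_le_div_iff₀ (by positivity) (by positivity), one_mul, ← mul_pow]
    exact pow_le_pow_left₀ (by linarith) h1 2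
  calc ∑ s ∈ R, 1 / Int.fract (ξ s - y) ^ 2
      ≤ ∑ s ∈ R, (K : ℝ) ^ 2 * (1 / (k s : ℝ) ^ 2) := Finset.sum_le_sum hle
    _ = (K : ℝ) ^ 2 * ∑ s ∈ R, 1 / (k s : ℝ) ^ 2 := by rw [Finset.mul_sum]
    _ ≤ (K : ℝ) ^ 2 * 2 :=
        mul_le_mul_of_nonneg_left (ls_sum_inv_sq_inj R k hk1 hinj) (by positivity)
    _ = 2 * (K : ℝ) ^ 2 := by ring

/-- the row sum of squared Dirichlet kernels -/
lemma ls_rowsum {ι : Type*} [DecidableEq ι] (R : Finset ι) (ξ : ι → ℝ) (K M : ℕ) (hK : 1 ≤ K)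
    (hsep : ∀ r ∈ R, ∀ s ∈ R, r ≠ s → lsSep K (ξ s - ξ r)) (r : ι) (hr : r ∈ R) :
    ∑ s ∈ R, ‖lsD M (ξ s - ξ r)‖ ^ 2 ≤ (M : ℝ) ^ 2 + (K : ℝ) ^ 2 := by
  rw [← Finset.add_sum_erase R _ hr]
  have h0 : ‖lsD M (ξ r - ξ r)‖ ^ 2 = (M : ℝ) ^ 2 := by
    rw [sub_self, lsD_zero]
    simp
  rw [h0]
  have hE : ∀ s ∈ R.erase r, lsSep K (ξ s - ξ r) := by
    intro s hs
    rw [mem_erase] at hs
    exact hsep r hr s hs.2 (Ne.symm hs.1)
  have hE' : ∀ s ∈ R.erase r, ∀ s' ∈ R.erase r, s ≠ s' → lsSep K (ξ s' - ξ s) :=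
    fun s hs s' hs' hne => hsep s (mem_of_mem_erase hs) s' (mem_of_mem_erase hs') hne
  have h1 := ls_onesided (R.erase r) ξ K hK hE' (ξ r) hE
  have h2 := ls_onesided (R.erase r) (fun s => - ξ s) K hK
    (fun s hs s' hs' hne => by
      have := hE' s' hs' s hs (Ne.symm hne)
      have e : -ξ s' - -ξ s = ξ s - ξ s' := by ring
      rw [e]
      exact this) (-ξ r)
    (fun s hs => by
      have := (lsSep_neg hK (hE s hs)).1
      have e : -ξ s - -ξ r = -(ξ s - ξ r) := by ring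
      rw [e]
      exact this)
  have h3 : ∀ s ∈ R.erase r, ‖lsD M (ξ s - ξ r)‖ ^ 2 ≤
      (1 / 4) * (1 / Int.fract (ξ s - ξ r) ^ 2 + 1 / Int.fract (-ξ s - -ξ r) ^ 2) := by
    intro s hs
    have e : -ξ s - -ξ r = -(ξ s - ξ r) := by ring
    have hf := (lsSep_neg hK (hE s hs)).2
    rw [e, hf, ← lsD_fract]
    apply lsD_bound
    · have := (hE s hs).1
      have h4 : 0 < 1 / (K : ℝ) := by positivity
      linarith
    · exact Int.fract_lt_one _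
  have h4 : ∑ s ∈ R.erase r, ‖lsD M (ξ s - ξ r)‖ ^ 2 ≤
      (1 / 4) * (2 * (K : ℝ) ^ 2 + 2 * (K : ℝ) ^ 2) := by
    refine le_trans (Finset.sum_le_sum h3) ?_
    rw [← Finset.mul_sum, Finset.sum_add_distrib]
    apply mul_le_mul_of_nonneg_left _ (by norm_num)
    linarith
  linarith

/-- expansion of the double sum -/
lemma ls_expand {ι : Type*} (R : Finset ι) (ξ : ι → ℝ) (M : ℕ) (c : ι → ℂ) :
    ((∑ j ∈ range M, ∑ j' ∈ range M,
      ‖∑ r ∈ R, c r * ee (((j : ℝ) - j') * ξ r)‖ ^ 2 : ℝ) : ℂ) =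
    ∑ r ∈ R, ∑ s ∈ R, c r * (starRingEnd ℂ) (c s) *
      (lsD M (ξ r - ξ s) * (starRingEnd ℂ) (lsD M (ξ r - ξ s))) := by
  push_cast
  have h1 : ∀ j ∈ range M, ∀ j' ∈ range M,
      ((‖∑ r ∈ R, c r * ee (((j : ℝ) - j') * ξ r)‖ : ℂ)) ^ 2 =
      ∑ r ∈ R, ∑ s ∈ R, c r * (starRingEnd ℂ) (c s) *
        (ee (j * (ξ r - ξ s)) * (starRingEnd ℂ) (ee (j' * (ξ r - ξ s)))) := by
    intro j _ j' _
    rw [← Complex.mul_conj', map_sum, Finset.sum_mul_sum]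
    refine Finset.sum_congr rfl fun r _ => Finset.sum_congr rfl fun s _ => ?_
    rw [map_mul, ls_conj_ee, ls_conj_ee, ← ls_ee_add]
    have : ee (((j : ℝ) - j') * ξ r) * ee (-(((j : ℝ) - j') * ξ s)) =
        ee (j * (ξ r - ξ s) + -(j' * (ξ r - ξ s))) := by
      rw [← ls_ee_add]
      congr 1
      ring
    rw [← this]
    ring
  calc ∑ j ∈ range M, ∑ j' ∈ range M, ((‖∑ r ∈ R, c r * ee (((j : ℝ) - j') * ξ r)‖ : ℂ)) ^ 2
      = ∑ j ∈ range M, ∑ j' ∈ range M, ∑ r ∈ R, ∑ s ∈ R, c r * (starRingEnd ℂ) (c s) *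
        (ee (j * (ξ r - ξ s)) * (starRingEnd ℂ) (ee (j' * (ξ r - ξ s)))) :=
        Finset.sum_congr rfl fun j hj => Finset.sum_congr rfl fun j' hj' => h1 j hj j' hj'
    _ = ∑ r ∈ R, ∑ s ∈ R, ∑ j ∈ range M, ∑ j' ∈ range M, c r * (starRingEnd ℂ) (c s) *
        (ee (j * (ξ r - ξ s)) * (starRingEnd ℂ) (ee (j' * (ξ r - ξ s)))) := by
        rw [Finset.sum_congr rfl fun j _ => Finset.sum_comm]
        rw [Finset.sum_comm]
        refine Finset.sum_congr rfl fun r _ => ?_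
        rw [Finset.sum_congr rfl fun j _ => Finset.sum_comm]
        rw [Finset.sum_comm]
    _ = _ := by
        refine Finset.sum_congr rfl fun r _ => Finset.sum_congr rfl fun s _ => ?_
        unfold lsD
        rw [map_sum, Finset.sum_mul_sum, Finset.mul_sum]
        refine Finset.sum_congr rfl fun j _ => ?_
        rw [Finset.mul_sum]

lemma ls_double {ι : Type*} [DecidableEq ι] (R : Finset ι) (ξ : ι → ℝ) (K M : ℕ) (hK : 1 ≤ K)
    (hsep : ∀ r ∈ R, ∀ s ∈ R, r ≠ s → lsSep K (ξ s - ξ r)) (c : ι → ℂ) :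
    ∑ j ∈ range M, ∑ j' ∈ range M, ‖∑ r ∈ R, c r * ee (((j : ℝ) - j') * ξ r)‖ ^ 2 ≤
      ((M : ℝ) ^ 2 + (K : ℝ) ^ 2) * ∑ r ∈ R, ‖c r‖ ^ 2 := by
  set X : ℝ := ∑ j ∈ range M, ∑ j' ∈ range M, ‖∑ r ∈ R, c r * ee (((j : ℝ) - j') * ξ r)‖ ^ 2
    with hX
  have hX0 : 0 ≤ X := by positivity
  have h1 : X = ‖(X : ℂ)‖ := by
    rw [Complex.norm_real, Real.norm_eq_abs, abs_of_nonneg hX0]
  rw [h1, hX, ls_expand]
  calc ‖∑ r ∈ R, ∑ s ∈ R, c r * (starRingEnd ℂ) (c s) *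
      (lsD M (ξ r - ξ s) * (starRingEnd ℂ) (lsD M (ξ r - ξ s)))‖
      ≤ ∑ r ∈ R, ∑ s ∈ R, ‖c r * (starRingEnd ℂ) (c s) *
      (lsD M (ξ r - ξ s) * (starRingEnd ℂ) (lsD M (ξ r - ξ s)))‖ := by
        refine le_trans (norm_sum_le _ _) (Finset.sum_le_sum fun r _ => norm_sum_le _ _)
    _ ≤ ∑ r ∈ R, ∑ s ∈ R, ((1 / 2) * (‖c r‖ ^ 2 * ‖lsD M (ξ s - ξ r)‖ ^ 2) +
          (1 / 2) * (‖c s‖ ^ 2 * ‖lsD M (ξ r - ξ s)‖ ^ 2)) := by
        refine Finset.sum_le_sum fun r _ => Finset.sum_le_sum fun s _ => ?_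
        rw [norm_mul, norm_mul, norm_mul, RCLike.norm_conj, RCLike.norm_conj]
        have e : ‖lsD M (ξ s - ξ r)‖ = ‖lsD M (ξ r - ξ s)‖ := by
          rw [← lsD_norm_neg, neg_sub]
        rw [e]
        have h2 : ‖c r‖ * ‖c s‖ ≤ (1 / 2) * (‖c r‖ ^ 2 + ‖c s‖ ^ 2) := by
          nlinarith [sq_nonneg (‖c r‖ - ‖c s‖)]
        have h3 : 0 ≤ ‖lsD M (ξ r - ξ s)‖ ^ 2 := by positivity
        nlinarith [mul_le_mul_of_nonneg_right h2 h3]
    _ = ∑ r ∈ R, ‖c r‖ ^ 2 * ∑ s ∈ R, ‖lsD M (ξ s - ξ r)‖ ^ 2 := by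
        have e1 : ∀ r ∈ R, ∑ s ∈ R, ((1 / 2) * (‖c r‖ ^ 2 * ‖lsD M (ξ s - ξ r)‖ ^ 2) +
          (1 / 2) * (‖c s‖ ^ 2 * ‖lsD M (ξ r - ξ s)‖ ^ 2)) =
          (1 / 2) * (∑ s ∈ R, ‖c r‖ ^ 2 * ‖lsD M (ξ s - ξ r)‖ ^ 2) +
          (1 / 2) * ∑ s ∈ R, (‖c s‖ ^ 2 * ‖lsD M (ξ r - ξ s)‖ ^ 2) := by
          intro r _
          rw [Finset.sum_add_distrib, Finset.mul_sum, Finset.mul_sum]
        rw [Finset.sum_congr rfl e1, Finset.sum_add_distrib, ← Finset.mul_sum, ← Finset.mul_sum]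
        have e2 : ∑ r ∈ R, ∑ s ∈ R, (‖c s‖ ^ 2 * ‖lsD M (ξ r - ξ s)‖ ^ 2) =
            ∑ r ∈ R, ∑ s ∈ R, (‖c r‖ ^ 2 * ‖lsD M (ξ s - ξ r)‖ ^ 2) := Finset.sum_comm
        rw [e2]
        have e3 : ∑ r ∈ R, ‖c r‖ ^ 2 * ∑ s ∈ R, ‖lsD M (ξ s - ξ r)‖ ^ 2 =
            ∑ r ∈ R, ∑ s ∈ R, ‖c r‖ ^ 2 * ‖lsD M (ξ s - ξ r)‖ ^ 2 :=
          Finset.sum_congr rfl fun r _ => by rw [Finset.mul_sum]
        rw [e3]
        ring
    _ ≤ ∑ r ∈ R, ‖c r‖ ^ 2 * ((M : ℝ) ^ 2 + (K : ℝ) ^ 2) := by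
        refine Finset.sum_le_sum fun r hr => ?_
        exact mul_le_mul_of_nonneg_left (ls_rowsum R ξ K M hK hsep r hr) (by positivity)
    _ = _ := by rw [← Finset.sum_mul, mul_comm]

lemma ls_dual {ι : Type*} [DecidableEq ι] (R : Finset ι) (ξ : ι → ℝ) (K N : ℕ) (hK : 1 ≤ K)
    (hsep : ∀ r ∈ R, ∀ s ∈ R, r ≠ s → lsSep K (ξ s - ξ r)) (c : ι → ℂ) :
    ∑ n ∈ Icc 1 N, ‖∑ r ∈ R, c r * ee (n * ξ r)‖ ^ 2 ≤
      6 * ((N : ℝ) + K) * ∑ r ∈ R, ‖c r‖ ^ 2 := by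
  set J := N + K with hJ
  have hJ0 : (0 : ℝ) < J := by
    rw [hJ]
    push_cast
    positivity
  set G : ℕ → ℕ → ℝ := fun j j' => ‖∑ r ∈ R, c r * ee (((j : ℝ) - j') * ξ r)‖ ^ 2 with hG
  have hG0 : ∀ j j', 0 ≤ G j j' := fun j j' => by positivity
  have h1 : (J : ℝ) * ∑ n ∈ Icc 1 N, ‖∑ r ∈ R, c r * ee (n * ξ r)‖ ^ 2 =
      ∑ j' ∈ range J, ∑ n ∈ Icc 1 N, G (n + j') j' := by
    have : ∀ j' ∈ range J, ∑ n ∈ Icc 1 N, G (n + j') j' =
        ∑ n ∈ Icc 1 N, ‖∑ r ∈ R, c r * ee (n * ξ r)‖ ^ 2 := by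
      intro j' _
      refine Finset.sum_congr rfl fun n _ => ?_
      simp only [hG]
      have : ((n + j' : ℕ) : ℝ) - j' = n := by push_cast; ring
      rw [this]
    rw [Finset.sum_congr rfl this, Finset.sum_const, card_range, nsmul_eq_mul]
  have h2 : ∑ j' ∈ range J, ∑ n ∈ Icc 1 N, G (n + j') j' ≤
      ∑ j' ∈ range (2 * J), ∑ j ∈ range (2 * J), G j j' := by
    calc ∑ j' ∈ range J, ∑ n ∈ Icc 1 N, G (n + j') j'
        ≤ ∑ j' ∈ range J, ∑ j ∈ range (2 * J), G j j' := by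
          refine Finset.sum_le_sum fun j' hj' => ?_
          have hinj : Set.InjOn (fun n : ℕ => n + j') (Icc 1 N : Finset ℕ) := by
            intro a _ b _ h
            simpa using h
          rw [← Finset.sum_image (f := fun j => G j j') hinj]
          apply Finset.sum_le_sum_of_subset_of_nonneg
          · intro x hx
            rw [mem_image] at hx
            obtain ⟨n, hn, rfl⟩ := hx
            rw [mem_Icc] at hn
            rw [mem_range] at hj' ⊢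
            omega
          · intro i _ _
            exact hG0 _ _
      _ ≤ _ := by
          apply Finset.sum_le_sum_of_subset_of_nonneg
          · intro x hx
            rw [mem_range] at hx ⊢
            omega
          · intro i _ _
            exact Finset.sum_nonneg fun _ _ => hG0 _ _
  have h3 := ls_double R ξ K (2 * J) hK hsep c
  have h4 : ∑ j' ∈ range (2 * J), ∑ j ∈ range (2 * J), G j j' =
      ∑ j ∈ range (2 * J), ∑ j' ∈ range (2 * J),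
        ‖∑ r ∈ R, c r * ee (((j : ℝ) - j') * ξ r)‖ ^ 2 := Finset.sum_comm
  rw [← h4] at h3
  set A := ∑ r ∈ R, ‖c r‖ ^ 2 with hA
  have hA0 : 0 ≤ A := by positivity
  have h5 : (J : ℝ) * ∑ n ∈ Icc 1 N, ‖∑ r ∈ R, c r * ee (n * ξ r)‖ ^ 2 ≤
      (J : ℝ) * (6 * ((N : ℝ) + K) * A) := by
    rw [h1]
    refine le_trans (le_trans h2 h3) ?_
    have hKJ : (K : ℝ) ≤ J := by
      rw [hJ]
      push_cast
      have : (0 : ℝ) ≤ N := by positivity
      linarith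
    have hNK : (N : ℝ) + K = J := by
      rw [hJ]
      push_cast
      ring
    rw [hNK]
    have h6 : (((2 * J : ℕ) : ℝ)) ^ 2 + (K : ℝ) ^ 2 ≤ J * (6 * J) := by
      push_cast
      have : (K : ℝ) ^ 2 ≤ (J : ℝ) ^ 2 := pow_le_pow_left₀ (by positivity) hKJ 2
      nlinarith
    calc ((((2 * J : ℕ) : ℝ)) ^ 2 + (K : ℝ) ^ 2) * A ≤ (J * (6 * J)) * A :=
          mul_le_mul_of_nonneg_right h6 hA0
      _ = _ := by ring
  exact le_of_mul_le_mul_left h5 hJ0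

lemma ls_general {ι : Type*} [DecidableEq ι] (R : Finset ι) (ξ : ι → ℝ) (K N : ℕ) (hK : 1 ≤ K)
    (hsep : ∀ r ∈ R, ∀ s ∈ R, r ≠ s → lsSep K (ξ s - ξ r)) (α : ℕ → ℂ) :
    ∑ r ∈ R, ‖∑ n ∈ Icc 1 N, α n * ee (n * ξ r)‖ ^ 2 ≤
      6 * ((N : ℝ) + K) * ∑ n ∈ Icc 1 N, ‖α n‖ ^ 2 := by
  set T : ι → ℂ := fun r => ∑ n ∈ Icc 1 N, α n * ee (n * ξ r) with hT
  set X := ∑ r ∈ R, ‖T r‖ ^ 2 with hX
  set A := ∑ n ∈ Icc 1 N, ‖α n‖ ^ 2 with hA
  have hX0 : 0 ≤ X := by positivity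
  have hA0 : 0 ≤ A := by positivity
  have hd := ls_dual R ξ K N hK hsep (fun r => (starRingEnd ℂ) (T r))
  have hTT : ∑ r ∈ R, ‖(starRingEnd ℂ) (T r)‖ ^ 2 = X := by
    rw [hX]
    exact Finset.sum_congr rfl fun r _ => by rw [RCLike.norm_conj]
  rw [hTT] at hd
  have h1 : (X : ℂ) = ∑ n ∈ Icc 1 N, α n * ∑ r ∈ R, (starRingEnd ℂ) (T r) * ee (n * ξ r) := by
    rw [hX]
    push_cast
    have : ∀ r ∈ R, ((‖T r‖ : ℂ)) ^ 2 = ∑ n ∈ Icc 1 N,
        α n * ((starRingEnd ℂ) (T r) * ee (n * ξ r)) := by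
      intro r _
      rw [← Complex.mul_conj']
      conv_lhs => rw [hT]
      simp only
      rw [Finset.sum_mul]
      refine Finset.sum_congr rfl fun n _ => ?_
      ring
    rw [Finset.sum_congr rfl this, Finset.sum_comm]
    refine Finset.sum_congr rfl fun n _ => ?_
    rw [Finset.mul_sum]
  have h2 : X ≤ ∑ n ∈ Icc 1 N, ‖α n‖ * ‖∑ r ∈ R, (starRingEnd ℂ) (T r) * ee (n * ξ r)‖ := by
    have h3 : X = ‖(X : ℂ)‖ := by
      rw [Complex.norm_real, Real.norm_eq_abs, abs_of_nonneg hX0]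
    rw [h3, h1]
    refine le_trans (norm_sum_le _ _) (le_of_eq ?_)
    exact Finset.sum_congr rfl fun n _ => norm_mul _ _
  have h4 := Finset.sum_mul_sq_le_sq_mul_sq (Icc 1 N) (fun n => ‖α n‖)
    (fun n => ‖∑ r ∈ R, (starRingEnd ℂ) (T r) * ee (n * ξ r)‖)
  have h5 : X ^ 2 ≤ A * (6 * ((N : ℝ) + K) * X) := by
    calc X ^ 2 ≤ (∑ n ∈ Icc 1 N, ‖α n‖ *
          ‖∑ r ∈ R, (starRingEnd ℂ) (T r) * ee (n * ξ r)‖) ^ 2 := pow_le_pow_left₀ hX0 h2 2
      _ ≤ _ := h4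
      _ ≤ _ := mul_le_mul_of_nonneg_left hd hA0
  rcases hX0.eq_or_lt with h6 | h6
  · rw [← h6]
    positivity
  · have h7 : X * X ≤ X * (6 * ((N : ℝ) + K) * A) := by nlinarith
    exact le_of_mul_le_mul_left h7 h6

lemma ls_sep_of_int (F f f' : ℕ) (hf : 1 ≤ f) (hf' : 1 ≤ f') (hfF : f ≤ F) (hfF' : f' ≤ F)
    (a a' : ℕ) (ha : a < f) (ha' : a' < f') (hc : a.Coprime f) (hc' : a'.Coprime f')
    (hne : ¬ (f = f' ∧ a = a')) : lsSep (F ^ 2) ((a' : ℝ) / f' - (a : ℝ) / f) := by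
  have hfR : (0 : ℝ) < f := by exact_mod_cast hf
  have hfR' : (0 : ℝ) < f' := by exact_mod_cast hf'
  have e1 : (a' : ℝ) / f' - (a : ℝ) / f =
      (((a' * f - a * f' : ℤ)) : ℝ) / ((f * f' : ℕ) : ℝ) := by
    push_cast
    field_simp
  have hd0 : 0 < f * f' := Nat.mul_pos hf hf'
  set m : ℤ := (a' : ℤ) * f - a * f' with hm
  have hmod0 : m % ((f * f' : ℕ) : ℤ) ≠ 0 := by
    intro h
    have hdvd : ((f * f' : ℕ) : ℤ) ∣ m := Int.dvd_of_emod_eq_zero h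
    have h1 : (f : ℤ) ∣ m := Dvd.dvd.trans ⟨f', by push_cast; ring⟩ hdvd
    have h2 : (f' : ℤ) ∣ m := Dvd.dvd.trans ⟨f, by push_cast; ring⟩ hdvd
    have h3 : (f : ℤ) ∣ a * f' := by
      have : (a : ℤ) * f' = a' * f - m := by rw [hm]; ring
      rw [this]
      exact dvd_sub (Dvd.intro_left _ rfl) h1
    have h4 : (f' : ℤ) ∣ a' * f := by
      have : (a' : ℤ) * f = a * f' + m := by rw [hm]; ring
      rw [this]
      exact dvd_add (Dvd.intro_left _ rfl) h2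
    have h5 : f ∣ a * f' := by exact_mod_cast h3
    have h6 : f' ∣ a' * f := by exact_mod_cast h4
    have h7 : f ∣ f' := (Nat.Coprime.dvd_of_dvd_mul_left hc.symm h5)
    have h8 : f' ∣ f := (Nat.Coprime.dvd_of_dvd_mul_left hc'.symm h6)
    have h9 : f = f' := Nat.dvd_antisymm h7 h8
    subst h9
    have h10 : ((f * f : ℕ) : ℤ) ∣ ((a' : ℤ) - a) * f := by
      have : ((a' : ℤ) - a) * f = m := by rw [hm]; ring
      rw [this]
      exact hdvd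
    have h11 : (f : ℤ) ∣ (a' : ℤ) - a := by
      obtain ⟨k, hk⟩ := h10
      refine ⟨k, ?_⟩
      have hf0 : (f : ℤ) ≠ 0 := by positivity
      apply mul_right_cancel₀ hf0
      rw [hk]
      push_cast
      ring
    have h12 : (a' : ℤ) - a = 0 := by
      apply Int.eq_zero_of_abs_lt_dvd h11
      rw [abs_lt]
      constructor <;> omega
    exact hne ⟨rfl, by omega⟩
  have hnn : 0 ≤ m % ((f * f' : ℕ) : ℤ) := Int.emod_nonneg _ (by positivity)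
  have hlt : m % ((f * f' : ℕ) : ℤ) < ((f * f' : ℕ) : ℤ) := Int.emod_lt_of_pos _ (by exact_mod_cast hd0)
  have hge1 : 1 ≤ m % ((f * f' : ℕ) : ℤ) := by omega
  have hle1 : m % ((f * f' : ℕ) : ℤ) ≤ ((f * f' : ℕ) : ℤ) - 1 := by omega
  have hdR : (0 : ℝ) < ((f * f' : ℕ) : ℝ) := by exact_mod_cast hd0
  have hFF : ((f * f' : ℕ) : ℝ) ≤ ((F ^ 2 : ℕ) : ℝ) := by
    have : f * f' ≤ F ^ 2 := by
      rw [pow_two]
      exact Nat.mul_le_mul hfF hfF'
    exact_mod_cast this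
  have hFR : (0 : ℝ) < ((F ^ 2 : ℕ) : ℝ) := lt_of_lt_of_le hdR hFF
  have hinv : 1 / ((F ^ 2 : ℕ) : ℝ) ≤ 1 / ((f * f' : ℕ) : ℝ) :=
    one_div_le_one_div_of_le hdR hFF
  have e2 : Int.fract ((a' : ℝ) / f' - (a : ℝ) / f) =
      ((m % ((f * f' : ℕ) : ℤ) : ℤ) : ℝ) / ((f * f' : ℕ) : ℝ) := by
    rw [e1]
    exact Int.fract_div_intCast_eq_div_intCast_mod
  unfold lsSep
  rw [e2]
  constructor
  · refine le_trans hinv ?_
    rw [div_le_div_iff_of_pos_right hdR]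
    exact_mod_cast hge1
  · have h1 : ((m % ((f * f' : ℕ) : ℤ) : ℤ) : ℝ) ≤ ((f * f' : ℕ) : ℝ) - 1 := by
      have : ((m % ((f * f' : ℕ) : ℤ) : ℤ) : ℝ) ≤ ((((f * f' : ℕ) : ℤ) - 1 : ℤ) : ℝ) := by
        exact_mod_cast hle1
      refine le_trans this (le_of_eq ?_)
      push_cast
      ring
    have h2 : ((m % ((f * f' : ℕ) : ℤ) : ℤ) : ℝ) / ((f * f' : ℕ) : ℝ) ≤
        (((f * f' : ℕ) : ℝ) - 1) / ((f * f' : ℕ) : ℝ) := by
      rw [div_le_div_iff_of_pos_right hdR]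
      exact h1
    have h3 : (((f * f' : ℕ) : ℝ) - 1) / ((f * f' : ℕ) : ℝ) = 1 - 1 / ((f * f' : ℕ) : ℝ) := by
      rw [sub_div, div_self hdR.ne']
    linarith

/-- T1. additive large sieve for Farey fractions -/
theorem additive_large_sieve (N F : ℕ) (α : ℕ → ℂ) :
    ∑ f ∈ Icc 1 F, ∑ a ∈ (range f).filter (fun a => a.Coprime f),
      ‖∑ n ∈ Icc 1 N, α n * ee (n * a / f)‖ ^ 2
      ≤ 6 * (N + (F : ℝ) ^ 2) * ∑ n ∈ Icc 1 N, ‖α n‖ ^ 2 := by
  rcases Nat.eq_zero_or_pos F with hF | hF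
  · subst hF
    simp only [Icc_eq_empty_of_lt (show (0 : ℕ) < 1 by norm_num), Finset.sum_empty]
    positivity
  set R : Finset (Σ _ : ℕ, ℕ) :=
    (Icc 1 F).sigma (fun f => (range f).filter (fun a => a.Coprime f)) with hR
  set ξ : (Σ _ : ℕ, ℕ) → ℝ := fun r => (r.2 : ℝ) / r.1 with hξ
  have hsep : ∀ r ∈ R, ∀ s ∈ R, r ≠ s → lsSep (F ^ 2) (ξ s - ξ r) := by
    rintro ⟨f, a⟩ hr ⟨f', a'⟩ hs hne
    simp only [hR, mem_sigma, mem_Icc, mem_filter, mem_range] at hr hs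
    refine ls_sep_of_int F f f' hr.1.1 hs.1.1 hr.1.2 hs.1.2 a a' hr.2.1 hs.2.1 hr.2.2 hs.2.2 ?_
    rintro ⟨h1, h2⟩
    subst h1
    subst h2
    exact hne rfl
  have hmain := ls_general R ξ (F ^ 2) N (Nat.one_le_pow _ _ hF) hsep α
  rw [hR, Finset.sum_sigma] at hmain
  push_cast at hmain
  refine le_trans (le_of_eq ?_) hmain
  refine Finset.sum_congr rfl fun f _ => Finset.sum_congr rfl fun a _ => ?_
  congr 2
  refine Finset.sum_congr rfl fun n _ => ?_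
  simp only [hξ]
  rw [mul_div_assoc]

end Pool.Agent.H52

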