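import Mathlib
import Pool.Agent.H52.MLS

open Finset

namespace Pool.Agent.H52

namespace PVL

theorem sum_range_eq (q : ℕ) [NeZero q] (g : ZMod q → ℂ) :
    ∑ b ∈ range q, g (b : ZMod q) = ∑ a : ZMod q, g a := by
  apply sum_bij (fun (b : ℕ) _ => (b : ZMod q))
  · intro b _; exact mem_univ _
  · intro a ha b hb hab
    rw [mem_range] at ha hb
    have := congrArg ZMod.val hab
    rwa [ZMod.val_natCast, ZMod.val_natCast, Nat.mod_eq_of_lt ha, Nat.mod_eq_of_lt hb] at this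
  · intro b _
    exact ⟨b.val, mem_range.mpr (ZMod.val_lt b), by simp⟩
  · intro a _; rfl

theorem coprime_indicator (a m : ℕ) (hm : 1 ≤ m) : (if a.Coprime m then (1 : ℂ) else 0) =
    ∑ d ∈ m.divisors.filter (fun d => d ∣ a), ((ArithmeticFunction.moebius d : ℤ) : ℂ) := by
  have h0 : Nat.gcd a m ≠ 0 := Nat.gcd_ne_zero_right (by omega)
  have h1 : m.divisors.filter (fun d => d ∣ a) = (Nat.gcd a m).divisors := by
    ext d
    simp only [mem_filter, Nat.mem_divisors]
    constructor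
    · rintro ⟨⟨h2, h3⟩, h4⟩
      exact ⟨Nat.dvd_gcd h4 h2, h0⟩
    · rintro ⟨h2, h3⟩
      exact ⟨⟨h2.trans (Nat.gcd_dvd_right a m), by omega⟩, h2.trans (Nat.gcd_dvd_left a m)⟩
  have h := congrArg (fun f : ArithmeticFunction ℤ => f (Nat.gcd a m)) ArithmeticFunction.moebius_mul_coe_zeta
  simp only [ArithmeticFunction.one_apply] at h
  rw [ArithmeticFunction.coe_mul_zeta_apply] at h
  rw [h1, ← Int.cast_sum, h]
  unfold Nat.Coprime
  split_ifs <;> simp

theorem lsD_le (M : ℕ) (t : ℝ) (h0 : 0 < t) (h1 : t < 1) :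
    ‖lsD M t‖ ≤ 1 / (2 * t) + 1 / (2 * (1 - t)) := by
  have hb := lsD_bound_sin M t h0 h1
  have hn : 0 ≤ ‖lsD M t‖ := norm_nonneg _
  have hpos : 0 < Real.pi := Real.pi_pos
  have h1t : 0 < 1 - t := by linarith
  rcases le_total t (1 / 2) with h | h
  · have hs : 2 * t ≤ Real.sin (Real.pi * t) := by
      have := Real.mul_le_sin (x := Real.pi * t) (by positivity) (by nlinarith)
      have e : 2 / Real.pi * (Real.pi * t) = 2 * t := by field_simp
      linarith
    have h3 : ‖lsD M t‖ * (2 * t) ≤ 1 :=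
      le_trans (mul_le_mul_of_nonneg_left hs hn) hb
    have h4 : ‖lsD M t‖ ≤ 1 / (2 * t) := by
      rw [le_div_iff₀ (by positivity)]
      exact h3
    have h5 : 0 ≤ 1 / (2 * (1 - t)) := by positivity
    linarith
  · have hs : 2 * (1 - t) ≤ Real.sin (Real.pi * t) := by
      have := Real.mul_le_sin (x := Real.pi * (1 - t))
        (mul_nonneg hpos.le (by linarith)) (by nlinarith)
      have e : 2 / Real.pi * (Real.pi * (1 - t)) = 2 * (1 - t) := by field_simp
      have e2 : Real.sin (Real.pi * (1 - t)) = Real.sin (Real.pi * t) := by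
        rw [show Real.pi * (1 - t) = Real.pi - Real.pi * t by ring, Real.sin_pi_sub]
      linarith
    have h3 : ‖lsD M t‖ * (2 * (1 - t)) ≤ 1 :=
      le_trans (mul_le_mul_of_nonneg_left hs hn) hb
    have h4 : ‖lsD M t‖ ≤ 1 / (2 * (1 - t)) := by
      rw [le_div_iff₀ (by positivity)]
      exact h3
    have h5 : 0 ≤ 1 / (2 * t) := by positivity
    linarith

/-- geometric sum over `Icc 1 N` -/
theorem geom_le (N q b : ℕ) (hb : 1 ≤ b) (hbq : b < q) :
    ‖∑ n ∈ Icc 1 N, ee (n * ((b : ℝ) / q))‖ ≤ (q : ℝ) / 2 * (1 / b + 1 / ((q - b : ℕ) : ℝ)) := by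
  have hq0 : (0 : ℝ) < q := by
    have : 0 < q := by omega
    exact_mod_cast this
  have hb0 : (0 : ℝ) < b := by exact_mod_cast hb
  have hbq' : (b : ℝ) < q := by exact_mod_cast hbq
  have h0 : 0 < (b : ℝ) / q := by positivity
  have h1 : (b : ℝ) / q < 1 := (div_lt_one hq0).mpr hbq'
  have h2 := lsD_le N ((b : ℝ) / q) h0 h1
  have h3 : ∑ n ∈ Icc 1 N, ee (n * ((b : ℝ) / q)) = ee ((b : ℝ) / q) * lsD N ((b : ℝ) / q) := by
    unfold lsD
    rw [mul_sum]
    have : Icc 1 N = (range N).image (fun i => i + 1) := by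
      ext x
      simp only [mem_Icc, mem_image, mem_range]
      constructor
      · rintro ⟨h1, h2⟩; exact ⟨x - 1, by omega, by omega⟩
      · rintro ⟨a, h1, rfl⟩; omega
    rw [this, sum_image (by intro a _ b _ h; simpa using h)]
    apply sum_congr rfl
    intro i _
    rw [← ls_ee_add]
    congr 1
    push_cast
    ring
  rw [h3, norm_mul, ls_norm_ee, one_mul]
  refine h2.trans (le_of_eq ?_)
  have hsub : (((q - b : ℕ)) : ℝ) = q - b := by
    rw [Nat.cast_sub hbq.le]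
  rw [hsub]
  have h4 : (q : ℝ) - b ≠ 0 := by linarith
  have h5 : 1 - (b : ℝ) / q = ((q : ℝ) - b) / q := by field_simp
  rw [h5]
  field_simp

theorem harmonic_le (n : ℕ) (_hn : 1 ≤ n) : ∑ b ∈ Ico 1 n, 1 / (b : ℝ) ≤ 1 + Real.log n := by
  have h := harmonic_le_one_add_log n
  have h1 : ∑ b ∈ Ico 1 n, 1 / (b : ℝ) ≤ (harmonic n : ℝ) := by
    rw [harmonic_eq_sum_Icc]
    push_cast
    have : ∀ b ∈ Ico 1 n, 1 / (b : ℝ) = ((b : ℝ))⁻¹ := fun b _ => one_div _
    rw [sum_congr rfl this]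
    apply sum_le_sum_of_subset_of_nonneg
    · intro b hb
      rw [mem_Ico] at hb
      rw [mem_Icc]
      omega
    · intro b _ _
      positivity
  exact h1.trans h

theorem sum_reflect (q : ℕ) (_hq : 1 ≤ q) :
    ∑ b ∈ Ico 1 q, 1 / ((q - b : ℕ) : ℝ) = ∑ b ∈ Ico 1 q, 1 / (b : ℝ) := by
  apply sum_bij (fun (b : ℕ) _ => q - b)
  · intro b hb; rw [mem_Ico] at hb ⊢; omega
  · intro a ha b hb h; rw [mem_Ico] at ha hb; omega
  · intro b hb; rw [mem_Ico] at hb; exact ⟨q - b, by rw [mem_Ico]; omega, by omega⟩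
  · intro b _; rfl

/-- Pólya–Vinogradov for a primitive character, plain sums -/
theorem PV_plain (q N : ℕ) (hq : 2 ≤ q) (χ : DirichletCharacter ℂ q) (hχ : χ.IsPrimitive) :
    ‖∑ a ∈ Icc 1 N, χ (a : ZMod q)‖ ≤ Real.sqrt q * (1 + Real.log q) := by
  have : NeZero q := ⟨by omega⟩
  have hinv : (χ⁻¹).IsPrimitive := by
    rw [DirichletCharacter.isPrimitive_def, DirichletCharacter.conductor_inv]
    exact hχ
  have h1 := MLS.sum_char_T q N (fun _ => 1) hχ
  simp only [one_mul] at h1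
  have hgn : ‖gaussSum χ⁻¹ (ZMod.stdAddChar : AddChar (ZMod q) ℂ)‖ = Real.sqrt q := by
    rw [← MLS.norm_gauss q hinv, Real.sqrt_sq (norm_nonneg _)]
  have hq0 : (0 : ℝ) < q := by
    have : 0 < q := by omega
    exact_mod_cast this
  have hsq : 0 < Real.sqrt q := Real.sqrt_pos.mpr hq0
  -- bound of the left side
  have h2 : ‖∑ a : ZMod q, χ⁻¹ a * MLS.T q N (fun _ => 1) a‖ ≤ q * (1 + Real.log q) := by
    rw [← sum_range_eq q (fun a => χ⁻¹ a * MLS.T q N (fun _ => 1) a)]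
    have h3 : range q = insert 0 (Ico 1 q) := by
      ext x
      simp only [mem_range, mem_insert, mem_Ico]
      omega
    rw [h3, sum_insert (by simp)]
    have h4 : χ⁻¹ ((0 : ℕ) : ZMod q) = 0 := by
      have : Fact (1 < q) := ⟨by omega⟩
      push_cast
      exact MulChar.map_zero _
    rw [h4, zero_mul, zero_add]
    refine (norm_sum_le _ _).trans ?_
    have h5 : ∀ b ∈ Ico 1 q, ‖χ⁻¹ (b : ZMod q) * MLS.T q N (fun _ => 1) (b : ZMod q)‖ ≤
        (q : ℝ) / 2 * (1 / b + 1 / ((q - b : ℕ) : ℝ)) := by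
      intro b hb
      rw [mem_Ico] at hb
      rw [norm_mul]
      have h6 : MLS.T q N (fun _ => 1) (b : ZMod q) = ∑ n ∈ Icc 1 N, ee (n * ((b : ℝ) / q)) := by
        rw [MLS.T_eq]
        apply sum_congr rfl
        intro n _
        rw [one_mul]
        congr 1
        ring
      rw [h6]
      calc _ ≤ 1 * ‖∑ n ∈ Icc 1 N, ee (n * ((b : ℝ) / q))‖ := by
            gcongr
            exact DirichletCharacter.norm_le_one _ _
        _ ≤ _ := by rw [one_mul]; exact geom_le N q b hb.1 hb.2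
    refine (sum_le_sum h5).trans ?_
    rw [← mul_sum, sum_add_distrib, sum_reflect q (by omega)]
    have h7 := harmonic_le q (by omega)
    nlinarith
  rw [h1, norm_mul, hgn] at h2
  have h8 : (q : ℝ) * (1 + Real.log q) = (Real.sqrt q * (1 + Real.log q)) * Real.sqrt q := by
    have := Real.mul_self_sqrt hq0.le
    linear_combination (-(1 + Real.log q)) * this
  rw [h8] at h2
  exact le_of_mul_le_mul_right h2 hsq

theorem sum_multiples_Icc (d N : ℕ) (hd : 1 ≤ d) (g : ℕ → ℂ) :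
    ∑ b ∈ (Icc 1 N).filter (fun b => d ∣ b), g b = ∑ b ∈ Icc 1 (N / d), g (d * b) := by
  symm
  apply sum_bij (fun (b : ℕ) _ => d * b)
  · intro b hb
    rw [mem_Icc] at hb
    rw [mem_filter, mem_Icc]
    refine ⟨⟨Nat.mul_pos hd hb.1, ?_⟩, dvd_mul_right _ _⟩
    calc d * b ≤ d * (N / d) := Nat.mul_le_mul_left _ hb.2
      _ ≤ N := Nat.mul_div_le N d
  · intro a _ b _ hab
    exact Nat.eq_of_mul_eq_mul_left (by omega) hab
  · intro b hb
    rw [mem_filter, mem_Icc] at hb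
    obtain ⟨c, rfl⟩ := hb.2
    refine ⟨c, mem_Icc.mpr ⟨Nat.pos_of_mul_pos_left hb.1.1, ?_⟩, rfl⟩
    rw [Nat.le_div_iff_mul_le (by omega)]
    linarith [hb.1.2, mul_comm d c]
  · intro b _; rfl



theorem PV (q m N : ℕ) (hq : 2 ≤ q) (hm : 1 ≤ m) (χ : DirichletCharacter ℂ q)
    (hχ : χ.IsPrimitive) :
    ‖∑ a ∈ (Icc 1 N).filter (fun a => a.Coprime m), χ (a : ZMod q)‖ ≤
      m.divisors.card * (2 * Real.sqrt q * (1 + Real.log q)) := by
  have h1 : ∑ a ∈ (Icc 1 N).filter (fun a => a.Coprime m), χ (a : ZMod q) =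
      ∑ d ∈ m.divisors, ((ArithmeticFunction.moebius d : ℤ) : ℂ) *
        (χ (d : ZMod q) * ∑ b ∈ Icc 1 (N / d), χ (b : ZMod q)) := by
    have h2 : ∑ a ∈ (Icc 1 N).filter (fun a => a.Coprime m), χ (a : ZMod q) =
        ∑ a ∈ Icc 1 N, (if a.Coprime m then (1 : ℂ) else 0) * χ (a : ZMod q) := by
      rw [sum_filter]
      apply sum_congr rfl
      intro a _
      split_ifs <;> simp
    rw [h2]
    simp_rw [coprime_indicator _ m hm]
    have h3 : ∀ a ∈ Icc 1 N, (∑ d ∈ m.divisors.filter (fun d => d ∣ a),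
        ((ArithmeticFunction.moebius d : ℤ) : ℂ)) * χ (a : ZMod q) =
        ∑ d ∈ m.divisors, if d ∣ a then ((ArithmeticFunction.moebius d : ℤ) : ℂ) *
          χ (a : ZMod q) else 0 := by
      intro a _
      rw [sum_mul, sum_filter]
    rw [sum_congr rfl h3, sum_comm]
    apply sum_congr rfl
    intro d hd
    have hd1 : 1 ≤ d := Nat.pos_of_mem_divisors hd
    rw [← sum_filter, ← mul_sum, sum_multiples_Icc d N hd1]
    congr 1
    rw [mul_sum]
    apply sum_congr rfl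
    intro b _
    push_cast
    rw [map_mul]
  rw [h1]
  refine (norm_sum_le _ _).trans ?_
  have hlog : 0 ≤ Real.log q := Real.log_natCast_nonneg q
  have h4 : ∀ d ∈ m.divisors, ‖((ArithmeticFunction.moebius d : ℤ) : ℂ) *
      (χ (d : ZMod q) * ∑ b ∈ Icc 1 (N / d), χ (b : ZMod q))‖ ≤
      2 * Real.sqrt q * (1 + Real.log q) := by
    intro d _
    rw [norm_mul, norm_mul]
    have h2 : ‖((ArithmeticFunction.moebius d : ℤ) : ℂ)‖ ≤ 1 := by
      rw [Complex.norm_intCast]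
      exact_mod_cast ArithmeticFunction.abs_moebius_le_one
    have h3 : ‖χ (d : ZMod q)‖ ≤ 1 := DirichletCharacter.norm_le_one _ _
    have h5 := PV_plain q (N / d) hq χ hχ
    have h6 : 0 ≤ Real.sqrt q * (1 + Real.log q) := by positivity
    calc _ ≤ 1 * (1 * (Real.sqrt q * (1 + Real.log q))) := by gcongr
      _ ≤ _ := by nlinarith
  calc _ ≤ ∑ d ∈ m.divisors, 2 * Real.sqrt q * (1 + Real.log q) := sum_le_sum h4
    _ = _ := by rw [sum_const, nsmul_eq_mul]



end PVL

end Pool.Agent.H52
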