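import Mathlib
import Pool.Agent.H52.BLB
import Pool.Agent.H52.PV

/-!
Bilinear character sums with a sharp cut-off.
-/

set_option autoImplicit false

open Finset

namespace Pool.Agent.H52

open Classical BLB

/-- the sum with a cut-off -/
noncomputable def CutS (a b : ℕ → ℝ) (X : ℕ) (z : ℕ → ℕ) (f : ℕ) (ψ : DirichletCharacter ℂ f) : ℂ :=
  ∑ m ∈ Icc 1 X, ((a m : ℂ) * ψ (m : ZMod f)) * ∑ k ∈ Icc 1 (z m), (b k : ℂ) * ψ (k : ZMod f)

/-- pieces of the first sequence -/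
noncomputable def pa (a : ℕ → ℝ) (z : ℕ → ℕ) (i w m : ℕ) : ℝ := if z m / 2 ^ i = w then a m else 0

/-- pieces of the second sequence -/
noncomputable def pb (b : ℕ → ℝ) (i w k : ℕ) : ℝ :=
  if (w / 2) * 2 ^ (i + 1) < k ∧ k ≤ w * 2 ^ i then b k else 0

lemma tele (Y z L : ℕ) (hz : z ≤ Y) (h : ℕ → ℂ) :
    ∑ k ∈ Icc 1 z, h k = ∑ i ∈ range L, (∑ k ∈ Icc 1 Y, if ((z / 2 ^ i) / 2) * 2 ^ (i + 1) < k ∧
      k ≤ (z / 2 ^ i) * 2 ^ i then h k else 0) + ∑ k ∈ Icc 1 ((z / 2 ^ L) * 2 ^ L), h k := by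
  induction L with
  | zero => simp
  | succ n ih =>
    rw [sum_range_succ, add_assoc, ih]
    congr 1
    have h1 : (z / 2 ^ n) / 2 * 2 ^ (n + 1) = (z / 2 ^ (n + 1)) * 2 ^ (n + 1) := by
      rw [Nat.div_div_eq_div_mul, pow_succ]
    rw [h1]
    have h2 : (z / 2 ^ (n + 1)) * 2 ^ (n + 1) ≤ (z / 2 ^ n) * 2 ^ n := by
      rw [← h1, pow_succ]
      have : (z / 2 ^ n) / 2 * 2 ≤ z / 2 ^ n := Nat.div_mul_le_self _ _
      calc (z / 2 ^ n) / 2 * (2 ^ n * 2) = ((z / 2 ^ n) / 2 * 2) * 2 ^ n := by ring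
        _ ≤ _ := Nat.mul_le_mul_right _ this
    have h3 : (z / 2 ^ n) * 2 ^ n ≤ z := Nat.div_mul_le_self _ _
    rw [← sum_filter]
    have h4 : (Icc 1 Y).filter (fun k => (z / 2 ^ (n + 1)) * 2 ^ (n + 1) < k ∧ k ≤ (z / 2 ^ n) * 2 ^ n) =
        Ioc ((z / 2 ^ (n + 1)) * 2 ^ (n + 1)) ((z / 2 ^ n) * 2 ^ n) := by
      ext k
      simp only [mem_filter, mem_Icc, mem_Ioc]
      constructor
      · rintro ⟨_, h5⟩
        exact h5
      · rintro ⟨h5, h6⟩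
        exact ⟨⟨by omega, by omega⟩, h5, h6⟩
    rw [h4]
    have h5 : ∀ n : ℕ, Icc 1 n = Ioc 0 n := by
      intro n
      ext k
      simp only [mem_Icc, mem_Ioc]
      omega
    rw [h5, h5, add_comm, sum_Ioc_consecutive _ (Nat.zero_le _) h2]

lemma cut_decomp (a b : ℕ → ℝ) (X Y L : ℕ) (z : ℕ → ℕ) (hz : ∀ m, z m ≤ Y) (hL : Y < 2 ^ L) (f : ℕ)
    (ψ : DirichletCharacter ℂ f) :
    CutS a b X z f ψ = ∑ i ∈ range L, ∑ w ∈ range (Y + 1),
      A X (pa a z i w) f ψ * A Y (pb b i w) f ψ := by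
  unfold CutS
  have h1 : ∀ m ∈ Icc 1 X, ((a m : ℂ) * ψ (m : ZMod f)) * ∑ k ∈ Icc 1 (z m), (b k : ℂ) * ψ (k : ZMod f) =
      ∑ i ∈ range L, ∑ w ∈ range (Y + 1), ((pa a z i w m : ℝ) * ψ (m : ZMod f)) *
        ∑ k ∈ Icc 1 Y, ((pb b i w k : ℝ) : ℂ) * ψ (k : ZMod f) := by
    intro m _
    rw [tele Y (z m) L (hz m)]
    have h2 : z m / 2 ^ L = 0 := Nat.div_eq_of_lt (lt_of_le_of_lt (hz m) hL)
    rw [h2]
    simp only [zero_mul, Icc_eq_empty (show ¬ (1 ≤ 0) by norm_num), sum_empty, add_zero]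
    rw [mul_sum]
    apply sum_congr rfl
    intro i _
    have h3 : z m / 2 ^ i ∈ range (Y + 1) := by
      rw [mem_range]
      have := Nat.div_le_self (z m) (2 ^ i)
      have := hz m
      omega
    rw [sum_eq_single_of_mem (z m / 2 ^ i) h3]
    · unfold pa pb
      rw [if_pos rfl]
      congr 1
      apply sum_congr rfl
      intro k _
      split_ifs <;> simp
    · intro w _ hw
      unfold pa
      rw [if_neg (fun h => hw h.symm)]
      simp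
  rw [sum_congr rfl h1, sum_comm]
  apply sum_congr rfl
  intro i _
  rw [sum_comm]
  apply sum_congr rfl
  intro w _
  unfold A
  rw [sum_mul]

lemma pa_sq (a : ℕ → ℝ) (X Y : ℕ) (z : ℕ → ℕ) (i : ℕ) :
    ∑ w ∈ range (Y + 1), ∑ m ∈ Icc 1 X, pa a z i w m ^ 2 ≤ ∑ m ∈ Icc 1 X, a m ^ 2 := by
  rw [sum_comm]
  apply sum_le_sum
  intro m _
  have h : ∀ w ∈ range (Y + 1), pa a z i w m ^ 2 = if z m / 2 ^ i = w then a m ^ 2 else 0 := by
    intro w _
    unfold pa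
    split_ifs <;> simp
  rw [sum_congr rfl h, sum_ite_eq]
  split_ifs
  · exact le_refl _
  · positivity

lemma pb_sq (b : ℕ → ℝ) (Y : ℕ) (i : ℕ) :
    ∑ w ∈ range (Y + 1), ∑ k ∈ Icc 1 Y, pb b i w k ^ 2 ≤ ∑ k ∈ Icc 1 Y, b k ^ 2 := by
  rw [sum_comm]
  apply sum_le_sum
  intro k _
  have h : ∀ w ∈ range (Y + 1), pb b i w k ^ 2 ≤ if 2 * ((k - 1) / 2 ^ (i + 1)) + 1 = w then b k ^ 2 else 0 := by
    intro w _
    unfold pb
    by_cases hc : (w / 2) * 2 ^ (i + 1) < k ∧ k ≤ w * 2 ^ i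
    · rw [if_pos hc]
      obtain ⟨h1, h2⟩ := hc
      have hP : 0 < 2 ^ (i + 1) := by positivity
      have e1 : (k - 1) / 2 ^ (i + 1) = w / 2 := by
        apply Nat.div_eq_of_lt_le
        · omega
        · have h3 : w ≤ 2 * (w / 2) + 1 := by omega
          have h4 : w * 2 ^ i ≤ (2 * (w / 2) + 1) * 2 ^ i := Nat.mul_le_mul_right _ h3
          have h5 : (2 * (w / 2) + 1) * 2 ^ i = w / 2 * 2 ^ (i + 1) + 2 ^ i := by ring
          have h6 : (w / 2 + 1) * 2 ^ (i + 1) = w / 2 * 2 ^ (i + 1) + 2 * 2 ^ i := by ring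
          have h7 : 0 < 2 ^ i := by positivity
          omega
      have e2 : 2 * (w / 2) + 1 = w := by
        by_contra hcon
        have h3 : w = 2 * (w / 2) := by omega
        have h4 : w * 2 ^ i = w / 2 * 2 ^ (i + 1) := by
          calc w * 2 ^ i = (2 * (w / 2)) * 2 ^ i := by rw [← h3]
            _ = _ := by ring
        omega
      rw [e1, if_pos e2]
    · rw [if_neg hc]
      simp only [ne_eq, OfNat.ofNat_ne_zero, not_false_eq_true, zero_pow]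
      split_ifs
      · positivity
      · exact le_refl _
  refine (sum_le_sum h).trans ?_
  rw [sum_ite_eq]
  split_ifs
  · exact le_refl _
  · positivity

/-- the large sieve for bilinear sums with a cut-off -/
theorem cut_sieve (a b : ℕ → ℝ) (X Y L : ℕ) (z : ℕ → ℕ) (hz : ∀ m, z m ≤ Y) (hL : Y < 2 ^ L) (F0 F1 : ℕ)
    (h0 : 1 ≤ F0) (h1 : 1 ≤ F1) :
    ∑ f ∈ Icc F0 F1, (1 / (Nat.totient f : ℝ)) *
      ∑ ψ ∈ (univ : Finset (DirichletCharacter ℂ f)).filter (fun χ => χ.IsPrimitive), ‖CutS a b X z f ψ‖ ≤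
      L * (12 * (1 + Real.log F1) * (Real.sqrt (X * Y) / F0 + (Real.sqrt X + Real.sqrt Y) + F1) *
        (Real.sqrt (∑ b ∈ Icc 1 X, a b ^ 2) * Real.sqrt (∑ c ∈ Icc 1 Y, b c ^ 2))) := by
  set K := 12 * (1 + Real.log F1) * (Real.sqrt (X * Y) / F0 + (Real.sqrt X + Real.sqrt Y) + F1) with hK
  have hlog : 0 ≤ Real.log F1 := Real.log_natCast_nonneg F1
  have hK0 : 0 ≤ K := by positivity
  have h2 : ∑ f ∈ Icc F0 F1, (1 / (Nat.totient f : ℝ)) *
      ∑ ψ ∈ (univ : Finset (DirichletCharacter ℂ f)).filter (fun χ => χ.IsPrimitive), ‖CutS a b X z f ψ‖ ≤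
      ∑ i ∈ range L, ∑ w ∈ range (Y + 1), ∑ f ∈ Icc F0 F1, (1 / (Nat.totient f : ℝ)) *
        P X Y (pa a z i w) (pb b i w) f := by
    have h3 : ∀ f ∈ Icc F0 F1, (1 / (Nat.totient f : ℝ)) *
        ∑ ψ ∈ (univ : Finset (DirichletCharacter ℂ f)).filter (fun χ => χ.IsPrimitive), ‖CutS a b X z f ψ‖ ≤
        ∑ i ∈ range L, ∑ w ∈ range (Y + 1), (1 / (Nat.totient f : ℝ)) * P X Y (pa a z i w) (pb b i w) f := by
      intro f _
      simp_rw [← mul_sum]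
      apply mul_le_mul_of_nonneg_left _ (by positivity)
      have h4 : ∀ ψ ∈ (univ : Finset (DirichletCharacter ℂ f)).filter (fun χ => χ.IsPrimitive),
          ‖CutS a b X z f ψ‖ ≤ ∑ i ∈ range L, ∑ w ∈ range (Y + 1),
            ‖A X (pa a z i w) f ψ‖ * ‖A Y (pb b i w) f ψ‖ := by
        intro ψ _
        rw [cut_decomp a b X Y L z hz hL f ψ]
        refine (norm_sum_le _ _).trans (sum_le_sum fun i _ => ?_)
        refine (norm_sum_le _ _).trans (sum_le_sum fun w _ => ?_)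
        rw [norm_mul]
      refine (sum_le_sum h4).trans (le_of_eq ?_)
      rw [sum_comm]
      apply sum_congr rfl
      intro i _
      rw [sum_comm]
      rfl
    refine (sum_le_sum h3).trans (le_of_eq ?_)
    rw [sum_comm]
    apply sum_congr rfl
    intro i _
    rw [sum_comm]
  refine h2.trans ?_
  have h5 : ∀ i ∈ range L, ∑ w ∈ range (Y + 1), ∑ f ∈ Icc F0 F1, (1 / (Nat.totient f : ℝ)) *
        P X Y (pa a z i w) (pb b i w) f ≤
      K * (Real.sqrt (∑ b ∈ Icc 1 X, a b ^ 2) * Real.sqrt (∑ c ∈ Icc 1 Y, b c ^ 2)) := by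
    intro i _
    have h6 : ∀ w ∈ range (Y + 1), ∑ f ∈ Icc F0 F1, (1 / (Nat.totient f : ℝ)) *
        P X Y (pa a z i w) (pb b i w) f ≤ K * (Real.sqrt (∑ m ∈ Icc 1 X, pa a z i w m ^ 2) *
          Real.sqrt (∑ k ∈ Icc 1 Y, pb b i w k ^ 2)) := by
      intro w _
      exact step45 X Y (pa a z i w) (pb b i w) F0 F1 h0 h1
    refine (sum_le_sum h6).trans ?_
    rw [← mul_sum]
    apply mul_le_mul_of_nonneg_left _ hK0
    refine (Real.sum_sqrt_mul_sqrt_le _ (fun w => sum_nonneg fun m _ => sq_nonneg _)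
      (fun w => sum_nonneg fun m _ => sq_nonneg _)).trans ?_
    apply mul_le_mul (Real.sqrt_le_sqrt (pa_sq a X Y z i)) (Real.sqrt_le_sqrt (pb_sq b Y i))
      (Real.sqrt_nonneg _) (Real.sqrt_nonneg _)
  refine (sum_le_sum h5).trans (le_of_eq ?_)
  rw [sum_const, card_range, nsmul_eq_mul]

end Pool.Agent.H52
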