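import Mathlib
import Pool.Agent.H52.EH1

/-!
Bilinear character sums over the region below a hyperbola.
-/

set_option autoImplicit false

open Finset

namespace Pool.Agent.H52

open Classical BLB

/-- the bilinear sum below a hyperbola -/
noncomputable def HypS (a b : ℕ → ℝ) (U M y : ℕ) (f : ℕ) (ψ : DirichletCharacter ℂ f) : ℂ :=
  ∑ m ∈ Ioc U M, ((a m : ℂ) * ψ (m : ZMod f)) * ∑ k ∈ Icc 1 (y / m), (b k : ℂ) * ψ (k : ZMod f)

lemma dyad {B : Type*} [AddCommMonoid B] (U M L : ℕ) (hM : M < 2 ^ L * U) (h : ℕ → B) :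
    ∑ m ∈ Ioc U M, h m = ∑ i ∈ range L, ∑ m ∈ Ioc (2 ^ i * U) (min (2 ^ (i + 1) * U) M), h m := by
  have key : ∀ L : ℕ, ∑ m ∈ Ioc U (min (2 ^ L * U) M), h m =
      ∑ i ∈ range L, ∑ m ∈ Ioc (2 ^ i * U) (min (2 ^ (i + 1) * U) M), h m := by
    intro L
    induction L with
    | zero =>
      simp only [pow_zero, one_mul, range_zero, sum_empty]
      rw [Ioc_eq_empty, sum_empty]
      omega
    | succ n ih =>
      rw [sum_range_succ, ← ih]
      have h1 : U ≤ 2 ^ n * U := Nat.le_mul_of_pos_left U (by positivity)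
      have h2 : 2 ^ (n + 1) * U = 2 * (2 ^ n * U) := by ring
      rcases le_or_gt (2 ^ n * U) M with h3 | h3
      · rw [min_eq_left h3, sum_Ioc_consecutive _ h1 (by rw [h2]; omega)]
      · rw [min_eq_right h3.le, min_eq_right (by rw [h2]; omega), Ioc_eq_empty (a := 2 ^ n * U) (by omega),
          sum_empty, add_zero]
  rw [← key L, min_eq_right hM.le]

theorem hyp_sieve (N U M y L : ℕ) (hU : 1 ≤ U) (hMN : M ≤ N) (hy : y ≤ N) (hL : N < 2 ^ L)
    (a b : ℕ → ℝ) (T : ℝ) (ha : ∀ m ∈ Icc 1 N, |a m| ≤ T) (hb : ∀ m ∈ Icc 1 N, |b m| ≤ T)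
    (hT : 0 ≤ T) (F0 F1 : ℕ) (h0 : 1 ≤ F0) (h1 : 1 ≤ F1) :
    ∑ f ∈ Icc F0 F1, (1 / (Nat.totient f : ℝ)) *
      ∑ ψ ∈ (univ : Finset (DirichletCharacter ℂ f)).filter (fun χ => χ.IsPrimitive), ‖HypS a b U M y f ψ‖ ≤
      L * (L * (24 * (1 + Real.log F1) * (Real.sqrt N / F0 + (Real.sqrt M + Real.sqrt (N / U)) + F1) *
        (Real.sqrt N * T ^ 2))) := by
  have hlog : 0 ≤ Real.log F1 := Real.log_natCast_nonneg F1
  have hM2 : M < 2 ^ L * U := lt_of_le_of_lt hMN (lt_of_lt_of_le hL (Nat.le_mul_of_pos_right _ hU))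
  -- the block sums
  set X : ℕ → ℕ := fun i => min (2 ^ (i + 1) * U) M with hX
  set Y : ℕ → ℕ := fun i => N / (2 ^ i * U) with hY
  set ai : ℕ → ℕ → ℝ := fun i m => if 2 ^ i * U < m then a m else 0 with hai
  set z : ℕ → ℕ → ℕ := fun i m => min (y / m) (Y i) with hz
  have hdec : ∀ (f : ℕ) (ψ : DirichletCharacter ℂ f), HypS a b U M y f ψ =
      ∑ i ∈ range L, CutS (ai i) b (X i) (z i) f ψ := by
    intro f ψ
    unfold HypS
    rw [dyad U M L hM2]
    apply sum_congr rfl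
    intro i _
    unfold CutS
    have hsub : Ioc (2 ^ i * U) (min (2 ^ (i + 1) * U) M) = (Icc 1 (X i)).filter (fun m => 2 ^ i * U < m) := by
      ext m
      simp only [mem_Ioc, mem_filter, mem_Icc, hX]
      constructor
      · rintro ⟨h3, h4⟩
        exact ⟨⟨by omega, h4⟩, h3⟩
      · rintro ⟨⟨_, h4⟩, h3⟩
        exact ⟨h3, h4⟩
    rw [hsub, sum_filter]
    apply sum_congr rfl
    intro m hm
    rw [hai]
    dsimp only
    split_ifs with h3
    · have h4 : y / m ≤ Y i := by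
        rw [hY]
        dsimp only
        calc y / m ≤ N / m := Nat.div_le_div_right hy
          _ ≤ N / (2 ^ i * U) := Nat.div_le_div_left h3.le (by positivity)
      have h5 : z i m = y / m := by
        rw [hz]
        exact min_eq_left h4
      rw [h5]
    · simp
  have hblock : ∀ i ∈ range L, ∑ f ∈ Icc F0 F1, (1 / (Nat.totient f : ℝ)) *
      ∑ ψ ∈ (univ : Finset (DirichletCharacter ℂ f)).filter (fun χ => χ.IsPrimitive),
        ‖CutS (ai i) b (X i) (z i) f ψ‖ ≤
      L * (24 * (1 + Real.log F1) * (Real.sqrt N / F0 + (Real.sqrt M + Real.sqrt (N / U)) + F1) *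
        (Real.sqrt N * T ^ 2)) := by
    intro i _
    have h3 := cut_sieve (ai i) b (X i) (Y i) L (z i) (fun m => min_le_right _ _)
      (lt_of_le_of_lt (Nat.div_le_self _ _) hL) F0 F1 h0 h1
    refine h3.trans ?_
    apply mul_le_mul_of_nonneg_left _ (by positivity)
    have hUR : (0 : ℝ) < U := by exact_mod_cast hU
    have hPU : (0 : ℝ) < 2 ^ i * U := by positivity
    have hX1 : (X i : ℝ) ≤ 2 ^ (i + 1) * U := by
      have : X i ≤ 2 ^ (i + 1) * U := min_le_left _ _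
      exact_mod_cast this
    have hXM : (X i : ℝ) ≤ M := by
      have : X i ≤ M := min_le_right _ _
      exact_mod_cast this
    have hXN : X i ≤ N := (min_le_right _ _).trans hMN
    have hYN : Y i ≤ N := Nat.div_le_self _ _
    have hY1 : (Y i : ℝ) ≤ N / (2 ^ i * U) := by
      have := @Nat.cast_div_le ℝ _ _ _ N (2 ^ i * U)
      push_cast at this
      exact this
    have hYU : (Y i : ℝ) ≤ N / U := by
      refine hY1.trans ?_
      apply div_le_div_of_nonneg_left (by positivity) hUR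
      have : (1 : ℝ) ≤ 2 ^ i := one_le_pow₀ (by norm_num)
      nlinarith
    have hXY : (X i : ℝ) * Y i ≤ 2 * N := by
      calc (X i : ℝ) * Y i ≤ (2 ^ (i + 1) * U) * (N / (2 ^ i * U)) := by gcongr
        _ = 2 * N := by field_simp; ring
    have hna : Real.sqrt (∑ m ∈ Icc 1 (X i), ai i m ^ 2) ≤ Real.sqrt (X i) * T := by
      rw [show Real.sqrt (X i) * T = Real.sqrt (X i * T ^ 2) by
        rw [Real.sqrt_mul (by positivity), Real.sqrt_sq hT]]
      apply Real.sqrt_le_sqrt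
      calc ∑ m ∈ Icc 1 (X i), ai i m ^ 2 ≤ ∑ m ∈ Icc 1 (X i), T ^ 2 := by
            apply sum_le_sum
            intro m hm
            rw [mem_Icc] at hm
            rw [hai]
            dsimp only
            split_ifs
            · rw [← sq_abs]
              exact pow_le_pow_left₀ (abs_nonneg _) (ha m (by rw [mem_Icc]; omega)) 2
            · simpa using sq_nonneg T
        _ = X i * T ^ 2 := by rw [sum_const, Nat.card_Icc, nsmul_eq_mul]; simp
    have hnb : Real.sqrt (∑ m ∈ Icc 1 (Y i), b m ^ 2) ≤ Real.sqrt (Y i) * T := by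
      rw [show Real.sqrt (Y i) * T = Real.sqrt (Y i * T ^ 2) by
        rw [Real.sqrt_mul (by positivity), Real.sqrt_sq hT]]
      apply Real.sqrt_le_sqrt
      calc ∑ m ∈ Icc 1 (Y i), b m ^ 2 ≤ ∑ m ∈ Icc 1 (Y i), T ^ 2 := by
            apply sum_le_sum
            intro m hm
            rw [mem_Icc] at hm
            rw [← sq_abs]
            exact pow_le_pow_left₀ (abs_nonneg _) (hb m (by rw [mem_Icc]; omega)) 2
        _ = Y i * T ^ 2 := by rw [sum_const, Nat.card_Icc, nsmul_eq_mul]; simp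
    have hs2 : Real.sqrt 2 * Real.sqrt 2 = 2 := Real.mul_self_sqrt (by norm_num)
    have hs1 : 1 ≤ Real.sqrt 2 := by
      rw [Real.one_le_sqrt]
      norm_num
    have hsXY : Real.sqrt ((X i : ℝ) * Y i) ≤ Real.sqrt 2 * Real.sqrt N := by
      rw [← Real.sqrt_mul (by norm_num)]
      exact Real.sqrt_le_sqrt hXY
    have hprod : Real.sqrt (∑ m ∈ Icc 1 (X i), ai i m ^ 2) * Real.sqrt (∑ m ∈ Icc 1 (Y i), b m ^ 2) ≤
        Real.sqrt 2 * Real.sqrt N * T ^ 2 := by
      calc _ ≤ (Real.sqrt (X i) * T) * (Real.sqrt (Y i) * T) := by gcongr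
        _ = Real.sqrt ((X i : ℝ) * Y i) * T ^ 2 := by rw [Real.sqrt_mul (by positivity)]; ring
        _ ≤ _ := by gcongr
    have hsum : Real.sqrt ((X i : ℝ) * Y i) / F0 + (Real.sqrt (X i) + Real.sqrt (Y i)) + F1 ≤
        Real.sqrt 2 * (Real.sqrt N / F0 + (Real.sqrt M + Real.sqrt (N / U)) + F1) := by
      have e1 : Real.sqrt ((X i : ℝ) * Y i) / F0 ≤ Real.sqrt 2 * (Real.sqrt N / F0) := by
        calc Real.sqrt ((X i : ℝ) * Y i) / F0 ≤ (Real.sqrt 2 * Real.sqrt N) / F0 := by gcongr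
          _ = _ := by ring
      have e2 : Real.sqrt (X i) ≤ Real.sqrt 2 * Real.sqrt M := by
        calc Real.sqrt (X i) ≤ Real.sqrt M := Real.sqrt_le_sqrt hXM
          _ = 1 * Real.sqrt M := by ring
          _ ≤ _ := by gcongr
      have e3 : Real.sqrt (Y i) ≤ Real.sqrt 2 * Real.sqrt (N / U) := by
        calc Real.sqrt (Y i) ≤ Real.sqrt (N / U) := Real.sqrt_le_sqrt hYU
          _ = 1 * Real.sqrt (N / U) := by ring
          _ ≤ _ := by gcongr
      have e4 : (F1 : ℝ) ≤ Real.sqrt 2 * F1 := by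
        calc (F1 : ℝ) = 1 * F1 := by ring
          _ ≤ _ := by gcongr
      nlinarith
    calc 12 * (1 + Real.log F1) * (Real.sqrt ((X i : ℝ) * Y i) / F0 + (Real.sqrt (X i) + Real.sqrt (Y i)) + F1) *
        (Real.sqrt (∑ m ∈ Icc 1 (X i), ai i m ^ 2) * Real.sqrt (∑ m ∈ Icc 1 (Y i), b m ^ 2))
        ≤ 12 * (1 + Real.log F1) * (Real.sqrt 2 * (Real.sqrt N / F0 + (Real.sqrt M + Real.sqrt (N / U)) + F1)) *
          (Real.sqrt 2 * Real.sqrt N * T ^ 2) := by gcongr
      _ = 12 * (Real.sqrt 2 * Real.sqrt 2) * (1 + Real.log F1) *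
          (Real.sqrt N / F0 + (Real.sqrt M + Real.sqrt (N / U)) + F1) * (Real.sqrt N * T ^ 2) := by ring
      _ = _ := by rw [hs2]; ring
  calc ∑ f ∈ Icc F0 F1, (1 / (Nat.totient f : ℝ)) *
      ∑ ψ ∈ (univ : Finset (DirichletCharacter ℂ f)).filter (fun χ => χ.IsPrimitive), ‖HypS a b U M y f ψ‖
      ≤ ∑ f ∈ Icc F0 F1, ∑ i ∈ range L, (1 / (Nat.totient f : ℝ)) *
        ∑ ψ ∈ (univ : Finset (DirichletCharacter ℂ f)).filter (fun χ => χ.IsPrimitive),
          ‖CutS (ai i) b (X i) (z i) f ψ‖ := by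
        apply sum_le_sum
        intro f _
        rw [← mul_sum]
        apply mul_le_mul_of_nonneg_left _ (by positivity)
        rw [sum_comm]
        apply sum_le_sum
        intro ψ _
        rw [hdec f ψ]
        exact norm_sum_le _ _
    _ = ∑ i ∈ range L, ∑ f ∈ Icc F0 F1, (1 / (Nat.totient f : ℝ)) *
        ∑ ψ ∈ (univ : Finset (DirichletCharacter ℂ f)).filter (fun χ => χ.IsPrimitive),
          ‖CutS (ai i) b (X i) (z i) f ψ‖ := sum_comm
    _ ≤ ∑ i ∈ range L, L * (24 * (1 + Real.log F1) * (Real.sqrt N / F0 +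
        (Real.sqrt M + Real.sqrt (N / U)) + F1) * (Real.sqrt N * T ^ 2)) := sum_le_sum hblock
    _ = _ := by rw [sum_const, card_range, nsmul_eq_mul]

end Pool.Agent.H52
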