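import Mathlib
import Pool.Agent.H52.VI

/-!
Character sums over primes: reduction to bilinear sums.
-/

set_option autoImplicit false

open Finset

namespace Pool.Agent.H52

open Classical BLB VI ArithmeticFunction

lemma split_sum (h : ℕ → ℂ) (y U M : ℕ) (hUM : U ≤ M) (h1 : ∀ c, y < c → h c = 0)
    (h2 : ∀ c, M < c → h c = 0) :
    ∑ c ∈ Icc 1 y, h c = ∑ c ∈ Icc 1 U, h c + ∑ c ∈ Ioc U M, h c := by
  have e1 : ∑ c ∈ Icc 1 y, h c = ∑ c ∈ Icc 1 (max y M), h c := by
    apply sum_subset (Icc_subset_Icc_right (le_max_left _ _))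
    intro c hc hc2
    rw [mem_Icc] at hc hc2
    exact h1 c (by omega)
  have e2 : ∑ c ∈ Icc 1 M, h c = ∑ c ∈ Icc 1 (max y M), h c := by
    apply sum_subset (Icc_subset_Icc_right (le_max_right _ _))
    intro c hc hc2
    rw [mem_Icc] at hc hc2
    exact h2 c (by omega)
  have h5 : ∀ n : ℕ, Icc 1 n = Ioc 0 n := by
    intro n
    ext k
    simp only [mem_Icc, mem_Ioc]
    omega
  rw [e1, ← e2, h5, h5, sum_Ioc_consecutive _ (Nat.zero_le _) hUM]

/-- Abel summation with the logarithm -/
lemma log_sum (Y : ℕ) (w : ℕ → ℂ) (B : ℝ) (hB : ∀ j, ‖∑ b ∈ Icc 1 j, w b‖ ≤ B) :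
    ‖∑ b ∈ Icc 1 Y, ((Real.log b : ℝ) : ℂ) * w b‖ ≤ 2 * Real.log Y * B := by
  have hB0 : 0 ≤ B := le_trans (norm_nonneg _) (hB 0)
  rcases Nat.eq_zero_or_pos Y with hY | hY
  · subst hY
    simp
  have h1 := abel_discrete w (fun b => ((Real.log b : ℝ) : ℂ)) 1 Y hY
  have h2 : ∑ b ∈ Icc 1 Y, ((Real.log b : ℝ) : ℂ) * w b = ∑ b ∈ Icc 1 Y, w b * ((Real.log b : ℝ) : ℂ) := by
    apply sum_congr rfl
    intro b _
    ring
  rw [h2, h1]
  have hlogY : 0 ≤ Real.log Y := Real.log_natCast_nonneg Y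
  have h3 : ∀ Y : ℕ, 1 ≤ Y → ∑ j ∈ Ico 1 Y, (Real.log ((j + 1 : ℕ) : ℝ) - Real.log j) = Real.log Y := by
    intro Y hY
    induction Y, hY using Nat.le_induction with
    | base => simp
    | succ n hn ih =>
      rw [sum_Ico_succ_top hn, ih]
      ring
  refine (norm_sub_le _ _).trans ?_
  have e1 : ‖((Real.log Y : ℝ) : ℂ) * ∑ a ∈ Icc 1 Y, w a‖ ≤ Real.log Y * B := by
    rw [norm_mul, Complex.norm_real, Real.norm_of_nonneg hlogY]
    exact mul_le_mul_of_nonneg_left (hB Y) hlogY
  have e2 : ‖∑ j ∈ Ico 1 Y, (((Real.log ((j + 1 : ℕ) : ℝ) : ℝ) : ℂ) - ((Real.log j : ℝ) : ℂ)) *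
      ∑ a ∈ Icc 1 j, w a‖ ≤ Real.log Y * B := by
    refine (norm_sum_le _ _).trans ?_
    rw [← h3 Y hY, sum_mul]
    apply sum_le_sum
    intro j hj
    rw [mem_Ico] at hj
    rw [norm_mul, ← Complex.ofReal_sub, Complex.norm_real, Real.norm_of_nonneg]
    · apply mul_le_mul_of_nonneg_left (hB j)
      rw [sub_nonneg]
      apply Real.log_le_log (by exact_mod_cast hj.1)
      exact_mod_cast Nat.le_succ j
    · rw [sub_nonneg]
      apply Real.log_le_log (by exact_mod_cast hj.1)
      exact_mod_cast Nat.le_succ j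
  linarith

/-- the coefficients of the type I sum -/
noncomputable def cI (U t : ℕ) : ℝ := (mu1 U * l1 U) t

lemma cI_abs (U t : ℕ) : |cI U t| ≤ Real.log t := by
  unfold cI
  rw [mul_apply]
  refine (abs_sum_le_sum_abs _ _).trans ?_
  have h1 : ∀ i ∈ t.divisorsAntidiagonal, |mu1 U i.1 * l1 U i.2| ≤ vonMangoldt i.2 := by
    intro i _
    rw [abs_mul, mu1_apply, l1_apply]
    have e1 : |(if i.1 ≤ U then ((moebius i.1 : ℤ) : ℝ) else 0)| ≤ 1 := by
      split_ifs
      · exact_mod_cast abs_moebius_le_one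
      · simp
    have e2 : |(if i.2 ≤ U then vonMangoldt i.2 else 0)| ≤ vonMangoldt i.2 := by
      split_ifs
      · rw [abs_of_nonneg vonMangoldt_nonneg]
      · simpa using vonMangoldt_nonneg
    calc _ ≤ 1 * vonMangoldt i.2 := mul_le_mul e1 e2 (abs_nonneg _) (by norm_num)
      _ = _ := one_mul _
  refine (sum_le_sum h1).trans (le_of_eq ?_)
  rw [← Nat.map_div_left_divisors]
  simp only [sum_map, Function.Embedding.coeFn_mk]
  exact vonMangoldt_sum

lemma cI_zero (U t : ℕ) (ht : U * U < t) : cI U t = 0 := by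
  unfold cI
  rw [mul_apply]
  apply sum_eq_zero
  intro i hi
  rw [Nat.mem_divisorsAntidiagonal] at hi
  rw [mu1_apply, l1_apply]
  by_cases h1 : i.1 ≤ U
  · by_cases h2 : i.2 ≤ U
    · exfalso
      have := Nat.mul_le_mul h1 h2
      omega
    · rw [if_neg h2, mul_zero]
  · rw [if_neg h1, zero_mul]

/-- the von Mangoldt character sum -/
noncomputable def PsiS (y f : ℕ) (ψ : DirichletCharacter ℂ f) : ℂ :=
  ∑ n ∈ Icc 1 y, ((vonMangoldt n : ℝ) : ℂ) * ψ (n : ZMod f)

lemma vM_sum_le (U N : ℕ) (hUN : U ≤ N) : ∑ n ∈ Icc 1 U, vonMangoldt n ≤ U * Real.log N := by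
  calc ∑ n ∈ Icc 1 U, vonMangoldt n ≤ ∑ n ∈ Icc 1 U, Real.log N := by
        apply sum_le_sum
        intro n hn
        rw [mem_Icc] at hn
        refine vonMangoldt_le_log.trans ?_
        apply Real.log_le_log (by exact_mod_cast hn.1)
        exact_mod_cast hn.2.trans hUN
    _ = U * Real.log N := by simp

theorem psi_split (N U y f : ℕ) (hU : 1 ≤ U) (hUN : U * U ≤ N) (hy : y ≤ N) (hf : 2 ≤ f)
    (ψ : DirichletCharacter ℂ f) (hψ : ψ.IsPrimitive) :
    ‖PsiS y f ψ‖ ≤ 4 * U * Real.log N * (Real.sqrt f * (1 + Real.log f)) +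
      ‖HypS (cI U) (fun _ => 1) U (U * U) y f ψ‖ + ‖HypS (fun c => vonMangoldt c) (betaV U) U (N / U) y f ψ‖ := by
  have hlogN : 0 ≤ Real.log N := Real.log_natCast_nonneg N
  have hlogf : 0 ≤ Real.log f := Real.log_natCast_nonneg f
  have hUle : U ≤ U * U := Nat.le_mul_of_pos_left U hU
  have hUN' : U ≤ N := hUle.trans hUN
  have hUNU : U ≤ N / U := by rwa [Nat.le_div_iff_mul_le (by omega)]
  set B := Real.sqrt f * (1 + Real.log f) with hB
  have hB1 : 1 ≤ B := by
    have : 1 ≤ Real.sqrt f := by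
      rw [Real.one_le_sqrt]
      exact_mod_cast (by omega : 1 ≤ f)
    nlinarith
  have hPV : ∀ j : ℕ, ‖∑ b ∈ Icc 1 j, ψ ((b : ℕ) : ZMod f)‖ ≤ B := fun j => PVL.PV_plain f j hf ψ hψ
  -- the four parts
  have h1 : PsiS y f ψ = ∑ n ∈ Icc 1 y, ((l1 U n : ℝ) : ℂ) * ψ (n : ZMod f) +
      ∑ c ∈ Icc 1 y, (((mu1 U c : ℝ) : ℂ) * ψ (c : ZMod f)) *
        ∑ b ∈ Icc 1 (y / c), ((Real.log b : ℝ) : ℂ) * ψ (b : ZMod f) -
      ∑ c ∈ Icc 1 y, (((cI U c : ℝ) : ℂ) * ψ (c : ZMod f)) *
        ∑ b ∈ Icc 1 (y / c), (((1 : ℝ)) : ℂ) * ψ (b : ZMod f) +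
      ∑ c ∈ Icc 1 y, (((L2 U c : ℝ) : ℂ) * ψ (c : ZMod f)) *
        ∑ b ∈ Icc 1 (y / c), ((betaV U b : ℝ) : ℂ) * ψ (b : ZMod f) := by
    have e1 : ∑ n ∈ Icc 1 y, (((ArithmeticFunction.log * mu1 U) n : ℝ) : ℂ) * ψ (n : ZMod f) =
        ∑ c ∈ Icc 1 y, (((mu1 U c : ℝ) : ℂ) * ψ (c : ZMod f)) *
        ∑ b ∈ Icc 1 (y / c), ((Real.log b : ℝ) : ℂ) * ψ (b : ZMod f) := by
      have hh := hyper y (fun b c => ((Real.log b : ℝ) : ℂ) * ((mu1 U c : ℝ) : ℂ) *
        (ψ (b : ZMod f) * ψ (c : ZMod f)))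
      simp_rw [mul_sum]
      calc _ = ∑ n ∈ Icc 1 y, ∑ i ∈ n.divisorsAntidiagonal, ((Real.log i.1 : ℝ) : ℂ) *
            ((mu1 U i.2 : ℝ) : ℂ) * (ψ (i.1 : ZMod f) * ψ (i.2 : ZMod f)) := by
            apply sum_congr rfl
            intro n _
            rw [mul_apply, Complex.ofReal_sum, sum_mul]
            apply sum_congr rfl
            intro i hi
            rw [← (Nat.mem_divisorsAntidiagonal.1 hi).1, log_apply]
            push_cast
            rw [map_mul]
        _ = _ := by
            rw [hh]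
            apply sum_congr rfl
            intro c _
            apply sum_congr rfl
            intro b _
            ring
    have e2 : ∑ n ∈ Icc 1 y, ((((ArithmeticFunction.zeta : ArithmeticFunction ℕ) : ArithmeticFunction ℝ) *
        (mu1 U * l1 U)) n : ℂ) * ψ (n : ZMod f) =
        ∑ c ∈ Icc 1 y, (((cI U c : ℝ) : ℂ) * ψ (c : ZMod f)) *
        ∑ b ∈ Icc 1 (y / c), (((1 : ℝ)) : ℂ) * ψ (b : ZMod f) := by
      have hh := hyper y (fun b c => ((cI U c : ℝ) : ℂ) * (ψ (b : ZMod f) * ψ (c : ZMod f)))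
      simp_rw [mul_sum]
      calc _ = ∑ n ∈ Icc 1 y, ∑ i ∈ n.divisorsAntidiagonal,
            ((cI U i.2 : ℝ) : ℂ) * (ψ (i.1 : ZMod f) * ψ (i.2 : ZMod f)) := by
            apply sum_congr rfl
            intro n _
            rw [mul_apply, Complex.ofReal_sum, sum_mul]
            apply sum_congr rfl
            intro i hi
            have hi1 : i.1 ≠ 0 := by
              obtain ⟨h, h'⟩ := Nat.mem_divisorsAntidiagonal.1 hi
              intro h0
              rw [h0, zero_mul] at h
              exact h' h.symm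
            rw [← (Nat.mem_divisorsAntidiagonal.1 hi).1, natCoe_apply, zeta_apply_ne hi1]
            unfold cI
            push_cast
            rw [map_mul]
            ring
        _ = _ := by
            rw [hh]
            apply sum_congr rfl
            intro c _
            apply sum_congr rfl
            intro b _
            push_cast
            ring
    have e3 : ∑ n ∈ Icc 1 y, ((LamII U U n : ℝ) : ℂ) * ψ (n : ZMod f) =
        ∑ c ∈ Icc 1 y, (((L2 U c : ℝ) : ℂ) * ψ (c : ZMod f)) *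
        ∑ b ∈ Icc 1 (y / c), ((betaV U b : ℝ) : ℂ) * ψ (b : ZMod f) := by
      have hh := hyper y (fun b c => ((betaV U b : ℝ) : ℂ) * ((L2 U c : ℝ) : ℂ) *
        (ψ (b : ZMod f) * ψ (c : ZMod f)))
      simp_rw [mul_sum]
      calc _ = ∑ n ∈ Icc 1 y, ∑ i ∈ n.divisorsAntidiagonal, ((betaV U i.1 : ℝ) : ℂ) *
            ((L2 U i.2 : ℝ) : ℂ) * (ψ (i.1 : ZMod f) * ψ (i.2 : ZMod f)) := by
            apply sum_congr rfl
            intro n _
            unfold LamII
            rw [Complex.ofReal_sum, sum_mul]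
            apply sum_congr rfl
            intro i hi
            rw [← (Nat.mem_divisorsAntidiagonal.1 hi).1]
            unfold L2
            push_cast
            rw [map_mul]
        _ = _ := by
            rw [hh]
            apply sum_congr rfl
            intro c _
            apply sum_congr rfl
            intro b _
            ring
    rw [← e1, ← e2, ← e3]
    unfold PsiS
    rw [← sum_add_distrib, ← sum_sub_distrib, ← sum_add_distrib]
    apply sum_congr rfl
    intro n _
    have h := vaughan U U n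
    have h' : vonMangoldt n = l1 U n + (ArithmeticFunction.log * mu1 U) n -
      (((ArithmeticFunction.zeta : ArithmeticFunction ℕ) : ArithmeticFunction ℝ) *
        (mu1 U * l1 U)) n + LamII U U n := by linarith
    rw [h']
    push_cast
    ring
  -- bounds
  have b1 : ‖∑ n ∈ Icc 1 y, ((l1 U n : ℝ) : ℂ) * ψ (n : ZMod f)‖ ≤ U * Real.log N := by
    refine (norm_sum_le _ _).trans (le_trans ?_ (vM_sum_le U N hUN'))
    calc ∑ n ∈ Icc 1 y, ‖((l1 U n : ℝ) : ℂ) * ψ (n : ZMod f)‖ ≤
          ∑ n ∈ Icc 1 y, (if n ≤ U then vonMangoldt n else 0) := by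
          apply sum_le_sum
          intro n _
          rw [norm_mul, Complex.norm_real, l1_apply]
          have hψ1 : ‖ψ (n : ZMod f)‖ ≤ 1 := DirichletCharacter.norm_le_one _ _
          split_ifs
          · rw [Real.norm_of_nonneg vonMangoldt_nonneg]
            exact mul_le_of_le_one_right vonMangoldt_nonneg hψ1
          · simp
      _ = ∑ n ∈ (Icc 1 y).filter (fun n => n ≤ U), vonMangoldt n := (sum_filter _ _).symm
      _ ≤ ∑ n ∈ Icc 1 U, vonMangoldt n := by
          apply sum_le_sum_of_subset_of_nonneg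
          · intro n hn
            rw [mem_filter, mem_Icc] at hn
            rw [mem_Icc]
            exact ⟨hn.1.1, hn.2⟩
          · intro n _ _
            exact vonMangoldt_nonneg
  have b2 : ‖∑ c ∈ Icc 1 y, (((mu1 U c : ℝ) : ℂ) * ψ (c : ZMod f)) *
        ∑ b ∈ Icc 1 (y / c), ((Real.log b : ℝ) : ℂ) * ψ (b : ZMod f)‖ ≤ U * (2 * Real.log N * B) := by
    refine (norm_sum_le _ _).trans ?_
    calc ∑ c ∈ Icc 1 y, ‖(((mu1 U c : ℝ) : ℂ) * ψ (c : ZMod f)) *
          ∑ b ∈ Icc 1 (y / c), ((Real.log b : ℝ) : ℂ) * ψ (b : ZMod f)‖ ≤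
          ∑ c ∈ Icc 1 y, (if c ≤ U then (2 * Real.log N * B) else 0) := by
          apply sum_le_sum
          intro c hc
          rw [mem_Icc] at hc
          rw [norm_mul, norm_mul, Complex.norm_real, mu1_apply]
          have hψ1 : ‖ψ (c : ZMod f)‖ ≤ 1 := DirichletCharacter.norm_le_one _ _
          split_ifs
          · have hm : ‖((moebius c : ℤ) : ℝ)‖ ≤ 1 := by
              rw [Real.norm_eq_abs]
              exact_mod_cast abs_moebius_le_one
            have hl := log_sum (y / c) (fun b => ψ (b : ZMod f)) B hPV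
            have hl2 : 2 * Real.log ((y / c : ℕ) : ℝ) * B ≤ 2 * Real.log N * B := by
              have : Real.log ((y / c : ℕ) : ℝ) ≤ Real.log N := by
                rcases Nat.eq_zero_or_pos (y / c) with h0 | h0
                · rw [h0]; simpa using hlogN
                · apply Real.log_le_log (by exact_mod_cast h0)
                  exact_mod_cast (Nat.div_le_self y c).trans hy
              nlinarith
            calc _ ≤ 1 * 1 * (2 * Real.log N * B) := by
                  apply mul_le_mul (mul_le_mul hm hψ1 (norm_nonneg _) (by norm_num)) (hl.trans hl2)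
                    (norm_nonneg _) (by norm_num)
              _ = _ := by ring
          · simp
      _ = ∑ c ∈ (Icc 1 y).filter (fun c => c ≤ U), (2 * Real.log N * B) := (sum_filter _ _).symm
      _ ≤ ∑ c ∈ Icc 1 U, (2 * Real.log N * B) := by
          apply sum_le_sum_of_subset_of_nonneg
          · intro n hn
            rw [mem_filter, mem_Icc] at hn
            rw [mem_Icc]
            exact ⟨hn.1.1, hn.2⟩
          · intro n _ _
            positivity
      _ = U * (2 * Real.log N * B) := by simp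
  have b3 : ‖∑ c ∈ Icc 1 y, (((cI U c : ℝ) : ℂ) * ψ (c : ZMod f)) *
        ∑ b ∈ Icc 1 (y / c), (((1 : ℝ)) : ℂ) * ψ (b : ZMod f)‖ ≤ U * (Real.log N * B) +
      ‖HypS (cI U) (fun _ => 1) U (U * U) y f ψ‖ := by
    rw [split_sum (fun c => (((cI U c : ℝ) : ℂ) * ψ (c : ZMod f)) *
        ∑ b ∈ Icc 1 (y / c), (((1 : ℝ)) : ℂ) * ψ (b : ZMod f)) y U (U * U) hUle
        (by
          intro c hc
          rw [Nat.div_eq_of_lt hc]
          simp)
        (by
          intro c hc
          rw [cI_zero U c hc]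
          simp)]
    refine (norm_add_le _ _).trans ?_
    apply add_le_add
    · refine (norm_sum_le _ _).trans ?_
      calc _ ≤ ∑ c ∈ Icc 1 U, Real.log N * B := by
            apply sum_le_sum
            intro c hc
            rw [mem_Icc] at hc
            rw [norm_mul, norm_mul, Complex.norm_real, Real.norm_eq_abs]
            have hψ1 : ‖ψ (c : ZMod f)‖ ≤ 1 := DirichletCharacter.norm_le_one _ _
            have hc1 : |cI U c| ≤ Real.log N := (cI_abs U c).trans (by
              apply Real.log_le_log (by exact_mod_cast hc.1)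
              exact_mod_cast hc.2.trans hUN')
            have hP := hPV (y / c)
            simp only [Complex.ofReal_one, one_mul]
            calc _ ≤ (Real.log N * 1) * B := by gcongr
              _ = _ := by ring
        _ = U * (Real.log N * B) := by simp
    · exact le_refl _
  have b4 : ‖∑ c ∈ Icc 1 y, (((L2 U c : ℝ) : ℂ) * ψ (c : ZMod f)) *
        ∑ b ∈ Icc 1 (y / c), ((betaV U b : ℝ) : ℂ) * ψ (b : ZMod f)‖ =
      ‖HypS (fun c => vonMangoldt c) (betaV U) U (N / U) y f ψ‖ := by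
    rw [split_sum (fun c => (((L2 U c : ℝ) : ℂ) * ψ (c : ZMod f)) *
        ∑ b ∈ Icc 1 (y / c), ((betaV U b : ℝ) : ℂ) * ψ (b : ZMod f)) y U (N / U) hUNU
        (by
          intro c hc
          rw [Nat.div_eq_of_lt hc]
          simp)
        (by
          intro c hc
          have h2 : y / c ≤ U := by
            have h3 : N < c * U := by
              rw [Nat.div_lt_iff_lt_mul (by omega)] at hc
              exact hc
            have h4 : y / c < U + 1 := by
              rw [Nat.div_lt_iff_lt_mul (by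
                rcases Nat.eq_zero_or_pos c with h | h
                · subst h; omega
                · exact h)]
              have : (U + 1) * c = c * U + c := by ring
              omega
            omega
          have h5 : ∑ b ∈ Icc 1 (y / c), ((betaV U b : ℝ) : ℂ) * ψ (b : ZMod f) = 0 := by
            apply sum_eq_zero
            intro b hb
            rw [mem_Icc] at hb
            rw [betaV_zero U b (hb.2.trans h2)]
            simp
          rw [h5, mul_zero])]
    have h0 : ∑ c ∈ Icc 1 U, (((L2 U c : ℝ) : ℂ) * ψ (c : ZMod f)) *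
        ∑ b ∈ Icc 1 (y / c), ((betaV U b : ℝ) : ℂ) * ψ (b : ZMod f) = 0 := by
      apply sum_eq_zero
      intro c hc
      rw [mem_Icc] at hc
      unfold L2
      rw [if_neg (by omega)]
      simp
    rw [h0, zero_add]
    unfold HypS
    congr 1
    apply sum_congr rfl
    intro c hc
    rw [mem_Ioc] at hc
    unfold L2
    rw [if_pos hc.1]
  rw [h1]
  refine (norm_add_le _ _).trans ?_
  rw [b4]
  have b5 : ‖∑ n ∈ Icc 1 y, ((l1 U n : ℝ) : ℂ) * ψ (n : ZMod f) +
      ∑ c ∈ Icc 1 y, (((mu1 U c : ℝ) : ℂ) * ψ (c : ZMod f)) *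
        ∑ b ∈ Icc 1 (y / c), ((Real.log b : ℝ) : ℂ) * ψ (b : ZMod f) -
      ∑ c ∈ Icc 1 y, (((cI U c : ℝ) : ℂ) * ψ (c : ZMod f)) *
        ∑ b ∈ Icc 1 (y / c), (((1 : ℝ)) : ℂ) * ψ (b : ZMod f)‖ ≤
      U * Real.log N + U * (2 * Real.log N * B) + (U * (Real.log N * B) +
      ‖HypS (cI U) (fun _ => 1) U (U * U) y f ψ‖) := by
    refine (norm_sub_le _ _).trans ?_
    refine add_le_add ((norm_add_le _ _).trans (add_le_add b1 b2)) b3
  have e5 : (U : ℝ) * Real.log N ≤ U * (Real.log N * B) := by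
    have : (U : ℝ) * Real.log N * 1 ≤ U * Real.log N * B := by gcongr
    linarith
  linarith

end Pool.Agent.H52
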