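import Mathlib
import Pool.Agent.H52.LS

/-!
Basic tools: orthogonality, Parseval, the tent weight, Ramanujan sums.
-/

set_option autoImplicit false

open Finset

namespace Pool.Agent.H52

/-- orthogonality of additive characters -/
lemma orth (M : ℕ) (hM : 0 < M) (h : ℤ) :
    ∑ u ∈ range M, ee (h * u / M) = if (M : ℤ) ∣ h then (M : ℂ) else 0 := by
  have hMR : (M : ℝ) ≠ 0 := by positivity
  have hpow : ∀ u : ℕ, ee (h * u / M) = ee (h / M) ^ u := by
    intro u
    rw [← ls_ee_nat_mul]
    congr 1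
    ring
  simp_rw [hpow]
  split_ifs with hd
  · obtain ⟨k, hk⟩ := hd
    have h1 : (h : ℝ) / M = ((k : ℤ) : ℝ) := by
      rw [hk]; push_cast; field_simp
    rw [h1, ls_ee_int]
    simp
  · have hne : ee (h / M) ≠ 1 := by
      intro he
      obtain ⟨n, hn⟩ := ls_ee_eq_one he
      apply hd
      refine ⟨n, ?_⟩
      rw [div_eq_iff hMR] at hn
      have : (h : ℝ) = ((M * n : ℤ) : ℝ) := by push_cast; rw [hn]; ring
      exact_mod_cast this
    rw [geom_sum_eq hne]
    have h2 : ee (h / M) ^ M = 1 := by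
      rw [← ls_ee_nat_mul]
      have : (M : ℝ) * (h / M) = ((h : ℤ) : ℝ) := by field_simp
      rw [this, ls_ee_int]
    rw [h2]
    simp

lemma norm_sq_eq (z : ℂ) : ((‖z‖ ^ 2 : ℝ) : ℂ) = z * (starRingEnd ℂ) z := by
  rw [Complex.mul_conj, Complex.normSq_eq_norm_sq]

/-- Parseval modulo `q` -/
lemma pars (q : ℕ) (hq : 0 < q) (s : Finset ℕ) (x : ℕ → ℂ) :
    ∑ ν ∈ range q, ‖∑ m ∈ s, x m * ee (m * ν / q)‖ ^ 2 =
      q * ∑ a ∈ range q, ‖∑ m ∈ s.filter (fun m => m % q = a), x m‖ ^ 2 := by
  have key : ((∑ ν ∈ range q, ‖∑ m ∈ s, x m * ee (m * ν / q)‖ ^ 2 : ℝ) : ℂ) =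
      ((q * ∑ a ∈ range q, ‖∑ m ∈ s.filter (fun m => m % q = a), x m‖ ^ 2 : ℝ) : ℂ) := by
    have hL : ((∑ ν ∈ range q, ‖∑ m ∈ s, x m * ee (m * ν / q)‖ ^ 2 : ℝ) : ℂ) =
        ∑ m ∈ s, ∑ m' ∈ s, x m * (starRingEnd ℂ) (x m') * (if m % q = m' % q then (q : ℂ) else 0) := by
      rw [Complex.ofReal_sum]
      simp_rw [norm_sq_eq, map_sum, sum_mul_sum]
      rw [sum_comm]
      apply sum_congr rfl
      intro m _
      rw [sum_comm]
      apply sum_congr rfl
      intro m' _
      have h1 : ∀ ν : ℕ, x m * ee (m * ν / q) * (starRingEnd ℂ) (x m' * ee (m' * ν / q)) =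
          x m * (starRingEnd ℂ) (x m') * ee (((m : ℤ) - m' : ℤ) * ν / q) := by
        intro ν
        rw [map_mul, ls_conj_ee]
        have : ee ((((m : ℤ) - m' : ℤ) : ℝ) * ν / q) = ee (m * ν / q) * ee (-(m' * ν / q)) := by
          rw [← ls_ee_add]
          congr 1
          push_cast
          ring
        rw [this]
        ring
      simp_rw [h1]
      rw [← mul_sum, orth q hq]
      congr 1
      have h2 : ((q : ℤ) ∣ (m : ℤ) - m') ↔ m % q = m' % q := by
        rw [← Int.modEq_iff_dvd]
        rw [Int.natCast_modEq_iff]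
        constructor
        · intro h; exact h.symm
        · intro h; exact h.symm
      simp only [h2]
    have hR : ((q * ∑ a ∈ range q, ‖∑ m ∈ s.filter (fun m => m % q = a), x m‖ ^ 2 : ℝ) : ℂ) =
        ∑ m ∈ s, ∑ m' ∈ s, x m * (starRingEnd ℂ) (x m') * (if m % q = m' % q then (q : ℂ) else 0) := by
      rw [Complex.ofReal_mul, Complex.ofReal_sum]
      simp_rw [norm_sq_eq, map_sum, sum_mul_sum, sum_filter]
      rw [mul_sum]
      have h3 : ∀ a : ℕ, (((q : ℕ) : ℝ) : ℂ) * ∑ i ∈ s, (if i % q = a then ∑ j ∈ s, (if j % q = a then x i * (starRingEnd ℂ) (x j) else 0) else 0)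
          = ∑ m ∈ s, ∑ m' ∈ s, (if m % q = a ∧ m' % q = a then (q : ℂ) * (x m * (starRingEnd ℂ) (x m')) else 0) := by
        intro a
        rw [mul_sum]
        apply sum_congr rfl
        intro m _
        split_ifs with h
        · rw [mul_sum]
          apply sum_congr rfl
          intro m' _
          by_cases h' : m' % q = a <;> simp [h, h']
        · simp [h]
      simp_rw [h3]
      rw [sum_comm]
      apply sum_congr rfl
      intro m _
      rw [sum_comm]
      apply sum_congr rfl
      intro m' _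
      by_cases h : m % q = m' % q
      · rw [if_pos h]
        rw [sum_eq_single (m % q)]
        · simp [h]; ring
        · intro b _ hb
          rw [if_neg]
          rintro ⟨h1, _⟩
          exact hb h1.symm
        · intro hb
          exfalso
          apply hb
          rw [mem_range]
          exact Nat.mod_lt _ hq
      · rw [if_neg h, mul_zero]
        apply sum_eq_zero
        intro a _
        rw [if_neg]
        rintro ⟨h1, h2⟩
        exact h (h1.trans h2.symm)
    rw [hL, hR]
  exact_mod_cast key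

/-- the tent weight -/
def g (Y m : ℕ) : ℕ := min m (2 * Y - m)

lemma g_le (Y m : ℕ) : g Y m ≤ Y := by unfold g; omega

lemma g_zero (Y : ℕ) : g Y 0 = 0 := by unfold g; omega

lemma g_big (Y m : ℕ) (h : 2 * Y ≤ m) : g Y m = 0 := by unfold g; omega

/-- the tent weight is a convolution -/
lemma g_conv {M : Type*} [AddCommMonoid M] (Y : ℕ) (f : ℕ → M) :
    ∑ i ∈ Icc 1 Y, ∑ j ∈ range Y, f (i + j) = ∑ m ∈ range (2 * Y), g Y m • f m := by
  have h1 : ∀ i ∈ Icc 1 Y, ∑ j ∈ range Y, f (i + j) =
      ∑ m ∈ range (2 * Y), if i ≤ m ∧ m < i + Y then f m else 0 := by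
    intro i hi
    rw [mem_Icc] at hi
    rw [← sum_filter]
    apply sum_nbij' (fun j => i + j) (fun m => m - i)
    · intro j hj
      rw [mem_range] at hj
      rw [mem_filter, mem_range]
      omega
    · intro m hm
      rw [mem_filter, mem_range] at hm
      rw [mem_range]
      omega
    · intro j _
      omega
    · intro m hm
      rw [mem_filter, mem_range] at hm
      omega
    · intro j _
      rfl
  rw [sum_congr rfl h1, sum_comm]
  apply sum_congr rfl
  intro m hm
  rw [mem_range] at hm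
  rw [← sum_filter, sum_const]
  congr 1
  have : (Icc 1 Y).filter (fun i => i ≤ m ∧ m < i + Y) = Icc (max 1 (m + 1 - Y)) (min m Y) := by
    ext i
    simp only [mem_filter, mem_Icc]
    omega
  rw [this, Nat.card_Icc]
  unfold g
  omega

/-- real valued Moebius function -/
noncomputable def mu (r : ℕ) : ℝ := ((ArithmeticFunction.moebius r : ℤ) : ℝ)

lemma abs_mu_le (r : ℕ) : |mu r| ≤ 1 := by
  unfold mu
  have := ArithmeticFunction.abs_moebius_le_one (n := r)
  exact_mod_cast this

/-- the Ramanujan sum -/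
noncomputable def cr (r m : ℕ) : ℝ := ∑ d ∈ r.divisors.filter (fun d => d ∣ m), (d : ℝ) * mu (r / d)


lemma sum_mu (n : ℕ) (_hn : n ≠ 0) : ∑ e ∈ n.divisors, mu e = if n = 1 then 1 else 0 := by
  have h := congrArg (fun f : ArithmeticFunction ℤ => f n) ArithmeticFunction.moebius_mul_coe_zeta
  simp only [ArithmeticFunction.one_apply] at h
  rw [ArithmeticFunction.coe_mul_zeta_apply] at h
  unfold mu
  rw [← Int.cast_sum, h]
  split_ifs <;> simp

lemma coprime_ind (b r : ℕ) (hr : 0 < r) : (if b.Coprime r then (1 : ℝ) else 0) =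
      ∑ e ∈ r.divisors, if e ∣ b then mu e else 0 := by
  have hg : Nat.gcd b r ≠ 0 := (Nat.gcd_pos_of_pos_right _ hr).ne'
  have h := sum_mu (Nat.gcd b r) hg
  have h2 : (Nat.gcd b r).divisors = r.divisors.filter (fun e => e ∣ b) := by
    ext e
    simp only [Nat.mem_divisors, mem_filter]
    constructor
    · rintro ⟨h1, _⟩
      exact ⟨⟨h1.trans (Nat.gcd_dvd_right _ _), hr.ne'⟩, h1.trans (Nat.gcd_dvd_left _ _)⟩
    · rintro ⟨⟨h1, _⟩, h3⟩
      exact ⟨Nat.dvd_gcd h3 h1, hg⟩
  rw [← sum_filter, ← h2, h]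

lemma cr_eq (r m : ℕ) (hr : 0 < r) :
    ∑ b ∈ (range r).filter (fun b => b.Coprime r), ee (m * b / r) = ((cr r m : ℝ) : ℂ) := by
  have hrR : (r : ℝ) ≠ 0 := by positivity
  have h1 : ∑ b ∈ (range r).filter (fun b => b.Coprime r), ee (m * b / r) =
      ∑ e ∈ r.divisors, ((mu e : ℝ) : ℂ) * ∑ b ∈ (range r).filter (fun b => e ∣ b), ee (m * b / r) := by
    have h2 : ∀ b : ℕ, (if b.Coprime r then ee (m * b / r) else 0) =
        ∑ e ∈ r.divisors, ((mu e : ℝ) : ℂ) * (if e ∣ b then ee (m * b / r) else 0) := by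
      intro b
      have h3 := congrArg (fun x : ℝ => (x : ℂ)) (coprime_ind b r hr)
      simp only [Complex.ofReal_sum] at h3
      have h4 : (if b.Coprime r then ee (m * b / r) else 0) =
          (((if b.Coprime r then (1:ℝ) else 0 : ℝ)) : ℂ) * ee (m * b / r) := by
        split_ifs <;> simp
      rw [h4, h3, sum_mul]
      apply sum_congr rfl
      intro e _
      split_ifs <;> simp
    rw [sum_filter, sum_congr rfl (fun b _ => h2 b), sum_comm]
    apply sum_congr rfl
    intro e _
    rw [mul_sum, sum_filter]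
    apply sum_congr rfl
    intro b _
    split_ifs <;> simp
  rw [h1]
  have h5 : ∀ e ∈ r.divisors, ∑ b ∈ (range r).filter (fun b => e ∣ b), ee (m * b / r) =
      if (r / e) ∣ m then (((r / e : ℕ) : ℝ) : ℂ) else 0 := by
    intro e he
    rw [Nat.mem_divisors] at he
    obtain ⟨f, hf⟩ := he.1
    have he0 : 0 < e := Nat.pos_of_dvd_of_pos he.1 hr
    have hf0 : 0 < f := by
      rcases Nat.eq_zero_or_pos f with h | h
      · subst h; simp at hf; omega
      · exact h
    have hrf : r / e = f := by rw [hf]; exact Nat.mul_div_cancel_left f he0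
    rw [hrf]
    have h6 : ∑ b ∈ (range r).filter (fun b => e ∣ b), ee (m * b / r) =
        ∑ u ∈ range f, ee ((m : ℤ) * u / f) := by
      apply sum_nbij' (fun b => b / e) (fun u => e * u)
      · intro b hb
        rw [mem_filter, mem_range] at hb
        rw [mem_range]
        rw [Nat.div_lt_iff_lt_mul he0]
        rw [hf] at hb
        linarith [hb.1, mul_comm e f]
      · intro u hu
        rw [mem_range] at hu
        rw [mem_filter, mem_range, hf]
        exact ⟨Nat.mul_lt_mul_of_pos_left hu he0, Dvd.intro _ rfl⟩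
      · intro b hb
        rw [mem_filter, mem_range] at hb
        exact Nat.mul_div_cancel' hb.2
      · intro u _
        exact Nat.mul_div_cancel_left u he0
      · intro b hb
        rw [mem_filter, mem_range] at hb
        obtain ⟨u, hu⟩ := hb.2
        have : b / e = u := by rw [hu]; exact Nat.mul_div_cancel_left u he0
        rw [this, hu, hf]
        congr 1
        have hfR : (f : ℝ) ≠ 0 := by positivity
        have heR : (e : ℝ) ≠ 0 := by positivity
        push_cast
        field_simp
    rw [h6, orth f hf0]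
    have h7 : ((f : ℤ) ∣ (m : ℤ)) ↔ f ∣ m := Int.natCast_dvd_natCast
    simp only [h7]
    split_ifs <;> simp
  rw [sum_congr rfl (fun e he => by rw [h5 e he])]
  unfold cr
  rw [Complex.ofReal_sum, sum_filter]
  rw [← Nat.sum_div_divisors r (fun e => if e ∣ m then (((e : ℝ) * mu (r / e) : ℝ) : ℂ) else 0)]
  apply sum_congr rfl
  intro e he
  rw [Nat.mem_divisors] at he
  have : r / (r / e) = e := Nat.div_div_self he.1 he.2
  rw [this]
  split_ifs
  · push_cast; ring
  · simp

end Pool.Agent.H52
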