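import Mathlib
import Pool.Agent.H52.LB1

/-!
The weight function and the bound for its mean square over the classes modulo `q`.
-/

set_option autoImplicit false

open Finset

namespace Pool.Agent.H52

/-- the divisor-type weight -/
noncomputable def wt (R1 R m : ℕ) : ℝ := ∑ r ∈ Ioc R1 R, (mu r / r) * cr r m

/-- its sums over residue classes, with the tent weight -/
noncomputable def WW (Y R1 R q a : ℕ) : ℝ :=
  ∑ m ∈ (range (2 * Y)).filter (fun m => m % q = a), (g Y m : ℝ) * wt R1 R m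

/-- geometric sum -/
noncomputable def SY (Y : ℕ) (θ : ℝ) : ℂ := ∑ i ∈ Icc 1 Y, ee (i * θ)

lemma tentF (Y : ℕ) (θ : ℝ) :
    ‖∑ m ∈ range (2 * Y), ((g Y m : ℝ) : ℂ) * ee (m * θ)‖ = ‖SY Y θ‖ ^ 2 := by
  have h1 := g_conv Y (fun m => ee (m * θ))
  have h2 : ∑ m ∈ range (2 * Y), ((g Y m : ℝ) : ℂ) * ee (m * θ) =
      ∑ m ∈ range (2 * Y), g Y m • ee (m * θ) := by
    apply sum_congr rfl
    intro m _
    simp
  rw [h2, ← h1]
  have h3 : ∑ i ∈ Icc 1 Y, ∑ j ∈ range Y, ee (((i + j : ℕ) : ℝ) * θ) =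
      SY Y θ * ∑ j ∈ range Y, ee (j * θ) := by
    unfold SY
    rw [sum_mul_sum]
    apply sum_congr rfl
    intro i _
    apply sum_congr rfl
    intro j _
    rw [← ls_ee_add]
    congr 1
    push_cast
    ring
  have h4 : SY Y θ = ee θ * ∑ j ∈ range Y, ee (j * θ) := by
    unfold SY
    rw [mul_sum, ← Nat.Ico_zero_eq_range]
    rw [show Icc 1 Y = Ico (0 + 1) (Y + 1) from by ext; simp]
    rw [← sum_Ico_add']
    apply sum_congr rfl
    intro j _
    rw [← ls_ee_add]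
    congr 1
    push_cast
    ring
  have h5 : ‖SY Y θ‖ = ‖∑ j ∈ range Y, ee (j * θ)‖ := by
    rw [h4, norm_mul, ls_norm_ee, one_mul]
  rw [h3, norm_mul, ← h5, pow_two]

lemma card_le_of_congr (s : Finset ℕ) (Y L : ℕ) (hs : s ⊆ Icc 1 Y) (c : ℕ)
    (hc : ∀ i ∈ s, i % L = c) : s.card ≤ Y / L + 1 := by
  rw [← card_range (Y / L + 1)]
  apply card_le_card_of_injOn (fun i => i / L)
  · intro i hi
    have := mem_Icc.1 (hs hi)
    rw [coe_range, Set.mem_Iio]
    exact Nat.lt_succ_of_le (Nat.div_le_div_right this.2)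
  · intro i hi j hj hij
    simp only at hij
    have h1 := Nat.div_add_mod i L
    have h2 := Nat.div_add_mod j L
    rw [hc i hi] at h1
    rw [hc j hj] at h2
    rw [← h1, ← h2, hij]

lemma SY_mean (Y q r : ℕ) (hq : 0 < q) (hr : 0 < r) :
    ∑ ν ∈ range q, ∑ b ∈ range r, ‖SY Y (b / r + ν / q)‖ ^ 2 ≤
      q * r * Y + Nat.gcd q r * (Y : ℝ) ^ 2 := by
  rw [sum_comm]
  have h1 : ∀ b : ℕ, ∑ ν ∈ range q, ‖SY Y (b / r + ν / q)‖ ^ 2 =
      q * ∑ a ∈ range q, ‖∑ i ∈ (Icc 1 Y).filter (fun i => i % q = a), ee (i * b / r)‖ ^ 2 := by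
    intro b
    rw [← pars q hq (Icc 1 Y) (fun i => ee (i * b / r))]
    apply sum_congr rfl
    intro ν _
    unfold SY
    congr 2
    apply sum_congr rfl
    intro i _
    rw [← ls_ee_add]
    congr 1
    ring
  simp_rw [h1]
  rw [← mul_sum, sum_comm]
  have h2 : ∀ a : ℕ, ∑ b ∈ range r, ‖∑ i ∈ (Icc 1 Y).filter (fun i => i % q = a), ee (i * b / r)‖ ^ 2 =
      r * ∑ a' ∈ range r, (((((Icc 1 Y).filter (fun i => i % q = a)).filter
        (fun i => i % r = a')).card : ℝ)) ^ 2 := by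
    intro a
    have := pars r hr ((Icc 1 Y).filter (fun i => i % q = a)) (fun _ => 1)
    simp only [one_mul, sum_const, nsmul_eq_mul, mul_one] at this
    rw [this]
    congr 1
    apply sum_congr rfl
    intro a' _
    rw [Complex.norm_natCast]
  simp_rw [h2]
  rw [← mul_sum]
  set L := Nat.lcm q r with hL
  have hL0 : 0 < L := Nat.lcm_pos hq hr
  have hcard : ∀ a a' : ℕ, (((((Icc 1 Y).filter (fun i => i % q = a)).filter
        (fun i => i % r = a')).card : ℝ)) ≤ Y / L + 1 := by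
    intro a a'
    set s := ((Icc 1 Y).filter (fun i => i % q = a)).filter (fun i => i % r = a') with hs
    rcases s.eq_empty_or_nonempty with he | ⟨i0, hi0⟩
    · rw [he, card_empty, Nat.cast_zero]
      positivity
    · have h3 : s.card ≤ Y / L + 1 := by
        apply card_le_of_congr s Y L _ (i0 % L)
        · intro i hi
          have hi' : i ≡ i0 [MOD q] := by
            rw [hs, mem_filter, mem_filter] at hi hi0
            exact hi.1.2.trans hi0.1.2.symm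
          have hi'' : i ≡ i0 [MOD r] := by
            rw [hs, mem_filter, mem_filter] at hi hi0
            exact hi.2.trans hi0.2.symm
          have hd : ((Nat.lcm q r : ℕ) : ℤ) ∣ (i0 : ℤ) - i := by
            have e1 := (Nat.modEq_iff_dvd).1 hi'
            have e2 := (Nat.modEq_iff_dvd).1 hi''
            exact Int.natCast_dvd.2 (Nat.lcm_dvd (Int.natCast_dvd.1 e1) (Int.natCast_dvd.1 e2))
          exact (Nat.modEq_iff_dvd).2 hd
        · rw [hs]
          exact (filter_subset _ _).trans (filter_subset _ _)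
      have h4 : ((Y / L : ℕ) : ℝ) ≤ Y / L := Nat.cast_div_le
      calc (s.card : ℝ) ≤ ((Y / L + 1 : ℕ) : ℝ) := by exact_mod_cast h3
        _ = ((Y / L : ℕ) : ℝ) + 1 := by push_cast; ring
        _ ≤ _ := by linarith
  have hsum : ∑ a ∈ range q, ∑ a' ∈ range r, (((((Icc 1 Y).filter (fun i => i % q = a)).filter
        (fun i => i % r = a')).card : ℝ)) = Y := by
    have h5 : ∀ a : ℕ, ∑ a' ∈ range r, (((((Icc 1 Y).filter (fun i => i % q = a)).filter
        (fun i => i % r = a')).card : ℝ)) = (((Icc 1 Y).filter (fun i => i % q = a)).card : ℝ) := by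
      intro a
      rw [card_eq_sum_card_fiberwise (f := fun i => i % r) (t := range r)]
      · push_cast; rfl
      · intro i _
        rw [coe_range, Set.mem_Iio]
        exact Nat.mod_lt _ hr
    simp_rw [h5]
    have : (Icc 1 Y).card = ∑ a ∈ range q, ((Icc 1 Y).filter (fun i => i % q = a)).card := by
      apply card_eq_sum_card_fiberwise
      intro i _
      rw [coe_range, Set.mem_Iio]
      exact Nat.mod_lt _ hq
    rw [Nat.card_Icc, add_tsub_cancel_right] at this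
    conv_rhs => rw [this]
    push_cast
    rfl
  have h6 : ∑ a ∈ range q, ∑ a' ∈ range r, (((((Icc 1 Y).filter (fun i => i % q = a)).filter
        (fun i => i % r = a')).card : ℝ)) ^ 2 ≤ (Y / L + 1) * Y := by
    calc _ ≤ ∑ a ∈ range q, ∑ a' ∈ range r, (Y / L + 1 : ℝ) * (((((Icc 1 Y).filter (fun i => i % q = a)).filter
        (fun i => i % r = a')).card : ℝ)) := by
          apply sum_le_sum
          intro a _
          apply sum_le_sum
          intro a' _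
          rw [pow_two]
          exact mul_le_mul_of_nonneg_right (hcard a a') (by positivity)
      _ = _ := by
          simp_rw [← mul_sum]
          rw [hsum]
  have hgl : (Nat.gcd q r : ℝ) * L = q * r := by
    have := Nat.gcd_mul_lcm q r
    exact_mod_cast this
  have hLR : (0 : ℝ) < L := by exact_mod_cast hL0
  calc (q : ℝ) * (r * ∑ a ∈ range q, ∑ a' ∈ range r, (((((Icc 1 Y).filter (fun i => i % q = a)).filter
        (fun i => i % r = a')).card : ℝ)) ^ 2) ≤ q * (r * ((Y / L + 1) * Y)) := by gcongr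
    _ = (q * r) * (Y / L * Y) + q * r * Y := by ring
    _ = q * r * Y + Nat.gcd q r * (Y : ℝ) ^ 2 := by
        rw [← hgl]
        field_simp
        ring

/-- Cauchy-Schwarz for double sums -/
lemma cs_double (s : Finset ℕ) (t : ℕ → Finset ℕ) (f h : ℕ → ℕ → ℝ) :
    (∑ r ∈ s, ∑ b ∈ t r, f r b * h r b) ^ 2 ≤
      (∑ r ∈ s, ∑ b ∈ t r, f r b ^ 2) * ∑ r ∈ s, ∑ b ∈ t r, h r b ^ 2 := by
  rw [sum_sigma', sum_sigma', sum_sigma']
  exact sum_mul_sq_le_sq_mul_sq _ _ _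

/-- the reduced residues -/
def red (r : ℕ) : Finset ℕ := (range r).filter (fun b => b.Coprime r)

lemma SY_sieve (Y R R1 : ℕ) (θ : ℝ) :
    ∑ r ∈ Ioc R1 R, ∑ b ∈ red r, ‖SY Y (b / r + θ)‖ ^ 2 ≤ 6 * (Y + (R : ℝ) ^ 2) * Y := by
  have h := additive_large_sieve Y R (fun n => ee (n * θ))
  simp only [ls_norm_ee, one_pow, sum_const, Nat.card_Icc, add_tsub_cancel_right, nsmul_eq_mul,
    mul_one] at h
  refine le_trans ?_ h
  have hsub : Ioc R1 R ⊆ Icc 1 R := by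
    intro r hr
    rw [mem_Ioc] at hr
    rw [mem_Icc]
    omega
  refine le_trans (sum_le_sum_of_subset_of_nonneg hsub (fun r _ _ => by positivity)) ?_
  apply le_of_eq
  apply sum_congr rfl
  intro r _
  apply sum_congr rfl
  intro b _
  unfold SY
  congr 2
  apply sum_congr rfl
  intro n _
  rw [← ls_ee_add]
  congr 1
  ring

/-- the sum of `μ² (r) / r` -/
noncomputable def LL (R1 R : ℕ) : ℝ := ∑ r ∈ Ioc R1 R, (mu r) ^ 2 / r

lemma wt_complex (R1 R m : ℕ) : ((wt R1 R m : ℝ) : ℂ) =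
    ∑ r ∈ Ioc R1 R, ((mu r / r : ℝ) : ℂ) * ∑ b ∈ red r, ee (m * b / r) := by
  unfold wt
  rw [Complex.ofReal_sum]
  apply sum_congr rfl
  intro r hr
  rw [mem_Ioc] at hr
  rw [Complex.ofReal_mul, ← cr_eq r m (by omega)]
  rfl

lemma F_le (Y R1 R : ℕ) (θ : ℝ) :
    ‖∑ m ∈ range (2 * Y), (((g Y m : ℝ) * wt R1 R m : ℝ) : ℂ) * ee (m * θ)‖ ≤
      ∑ r ∈ Ioc R1 R, ∑ b ∈ red r, (|mu r| / r * ‖SY Y (b / r + θ)‖) * ‖SY Y (b / r + θ)‖ := by
  have h1 : ∑ m ∈ range (2 * Y), (((g Y m : ℝ) * wt R1 R m : ℝ) : ℂ) * ee (m * θ) =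
      ∑ r ∈ Ioc R1 R, ∑ b ∈ red r, ((mu r / r : ℝ) : ℂ) *
        ∑ m ∈ range (2 * Y), ((g Y m : ℝ) : ℂ) * ee (m * (b / r + θ)) := by
    have h2 : ∀ m ∈ range (2 * Y), (((g Y m : ℝ) * wt R1 R m : ℝ) : ℂ) * ee (m * θ) =
        ∑ r ∈ Ioc R1 R, ∑ b ∈ red r, ((mu r / r : ℝ) : ℂ) *
          (((g Y m : ℝ) : ℂ) * ee (m * (b / r + θ))) := by
      intro m _
      rw [Complex.ofReal_mul, wt_complex, mul_sum, sum_mul]
      apply sum_congr rfl
      intro r _
      rw [mul_sum, mul_sum, sum_mul]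
      apply sum_congr rfl
      intro b _
      have : ee (m * (b / r + θ)) = ee (m * b / r) * ee (m * θ) := by
        rw [← ls_ee_add]
        congr 1
        ring
      rw [this]
      ring
    rw [sum_congr rfl h2, sum_comm]
    apply sum_congr rfl
    intro r _
    rw [sum_comm]
    apply sum_congr rfl
    intro b _
    rw [mul_sum]
  rw [h1]
  refine (norm_sum_le _ _).trans (sum_le_sum fun r _ => ?_)
  refine (norm_sum_le _ _).trans (sum_le_sum fun b _ => ?_)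
  rw [norm_mul, tentF, Complex.norm_real, Real.norm_eq_abs, abs_div, Nat.abs_cast]
  apply le_of_eq
  ring

theorem DD_bound (Y R1 R q : ℕ) (hq : 0 < q) :
    ∑ a ∈ range q, WW Y R1 R q a ^ 2 ≤ 6 * (Y + (R : ℝ) ^ 2) * (Y : ℝ) ^ 2 *
      (LL R1 R + (Y / q : ℝ) * ∑ r ∈ Ioc R1 R, (Nat.gcd q r : ℝ) / (r : ℝ) ^ 2) := by
  have hqR : (0 : ℝ) < q := by exact_mod_cast hq
  have h1 := pars q hq (range (2 * Y)) (fun m => (((g Y m : ℝ) * wt R1 R m : ℝ) : ℂ))
  have h2 : ∑ a ∈ range q, ‖∑ m ∈ (range (2 * Y)).filter (fun m => m % q = a),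
      (((g Y m : ℝ) * wt R1 R m : ℝ) : ℂ)‖ ^ 2 = ∑ a ∈ range q, WW Y R1 R q a ^ 2 := by
    apply sum_congr rfl
    intro a _
    rw [← Complex.ofReal_sum, Complex.norm_real, Real.norm_eq_abs, sq_abs]
    rfl
  rw [h2] at h1
  have h3 : ∀ ν ∈ range q, ‖∑ m ∈ range (2 * Y), (((g Y m : ℝ) * wt R1 R m : ℝ) : ℂ) * ee (m * ν / q)‖ ^ 2 ≤
      (∑ r ∈ Ioc R1 R, (mu r) ^ 2 / (r : ℝ) ^ 2 * ∑ b ∈ range r, ‖SY Y (b / r + ν / q)‖ ^ 2) *
        (6 * (Y + (R : ℝ) ^ 2) * Y) := by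
    intro ν _
    have e1 : ∑ m ∈ range (2 * Y), (((g Y m : ℝ) * wt R1 R m : ℝ) : ℂ) * ee (m * ν / q) =
        ∑ m ∈ range (2 * Y), (((g Y m : ℝ) * wt R1 R m : ℝ) : ℂ) * ee (m * (ν / q)) := by
      apply sum_congr rfl
      intro m _
      congr 2
      ring
    rw [e1]
    have e0 := pow_le_pow_left₀ (norm_nonneg _) (F_le Y R1 R (ν / q)) 2
    have e01 := cs_double (Ioc R1 R) red (fun r b => |mu r| / r * ‖SY Y (b / r + ν / q)‖)
      (fun r b => ‖SY Y (b / r + ν / q)‖)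
    have e02 : 0 ≤ ∑ r ∈ Ioc R1 R, (mu r) ^ 2 / (r : ℝ) ^ 2 *
        ∑ b ∈ range r, ‖SY Y (b / r + ν / q)‖ ^ 2 := by
      apply sum_nonneg
      intro r _
      apply mul_nonneg (by positivity)
      apply sum_nonneg
      intro b _
      positivity
    have e03 : 0 ≤ ∑ r ∈ Ioc R1 R, ∑ b ∈ red r, ‖SY Y (b / r + ν / q)‖ ^ 2 := by
      apply sum_nonneg
      intro r _
      apply sum_nonneg
      intro b _
      positivity
    refine e0.trans (e01.trans ?_)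
    apply mul_le_mul _ (SY_sieve Y R R1 (ν / q)) e03 e02
    apply sum_le_sum
    intro r _
    rw [mul_sum]
    have e2 : ∀ b : ℕ, (|mu r| / r * ‖SY Y (b / r + ν / q)‖) ^ 2 =
        (mu r) ^ 2 / (r : ℝ) ^ 2 * ‖SY Y (b / r + ν / q)‖ ^ 2 := by
      intro b
      rw [mul_pow, div_pow, sq_abs]
    simp_rw [e2]
    apply sum_le_sum_of_subset_of_nonneg (filter_subset _ _)
    intro b _ _
    positivity
  have h4 : ∑ ν ∈ range q, ‖∑ m ∈ range (2 * Y), (((g Y m : ℝ) * wt R1 R m : ℝ) : ℂ) * ee (m * ν / q)‖ ^ 2 ≤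
      (∑ r ∈ Ioc R1 R, (mu r) ^ 2 / (r : ℝ) ^ 2 * (q * r * Y + Nat.gcd q r * (Y : ℝ) ^ 2)) *
        (6 * (Y + (R : ℝ) ^ 2) * Y) := by
    refine (sum_le_sum h3).trans ?_
    rw [← sum_mul]
    apply mul_le_mul_of_nonneg_right _ (by positivity)
    rw [sum_comm]
    apply sum_le_sum
    intro r hr
    rw [mem_Ioc] at hr
    rw [← mul_sum]
    apply mul_le_mul_of_nonneg_left _ (by positivity)
    exact SY_mean Y q r hq (by omega)
  rw [h1] at h4
  have h5 : ∑ r ∈ Ioc R1 R, (mu r) ^ 2 / (r : ℝ) ^ 2 * (q * r * Y + Nat.gcd q r * (Y : ℝ) ^ 2) ≤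
      q * Y * (LL R1 R + (Y / q : ℝ) * ∑ r ∈ Ioc R1 R, (Nat.gcd q r : ℝ) / (r : ℝ) ^ 2) := by
    unfold LL
    rw [mul_sum, ← sum_add_distrib, mul_sum]
    apply sum_le_sum
    intro r hr
    rw [mem_Ioc] at hr
    have hr0 : (0 : ℝ) < r := by exact_mod_cast (by omega : 0 < r)
    have hm : (mu r) ^ 2 ≤ 1 := by
      rw [← sq_abs]
      exact pow_le_one₀ (abs_nonneg _) (abs_mu_le r)
    have e1 : (mu r) ^ 2 / (r : ℝ) ^ 2 * (q * r * Y + Nat.gcd q r * (Y : ℝ) ^ 2) =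
        q * Y * ((mu r) ^ 2 / r) + (mu r) ^ 2 * (Nat.gcd q r * (Y : ℝ) ^ 2 / (r : ℝ) ^ 2) := by
      field_simp
    have e2 : (q : ℝ) * Y * ((mu r) ^ 2 / r + Y / q * (Nat.gcd q r / (r : ℝ) ^ 2)) =
        q * Y * ((mu r) ^ 2 / r) + 1 * (Nat.gcd q r * (Y : ℝ) ^ 2 / (r : ℝ) ^ 2) := by
      field_simp
    rw [e1, e2]
    gcongr
  have h6 : (q : ℝ) * ∑ a ∈ range q, WW Y R1 R q a ^ 2 ≤ q * (6 * (Y + (R : ℝ) ^ 2) * (Y : ℝ) ^ 2 *
      (LL R1 R + (Y / q : ℝ) * ∑ r ∈ Ioc R1 R, (Nat.gcd q r : ℝ) / (r : ℝ) ^ 2)) := by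
    refine h4.trans ?_
    refine (mul_le_mul_of_nonneg_right h5 (by positivity)).trans (le_of_eq ?_)
    ring
  exact le_of_mul_le_mul_left h6 hqR

end Pool.Agent.H52
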