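import Mathlib
import Pool.Agent.H52.LB2

/-!
Arithmetic bounds: gcd sums, the size of the weight, sums of the weight over integers prime to `q`.
-/

set_option autoImplicit false

open Finset

namespace Pool.Agent.H52

lemma harm (n : ℕ) : ∑ k ∈ Icc 1 n, (1 / (k : ℝ)) ≤ 1 + Real.log n := by
  have h := harmonic_le_one_add_log n
  refine le_trans (le_of_eq ?_) h
  rw [harmonic_eq_sum_Icc]
  push_cast
  apply sum_congr rfl
  intro k _
  rw [one_div]

lemma log_nonneg' (n : ℕ) : 0 ≤ Real.log n := Real.log_natCast_nonneg n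

lemma harm_mult (d R : ℕ) (hd : 0 < d) :
    ∑ r ∈ (Icc 1 R).filter (fun r => d ∣ r), (1 / (r : ℝ)) ≤ (1 / d) * (1 + Real.log R) := by
  have h1 : ∑ r ∈ (Icc 1 R).filter (fun r => d ∣ r), (1 / (r : ℝ)) =
      ∑ k ∈ Icc 1 (R / d), (1 / (d : ℝ)) * (1 / (k : ℝ)) := by
    apply sum_nbij' (fun r => r / d) (fun k => d * k)
    · intro r hr
      rw [mem_filter, mem_Icc] at hr
      rw [mem_Icc]
      obtain ⟨k, hk⟩ := hr.2
      subst hk
      rw [Nat.mul_div_cancel_left k hd]
      refine ⟨?_, ?_⟩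
      · rcases Nat.eq_zero_or_pos k with h | h
        · subst h; simp at hr
        · exact h
      · rw [Nat.le_div_iff_mul_le hd]
        linarith [hr.1.2, mul_comm d k]
    · intro k hk
      rw [mem_Icc] at hk
      rw [mem_filter, mem_Icc]
      have h2 := hk.2
      rw [Nat.le_div_iff_mul_le hd] at h2
      refine ⟨⟨Nat.mul_pos hd hk.1, by linarith [mul_comm d k]⟩, Dvd.intro _ rfl⟩
    · intro r hr
      rw [mem_filter] at hr
      exact Nat.mul_div_cancel' hr.2
    · intro k _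
      exact Nat.mul_div_cancel_left k hd
    · intro r hr
      rw [mem_filter] at hr
      obtain ⟨k, hk⟩ := hr.2
      subst hk
      rw [Nat.mul_div_cancel_left k hd]
      push_cast
      rw [one_div_mul_one_div]
  rw [h1, ← mul_sum]
  apply mul_le_mul_of_nonneg_left _ (by positivity)
  refine (harm (R / d)).trans ?_
  have : Real.log ((R / d : ℕ) : ℝ) ≤ Real.log R := by
    rcases Nat.eq_zero_or_pos (R / d) with h | h
    · rw [h]; simp; exact Real.log_natCast_nonneg _
    · apply Real.log_le_log (by exact_mod_cast h)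
      exact_mod_cast Nat.div_le_self _ _
  linarith

/-- sums over `r` with a divisor sum -/
lemma div_sum_le (R1 R m : ℕ) :
    ∑ r ∈ Ioc R1 R, (1 / (r : ℝ)) * ∑ d ∈ m.divisors.filter (fun d => d ∣ r), (d : ℝ) ≤
      m.divisors.card * (1 + Real.log R) := by
  have h1 : ∀ r ∈ Ioc R1 R, (1 / (r : ℝ)) * ∑ d ∈ m.divisors.filter (fun d => d ∣ r), (d : ℝ) =
      ∑ d ∈ m.divisors, if d ∣ r then (d : ℝ) * (1 / (r : ℝ)) else 0 := by
    intro r _
    rw [mul_sum, sum_filter]
    apply sum_congr rfl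
    intro d _
    split_ifs
    · ring
    · rfl
  rw [sum_congr rfl h1, sum_comm]
  have h2 : ∀ d ∈ m.divisors, ∑ r ∈ Ioc R1 R, (if d ∣ r then (d : ℝ) * (1 / (r : ℝ)) else 0) ≤
      1 + Real.log R := by
    intro d hd
    have hd0 : 0 < d := Nat.pos_of_mem_divisors hd
    have hdR : (0 : ℝ) < d := by exact_mod_cast hd0
    rw [← sum_filter, ← mul_sum]
    have hsub : (Ioc R1 R).filter (fun r => d ∣ r) ⊆ (Icc 1 R).filter (fun r => d ∣ r) := by
      intro r hr
      rw [mem_filter, mem_Ioc] at hr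
      rw [mem_filter, mem_Icc]
      exact ⟨⟨by omega, hr.1.2⟩, hr.2⟩
    have h3 := (sum_le_sum_of_subset_of_nonneg (f := fun r : ℕ => (1 / (r : ℝ))) hsub
      (fun r _ _ => by positivity)).trans (harm_mult d R hd0)
    calc (d : ℝ) * ∑ r ∈ (Ioc R1 R).filter (fun r => d ∣ r), (1 / (r : ℝ)) ≤
        d * ((1 / d) * (1 + Real.log R)) := mul_le_mul_of_nonneg_left h3 hdR.le
      _ = _ := by field_simp
  refine (sum_le_sum h2).trans ?_
  rw [sum_const, nsmul_eq_mul]

lemma gcd_sum (R1 R q : ℕ) (hq : 0 < q) (hR1 : 0 < R1) :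
    ∑ r ∈ Ioc R1 R, (Nat.gcd q r : ℝ) / (r : ℝ) ^ 2 ≤
      (1 / R1) * (q.divisors.card * (1 + Real.log R)) := by
  have hR1R : (0 : ℝ) < R1 := by exact_mod_cast hR1
  have h1 : ∀ r ∈ Ioc R1 R, (Nat.gcd q r : ℝ) / (r : ℝ) ^ 2 ≤
      (1 / R1) * ((1 / (r : ℝ)) * ∑ d ∈ q.divisors.filter (fun d => d ∣ r), (d : ℝ)) := by
    intro r hr
    rw [mem_Ioc] at hr
    have hr0 : (0 : ℝ) < r := by exact_mod_cast (by omega : 0 < r)
    have h2 : (Nat.gcd q r : ℝ) ≤ ∑ d ∈ q.divisors.filter (fun d => d ∣ r), (d : ℝ) := by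
      apply single_le_sum (f := fun d : ℕ => (d : ℝ)) (fun d _ => by positivity)
      rw [mem_filter, Nat.mem_divisors]
      exact ⟨⟨Nat.gcd_dvd_left _ _, hq.ne'⟩, Nat.gcd_dvd_right _ _⟩
    have h3 : 1 / (r : ℝ) ≤ 1 / R1 := by
      apply one_div_le_one_div_of_le hR1R
      exact_mod_cast hr.1.le
    calc (Nat.gcd q r : ℝ) / (r : ℝ) ^ 2 = (1 / (r : ℝ)) * ((1 / (r : ℝ)) * Nat.gcd q r) := by
          field_simp
      _ ≤ (1 / R1) * ((1 / (r : ℝ)) * ∑ d ∈ q.divisors.filter (fun d => d ∣ r), (d : ℝ)) := by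
          gcongr
  refine (sum_le_sum h1).trans ?_
  rw [← mul_sum]
  exact mul_le_mul_of_nonneg_left (div_sum_le R1 R q) (by positivity)

lemma wt_le (R1 R m : ℕ) (hm : 0 < m) : |wt R1 R m| ≤ m.divisors.card * (1 + Real.log R) := by
  refine le_trans ?_ (div_sum_le R1 R m)
  unfold wt
  refine (abs_sum_le_sum_abs _ _).trans (sum_le_sum fun r hr => ?_)
  rw [mem_Ioc] at hr
  have hr0 : r ≠ 0 := by omega
  rw [abs_mul, abs_div, Nat.abs_cast]
  apply mul_le_mul _ _ (abs_nonneg _) (by positivity)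
  · gcongr
    exact abs_mu_le r
  · unfold cr
    refine (abs_sum_le_sum_abs _ _).trans ?_
    have h1 : r.divisors.filter (fun d => d ∣ m) = m.divisors.filter (fun d => d ∣ r) := by
      ext d
      simp only [mem_filter, Nat.mem_divisors]
      constructor
      · rintro ⟨⟨h1, _⟩, h2⟩; exact ⟨⟨h2, hm.ne'⟩, h1⟩
      · rintro ⟨⟨h1, _⟩, h2⟩; exact ⟨⟨h2, hr0⟩, h1⟩
    rw [h1]
    apply sum_le_sum
    intro d _
    rw [abs_mul, Nat.abs_cast]
    have := abs_mu_le (r / d)
    have hd : (0 : ℝ) ≤ d := by positivity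
    nlinarith

/-- the weight at a large prime -/
lemma wt_prime (R1 R p : ℕ) (hp : p.Prime) (hpR : R < p) : wt R1 R p = LL R1 R := by
  unfold wt LL
  apply sum_congr rfl
  intro r hr
  rw [mem_Ioc] at hr
  have hr0 : r ≠ 0 := by omega
  have h1 : r.divisors.filter (fun d => d ∣ p) = {1} := by
    ext d
    rw [mem_filter, Nat.mem_divisors, mem_singleton]
    constructor
    · rintro ⟨⟨h1, _⟩, h2⟩
      rcases (Nat.dvd_prime hp).1 h2 with h | h
      · exact h
      · exfalso
        have := Nat.le_of_dvd (Nat.pos_of_ne_zero hr0) h1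
        omega
    · rintro rfl
      exact ⟨⟨one_dvd _, hr0⟩, one_dvd _⟩
  unfold cr
  rw [h1, sum_singleton, Nat.div_one]
  push_cast
  ring

lemma div_lt_succ (n D : ℕ) (hD : 0 < D) : (n : ℝ) / D < ((n / D : ℕ) : ℝ) + 1 := by
  have hDR : (0 : ℝ) < D := by exact_mod_cast hD
  rw [div_lt_iff₀ hDR]
  have h1 := Nat.div_add_mod n D
  have h2 := Nat.mod_lt n hD
  have h3 : n < (n / D + 1) * D := by nlinarith
  exact_mod_cast h3

lemma count_mult (a Y D : ℕ) (hD : 0 < D) :
    |(((Ioc a (a + Y)).filter (fun m => D ∣ m)).card : ℝ) - Y / D| ≤ 1 := by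
  have hDR : (0 : ℝ) < D := by exact_mod_cast hD
  have h1 : ((Ioc a (a + Y)).filter (fun m => D ∣ m)).card + a / D = (a + Y) / D := by
    rw [← Nat.Ioc_filter_dvd_card_eq_div (a + Y) D, ← Nat.Ioc_filter_dvd_card_eq_div a D, add_comm,
      ← card_union_of_disjoint, ← filter_union]
    · congr 2
      ext m
      simp only [mem_union, mem_Ioc]
      omega
    · apply disjoint_filter_filter
      rw [disjoint_left]
      intro m hm hm'
      rw [mem_Ioc] at hm hm'
      omega
  have h2 : (((Ioc a (a + Y)).filter (fun m => D ∣ m)).card : ℝ) =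
      (((a + Y) / D : ℕ) : ℝ) - ((a / D : ℕ) : ℝ) := by
    rw [← h1]; push_cast; ring
  rw [h2]
  have e1 : (((a + Y) / D : ℕ) : ℝ) ≤ ((a + Y : ℕ) : ℝ) / D := Nat.cast_div_le
  have e2 : ((a + Y : ℕ) : ℝ) / D < (((a + Y) / D : ℕ) : ℝ) + 1 := div_lt_succ _ _ hD
  have e3 : ((a / D : ℕ) : ℝ) ≤ (a : ℝ) / D := Nat.cast_div_le
  have e4 : (a : ℝ) / D < ((a / D : ℕ) : ℝ) + 1 := div_lt_succ _ _ hD
  have e5 : ((a + Y : ℕ) : ℝ) / D = a / D + Y / D := by push_cast; ring
  rw [e5] at e1 e2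
  rw [abs_le]
  constructor <;> linarith

/-- the tent weight over multiples -/
lemma g_mult (Y D : ℕ) (hD : 0 < D) :
    |∑ m ∈ (range (2 * Y)).filter (fun m => D ∣ m), (g Y m : ℝ) - (Y : ℝ) ^ 2 / D| ≤ Y := by
  have h1 : ∑ m ∈ (range (2 * Y)).filter (fun m => D ∣ m), (g Y m : ℝ) =
      ∑ i ∈ Icc 1 Y, (((range Y).filter (fun j => D ∣ i + j)).card : ℝ) := by
    have h := g_conv Y (fun m => if D ∣ m then (1 : ℝ) else 0)
    have h2 : ∑ m ∈ (range (2 * Y)).filter (fun m => D ∣ m), (g Y m : ℝ) =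
        ∑ m ∈ range (2 * Y), g Y m • (if D ∣ m then (1 : ℝ) else 0) := by
      rw [sum_filter]
      apply sum_congr rfl
      intro m _
      split_ifs <;> simp
    rw [h2, ← h]
    apply sum_congr rfl
    intro i _
    rw [← sum_filter, sum_const, nsmul_eq_mul, mul_one]
  rw [h1]
  have hDR : (0 : ℝ) < D := by exact_mod_cast hD
  have h3 : ∀ i ∈ Icc 1 Y, |(((range Y).filter (fun j => D ∣ i + j)).card : ℝ) - Y / D| ≤ 1 := by
    intro i _
    have h4 : ((range Y).filter (fun j => D ∣ i + j)).card =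
        ((Ioc (i - 1) (i - 1 + Y)).filter (fun m => D ∣ m)).card ∨ i = 0 := by
      rcases Nat.eq_zero_or_pos i with h | h
      · right; exact h
      · left
        apply card_nbij' (fun j => i + j) (fun m => m - i)
        · intro j hj
          rw [mem_coe, mem_filter, mem_range] at hj
          rw [mem_coe, mem_filter, mem_Ioc]
          refine ⟨?_, hj.2⟩
          show i - 1 < i + j ∧ i + j ≤ i - 1 + Y
          omega
        · intro m hm
          rw [mem_coe, mem_filter, mem_Ioc] at hm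
          rw [mem_coe, mem_filter, mem_range]
          show m - i < Y ∧ D ∣ i + (m - i)
          refine ⟨by omega, ?_⟩
          rw [show i + (m - i) = m by omega]
          exact hm.2
        · intro j _
          show i + j - i = j
          omega
        · intro m hm
          rw [mem_coe, mem_filter, mem_Ioc] at hm
          show i + (m - i) = m
          omega
    rcases h4 with h4 | h4
    · rw [h4]
      exact count_mult (i - 1) Y D hD
    · rename_i hi
      rw [mem_Icc] at hi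
      omega
  have hY : (Y : ℝ) ^ 2 / D = ∑ _i ∈ Icc 1 Y, (Y : ℝ) / D := by
    rw [sum_const, Nat.card_Icc, add_tsub_cancel_right, nsmul_eq_mul]
    ring
  rw [hY, ← sum_sub_distrib]
  refine (abs_sum_le_sum_abs _ _).trans ((sum_le_sum h3).trans ?_)
  simp

end Pool.Agent.H52
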