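import Mathlib
import Pool.Agent.H52.LB3

/-!
The sum of the weight over the integers prime to `q`.
-/

set_option autoImplicit false

open Finset

namespace Pool.Agent.H52

lemma gcd_moebius (r e : ℕ) (hr : 0 < r) :
    ∑ d ∈ r.divisors, mu (r / d) * (Nat.gcd d e : ℝ) = if r ∣ e then (Nat.totient r : ℝ) else 0 := by
  have h := (ArithmeticFunction.sum_eq_iff_sum_mul_moebius_eq
    (f := fun n : ℕ => if n ∣ e then (Nat.totient n : ℝ) else 0) (g := fun n : ℕ => (Nat.gcd n e : ℝ))).1 ?_ r hr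
  · rw [← h, Nat.sum_divisorsAntidiagonal' (fun a b => ((ArithmeticFunction.moebius a : ℤ) : ℝ) * (Nat.gcd b e : ℝ))]
    rfl
  · intro n hn
    have h1 : ∑ i ∈ n.divisors, (if i ∣ e then (Nat.totient i : ℝ) else 0) =
        ∑ i ∈ (Nat.gcd n e).divisors, (Nat.totient i : ℝ) := by
      rw [← sum_filter]
      apply sum_congr _ (fun _ _ => rfl)
      ext d
      simp only [mem_filter, Nat.mem_divisors]
      constructor
      · rintro ⟨⟨h1, _⟩, h2⟩
        exact ⟨Nat.dvd_gcd h1 h2, (Nat.gcd_pos_of_pos_left _ hn).ne'⟩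
      · rintro ⟨h1, _⟩
        exact ⟨⟨h1.trans (Nat.gcd_dvd_left _ _), hn.ne'⟩, h1.trans (Nat.gcd_dvd_right _ _)⟩
    rw [h1]
    have h2 := Nat.sum_totient (Nat.gcd n e)
    exact_mod_cast h2

lemma sigma_le (r R : ℕ) (hr : 0 < r) (hR : r ≤ R) :
    (1 / (r : ℝ)) * ∑ d ∈ r.divisors, (d : ℝ) ≤ 1 + Real.log R := by
  have hrR : (0 : ℝ) < r := by exact_mod_cast hr
  rw [← Nat.sum_div_divisors r (fun d => (d : ℝ)), mul_sum]
  have h1 : ∀ d ∈ r.divisors, (1 / (r : ℝ)) * ((r / d : ℕ) : ℝ) ≤ 1 / d := by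
    intro d hd
    have hd0 : (0 : ℝ) < d := by exact_mod_cast Nat.pos_of_mem_divisors hd
    have : ((r / d : ℕ) : ℝ) ≤ r / d := Nat.cast_div_le
    calc (1 / (r : ℝ)) * ((r / d : ℕ) : ℝ) ≤ (1 / (r : ℝ)) * (r / d) := by gcongr
      _ = 1 / d := by field_simp
  refine (sum_le_sum h1).trans ?_
  have h2 : r.divisors ⊆ Icc 1 r := by
    intro d hd
    rw [mem_Icc]
    exact ⟨Nat.pos_of_mem_divisors hd, Nat.divisor_le hd⟩
  refine (sum_le_sum_of_subset_of_nonneg h2 (fun d _ _ => by positivity)).trans ?_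
  refine (harm r).trans ?_
  have : Real.log r ≤ Real.log R := Real.log_le_log hrR (by exact_mod_cast hR)
  linarith

/-- the main term -/
noncomputable def MT (R1 R e : ℕ) : ℝ :=
  ∑ r ∈ Ioc R1 R, (mu r / r) * ((1 / e) * if r ∣ e then (Nat.totient r : ℝ) else 0)

lemma sum_e (Y R1 R e : ℕ) (he : 0 < e) :
    |∑ m ∈ (range (2 * Y)).filter (fun m => e ∣ m), (g Y m : ℝ) * wt R1 R m - (Y : ℝ) ^ 2 * MT R1 R e| ≤
      Y * (R * (1 + Real.log R)) := by
  have heR : (0 : ℝ) < e := by exact_mod_cast he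
  -- expand
  have h1 : ∑ m ∈ (range (2 * Y)).filter (fun m => e ∣ m), (g Y m : ℝ) * wt R1 R m =
      ∑ r ∈ Ioc R1 R, (mu r / r) * ∑ d ∈ r.divisors, ((d : ℝ) * mu (r / d)) *
        ∑ m ∈ (range (2 * Y)).filter (fun m => Nat.lcm d e ∣ m), (g Y m : ℝ) := by
    have h2 : ∀ m ∈ (range (2 * Y)).filter (fun m => e ∣ m), (g Y m : ℝ) * wt R1 R m =
        ∑ r ∈ Ioc R1 R, ∑ d ∈ r.divisors, (mu r / r) * (((d : ℝ) * mu (r / d)) *
          (if d ∣ m then (g Y m : ℝ) else 0)) := by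
      intro m _
      unfold wt cr
      rw [mul_sum]
      apply sum_congr rfl
      intro r _
      rw [sum_filter, mul_sum, mul_sum]
      apply sum_congr rfl
      intro d _
      split_ifs
      · ring
      · ring
    rw [sum_congr rfl h2, sum_comm]
    apply sum_congr rfl
    intro r _
    rw [sum_comm, mul_sum]
    apply sum_congr rfl
    intro d _
    rw [← mul_sum, ← mul_sum]
    congr 2
    rw [sum_filter, sum_filter]
    apply sum_congr rfl
    intro m _
    by_cases h3 : e ∣ m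
    · by_cases h4 : d ∣ m
      · rw [if_pos h3, if_pos h4, if_pos (Nat.lcm_dvd h4 h3)]
      · rw [if_pos h3, if_neg h4, if_neg]
        intro h5
        exact h4 ((Nat.dvd_lcm_left d e).trans h5)
    · rw [if_neg h3, if_neg]
      intro h5
      exact h3 ((Nat.dvd_lcm_right d e).trans h5)
  have h2 : (Y : ℝ) ^ 2 * MT R1 R e = ∑ r ∈ Ioc R1 R, (mu r / r) * ∑ d ∈ r.divisors, ((d : ℝ) * mu (r / d)) *
        ((Y : ℝ) ^ 2 / Nat.lcm d e) := by
    unfold MT
    rw [mul_sum]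
    apply sum_congr rfl
    intro r hr
    rw [mem_Ioc] at hr
    rw [← gcd_moebius r e (by omega), mul_sum, mul_sum, mul_sum, mul_sum]
    apply sum_congr rfl
    intro d hd
    have hd0 : 0 < d := Nat.pos_of_mem_divisors hd
    have hdR : (0 : ℝ) < d := by exact_mod_cast hd0
    have h3 : (Nat.gcd d e : ℝ) * (Nat.lcm d e : ℝ) = d * e := by
      exact_mod_cast Nat.gcd_mul_lcm d e
    have h4 : (0 : ℝ) < Nat.lcm d e := by exact_mod_cast Nat.lcm_pos hd0 he
    have h5 : (Nat.gcd d e : ℝ) = d * e / Nat.lcm d e := by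
      rw [eq_div_iff h4.ne', h3]
    rw [h5]
    field_simp
  rw [h1, h2, ← sum_sub_distrib]
  refine (abs_sum_le_sum_abs _ _).trans ?_
  have h3 : ∀ r ∈ Ioc R1 R, |(mu r / r) * ∑ d ∈ r.divisors, ((d : ℝ) * mu (r / d)) *
        ∑ m ∈ (range (2 * Y)).filter (fun m => Nat.lcm d e ∣ m), (g Y m : ℝ) -
        (mu r / r) * ∑ d ∈ r.divisors, ((d : ℝ) * mu (r / d)) * ((Y : ℝ) ^ 2 / Nat.lcm d e)| ≤
        Y * (1 + Real.log R) := by
    intro r hr
    rw [mem_Ioc] at hr
    have hr0 : 0 < r := by omega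
    rw [← mul_sub, ← sum_sub_distrib, abs_mul, abs_div, Nat.abs_cast]
    have h4 : |∑ d ∈ r.divisors, (((d : ℝ) * mu (r / d)) *
        ∑ m ∈ (range (2 * Y)).filter (fun m => Nat.lcm d e ∣ m), (g Y m : ℝ) -
        ((d : ℝ) * mu (r / d)) * ((Y : ℝ) ^ 2 / Nat.lcm d e))| ≤ (∑ d ∈ r.divisors, (d : ℝ)) * Y := by
      rw [sum_mul]
      refine (abs_sum_le_sum_abs _ _).trans (sum_le_sum fun d hd => ?_)
      have hd0 : 0 < d := Nat.pos_of_mem_divisors hd
      rw [← mul_sub, abs_mul, abs_mul, Nat.abs_cast]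
      have h5 := g_mult Y (Nat.lcm d e) (Nat.lcm_pos hd0 he)
      have h6 := abs_mu_le (r / d)
      have h7 : (d : ℝ) * |mu (r / d)| ≤ d := by
        have : (0 : ℝ) ≤ d := by positivity
        nlinarith
      exact mul_le_mul h7 h5 (abs_nonneg _) (by positivity)
    calc |mu r| / r * _ ≤ 1 / r * ((∑ d ∈ r.divisors, (d : ℝ)) * Y) := by
          apply mul_le_mul _ h4 (abs_nonneg _) (by positivity)
          gcongr
          exact abs_mu_le r
      _ = Y * ((1 / r) * ∑ d ∈ r.divisors, (d : ℝ)) := by ring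
      _ ≤ Y * (1 + Real.log R) := by
          apply mul_le_mul_of_nonneg_left _ (by positivity)
          exact sigma_le r R hr0 hr.2
  refine (sum_le_sum h3).trans ?_
  rw [sum_const, Nat.card_Ioc, nsmul_eq_mul]
  have h8 : (((R - R1 : ℕ)) : ℝ) ≤ R := by exact_mod_cast Nat.sub_le _ _
  have h9 := log_nonneg' R
  calc ((R - R1 : ℕ) : ℝ) * (Y * (1 + Real.log R)) ≤ R * (Y * (1 + Real.log R)) := by gcongr
    _ = _ := by ring

lemma MT_le (R1 R q : ℕ) (hq : 0 < q) (hR1 : 0 < R1) (T : ℝ) (hT : (q.divisors.card : ℝ) ≤ T) :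
    ∑ e ∈ q.divisors, |MT R1 R e| ≤ T ^ 2 / R1 := by
  have hR1R : (0 : ℝ) < R1 := by exact_mod_cast hR1
  have h1 : ∀ e ∈ q.divisors, |MT R1 R e| ≤ T * (1 / R1) := by
    intro e he
    have he0 : 0 < e := Nat.pos_of_mem_divisors he
    have heR : (0 : ℝ) < e := by exact_mod_cast he0
    unfold MT
    refine (abs_sum_le_sum_abs _ _).trans ?_
    have h2 : ∀ r ∈ Ioc R1 R, |(mu r / r) * ((1 / e) * if r ∣ e then (Nat.totient r : ℝ) else 0)| ≤
        if r ∣ e then 1 / (R1 : ℝ) else 0 := by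
      intro r hr
      rw [mem_Ioc] at hr
      have hr0 : (0 : ℝ) < r := by exact_mod_cast (by omega : 0 < r)
      split_ifs with hd
      · rw [abs_mul, abs_div, Nat.abs_cast, abs_mul, Nat.abs_cast, abs_of_nonneg (by positivity : (0:ℝ) ≤ 1 / e)]
        have h3 : (Nat.totient r : ℝ) ≤ r := by exact_mod_cast Nat.totient_le r
        have h4 : (R1 : ℝ) ≤ e := by
          have := Nat.le_of_dvd he0 hd
          exact_mod_cast (by omega : R1 ≤ e)
        calc |mu r| / r * (1 / e * (Nat.totient r : ℝ)) ≤ 1 / r * (1 / R1 * r) := by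
              gcongr
              exact abs_mu_le r
          _ = 1 / R1 := by field_simp
      · simp
    refine (sum_le_sum h2).trans ?_
    rw [← sum_filter, sum_const, nsmul_eq_mul]
    apply mul_le_mul_of_nonneg_right _ (by positivity)
    refine le_trans ?_ hT
    have : (Ioc R1 R).filter (fun r => r ∣ e) ⊆ q.divisors := by
      intro r hr
      rw [mem_filter] at hr
      rw [Nat.mem_divisors]
      exact ⟨hr.2.trans (Nat.dvd_of_mem_divisors he), hq.ne'⟩
    exact_mod_cast card_le_card this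
  refine (sum_le_sum h1).trans ?_
  rw [sum_const, nsmul_eq_mul]
  have hT0 : 0 ≤ T := le_trans (by positivity) hT
  calc (q.divisors.card : ℝ) * (T * (1 / R1)) ≤ T * (T * (1 / R1)) := by gcongr
    _ = _ := by ring

/-- **the sum of the weight over the integers prime to `q`** -/
theorem mean_le (Y R1 R q : ℕ) (hq : 0 < q) (hR1 : 0 < R1) (T : ℝ) (hT : (q.divisors.card : ℝ) ≤ T) :
    |∑ m ∈ (range (2 * Y)).filter (fun m => m.Coprime q), (g Y m : ℝ) * wt R1 R m| ≤
      (Y : ℝ) ^ 2 * (T ^ 2 / R1) + T * (Y * (R * (1 + Real.log R))) := by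
  have h1 : ∑ m ∈ (range (2 * Y)).filter (fun m => m.Coprime q), (g Y m : ℝ) * wt R1 R m =
      ∑ e ∈ q.divisors, mu e * ∑ m ∈ (range (2 * Y)).filter (fun m => e ∣ m), (g Y m : ℝ) * wt R1 R m := by
    have h2 : ∀ m : ℕ, (if m.Coprime q then (g Y m : ℝ) * wt R1 R m else 0) =
        ∑ e ∈ q.divisors, mu e * (if e ∣ m then (g Y m : ℝ) * wt R1 R m else 0) := by
      intro m
      have h3 := coprime_ind m q hq
      have h4 : (if m.Coprime q then (g Y m : ℝ) * wt R1 R m else 0) =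
          (if m.Coprime q then (1 : ℝ) else 0) * ((g Y m : ℝ) * wt R1 R m) := by
        split_ifs <;> simp
      rw [h4, h3, sum_mul]
      apply sum_congr rfl
      intro e _
      split_ifs <;> simp
    rw [sum_filter, sum_congr rfl (fun m _ => h2 m), sum_comm]
    apply sum_congr rfl
    intro e _
    rw [← mul_sum, sum_filter]
  rw [h1]
  have hL := log_nonneg' R
  have h5 : ∀ e ∈ q.divisors, |mu e * ∑ m ∈ (range (2 * Y)).filter (fun m => e ∣ m), (g Y m : ℝ) * wt R1 R m| ≤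
      (Y : ℝ) ^ 2 * |MT R1 R e| + Y * (R * (1 + Real.log R)) := by
    intro e he
    have he0 : 0 < e := Nat.pos_of_mem_divisors he
    have h6 := sum_e Y R1 R e he0
    rw [abs_mul]
    have h7 := abs_mu_le e
    have h8 : |∑ m ∈ (range (2 * Y)).filter (fun m => e ∣ m), (g Y m : ℝ) * wt R1 R m| ≤
        (Y : ℝ) ^ 2 * |MT R1 R e| + Y * (R * (1 + Real.log R)) := by
      have h9 := abs_sub_abs_le_abs_sub (∑ m ∈ (range (2 * Y)).filter (fun m => e ∣ m), (g Y m : ℝ) * wt R1 R m)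
        ((Y : ℝ) ^ 2 * MT R1 R e)
      rw [abs_mul, abs_of_nonneg (by positivity : (0 : ℝ) ≤ (Y : ℝ) ^ 2)] at h9
      linarith
    calc |mu e| * _ ≤ 1 * _ := mul_le_mul_of_nonneg_right h7 (abs_nonneg _)
      _ ≤ _ := by rw [one_mul]; exact h8
  refine (abs_sum_le_sum_abs _ _).trans ((sum_le_sum h5).trans ?_)
  rw [sum_add_distrib, ← mul_sum, sum_const, nsmul_eq_mul]
  have h10 := MT_le R1 R q hq hR1 T hT
  gcongr

end Pool.Agent.H52
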