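import Mathlib
import Pool.Agent.H52.LB4

/-!
The off-diagonal terms.
-/

set_option autoImplicit false

open Finset

namespace Pool.Agent.H52

lemma s2 {A B X : Type*} (a : Finset A) (b : Finset B) (x : Finset X) (f : A → B → X → ℂ) :
    ∑ q ∈ a, ∑ p ∈ b, ∑ y ∈ x, f q p y = ∑ y ∈ x, ∑ q ∈ a, ∑ p ∈ b, f q p y := by
  have h1 : ∀ q ∈ a, ∑ p ∈ b, ∑ y ∈ x, f q p y = ∑ y ∈ x, ∑ p ∈ b, f q p y := by
    intro q _
    exact sum_comm
  rw [sum_congr rfl h1, sum_comm]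

lemma s3 {A B C X : Type*} (a : Finset A) (b : Finset B) (c : Finset C) (x : Finset X)
    (f : A → B → C → X → ℂ) :
    ∑ q ∈ a, ∑ p ∈ b, ∑ k ∈ c, ∑ y ∈ x, f q p k y = ∑ y ∈ x, ∑ q ∈ a, ∑ p ∈ b, ∑ k ∈ c, f q p k y := by
  have h1 : ∀ q ∈ a, ∑ p ∈ b, ∑ k ∈ c, ∑ y ∈ x, f q p k y = ∑ y ∈ x, ∑ p ∈ b, ∑ k ∈ c, f q p k y := by
    intro q _
    exact s2 b c x (f q)
  rw [sum_congr rfl h1, sum_comm]

/-- the bilinear form -/
lemma bil (N R1 R : ℕ) (hR1 : 0 < R1) (β a : ℕ → ℂ) (T : ℝ) (hT : 0 ≤ T)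
    (hβ : ∀ n ∈ Icc 1 N, ‖β n‖ ≤ 1) (ha : ∀ j ∈ Icc 1 N, ‖a j‖ ≤ T) :
    ∑ r ∈ Ioc R1 R, (1 / (r : ℝ)) * ∑ b ∈ red r, ‖∑ n ∈ Icc 1 N, β n * ee (n * b / r)‖ *
      ‖∑ j ∈ Icc 1 N, a j * ee (j * b / r)‖ ≤ 6 * (N + (R : ℝ) ^ 2) * N * T / R1 := by
  have hR1R : (0 : ℝ) < R1 := by exact_mod_cast hR1
  have h1 : ∑ r ∈ Ioc R1 R, (1 / (r : ℝ)) * ∑ b ∈ red r, ‖∑ n ∈ Icc 1 N, β n * ee (n * b / r)‖ *
      ‖∑ j ∈ Icc 1 N, a j * ee (j * b / r)‖ ≤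
      (1 / R1) * ∑ r ∈ Ioc R1 R, ∑ b ∈ red r, ‖∑ n ∈ Icc 1 N, β n * ee (n * b / r)‖ *
      ‖∑ j ∈ Icc 1 N, a j * ee (j * b / r)‖ := by
    rw [mul_sum]
    apply sum_le_sum
    intro r hr
    rw [mem_Ioc] at hr
    apply mul_le_mul_of_nonneg_right
    · apply one_div_le_one_div_of_le hR1R
      exact_mod_cast hr.1.le
    · apply sum_nonneg
      intro b _
      positivity
  refine h1.trans ?_
  have hsub : Ioc R1 R ⊆ Icc 1 R := by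
    intro r hr
    rw [mem_Ioc] at hr
    rw [mem_Icc]
    omega
  have h2 : ∀ α : ℕ → ℂ, ∑ r ∈ Ioc R1 R, ∑ b ∈ red r, ‖∑ n ∈ Icc 1 N, α n * ee (n * b / r)‖ ^ 2 ≤
      6 * (N + (R : ℝ) ^ 2) * ∑ n ∈ Icc 1 N, ‖α n‖ ^ 2 := by
    intro α
    refine le_trans ?_ (additive_large_sieve N R α)
    apply sum_le_sum_of_subset_of_nonneg hsub
    intro r _ _
    positivity
  have h3 : ∑ n ∈ Icc 1 N, ‖β n‖ ^ 2 ≤ N := by
    calc _ ≤ ∑ n ∈ Icc 1 N, (1 : ℝ) := by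
          apply sum_le_sum
          intro n hn
          exact pow_le_one₀ (norm_nonneg _) (hβ n hn)
      _ = N := by simp
  have h4 : ∑ n ∈ Icc 1 N, ‖a n‖ ^ 2 ≤ N * T ^ 2 := by
    calc _ ≤ ∑ n ∈ Icc 1 N, T ^ 2 := by
          apply sum_le_sum
          intro n hn
          exact pow_le_pow_left₀ (norm_nonneg _) (ha n hn) 2
      _ = N * T ^ 2 := by simp
  have h5 := cs_double (Ioc R1 R) red (fun r b => ‖∑ n ∈ Icc 1 N, β n * ee (n * b / r)‖)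
    (fun r b => ‖∑ j ∈ Icc 1 N, a j * ee (j * b / r)‖)
  have h6 : (∑ r ∈ Ioc R1 R, ∑ b ∈ red r, ‖∑ n ∈ Icc 1 N, β n * ee (n * b / r)‖ *
      ‖∑ j ∈ Icc 1 N, a j * ee (j * b / r)‖) ^ 2 ≤ (6 * (N + (R : ℝ) ^ 2) * N * T) ^ 2 := by
    refine h5.trans ?_
    have e1 : ∑ r ∈ Ioc R1 R, ∑ b ∈ red r, ‖∑ n ∈ Icc 1 N, β n * ee (n * b / r)‖ ^ 2 ≤
        6 * (N + (R : ℝ) ^ 2) * N := (h2 β).trans (mul_le_mul_of_nonneg_left h3 (by positivity))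
    have e2 : ∑ r ∈ Ioc R1 R, ∑ b ∈ red r, ‖∑ n ∈ Icc 1 N, a n * ee (n * b / r)‖ ^ 2 ≤
        6 * (N + (R : ℝ) ^ 2) * (N * T ^ 2) := (h2 a).trans (mul_le_mul_of_nonneg_left h4 (by positivity))
    have e3 : (0 : ℝ) ≤ ∑ r ∈ Ioc R1 R, ∑ b ∈ red r, ‖∑ n ∈ Icc 1 N, a n * ee (n * b / r)‖ ^ 2 := by
      apply sum_nonneg
      intro r _
      apply sum_nonneg
      intro b _
      positivity
    calc _ ≤ (6 * (N + (R : ℝ) ^ 2) * N) * (6 * (N + (R : ℝ) ^ 2) * (N * T ^ 2)) :=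
          mul_le_mul e1 e2 e3 (by positivity)
      _ = _ := by ring
  have h7 : (∑ r ∈ Ioc R1 R, ∑ b ∈ red r, ‖∑ n ∈ Icc 1 N, β n * ee (n * b / r)‖ *
      ‖∑ j ∈ Icc 1 N, a j * ee (j * b / r)‖) ≤ (6 * (N + (R : ℝ) ^ 2) * N * T) :=
    le_of_sq_le_sq h6 (by positivity)
  calc _ ≤ (1 / (R1 : ℝ)) * (6 * (N + (R : ℝ) ^ 2) * N * T) := mul_le_mul_of_nonneg_left h7 (by positivity)
    _ = _ := by ring

/-- the coefficients -/
noncomputable def aa (ε : ℕ → ℝ) (Q z j : ℕ) : ℝ :=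
  if j < z then ∑ q ∈ (Ioc Q (2 * Q)).filter (fun q => q ∣ j), ε q else 0

lemma aa_le (ε : ℕ → ℝ) (hε : ∀ q, |ε q| ≤ 1) (Q z j : ℕ) (hj : 0 < j) (T : ℝ)
    (hT : (j.divisors.card : ℝ) ≤ T) : |aa ε Q z j| ≤ T := by
  unfold aa
  split_ifs
  · refine (abs_sum_le_sum_abs _ _).trans ((sum_le_sum fun q _ => hε q).trans ?_)
    rw [sum_const, nsmul_eq_mul, mul_one]
    refine le_trans ?_ hT
    have : (Ioc Q (2 * Q)).filter (fun q => q ∣ j) ⊆ j.divisors := by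
      intro q hq
      rw [mem_filter] at hq
      rw [Nat.mem_divisors]
      exact ⟨hq.2, hj.ne'⟩
    exact_mod_cast card_le_card this
  · rw [abs_zero]
    exact le_trans (by positivity) hT

lemma aa_sum (ε : ℕ → ℝ) (N Q z : ℕ) (hz : z ≤ N + 1) (E : ℕ → ℂ) :
    ∑ q ∈ Ioc Q (2 * Q), ∑ k ∈ Icc 1 N, ((ε q : ℝ) : ℂ) * ((if k * q < z then (1 : ℂ) else 0) * E (k * q)) =
      ∑ j ∈ Icc 1 N, ((aa ε Q z j : ℝ) : ℂ) * E j := by
  have h1 : ∀ j ∈ Icc 1 N, ((aa ε Q z j : ℝ) : ℂ) * E j =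
      ∑ q ∈ Ioc Q (2 * Q), if q ∣ j ∧ j < z then ((ε q : ℝ) : ℂ) * E j else 0 := by
    intro j _
    unfold aa
    split_ifs with h
    · rw [Complex.ofReal_sum, sum_mul, sum_filter]
      apply sum_congr rfl
      intro q _
      by_cases h2 : q ∣ j <;> simp [h, h2]
    · rw [Complex.ofReal_zero, zero_mul]
      symm
      apply sum_eq_zero
      intro q _
      rw [if_neg]
      rintro ⟨_, h2⟩
      exact h h2
  have hsw : ∑ j ∈ Icc 1 N, ((aa ε Q z j : ℝ) : ℂ) * E j =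
      ∑ q ∈ Ioc Q (2 * Q), ∑ j ∈ Icc 1 N, if q ∣ j ∧ j < z then ((ε q : ℝ) : ℂ) * E j else 0 := by
    rw [sum_congr rfl h1, sum_comm]
  rw [hsw]
  apply sum_congr rfl
  intro q hq
  rw [mem_Ioc] at hq
  have hq0 : 0 < q := by omega
  rw [← sum_filter]
  have h2 : ∑ k ∈ Icc 1 N, ((ε q : ℝ) : ℂ) * ((if k * q < z then (1 : ℂ) else 0) * E (k * q)) =
      ∑ k ∈ (Icc 1 N).filter (fun k => k * q < z), ((ε q : ℝ) : ℂ) * E (k * q) := by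
    rw [sum_filter]
    apply sum_congr rfl
    intro k _
    split_ifs <;> simp
  rw [h2]
  apply sum_nbij' (fun k => k * q) (fun j => j / q)
  · intro k hk
    rw [mem_filter, mem_Icc] at hk
    rw [mem_filter, mem_Icc]
    have : 1 ≤ k * q := Nat.mul_pos hk.1.1 hq0
    refine ⟨⟨this, by omega⟩, Dvd.intro_left _ rfl, hk.2⟩
  · intro j hj
    rw [mem_filter, mem_Icc] at hj
    rw [mem_filter, mem_Icc]
    obtain ⟨⟨h3, h4⟩, h5, h6⟩ := hj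
    obtain ⟨k, hk⟩ := h5
    subst hk
    rw [Nat.mul_div_cancel_left k hq0]
    refine ⟨⟨?_, ?_⟩, by rw [mul_comm]; exact h6⟩
    · rcases Nat.eq_zero_or_pos k with h | h
      · subst h; simp at h3
      · exact h
    · have : k ≤ q * k := Nat.le_mul_of_pos_left k hq0
      omega
  · intro k _
    exact Nat.mul_div_cancel k hq0
  · intro j hj
    rw [mem_filter] at hj
    exact Nat.div_mul_cancel hj.2.1
  · intro k _
    rfl

/-- the primes up to `N` -/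
def Pr (N : ℕ) : Finset ℕ := (Icc 1 N).filter Nat.Prime

lemma gen {ι : Type*} (N R1 R Q : ℕ) (hR1 : 0 < R1) (S : Finset ι) (κ : ι → ℝ) (u : ι → ℕ → ℝ)
    (hu : ∀ t n, |u t n| ≤ 1) (z : ι → ℕ) (hz : ∀ t ∈ S, z t ≤ N + 1) (s : ℝ) (hs : s = 1 ∨ s = -1)
    (ε : ℕ → ℝ) (hε : ∀ q, |ε q| ≤ 1) (T : ℝ) (hT0 : 0 ≤ T)
    (hT : ∀ j ∈ Icc 1 N, (j.divisors.card : ℝ) ≤ T) (F : ℕ → ℝ)
    (hF : ∀ q ∈ Ioc Q (2 * Q), ((F q : ℝ) : ℂ) = ∑ p ∈ Pr N, ∑ k ∈ Icc 1 N,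
      (∑ t ∈ S, ((κ t * u t p : ℝ) : ℂ) * (if k * q < z t then (1 : ℂ) else 0)) *
        ∑ r ∈ Ioc R1 R, ((mu r / r : ℝ) : ℂ) * ∑ b ∈ red r, ee (p * b / r) * ee (s * (((k * q : ℕ) : ℝ) * b / r))) :
    |∑ q ∈ Ioc Q (2 * Q), ε q * F q| ≤ (∑ t ∈ S, |κ t|) * (6 * (N + (R : ℝ) ^ 2) * N * T / R1) := by
  have h1 : ((∑ q ∈ Ioc Q (2 * Q), ε q * F q : ℝ) : ℂ) =
      ∑ t ∈ S, ∑ r ∈ Ioc R1 R, ∑ b ∈ red r, (((κ t : ℝ) : ℂ) * ((mu r / r : ℝ) : ℂ)) *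
        ((∑ n ∈ Icc 1 N, ((if n.Prime then u t n else 0 : ℝ) : ℂ) * ee (n * b / r)) *
          (∑ j ∈ Icc 1 N, ((aa ε Q (z t) j : ℝ) : ℂ) * ee (s * ((j : ℝ) * b / r)))) := by
    have h2 : ((∑ q ∈ Ioc Q (2 * Q), ε q * F q : ℝ) : ℂ) =
        ∑ q ∈ Ioc Q (2 * Q), ∑ p ∈ Pr N, ∑ k ∈ Icc 1 N, ∑ t ∈ S, ∑ r ∈ Ioc R1 R, ∑ b ∈ red r,
          ((((κ t : ℝ) : ℂ) * ((mu r / r : ℝ) : ℂ)) * ((((u t p : ℝ) : ℂ) * ee (p * b / r)) *
            (((ε q : ℝ) : ℂ) * ((if k * q < z t then (1 : ℂ) else 0) * ee (s * (((k * q : ℕ) : ℝ) * b / r)))))) := by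
      rw [Complex.ofReal_sum]
      apply sum_congr rfl
      intro q hq
      rw [Complex.ofReal_mul, hF q hq, mul_sum]
      apply sum_congr rfl
      intro p _
      rw [mul_sum]
      apply sum_congr rfl
      intro k _
      rw [sum_mul, mul_sum]
      apply sum_congr rfl
      intro t _
      rw [mul_sum, mul_sum]
      apply sum_congr rfl
      intro r _
      rw [mul_sum, mul_sum, mul_sum]
      apply sum_congr rfl
      intro b _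
      push_cast
      ring
    rw [h2, s3]
    apply sum_congr rfl
    intro t ht
    rw [s3]
    apply sum_congr rfl
    intro r _
    rw [s3]
    apply sum_congr rfl
    intro b _
    rw [← aa_sum ε N Q (z t) (hz t ht) (fun j => ee (s * ((j : ℝ) * b / r)))]
    have h3 : ∑ n ∈ Icc 1 N, ((if n.Prime then u t n else 0 : ℝ) : ℂ) * ee (n * b / r) =
        ∑ p ∈ Pr N, ((u t p : ℝ) : ℂ) * ee (p * b / r) := by
      unfold Pr
      rw [sum_filter]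
      apply sum_congr rfl
      intro n _
      split_ifs <;> simp
    rw [h3, sum_comm, sum_mul, mul_sum]
    apply sum_congr rfl
    intro p _
    rw [mul_sum, mul_sum]
    apply sum_congr rfl
    intro q _
    rw [mul_sum, mul_sum]
  have h4 : |∑ q ∈ Ioc Q (2 * Q), ε q * F q| = ‖((∑ q ∈ Ioc Q (2 * Q), ε q * F q : ℝ) : ℂ)‖ := by
    rw [Complex.norm_real, Real.norm_eq_abs]
  rw [h4, h1, sum_mul]
  refine (norm_sum_le _ _).trans (sum_le_sum fun t _ => ?_)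
  have h5 := bil N R1 R hR1 (fun n => ((if n.Prime then u t n else 0 : ℝ) : ℂ))
    (fun j => ((aa ε Q (z t) j : ℝ) : ℂ)) T hT0
    (by
      intro n _
      rw [Complex.norm_real, Real.norm_eq_abs]
      split_ifs
      · exact hu t n
      · simp)
    (by
      intro j hj
      rw [Complex.norm_real, Real.norm_eq_abs]
      exact aa_le ε hε Q (z t) j (by rw [mem_Icc] at hj; omega) T (hT j hj))
  refine le_trans ?_ (mul_le_mul_of_nonneg_left h5 (abs_nonneg (κ t)))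
  rw [mul_sum]
  refine (norm_sum_le _ _).trans (sum_le_sum fun r _ => ?_)
  rw [mul_sum, mul_sum]
  refine (norm_sum_le _ _).trans (sum_le_sum fun b _ => ?_)
  rw [norm_mul, norm_mul, norm_mul, Complex.norm_real, Complex.norm_real, Real.norm_eq_abs, Real.norm_eq_abs,
    abs_div, Nat.abs_cast]
  have h6 : ‖∑ j ∈ Icc 1 N, ((aa ε Q (z t) j : ℝ) : ℂ) * ee (s * ((j : ℝ) * b / r))‖ =
      ‖∑ j ∈ Icc 1 N, ((aa ε Q (z t) j : ℝ) : ℂ) * ee (j * b / r)‖ := by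
    rcases hs with hs | hs
    · subst hs
      congr 1
      apply sum_congr rfl
      intro j _
      rw [one_mul]
    · subst hs
      rw [← RCLike.norm_conj, map_sum]
      congr 1
      apply sum_congr rfl
      intro j _
      rw [map_mul, ls_conj_ee, Complex.conj_ofReal]
      congr 2
      ring
  rw [h6]
  have h7 : |mu r| / (r : ℝ) ≤ 1 / r := by
    gcongr
    exact abs_mu_le r
  have h8 : 0 ≤ ‖∑ n ∈ Icc 1 N, ((if n.Prime then u t n else 0 : ℝ) : ℂ) * ee (n * b / r)‖ *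
      ‖∑ j ∈ Icc 1 N, ((aa ε Q (z t) j : ℝ) : ℂ) * ee (j * b / r)‖ := by positivity
  calc |κ t| * (|mu r| / (r : ℝ)) * _ ≤ |κ t| * (1 / r) * _ := by
        apply mul_le_mul_of_nonneg_right _ h8
        exact mul_le_mul_of_nonneg_left h7 (abs_nonneg _)
    _ = _ := by ring

end Pool.Agent.H52
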