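import Mathlib
import Pool.Agent.H52.EH3
import Pool.Agent.H52.LB5

/-!
Mean values of character sums over primes.
-/

set_option autoImplicit false

open Finset

namespace Pool.Agent.H52

open Classical BLB VI ArithmeticFunction

lemma card_prim (f : ℕ) (hf : 0 < f) :
    (((univ : Finset (DirichletCharacter ℂ f)).filter (fun χ => χ.IsPrimitive)).card : ℝ) ≤ Nat.totient f := by
  have : NeZero f := ⟨hf.ne'⟩
  have h : ((univ : Finset (DirichletCharacter ℂ f)).filter (fun χ => χ.IsPrimitive)).card ≤ Nat.totient f := by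
    refine (card_filter_le _ _).trans ?_
    rw [card_univ, ← Nat.card_eq_fintype_card]
    exact (DirichletCharacter.card_eq_totient_of_hasEnoughRootsOfUnity ℂ f).le
  exact_mod_cast h

/-- the mean over the primitive characters -/
noncomputable def Mn (f : ℕ) (G : DirichletCharacter ℂ f → ℝ) : ℝ :=
  (1 / (Nat.totient f : ℝ)) *
    ∑ ψ ∈ (univ : Finset (DirichletCharacter ℂ f)).filter (fun χ => χ.IsPrimitive), G ψ

lemma Mn_const (f : ℕ) (hf : 0 < f) (B : ℝ) (hB : 0 ≤ B) : Mn f (fun _ => B) ≤ B := by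
  unfold Mn
  rw [sum_const, nsmul_eq_mul]
  have h1 := card_prim f hf
  have h2 : (0 : ℝ) < Nat.totient f := by exact_mod_cast Nat.totient_pos.2 hf
  rw [one_div, ← mul_assoc, inv_mul_eq_div]
  calc _ ≤ 1 * B := by
        apply mul_le_mul_of_nonneg_right _ hB
        rw [div_le_one h2]
        exact h1
    _ = B := one_mul B

lemma Mn_mono (f : ℕ) (G H : DirichletCharacter ℂ f → ℝ) (h : ∀ ψ, ψ.IsPrimitive → G ψ ≤ H ψ) :
    Mn f G ≤ Mn f H := by
  unfold Mn
  apply mul_le_mul_of_nonneg_left _ (by positivity)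
  apply sum_le_sum
  intro ψ hψ
  rw [mem_filter] at hψ
  exact h ψ hψ.2

lemma Mn_add (f : ℕ) (G H : DirichletCharacter ℂ f → ℝ) : Mn f (fun ψ => G ψ + H ψ) = Mn f G + Mn f H := by
  unfold Mn
  rw [sum_add_distrib, mul_add]

lemma Mn_smul (f : ℕ) (c : ℝ) (G : DirichletCharacter ℂ f → ℝ) : Mn f (fun ψ => c * G ψ) = c * Mn f G := by
  unfold Mn
  rw [← mul_sum]
  ring

lemma Mn_sum {ι : Type*} (S : Finset ι) (f : ℕ) (G : ι → DirichletCharacter ℂ f → ℝ) :
    Mn f (fun ψ => ∑ j ∈ S, G j ψ) = ∑ j ∈ S, Mn f (G j) := by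
  unfold Mn
  rw [sum_comm, mul_sum]

lemma Mn_nonneg (f : ℕ) (G : DirichletCharacter ℂ f → ℝ) (h : ∀ ψ, 0 ≤ G ψ) : 0 ≤ Mn f G := by
  unfold Mn
  apply mul_nonneg (by positivity)
  exact sum_nonneg fun ψ _ => h ψ

/-- the bound for one dyadic block -/
noncomputable def BB (N U L F : ℕ) (T : ℝ) : ℝ :=
  (F + 1) * (4 * U * Real.log N * (Real.sqrt (2 * F) * (1 + Real.log (2 * F)))) +
    2 * (L * (L * (24 * (1 + Real.log (2 * F)) * (Real.sqrt N / F + 2 * Real.sqrt (N / U) + 2 * F) *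
      (Real.sqrt N * T ^ 2))))

theorem block_psi (N U y L F : ℕ) (hU : 1 ≤ U) (hUN : U * U * U ≤ N) (hy : y ≤ N) (hL : N < 2 ^ L)
    (hF : 2 ≤ F) (T : ℝ) (hT1 : 1 ≤ T) (hTd : ∀ m ∈ Icc 1 N, (m.divisors.card : ℝ) ≤ T)
    (hTl : Real.log N ≤ T) :
    ∑ f ∈ Icc F (2 * F), Mn f (fun ψ => ‖PsiS y f ψ‖) ≤ BB N U L F T := by
  have hlogN : 0 ≤ Real.log N := Real.log_natCast_nonneg N
  have hUU : U * U ≤ N := le_trans (Nat.le_mul_of_pos_right _ hU) hUN
  have hU0 : (0 : ℝ) < U := by exact_mod_cast hU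
  have hT0 : 0 ≤ T := by linarith
  have hF0 : (0 : ℝ) < F := by exact_mod_cast (by omega : 0 < F)
  have h1 : ∀ f ∈ Icc F (2 * F), Mn f (fun ψ => ‖PsiS y f ψ‖) ≤
      4 * U * Real.log N * (Real.sqrt (2 * F) * (1 + Real.log (2 * F))) +
      Mn f (fun ψ => ‖HypS (cI U) (fun _ => 1) U (U * U) y f ψ‖) +
      Mn f (fun ψ => ‖HypS (fun c => vonMangoldt c) (betaV U) U (N / U) y f ψ‖) := by
    intro f hf
    rw [mem_Icc] at hf
    have hf0 : (0 : ℝ) < f := by exact_mod_cast (by omega : 0 < f)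
    have hf2 : (f : ℝ) ≤ 2 * F := by exact_mod_cast hf.2
    have hlogf : 0 ≤ Real.log f := Real.log_natCast_nonneg f
    have hlogff : Real.log f ≤ Real.log (2 * F) := Real.log_le_log hf0 hf2
    have h2 := Mn_mono f _ _ (fun ψ hψ => psi_split N U y f hU hUU hy (by omega) ψ hψ)
    refine h2.trans ?_
    rw [Mn_add, Mn_add]
    gcongr
    refine (Mn_const f (by omega) _ (by positivity)).trans ?_
    gcongr
  refine (sum_le_sum h1).trans ?_
  rw [sum_add_distrib, sum_add_distrib]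
  unfold BB
  have c1 : ∑ f ∈ Icc F (2 * F), 4 * (U : ℝ) * Real.log N * (Real.sqrt (2 * F) * (1 + Real.log (2 * F))) =
      (F + 1) * (4 * U * Real.log N * (Real.sqrt (2 * F) * (1 + Real.log (2 * F)))) := by
    rw [sum_const, Nat.card_Icc, nsmul_eq_mul]
    congr 1
    have : 2 * F + 1 - F = F + 1 := by omega
    rw [this]
    push_cast
    ring
  have hcI : ∀ m ∈ Icc 1 N, |cI U m| ≤ T := by
    intro m hm
    rw [mem_Icc] at hm
    refine (cI_abs U m).trans (le_trans ?_ hTl)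
    apply Real.log_le_log (by exact_mod_cast hm.1)
    exact_mod_cast hm.2
  have hone : ∀ m ∈ Icc 1 N, |(fun _ : ℕ => (1 : ℝ)) m| ≤ T := by
    intro m _
    simpa using hT1
  have hvM : ∀ m ∈ Icc 1 N, |(fun c => vonMangoldt c : ℕ → ℝ) m| ≤ T := by
    intro m hm
    rw [mem_Icc] at hm
    rw [abs_of_nonneg vonMangoldt_nonneg]
    refine vonMangoldt_le_log.trans (le_trans ?_ hTl)
    apply Real.log_le_log (by exact_mod_cast hm.1)
    exact_mod_cast hm.2
  have hbe : ∀ m ∈ Icc 1 N, |betaV U m| ≤ T := fun m hm => (betaV_abs U m).trans (hTd m hm)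
  have hlog2F : 0 ≤ Real.log (2 * F) := Real.log_nonneg (by
    have : (2 : ℝ) ≤ F := by exact_mod_cast hF
    linarith)
  have c2 := hyp_sieve N U (U * U) y L hU hUU hy hL (cI U) (fun _ => 1) T hcI hone hT0 F (2 * F)
    (by omega) (by omega)
  have c3 := hyp_sieve N U (N / U) y L hU (Nat.div_le_self _ _) hy hL (fun c => vonMangoldt c) (betaV U) T
    hvM hbe hT0 F (2 * F) (by omega) (by omega)
  have hs1 : Real.sqrt ((U * U : ℕ) : ℝ) ≤ Real.sqrt (N / U) := by
    apply Real.sqrt_le_sqrt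
    rw [le_div_iff₀ hU0]
    exact_mod_cast hUN
  have hs2 : Real.sqrt ((N / U : ℕ) : ℝ) ≤ Real.sqrt (N / U) := by
    apply Real.sqrt_le_sqrt
    exact Nat.cast_div_le
  push_cast at c2 c3 hs1 hs2
  have c2' : ∑ f ∈ Icc F (2 * F), Mn f (fun ψ => ‖HypS (cI U) (fun _ => 1) U (U * U) y f ψ‖) ≤
      L * (L * (24 * (1 + Real.log (2 * F)) * (Real.sqrt N / F + 2 * Real.sqrt (N / U) + 2 * F) *
      (Real.sqrt N * T ^ 2))) := by
    refine c2.trans ?_
    gcongr
    linarith
  have c3' : ∑ f ∈ Icc F (2 * F), Mn f (fun ψ => ‖HypS (fun c => vonMangoldt c) (betaV U) U (N / U) y f ψ‖) ≤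
      L * (L * (24 * (1 + Real.log (2 * F)) * (Real.sqrt N / F + 2 * Real.sqrt (N / U) + 2 * F) *
      (Real.sqrt N * T ^ 2))) := by
    refine c3.trans ?_
    gcongr
    linarith
  rw [c1]
  linarith

/-- sums over primes with logarithmic weight -/
noncomputable def TS (y f : ℕ) (ψ : DirichletCharacter ℂ f) : ℂ :=
  ∑ p ∈ Pr y, ((Real.log p : ℝ) : ℂ) * ψ (p : ZMod f)

lemma TS_PsiS (y f : ℕ) (ψ : DirichletCharacter ℂ f) :
    ‖TS y f ψ‖ ≤ ‖PsiS y f ψ‖ + 2 * Real.sqrt y * Real.log y := by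
  rcases Nat.eq_zero_or_pos y with hy | hy
  · subst hy
    simp [TS, Pr]
  have h1 : PsiS y f ψ = TS y f ψ + ∑ n ∈ (Icc 1 y).filter (fun n => ¬ n.Prime),
      ((vonMangoldt n : ℝ) : ℂ) * ψ (n : ZMod f) := by
    unfold PsiS TS Pr
    rw [← sum_filter_add_sum_filter_not (Icc 1 y) (fun n => n.Prime)]
    congr 1
    apply sum_congr rfl
    intro p hp
    rw [mem_filter] at hp
    rw [vonMangoldt_apply_prime hp.2]
  have h2 : ‖∑ n ∈ (Icc 1 y).filter (fun n => ¬ n.Prime), ((vonMangoldt n : ℝ) : ℂ) * ψ (n : ZMod f)‖ ≤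
      2 * Real.sqrt y * Real.log y := by
    refine (norm_sum_le _ _).trans ?_
    have h3 := Chebyshev.psi_sub_theta_eq_sum_not_prime (y : ℝ)
    have h4 := Chebyshev.psi_sub_theta_le (x := (y : ℝ)) (by exact_mod_cast hy)
    rw [h3, Nat.floor_natCast] at h4
    refine le_trans ?_ h4
    have h5 : Icc 1 y = Ioc 0 y := by
      ext n
      simp only [mem_Icc, mem_Ioc]
      omega
    rw [h5]
    apply sum_le_sum
    intro n _
    rw [norm_mul, Complex.norm_real, Real.norm_of_nonneg vonMangoldt_nonneg]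
    exact mul_le_of_le_one_right vonMangoldt_nonneg (DirichletCharacter.norm_le_one _ _)
  have h3 : TS y f ψ = PsiS y f ψ - ∑ n ∈ (Icc 1 y).filter (fun n => ¬ n.Prime),
      ((vonMangoldt n : ℝ) : ℂ) * ψ (n : ZMod f) := by
    rw [h1]
    ring
  rw [h3]
  exact (norm_sub_le _ _).trans (by linarith)

/-- sums over primes -/
noncomputable def PS (y f : ℕ) (ψ : DirichletCharacter ℂ f) : ℂ := ∑ p ∈ Pr y, ψ (p : ZMod f)

lemma PS_TS (y f : ℕ) (hy : 2 ≤ y) (ψ : DirichletCharacter ℂ f) :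
    ‖PS y f ψ‖ ≤ 1 / Real.log y * ‖TS y f ψ‖ +
      ∑ j ∈ Ico 2 y, (1 / Real.log j - 1 / Real.log ((j + 1 : ℕ) : ℝ)) * ‖TS j f ψ‖ := by
  have hT : ∀ j : ℕ, 2 ≤ j → TS j f ψ = ∑ a ∈ Icc 2 j, (if a.Prime then ((Real.log a : ℝ) : ℂ) * ψ (a : ZMod f) else 0) := by
    intro j hj
    unfold TS Pr
    rw [sum_filter]
    symm
    apply sum_subset
    · intro a ha
      rw [mem_Icc] at *
      omega
    · intro a ha ha2
      rw [mem_Icc] at *
      have : a = 1 := by omega
      subst this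
      simp
  have hP : PS y f ψ = ∑ a ∈ Icc 2 y, (if a.Prime then ((Real.log a : ℝ) : ℂ) * ψ (a : ZMod f) else 0) *
      ((1 / Real.log a : ℝ) : ℂ) := by
    unfold PS Pr
    rw [sum_filter]
    symm
    have h1 : ∑ a ∈ Icc 2 y, (if a.Prime then ((Real.log a : ℝ) : ℂ) * ψ (a : ZMod f) else 0) *
      ((1 / Real.log a : ℝ) : ℂ) = ∑ a ∈ Icc 2 y, (if a.Prime then ψ (a : ZMod f) else 0) := by
      apply sum_congr rfl
      intro a ha
      rw [mem_Icc] at ha
      split_ifs
      · have : Real.log a ≠ 0 := (Real.log_pos (by exact_mod_cast (by omega : 1 < a))).ne'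
        have h2 : ((Real.log a : ℝ) : ℂ) ≠ 0 := by exact_mod_cast this
        rw [Complex.ofReal_div, Complex.ofReal_one]
        field_simp
      · simp
    rw [h1]
    apply sum_subset
    · intro a ha
      rw [mem_Icc] at *
      omega
    · intro a ha ha2
      rw [mem_Icc] at *
      have : a = 1 := by omega
      subst this
      simp [Nat.not_prime_one]
  rw [hP, abel_discrete _ _ 2 y hy, ← hT y hy]
  refine (norm_sub_le _ _).trans ?_
  apply add_le_add
  · rw [norm_mul, Complex.norm_real, Real.norm_of_nonneg]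
    have := Real.log_natCast_nonneg y
    positivity
  · refine (norm_sum_le _ _).trans (sum_le_sum fun j hj => ?_)
    rw [mem_Ico] at hj
    rw [← hT j hj.1, norm_mul, ← Complex.ofReal_sub, Complex.norm_real, Real.norm_eq_abs, abs_sub_comm]
    have h1 : 0 < Real.log j := Real.log_pos (by exact_mod_cast (by omega : 1 < j))
    have h2 : Real.log j ≤ Real.log ((j + 1 : ℕ) : ℝ) := by
      apply Real.log_le_log (by exact_mod_cast (by omega : 0 < j))
      exact_mod_cast Nat.le_succ j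
    rw [abs_of_nonneg]
    rw [sub_nonneg]
    exact one_div_le_one_div_of_le h1 h2

lemma tele_log (y : ℕ) (hy : 2 ≤ y) :
    1 / Real.log y + ∑ j ∈ Ico 2 y, (1 / Real.log j - 1 / Real.log ((j + 1 : ℕ) : ℝ)) = 1 / Real.log 2 := by
  induction y, hy using Nat.le_induction with
  | base => simp
  | succ n hn ih =>
    rw [sum_Ico_succ_top hn, ← ih]
    ring

/-- from `PsiS` to sums over primes -/
theorem block_PS (N : ℕ) (S : Finset ℕ) (hS : ∀ f ∈ S, 0 < f) (M : ℝ)
    (hM : ∀ y ≤ N, ∑ f ∈ S, Mn f (fun ψ => ‖PsiS y f ψ‖) ≤ M) (y : ℕ) (hy : y ≤ N) :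
    ∑ f ∈ S, Mn f (fun ψ => ‖PS y f ψ‖) ≤ 2 * (M + S.card * (2 * Real.sqrt N * Real.log N)) := by
  have hM0 : 0 ≤ M := le_trans (sum_nonneg fun f _ => Mn_nonneg f _ (fun ψ => norm_nonneg _)) (hM 0 (Nat.zero_le _))
  have hlogN : 0 ≤ Real.log N := Real.log_natCast_nonneg N
  rcases lt_or_ge y 2 with h | h
  · have : ∀ f ∈ S, Mn f (fun ψ => ‖PS y f ψ‖) = 0 := by
      intro f _
      have h0 : ∀ ψ : DirichletCharacter ℂ f, PS y f ψ = 0 := by
        intro ψ
        unfold PS Pr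
        rw [sum_filter]
        apply sum_eq_zero
        intro a ha
        rw [mem_Icc] at ha
        have : a = 1 := by omega
        subst this
        simp [Nat.not_prime_one]
      unfold Mn
      simp [h0]
    rw [sum_eq_zero this]
    positivity
  have hTS : ∀ j ≤ N, ∑ f ∈ S, Mn f (fun ψ => ‖TS j f ψ‖) ≤ M + S.card * (2 * Real.sqrt N * Real.log N) := by
    intro j hj
    calc ∑ f ∈ S, Mn f (fun ψ => ‖TS j f ψ‖) ≤
          ∑ f ∈ S, (Mn f (fun ψ => ‖PsiS j f ψ‖) + 2 * Real.sqrt N * Real.log N) := by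
          apply sum_le_sum
          intro f hf
          refine (Mn_mono f _ _ (fun ψ _ => TS_PsiS j f ψ)).trans ?_
          rw [Mn_add]
          gcongr
          refine (Mn_const f (hS f hf) _ (by
            have := Real.log_natCast_nonneg j
            positivity)).trans ?_
          rcases Nat.eq_zero_or_pos j with h0 | h0
          · subst h0
            simp only [Nat.cast_zero, Real.sqrt_zero, mul_zero, Real.log_zero]
            positivity
          · have h2 : (0 : ℝ) < j := by exact_mod_cast h0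
            gcongr
      _ ≤ _ := by
          rw [sum_add_distrib, sum_const, nsmul_eq_mul]
          gcongr
          exact hM j hj
  set M' := M + S.card * (2 * Real.sqrt N * Real.log N) with hM'
  have hM'0 : 0 ≤ M' := by positivity
  have h3 : ∀ f ∈ S, Mn f (fun ψ => ‖PS y f ψ‖) ≤ 1 / Real.log y * Mn f (fun ψ => ‖TS y f ψ‖) +
      ∑ j ∈ Ico 2 y, (1 / Real.log j - 1 / Real.log ((j + 1 : ℕ) : ℝ)) * Mn f (fun ψ => ‖TS j f ψ‖) := by
    intro f _
    refine (Mn_mono f _ _ (fun ψ _ => PS_TS y f h ψ)).trans (le_of_eq ?_)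
    rw [Mn_add, Mn_smul, Mn_sum]
    congr 1
    apply sum_congr rfl
    intro j _
    rw [Mn_smul]
  refine (sum_le_sum h3).trans ?_
  rw [sum_add_distrib, ← mul_sum, sum_comm]
  have hw : ∀ j ∈ Ico 2 y, 0 ≤ 1 / Real.log j - 1 / Real.log ((j + 1 : ℕ) : ℝ) := by
    intro j hj
    rw [mem_Ico] at hj
    have h1 : 0 < Real.log j := Real.log_pos (by exact_mod_cast (by omega : 1 < j))
    have h2 : Real.log j ≤ Real.log ((j + 1 : ℕ) : ℝ) := by
      apply Real.log_le_log (by exact_mod_cast (by omega : 0 < j))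
      exact_mod_cast Nat.le_succ j
    rw [sub_nonneg]
    exact one_div_le_one_div_of_le h1 h2
  have hlogy : 0 ≤ Real.log y := Real.log_natCast_nonneg y
  calc _ ≤ 1 / Real.log y * M' + ∑ j ∈ Ico 2 y, (1 / Real.log j - 1 / Real.log ((j + 1 : ℕ) : ℝ)) * M' := by
        apply add_le_add
        · exact mul_le_mul_of_nonneg_left (hTS y hy) (by positivity)
        · apply sum_le_sum
          intro j hj
          rw [← mul_sum]
          apply mul_le_mul_of_nonneg_left _ (hw j hj)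
          rw [mem_Ico] at hj
          exact hTS j (by omega)
    _ = (1 / Real.log 2) * M' := by rw [← sum_mul, ← add_mul, tele_log y h]
    _ ≤ 2 * M' := by
        apply mul_le_mul_of_nonneg_right _ hM'0
        rw [div_le_iff₀ (Real.log_pos (by norm_num))]
        have := Real.log_two_gt_d9
        linarith

end Pool.Agent.H52
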