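import Mathlib
import Pool.Agent.H52.EH4
import Pool.Agent.H52.LB4

/-!
The coefficients of the primitive characters in the Ramanujan expansion.
-/

set_option autoImplicit false

open Finset

namespace Pool.Agent.H52

/-- `n / φ(n)` -/
noncomputable def rf : ArithmeticFunction ℝ := ⟨fun n => (n : ℝ) / Nat.totient n, by simp⟩

lemma rf_apply (n : ℕ) : rf n = (n : ℝ) / Nat.totient n := rfl

lemma rf_mult : rf.IsMultiplicative := by
  rw [ArithmeticFunction.IsMultiplicative.iff_ne_zero]
  refine ⟨by simp [rf_apply], fun {m n} _ _ hmn => ?_⟩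
  simp only [rf_apply]
  rw [Nat.totient_mul hmn]
  push_cast
  rw [mul_div_mul_comm]

lemma mu_mul (a b : ℕ) (h : a.Coprime b) : mu (a * b) = mu a * mu b := by
  unfold mu
  rw [ArithmeticFunction.isMultiplicative_moebius.map_mul_of_coprime h]
  push_cast
  rfl

lemma mu_sq_one (a : ℕ) (h : Squarefree a) : mu a * mu a = 1 := by
  unfold mu
  rw [← pow_two, ← Int.cast_pow, ArithmeticFunction.moebius_sq, if_pos h]
  simp

lemma totient_sqfree (n : ℕ) (h : Squarefree n) : Nat.totient n = ∏ p ∈ n.primeFactors, (p - 1) := by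
  have h1 := Nat.totient_mul_prod_primeFactors n
  rw [Nat.prod_primeFactors_of_squarefree h, mul_comm] at h1
  exact Nat.eq_of_mul_eq_mul_left (Nat.pos_of_ne_zero h.ne_zero) h1

lemma J_eq (h : ℕ) (hs : Squarefree h) :
    |∑ e ∈ h.divisors, ((e : ℝ) / Nat.totient e) * mu (h / e)| = 1 / Nat.totient h := by
  have h1 : ∑ e ∈ h.divisors, ((e : ℝ) / Nat.totient e) * mu (h / e) =
      mu h * ∑ e ∈ h.divisors, ((ArithmeticFunction.moebius e : ℤ) : ℝ) * rf e := by
    rw [mul_sum]
    apply sum_congr rfl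
    intro e he
    obtain ⟨he1, he2⟩ := Nat.mem_divisors.1 he
    obtain ⟨c, rfl⟩ := he1
    have hc := Nat.coprime_of_squarefree_mul hs
    have he0 : 0 < e := Nat.pos_of_ne_zero (by rintro rfl; simp at he2)
    rw [Nat.mul_div_cancel_left c he0, mu_mul e c hc, rf_apply]
    have h2 := mu_sq_one e (hs.of_mul_left)
    have h3 : ((ArithmeticFunction.moebius e : ℤ) : ℝ) = mu e := rfl
    rw [h3]
    linear_combination (-(e : ℝ) / Nat.totient e * mu c) * h2
  rw [h1, ← rf_mult.prodPrimeFactors_one_sub_of_squarefree rf hs, abs_mul]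
  have h2 : |mu h| = 1 := by
    have := mu_sq_one h hs
    rw [← abs_mul_abs_self] at this
    nlinarith [abs_nonneg (mu h)]
  rw [h2, one_mul, abs_prod, totient_sqfree h hs]
  push_cast
  rw [one_div, ← prod_inv_distrib]
  apply prod_congr rfl
  intro p hp
  have hpp := Nat.prime_of_mem_primeFactors hp
  rw [rf_apply, Nat.totient_prime hpp]
  have h3 : ((p - 1 : ℕ) : ℝ) = p - 1 := by
    rw [Nat.cast_sub hpp.one_le]
    simp
  rw [h3]
  have h4 : (0 : ℝ) < p - 1 := by
    have : (1 : ℝ) < p := by exact_mod_cast hpp.one_lt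
    linarith
  have h5 : (1 : ℝ) - p / (p - 1) = - ((p : ℝ) - 1)⁻¹ := by
    field_simp
    ring
  rw [h5, abs_neg, abs_of_pos (by positivity)]

lemma J_le (n m : ℕ) (hs : Squarefree n) :
    |∑ e ∈ n.divisors.filter (fun e => m.Coprime e), ((e : ℝ) / Nat.totient e) * mu (n / e)| ≤
      (Nat.gcd n m : ℝ) / Nat.totient n := by
  have hn0 : 0 < n := Nat.pos_of_ne_zero hs.ne_zero
  obtain ⟨g, hg⟩ : ∃ g, g = Nat.gcd n m := ⟨_, rfl⟩
  obtain ⟨h, hh⟩ : ∃ h, n = g * h := by
    obtain ⟨h, hh⟩ := Nat.gcd_dvd_left n m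
    exact ⟨h, by rw [hg]; exact hh⟩
  have hg0 : 0 < g := by rw [hg]; exact Nat.gcd_pos_of_pos_left _ hn0
  have hh0 : 0 < h := Nat.pos_of_ne_zero (by rintro rfl; simp at hh; omega)
  have hgh : g.Coprime h := by
    rw [hh] at hs
    exact Nat.coprime_of_squarefree_mul hs
  have hgm : g ∣ m := by rw [hg]; exact Nat.gcd_dvd_right n m
  have hmh : m.Coprime h := by
    apply Nat.coprime_of_dvd
    intro k hk hkm hkh
    have h1 : k ∣ g := by
      rw [hg]
      exact Nat.dvd_gcd (by rw [hh]; exact Dvd.dvd.mul_left hkh g) hkm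
    have h2 : k ∣ Nat.gcd g h := Nat.dvd_gcd h1 hkh
    rw [hgh] at h2
    exact hk.one_lt.ne' (Nat.dvd_one.1 h2)
  have hset : n.divisors.filter (fun e => m.Coprime e) = h.divisors := by
    ext e
    rw [mem_filter, Nat.mem_divisors, Nat.mem_divisors]
    constructor
    · rintro ⟨⟨h1, _⟩, h2⟩
      refine ⟨?_, hh0.ne'⟩
      rw [hh] at h1
      exact Nat.Coprime.dvd_of_dvd_mul_left (Nat.Coprime.coprime_dvd_left hgm h2).symm h1
    · rintro ⟨h1, _⟩
      exact ⟨⟨by rw [hh]; exact Dvd.dvd.mul_left h1 g, hn0.ne'⟩, Nat.Coprime.coprime_dvd_right h1 hmh⟩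
  rw [hset]
  have h1 : ∑ e ∈ h.divisors, ((e : ℝ) / Nat.totient e) * mu (n / e) =
      mu g * ∑ e ∈ h.divisors, ((e : ℝ) / Nat.totient e) * mu (h / e) := by
    rw [mul_sum]
    apply sum_congr rfl
    intro e he
    obtain ⟨he1, _⟩ := Nat.mem_divisors.1 he
    have h2 : n / e = g * (h / e) := by rw [hh, Nat.mul_div_assoc g he1]
    rw [h2, mu_mul g (h / e) (Nat.Coprime.coprime_dvd_right (Nat.div_dvd_of_dvd he1) hgh)]
    ring
  have hsh : Squarefree h := by
    rw [hh] at hs
    exact hs.of_mul_right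
  rw [h1, abs_mul, J_eq h hsh, ← hg]
  have h2 := abs_mu_le g
  have h3 : (0 : ℝ) < Nat.totient h := by exact_mod_cast Nat.totient_pos.2 hh0
  have h4 : (0 : ℝ) < Nat.totient g := by exact_mod_cast Nat.totient_pos.2 hg0
  have h5 : (Nat.totient n : ℝ) = Nat.totient g * Nat.totient h := by
    rw [hh, Nat.totient_mul hgh]
    push_cast
    rfl
  rw [h5]
  have h6 : (Nat.totient g : ℝ) ≤ g := by exact_mod_cast Nat.totient_le g
  calc |mu g| * (1 / Nat.totient h) ≤ 1 * (1 / Nat.totient h) := mul_le_mul_of_nonneg_right h2 (by positivity)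
    _ = (Nat.totient g : ℝ) / (Nat.totient g * Nat.totient h) := by field_simp
    _ ≤ (g : ℝ) / (Nat.totient g * Nat.totient h) := by gcongr

/-- the inner sum of the coefficients -/
noncomputable def Din (f r m : ℕ) : ℝ :=
  ∑ d ∈ r.divisors.filter (fun d => f ∣ d ∧ m.Coprime d), ((d : ℝ) / Nat.totient d) * mu (r / d)

lemma Din_le (f n m : ℕ) (hs : Squarefree (f * n)) :
    |Din f (f * n) m| ≤ ((f : ℝ) / Nat.totient f) * ((Nat.gcd n m : ℝ) / Nat.totient n) := by
  have hf0 : 0 < f := Nat.pos_of_ne_zero (by rintro rfl; simp at hs)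
  have hn0 : 0 < n := Nat.pos_of_ne_zero (by rintro rfl; simp at hs)
  have hfn := Nat.coprime_of_squarefree_mul hs
  unfold Din
  by_cases hmf : m.Coprime f
  · have h1 : ∑ d ∈ (f * n).divisors.filter (fun d => f ∣ d ∧ m.Coprime d),
        ((d : ℝ) / Nat.totient d) * mu (f * n / d) =
        ((f : ℝ) / Nat.totient f) *
          ∑ e ∈ n.divisors.filter (fun e => m.Coprime e), ((e : ℝ) / Nat.totient e) * mu (n / e) := by
      rw [mul_sum]
      symm
      apply sum_bij (fun e _ => f * e)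
      · intro e he
        rw [mem_filter, Nat.mem_divisors] at he
        rw [mem_filter, Nat.mem_divisors]
        exact ⟨⟨Nat.mul_dvd_mul_left f he.1.1, by positivity⟩, Dvd.intro _ rfl, Nat.Coprime.mul_right hmf he.2⟩
      · intro a _ b _ hab
        exact Nat.eq_of_mul_eq_mul_left hf0 hab
      · intro d hd
        rw [mem_filter, Nat.mem_divisors] at hd
        obtain ⟨⟨h2, _⟩, ⟨e, rfl⟩, h4⟩ := hd
        refine ⟨e, ?_, rfl⟩
        rw [mem_filter, Nat.mem_divisors]
        exact ⟨⟨Nat.dvd_of_mul_dvd_mul_left hf0 h2, hn0.ne'⟩, Nat.Coprime.coprime_mul_left_right h4⟩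
      · intro e he
        rw [mem_filter, Nat.mem_divisors] at he
        have hfe : f.Coprime e := Nat.Coprime.coprime_dvd_right he.1.1 hfn
        rw [Nat.totient_mul hfe, Nat.mul_div_mul_left n e hf0]
        push_cast
        rw [mul_div_mul_comm]
        ring
    rw [h1, abs_mul, abs_of_nonneg (by positivity : (0 : ℝ) ≤ (f : ℝ) / Nat.totient f)]
    exact mul_le_mul_of_nonneg_left (J_le n m (hs.of_mul_right)) (by positivity)
  · have h1 : (f * n).divisors.filter (fun d => f ∣ d ∧ m.Coprime d) = ∅ := by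
      rw [filter_eq_empty_iff]
      rintro d _ ⟨h2, h3⟩
      exact hmf (Nat.Coprime.coprime_dvd_right h2 h3)
    rw [h1, sum_empty, abs_zero]
    positivity

/-- the coefficients -/
noncomputable def BF (R1 R f m : ℕ) : ℝ :=
  ∑ r ∈ (Ioc R1 R).filter (fun r => f ∣ r), (mu r / r) * Din f r m

lemma BF_le (R1 R f m : ℕ) (hf : 0 < f) :
    |BF R1 R f m| ≤ (1 / Nat.totient f) * ∑ n ∈ Ioc (R1 / f) R, (Nat.gcd n m : ℝ) / (n * Nat.totient n) := by
  unfold BF
  have hfR : (0 : ℝ) < f := by exact_mod_cast hf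
  refine (abs_sum_le_sum_abs _ _).trans ?_
  have h1 : ∀ r ∈ (Ioc R1 R).filter (fun r => f ∣ r), |(mu r / r) * Din f r m| ≤
      (1 / Nat.totient f) * ((Nat.gcd (r / f) m : ℝ) / ((r / f : ℕ) * Nat.totient (r / f))) := by
    intro r hr
    rw [mem_filter, mem_Ioc] at hr
    obtain ⟨⟨h2, h3⟩, n, rfl⟩ := hr
    rw [Nat.mul_div_cancel_left n hf]
    by_cases hs : Squarefree (f * n)
    · have hn0 : 0 < n := Nat.pos_of_ne_zero (by rintro rfl; simp at hs)
      have hnR : (0 : ℝ) < n := by exact_mod_cast hn0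
      rw [abs_mul, abs_div, Nat.abs_cast]
      calc |mu (f * n)| / ((f * n : ℕ) : ℝ) * |Din f (f * n) m| ≤
            (1 / ((f * n : ℕ) : ℝ)) * (((f : ℝ) / Nat.totient f) * ((Nat.gcd n m : ℝ) / Nat.totient n)) := by
            apply mul_le_mul _ (Din_le f n m hs) (abs_nonneg _) (by positivity)
            apply div_le_div_of_nonneg_right (abs_mu_le _) (by positivity)
        _ = _ := by
            push_cast
            field_simp
    · have : mu (f * n) = 0 := by
        unfold mu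
        rw [ArithmeticFunction.moebius_eq_zero_of_not_squarefree hs]
        simp
      rw [this]
      simp only [zero_div, zero_mul, abs_zero]
      positivity
  refine (sum_le_sum h1).trans ?_
  rw [← mul_sum]
  apply mul_le_mul_of_nonneg_left _ (by positivity)
  have h2 : ∑ r ∈ (Ioc R1 R).filter (fun r => f ∣ r),
      ((Nat.gcd (r / f) m : ℝ) / ((r / f : ℕ) * Nat.totient (r / f))) =
      ∑ n ∈ ((Ioc R1 R).filter (fun r => f ∣ r)).image (fun r => r / f),
        (Nat.gcd n m : ℝ) / (n * Nat.totient n) := by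
    rw [sum_image]
    intro a ha b hb hab
    rw [mem_coe, mem_filter] at ha hb
    simp only at hab
    rw [← Nat.div_mul_cancel ha.2, hab, Nat.div_mul_cancel hb.2]
  rw [h2]
  apply sum_le_sum_of_subset_of_nonneg
  · intro n hn
    rw [mem_image] at hn
    obtain ⟨r, hr, rfl⟩ := hn
    rw [mem_filter, mem_Ioc] at hr
    obtain ⟨⟨h3, h4⟩, k, rfl⟩ := hr
    rw [mem_Ioc, Nat.mul_div_cancel_left k hf]
    constructor
    · rw [Nat.div_lt_iff_lt_mul hf, mul_comm]
      exact h3
    · exact (Nat.le_mul_of_pos_left k hf).trans h4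
  · intro n _ _
    positivity

end Pool.Agent.H52
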