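import Mathlib
import Pool.Agent.H52.LB5

/-!
The off-diagonal terms, for the tent weight.
-/

set_option autoImplicit false

open Finset

namespace Pool.Agent.H52

lemma ind_sum {α : Type*} (S : Finset α) (P Q : α → Prop) [DecidablePred P] [DecidablePred Q] :
    ∑ t ∈ S, (((1 : ℝ) * (if P t then (1 : ℝ) else 0) : ℝ) : ℂ) * (if Q t then (1 : ℂ) else 0) =
      ((S.filter (fun t => P t ∧ Q t)).card : ℂ) := by
  rw [card_filter]
  push_cast
  apply sum_congr rfl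
  intro t _
  by_cases h1 : P t <;> by_cases h2 : Q t <;> simp [h1, h2]

lemma cntA (A p v : ℕ) :
    ((range A).filter (fun t => p ≤ t ∧ v < A - t)).card = A - (p + v) := by
  have h : (range A).filter (fun t => p ≤ t ∧ v < A - t) = Ico p (A - v) := by
    ext t
    simp only [mem_filter, mem_range, mem_Ico]
    omega
  rw [h, Nat.card_Ico]
  omega

lemma cntB (N A p v : ℕ) (hp : p ≤ N) :
    ((range N).filter (fun t => t < p ∧ v < t + 1 - A)).card = p - v - A := by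
  have h : (range N).filter (fun t => t < p ∧ v < t + 1 - A) = Ico (v + A) p := by
    ext t
    simp only [mem_filter, mem_range, mem_Ico]
    omega
  rw [h, Nat.card_Ico]
  omega

lemma ee_split (p v b r : ℕ) : ee (((p + v : ℕ) : ℝ) * b / r) = ee (p * b / r) * ee (1 * ((v : ℝ) * b / r)) := by
  rw [← ls_ee_add]
  congr 1
  push_cast
  ring

lemma ee_split' (p v b r : ℕ) (h : v ≤ p) :
    ee (((p - v : ℕ) : ℝ) * b / r) = ee (p * b / r) * ee (-1 * ((v : ℝ) * b / r)) := by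
  rw [← ls_ee_add]
  congr 1
  push_cast [Nat.cast_sub h]
  ring

lemma genp (N R1 R Q A : ℕ) (hR1 : 0 < R1) (hA : A ≤ N) (ε : ℕ → ℝ) (hε : ∀ q, |ε q| ≤ 1) (T : ℝ)
    (hT0 : 0 ≤ T) (hT : ∀ j ∈ Icc 1 N, (j.divisors.card : ℝ) ≤ T) :
    |∑ q ∈ Ioc Q (2 * Q), ε q * ∑ p ∈ Pr N, ∑ k ∈ Icc 1 N,
      (((A - (p + k * q) : ℕ) : ℝ)) * wt R1 R (p + k * q)| ≤
      A * (6 * (N + (R : ℝ) ^ 2) * N * T / R1) := by
  have h := gen N R1 R Q hR1 (range A) (fun _ => (1 : ℝ)) (fun t n => if n ≤ t then (1 : ℝ) else 0)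
    (by intro t n; split_ifs <;> simp) (fun t => A - t)
    (by intro t _; omega) 1 (Or.inl rfl) ε hε T hT0 hT
    (fun q => ∑ p ∈ Pr N, ∑ k ∈ Icc 1 N, (((A - (p + k * q) : ℕ) : ℝ)) * wt R1 R (p + k * q))
    (by
      intro q _
      rw [Complex.ofReal_sum]
      apply sum_congr rfl
      intro p _
      rw [Complex.ofReal_sum]
      apply sum_congr rfl
      intro k _
      rw [Complex.ofReal_mul, wt_complex]
      congr 1
      · rw [ind_sum, cntA]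
        simp
      · apply sum_congr rfl
        intro r _
        congr 1
        apply sum_congr rfl
        intro b _
        exact ee_split p (k * q) b r)
  refine h.trans ?_
  simp

lemma genm (N R1 R Q A : ℕ) (hR1 : 0 < R1) (ε : ℕ → ℝ) (hε : ∀ q, |ε q| ≤ 1) (T : ℝ)
    (hT0 : 0 ≤ T) (hT : ∀ j ∈ Icc 1 N, (j.divisors.card : ℝ) ≤ T) :
    |∑ q ∈ Ioc Q (2 * Q), ε q * ∑ p ∈ Pr N, ∑ k ∈ Icc 1 N,
      (((p - k * q - A : ℕ) : ℝ)) * wt R1 R (p - k * q)| ≤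
      N * (6 * (N + (R : ℝ) ^ 2) * N * T / R1) := by
  have h := gen N R1 R Q hR1 (range N) (fun _ => (1 : ℝ)) (fun t n => if t < n then (1 : ℝ) else 0)
    (by intro t n; split_ifs <;> simp) (fun t => t + 1 - A)
    (by intro t ht; rw [mem_range] at ht; omega) (-1) (Or.inr rfl) ε hε T hT0 hT
    (fun q => ∑ p ∈ Pr N, ∑ k ∈ Icc 1 N, (((p - k * q - A : ℕ) : ℝ)) * wt R1 R (p - k * q))
    (by
      intro q _
      rw [Complex.ofReal_sum]
      apply sum_congr rfl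
      intro p hp
      have hpN : p ≤ N := by
        unfold Pr at hp
        rw [mem_filter, mem_Icc] at hp
        exact hp.1.2
      rw [Complex.ofReal_sum]
      apply sum_congr rfl
      intro k _
      rw [Complex.ofReal_mul, ind_sum, cntB N A p (k * q) hpN]
      by_cases hkq : k * q ≤ p
      · rw [wt_complex]
        congr 1
        apply sum_congr rfl
        intro r _
        congr 1
        apply sum_congr rfl
        intro b _
        exact ee_split' p (k * q) b r hkq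
      · have : p - k * q - A = 0 := by omega
        rw [this]
        simp)
  refine h.trans ?_
  simp

/-- the off-diagonal terms above the prime -/
noncomputable def Offp (N Y R1 R q : ℕ) : ℝ :=
  ∑ p ∈ Pr N, ∑ k ∈ Icc 1 N, (g Y (p + k * q) : ℝ) * wt R1 R (p + k * q)

/-- the off-diagonal terms below the prime -/
noncomputable def Offm (N Y R1 R q : ℕ) : ℝ :=
  ∑ p ∈ Pr N, ∑ k ∈ Icc 1 N, (g Y (p - k * q) : ℝ) * wt R1 R (p - k * q)

lemma g_up (Y m : ℕ) : (g Y m : ℝ) = ((2 * Y - m : ℕ) : ℝ) - 2 * ((Y - m : ℕ) : ℝ) := by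
  have h : g Y m + 2 * (Y - m) = 2 * Y - m := by unfold g; omega
  rw [← h]
  push_cast
  ring

lemma g_down (Y m : ℕ) (hm : m ≤ 2 * Y) : (g Y m : ℝ) = (m : ℝ) - 2 * ((m - Y : ℕ) : ℝ) := by
  have h : g Y m + 2 * (m - Y) = m := by unfold g; omega
  nth_rewrite 2 [← h]
  push_cast
  ring

theorem off_bound (N Y R1 R Q : ℕ) (hR1 : 0 < R1) (hY : 2 * Y ≤ N) (hY2 : N ≤ 2 * Y + 1) (_hQ : 0 < Q)
    (ε : ℕ → ℝ) (hε : ∀ q, |ε q| ≤ 1) (T : ℝ)
    (hT0 : 0 ≤ T) (hT : ∀ j ∈ Icc 1 N, (j.divisors.card : ℝ) ≤ T) :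
    |∑ q ∈ Ioc Q (2 * Q), ε q * (Offp N Y R1 R q + Offm N Y R1 R q)| ≤
      5 * N * (6 * (N + (R : ℝ) ^ 2) * N * T / R1) := by
  have hB : 0 ≤ 6 * (N + (R : ℝ) ^ 2) * N * T / R1 := by positivity
  set B := 6 * (N + (R : ℝ) ^ 2) * N * T / R1 with hBdef
  have p1 := genp N R1 R Q (2 * Y) hR1 hY ε hε T hT0 hT
  have p2 := genp N R1 R Q Y hR1 (by omega) ε hε T hT0 hT
  have m1 := genm N R1 R Q 0 hR1 ε hε T hT0 hT
  have m2 := genm N R1 R Q Y hR1 ε hε T hT0 hT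
  rw [← hBdef] at p1 p2 m1 m2
  have hp : ∀ q, Offp N Y R1 R q = (∑ p ∈ Pr N, ∑ k ∈ Icc 1 N,
      (((2 * Y - (p + k * q) : ℕ) : ℝ)) * wt R1 R (p + k * q)) - 2 * (∑ p ∈ Pr N, ∑ k ∈ Icc 1 N,
      (((Y - (p + k * q) : ℕ) : ℝ)) * wt R1 R (p + k * q)) := by
    intro q
    unfold Offp
    rw [mul_sum, ← sum_sub_distrib]
    apply sum_congr rfl
    intro p _
    rw [mul_sum, ← sum_sub_distrib]
    apply sum_congr rfl
    intro k _
    rw [g_up]
    ring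
  have hm : ∀ q ∈ Ioc Q (2 * Q), Offm N Y R1 R q = (∑ p ∈ Pr N, ∑ k ∈ Icc 1 N,
      (((p - k * q - 0 : ℕ) : ℝ)) * wt R1 R (p - k * q)) - 2 * (∑ p ∈ Pr N, ∑ k ∈ Icc 1 N,
      (((p - k * q - Y : ℕ) : ℝ)) * wt R1 R (p - k * q)) := by
    intro q hq
    rw [mem_Ioc] at hq
    unfold Offm
    rw [mul_sum, ← sum_sub_distrib]
    apply sum_congr rfl
    intro p hp
    have hpN : p ≤ N := by
      unfold Pr at hp
      rw [mem_filter, mem_Icc] at hp
      exact hp.1.2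
    rw [mul_sum, ← sum_sub_distrib]
    apply sum_congr rfl
    intro k hk
    rw [mem_Icc] at hk
    have : 1 ≤ k * q := Nat.mul_pos hk.1 (by omega)
    rw [g_down Y (p - k * q) (by omega)]
    simp only [Nat.sub_zero]
    ring
  have hS : ∑ q ∈ Ioc Q (2 * Q), ε q * (Offp N Y R1 R q + Offm N Y R1 R q) =
      (∑ q ∈ Ioc Q (2 * Q), ε q * ∑ p ∈ Pr N, ∑ k ∈ Icc 1 N,
        (((2 * Y - (p + k * q) : ℕ) : ℝ)) * wt R1 R (p + k * q)) -
      2 * (∑ q ∈ Ioc Q (2 * Q), ε q * ∑ p ∈ Pr N, ∑ k ∈ Icc 1 N,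
        (((Y - (p + k * q) : ℕ) : ℝ)) * wt R1 R (p + k * q)) +
      (∑ q ∈ Ioc Q (2 * Q), ε q * ∑ p ∈ Pr N, ∑ k ∈ Icc 1 N,
        (((p - k * q - 0 : ℕ) : ℝ)) * wt R1 R (p - k * q)) -
      2 * (∑ q ∈ Ioc Q (2 * Q), ε q * ∑ p ∈ Pr N, ∑ k ∈ Icc 1 N,
        (((p - k * q - Y : ℕ) : ℝ)) * wt R1 R (p - k * q)) := by
    rw [mul_sum, mul_sum, ← sum_sub_distrib, ← sum_add_distrib, ← sum_sub_distrib]
    apply sum_congr rfl
    intro q hq
    rw [hp q, hm q hq]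
    ring
  rw [hS]
  have hYR : 2 * (Y : ℝ) ≤ N := by exact_mod_cast hY
  have e1 : 2 * (Y : ℝ) * B ≤ N * B := mul_le_mul_of_nonneg_right hYR hB
  have p1' := abs_le.1 p1
  have p2' := abs_le.1 p2
  have m1' := abs_le.1 m1
  have m2' := abs_le.1 m2
  push_cast at p1'
  rw [abs_le]
  constructor <;> nlinarith [p1'.1, p1'.2, p2'.1, p2'.2, m1'.1, m1'.2, m2'.1, m2'.2, e1]

end Pool.Agent.H52
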