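import Mathlib
import Pool.Agent.H52.LB6

/-!
Splitting the residue class sums at a prime, and duality.
-/

set_option autoImplicit false

open Finset

namespace Pool.Agent.H52

lemma split_up (N Y q p : ℕ) (hq : 0 < q) (hY : 2 * Y ≤ N) (f : ℕ → ℝ)
    (hf : ∀ m, 2 * Y ≤ m → f m = 0) :
    ∑ m ∈ ((range (2 * Y)).filter (fun m => m % q = p % q)).filter (fun m => p < m), f m =
      ∑ k ∈ Icc 1 N, f (p + k * q) := by
  have h1 : ∑ k ∈ Icc 1 N, f (p + k * q) = ∑ k ∈ (Icc 1 N).filter (fun k => p + k * q < 2 * Y), f (p + k * q) := by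
    symm
    apply sum_filter_of_ne
    intro k _ hk
    by_contra hcon
    exact hk (hf _ (by omega))
  rw [h1]
  symm
  apply sum_nbij' (fun k => p + k * q) (fun m => (m - p) / q)
  · intro k hk
    simp only [mem_filter, mem_Icc] at hk
    simp only [mem_filter, mem_range]
    have : 1 ≤ k * q := Nat.mul_pos hk.1.1 hq
    refine ⟨⟨hk.2, ?_⟩, by omega⟩
    rw [Nat.add_mul_mod_self_right]
  · intro m hm
    simp only [mem_filter, mem_range] at hm
    simp only [mem_filter, mem_Icc]
    obtain ⟨⟨h2, h3⟩, h4⟩ := hm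
    have h5 : q ∣ m - p := (Nat.modEq_iff_dvd' h4.le).1 h3.symm
    obtain ⟨k, hk⟩ := h5
    rw [hk, Nat.mul_div_cancel_left k hq]
    have hk0 : 0 < k := by
      rcases Nat.eq_zero_or_pos k with h | h
      · subst h; omega
      · exact h
    have hkk : k ≤ q * k := Nat.le_mul_of_pos_left k hq
    refine ⟨⟨hk0, by omega⟩, ?_⟩
    rw [mul_comm k q, ← hk]
    omega
  · intro k hk
    simp only [Nat.add_sub_cancel_left]
    exact Nat.mul_div_cancel k hq
  · intro m hm
    simp only [mem_filter, mem_range] at hm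
    obtain ⟨⟨h2, h3⟩, h4⟩ := hm
    have h5 : q ∣ m - p := (Nat.modEq_iff_dvd' h4.le).1 h3.symm
    rw [Nat.div_mul_cancel h5]
    omega
  · intro k _
    rfl

lemma split_down (N Y q p : ℕ) (hq : 0 < q) (hp : p ≤ N) (f : ℕ → ℝ)
    (hf : ∀ m, 2 * Y ≤ m → f m = 0) (hf0 : f 0 = 0) :
    ∑ m ∈ ((range (2 * Y)).filter (fun m => m % q = p % q)).filter (fun m => m < p), f m =
      ∑ k ∈ Icc 1 N, f (p - k * q) := by
  have h0 : ∑ m ∈ ((range (2 * Y)).filter (fun m => m % q = p % q)).filter (fun m => m < p), f m =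
      ∑ m ∈ (((range (2 * Y)).filter (fun m => m % q = p % q)).filter (fun m => m < p)).filter
        (fun m => 0 < m), f m := by
    symm
    apply sum_filter_of_ne
    intro m _ hm
    by_contra hcon
    have : m = 0 := by omega
    rw [this] at hm
    exact hm hf0
  have h1 : ∑ k ∈ Icc 1 N, f (p - k * q) =
      ∑ k ∈ (Icc 1 N).filter (fun k => k * q < p ∧ p - k * q < 2 * Y), f (p - k * q) := by
    symm
    apply sum_filter_of_ne
    intro k _ hk
    by_contra hcon
    rw [not_and_or] at hcon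
    rcases hcon with h | h
    · have : p - k * q = 0 := by omega
      rw [this] at hk
      exact hk hf0
    · exact hk (hf _ (by omega))
  rw [h0, h1]
  symm
  apply sum_nbij' (fun k => p - k * q) (fun m => (p - m) / q)
  · intro k hk
    simp only [mem_filter, mem_Icc] at hk
    simp only [mem_filter, mem_range]
    have : 1 ≤ k * q := Nat.mul_pos hk.1.1 hq
    refine ⟨⟨⟨hk.2.2, ?_⟩, by omega⟩, by omega⟩
    have h7 : p - k * q + k * q = p := by omega
    conv_rhs => rw [← h7]
    rw [Nat.add_mul_mod_self_right]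
  · intro m hm
    simp only [mem_filter, mem_range] at hm
    simp only [mem_filter, mem_Icc]
    obtain ⟨⟨⟨h2, h3⟩, h4⟩, h6⟩ := hm
    have h5 : q ∣ p - m := (Nat.modEq_iff_dvd' h4.le).1 h3
    obtain ⟨k, hk⟩ := h5
    rw [hk, Nat.mul_div_cancel_left k hq]
    have hk0 : 0 < k := by
      rcases Nat.eq_zero_or_pos k with h | h
      · subst h; omega
      · exact h
    have hkk : k ≤ q * k := Nat.le_mul_of_pos_left k hq
    refine ⟨⟨hk0, by omega⟩, ?_, ?_⟩
    · rw [mul_comm k q, ← hk]
      omega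
    · rw [mul_comm k q, ← hk]
      omega
  · intro k hk
    simp only [mem_filter, mem_Icc] at hk
    have : p - (p - k * q) = k * q := by omega
    rw [this]
    exact Nat.mul_div_cancel k hq
  · intro m hm
    simp only [mem_filter, mem_range] at hm
    obtain ⟨⟨⟨h2, h3⟩, h4⟩, h6⟩ := hm
    have h5 : q ∣ p - m := (Nat.modEq_iff_dvd' h4.le).1 h3
    rw [Nat.div_mul_cancel h5]
    omega
  · intro k _
    rfl

lemma split_all (N Y q p : ℕ) (hq : 0 < q) (hp : p ≤ N) (hY : 2 * Y ≤ N) (f : ℕ → ℝ)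
    (hf : ∀ m, 2 * Y ≤ m → f m = 0) (hf0 : f 0 = 0) :
    ∑ m ∈ (range (2 * Y)).filter (fun m => m % q = p % q), f m =
      f p + ∑ k ∈ Icc 1 N, f (p + k * q) + ∑ k ∈ Icc 1 N, f (p - k * q) := by
  rw [← split_up N Y q p hq hY f hf, ← split_down N Y q p hq hp f hf hf0]
  have h1 : ∀ m ∈ (range (2 * Y)).filter (fun m => m % q = p % q), f m =
      (if m = p then f m else 0) + (if p < m then f m else 0) + (if m < p then f m else 0) := by
    intro m _
    rcases lt_trichotomy m p with h | h | h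
    · have e1 : ¬ (m = p) := by omega
      have e2 : ¬ (p < m) := by omega
      simp [h, e1, e2]
    · subst h
      simp
    · have e1 : ¬ (m = p) := by omega
      have e2 : ¬ (m < p) := by omega
      simp [h, e1, e2]
  rw [sum_congr rfl h1, sum_add_distrib, sum_add_distrib]
  rw [← sum_filter, ← sum_filter, ← sum_filter]
  congr 2
  rw [sum_filter, sum_ite_eq']
  split_ifs with h
  · rfl
  · symm
    apply hf
    by_contra hcon
    apply h
    rw [mem_filter, mem_range]
    exact ⟨by omega, rfl⟩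

lemma WW_split (N Y R1 R q p : ℕ) (hq : 0 < q) (hp : p ≤ N) (hY : 2 * Y ≤ N) :
    WW Y R1 R q (p % q) = (g Y p : ℝ) * wt R1 R p +
      ∑ k ∈ Icc 1 N, (g Y (p + k * q) : ℝ) * wt R1 R (p + k * q) +
      ∑ k ∈ Icc 1 N, (g Y (p - k * q) : ℝ) * wt R1 R (p - k * q) := by
  unfold WW
  exact split_all N Y q p hq hp hY (fun m => (g Y m : ℝ) * wt R1 R m)
    (by intro m hm; rw [g_big Y m hm]; simp) (by rw [g_zero]; simp)

/-- the sum over all primes -/
lemma WW_primes (N Y R1 R q : ℕ) (hq : 0 < q) (hY : 2 * Y ≤ N) :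
    ∑ p ∈ Pr N, WW Y R1 R q (p % q) = ∑ p ∈ Pr N, (g Y p : ℝ) * wt R1 R p +
      (Offp N Y R1 R q + Offm N Y R1 R q) := by
  unfold Offp Offm
  rw [← sum_add_distrib, ← sum_add_distrib]
  apply sum_congr rfl
  intro p hp
  unfold Pr at hp
  rw [mem_filter, mem_Icc] at hp
  rw [WW_split N Y R1 R q p hq hp.1.2 hY]
  ring

/-- the number of primes in a class -/
noncomputable def pc (N q b : ℕ) : ℝ := (((Icc 1 N).filter (fun p => Nat.Prime p ∧ p % q = b)).card : ℝ)

lemma cls_sum (N q : ℕ) (hq : 0 < q) (W : ℕ → ℝ) :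
    ∑ b ∈ (range q).filter (fun b => b.Coprime q), W b * pc N q b =
      ∑ p ∈ (Pr N).filter (fun p => p.Coprime q), W (p % q) := by
  have h1 : ∀ b ∈ (range q).filter (fun b => b.Coprime q), W b * pc N q b =
      ∑ p ∈ Pr N, if p % q = b then W (p % q) else 0 := by
    intro b _
    unfold pc Pr
    rw [← sum_filter, filter_filter]
    have : ∀ p ∈ (Icc 1 N).filter (fun p => Nat.Prime p ∧ p % q = b), W (p % q) = W b := by
      intro p hp
      rw [mem_filter] at hp
      rw [hp.2.2]
    rw [sum_congr rfl this, sum_const, nsmul_eq_mul, mul_comm]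
  rw [sum_congr rfl h1, sum_comm, sum_filter]
  apply sum_congr rfl
  intro p _
  rw [sum_ite_eq]
  have : (p % q ∈ (range q).filter (fun b => b.Coprime q)) ↔ p.Coprime q := by
    rw [mem_filter, mem_range]
    constructor
    · intro h
      have := h.2
      unfold Nat.Coprime at *
      rwa [← Nat.gcd_rec, Nat.gcd_comm] at this
    · intro h
      refine ⟨Nat.mod_lt _ hq, ?_⟩
      unfold Nat.Coprime at *
      rwa [← Nat.gcd_rec, Nat.gcd_comm]
  by_cases h : p.Coprime q
  · rw [if_pos (this.2 h), if_pos h]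
  · rw [if_neg (fun hh => h (this.1 hh)), if_neg h]

lemma cop_sum (Y R1 R q : ℕ) (hq : 0 < q) :
    ∑ b ∈ (range q).filter (fun b => b.Coprime q), WW Y R1 R q b =
      ∑ m ∈ (range (2 * Y)).filter (fun m => m.Coprime q), (g Y m : ℝ) * wt R1 R m := by
  unfold WW
  have h1 : ∀ b ∈ (range q).filter (fun b => b.Coprime q),
      ∑ m ∈ (range (2 * Y)).filter (fun m => m % q = b), (g Y m : ℝ) * wt R1 R m =
      ∑ m ∈ range (2 * Y), if m % q = b then (g Y m : ℝ) * wt R1 R m else 0 := by
    intro b _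
    rw [sum_filter]
  rw [sum_congr rfl h1, sum_comm, sum_filter]
  apply sum_congr rfl
  intro p _
  rw [sum_ite_eq]
  have : (p % q ∈ (range q).filter (fun b => b.Coprime q)) ↔ p.Coprime q := by
    rw [mem_filter, mem_range]
    constructor
    · intro h
      have := h.2
      unfold Nat.Coprime at *
      rwa [← Nat.gcd_rec, Nat.gcd_comm] at this
    · intro h
      refine ⟨Nat.mod_lt _ hq, ?_⟩
      unfold Nat.Coprime at *
      rwa [← Nat.gcd_rec, Nat.gcd_comm]
  by_cases h : p.Coprime q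
  · rw [if_pos (this.2 h), if_pos h]
  · rw [if_neg (fun hh => h (this.1 hh)), if_neg h]

/-- the variance -/
noncomputable def VV (N q : ℕ) (c : ℝ) : ℝ :=
  ∑ b ∈ (range q).filter (fun b => b.Coprime q), (pc N q b - c) ^ 2

/-- duality -/
theorem duality (N Y R1 R q : ℕ) (hq : 0 < q) (c : ℝ) :
    |∑ p ∈ (Pr N).filter (fun p => p.Coprime q), WW Y R1 R q (p % q) -
      c * ∑ m ∈ (range (2 * Y)).filter (fun m => m.Coprime q), (g Y m : ℝ) * wt R1 R m| ≤
      Real.sqrt (VV N q c * ∑ a ∈ range q, WW Y R1 R q a ^ 2) := by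
  rw [← cls_sum N q hq (WW Y R1 R q), ← cop_sum Y R1 R q hq, mul_sum, ← sum_sub_distrib]
  have h1 : ∀ b ∈ (range q).filter (fun b => b.Coprime q),
      WW Y R1 R q b * pc N q b - c * WW Y R1 R q b = (pc N q b - c) * WW Y R1 R q b := by
    intro b _
    ring
  rw [sum_congr rfl h1]
  apply Real.abs_le_sqrt
  refine (sum_mul_sq_le_sq_mul_sq _ _ _).trans ?_
  unfold VV
  apply mul_le_mul_of_nonneg_left
  · apply sum_le_sum_of_subset_of_nonneg (filter_subset _ _)
    intro b _ _
    positivity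
  · apply sum_nonneg
    intro b _
    positivity

end Pool.Agent.H52
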