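import Mathlib
import Pool.Agent.H52.LB7

/-!
The basic inequality for one modulus.
-/

set_option autoImplicit false

open Finset

namespace Pool.Agent.H52

/-- the weighted count of primes -/
noncomputable def GG (N Y R : ℕ) : ℝ := ∑ p ∈ (Pr N).filter (fun p => R < p), (g Y p : ℝ)

lemma logR_nonneg (R : ℕ) : 0 ≤ 1 + Real.log R := by
  have := log_nonneg' R
  linarith

lemma WW_le (Y R1 R q a : ℕ) (_hq : 0 < q) (T : ℝ) (hT0 : 0 ≤ T)
    (hT : ∀ m, 0 < m → m ≤ 2 * Y → (m.divisors.card : ℝ) ≤ T) :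
    |WW Y R1 R q a| ≤ (((2 * Y / q : ℕ) : ℝ) + 1) * (Y * (T * (1 + Real.log R))) := by
  unfold WW
  have hL := logR_nonneg R
  refine (abs_sum_le_sum_abs _ _).trans ?_
  have h1 : ∀ m ∈ (range (2 * Y)).filter (fun m => m % q = a), |(g Y m : ℝ) * wt R1 R m| ≤
      Y * (T * (1 + Real.log R)) := by
    intro m hm
    rw [mem_filter, mem_range] at hm
    rcases Nat.eq_zero_or_pos m with h | h
    · subst h
      rw [g_zero]
      simp only [Nat.cast_zero, zero_mul, abs_zero]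
      positivity
    · rw [abs_mul, Nat.abs_cast]
      have e1 : (g Y m : ℝ) ≤ Y := by exact_mod_cast g_le Y m
      have e2 := wt_le R1 R m h
      have e3 : (m.divisors.card : ℝ) * (1 + Real.log R) ≤ T * (1 + Real.log R) :=
        mul_le_mul_of_nonneg_right (hT m h (by omega)) hL
      exact mul_le_mul e1 (e2.trans e3) (abs_nonneg _) (by positivity)
  refine (sum_le_sum h1).trans ?_
  rw [sum_const, nsmul_eq_mul]
  apply mul_le_mul_of_nonneg_right _ (by positivity)
  have h2 : ((range (2 * Y)).filter (fun m => m % q = a)).card ≤ (range (2 * Y / q + 1)).card := by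
    apply card_le_card_of_injOn (fun m => m / q)
    · intro m hm
      rw [mem_coe, mem_filter, mem_range] at hm
      rw [mem_coe, mem_range]
      exact Nat.lt_succ_of_le (Nat.div_le_div_right hm.1.le)
    · intro m hm n hn hmn
      rw [mem_coe, mem_filter, mem_range] at hm hn
      have e1 := Nat.div_add_mod m q
      have e2 := Nat.div_add_mod n q
      simp only at hmn
      rw [hm.2] at e1
      rw [hn.2] at e2
      rw [← e1, ← e2, hmn]
  rw [card_range] at h2
  exact_mod_cast h2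

lemma bad_primes (N Y R1 R q : ℕ) (hq : 0 < q) (T : ℝ) (hT0 : 0 ≤ T)
    (hT : ∀ m, 0 < m → m ≤ 2 * Y → (m.divisors.card : ℝ) ≤ T) (hTq : (q.divisors.card : ℝ) ≤ T) :
    |∑ p ∈ (Pr N).filter (fun p => ¬ p.Coprime q), WW Y R1 R q (p % q)| ≤
      T * ((((2 * Y / q : ℕ) : ℝ) + 1) * (Y * (T * (1 + Real.log R)))) := by
  have hL := logR_nonneg R
  refine (abs_sum_le_sum_abs _ _).trans ?_
  refine (sum_le_sum fun p _ => WW_le Y R1 R q (p % q) hq T hT0 hT).trans ?_
  rw [sum_const, nsmul_eq_mul]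
  apply mul_le_mul_of_nonneg_right _ (by positivity)
  refine le_trans ?_ hTq
  have : (Pr N).filter (fun p => ¬ p.Coprime q) ⊆ q.divisors := by
    intro p hp
    unfold Pr at hp
    rw [mem_filter, mem_filter, mem_Icc] at hp
    rw [Nat.mem_divisors]
    refine ⟨?_, hq.ne'⟩
    by_contra hcon
    exact hp.2 ((Nat.Prime.coprime_iff_not_dvd hp.1.2).2 hcon)
  exact_mod_cast card_le_card this

lemma small_primes (N Y R1 R : ℕ) :
    |∑ p ∈ (Pr N).filter (fun p => ¬ R < p), (g Y p : ℝ) * wt R1 R p| ≤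
      R * (Y * (2 * (1 + Real.log R))) := by
  have hL := logR_nonneg R
  refine (abs_sum_le_sum_abs _ _).trans ?_
  have h1 : ∀ p ∈ (Pr N).filter (fun p => ¬ R < p), |(g Y p : ℝ) * wt R1 R p| ≤
      Y * (2 * (1 + Real.log R)) := by
    intro p hp
    unfold Pr at hp
    rw [mem_filter, mem_filter, mem_Icc] at hp
    rw [abs_mul, Nat.abs_cast]
    have e1 : (g Y p : ℝ) ≤ Y := by exact_mod_cast g_le Y p
    have e2 := wt_le R1 R p hp.1.2.pos
    have e3 : p.divisors.card = 2 := by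
      rw [Nat.Prime.divisors hp.1.2, card_pair hp.1.2.one_lt.ne]
    rw [e3] at e2
    push_cast at e2
    exact mul_le_mul e1 e2 (abs_nonneg _) (by positivity)
  refine (sum_le_sum h1).trans ?_
  rw [sum_const, nsmul_eq_mul]
  apply mul_le_mul_of_nonneg_right _ (by positivity)
  have : (Pr N).filter (fun p => ¬ R < p) ⊆ Icc 1 R := by
    intro p hp
    unfold Pr at hp
    rw [mem_filter, mem_filter, mem_Icc] at hp
    rw [mem_Icc]
    omega
  have h2 := card_le_card this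
  rw [Nat.card_Icc] at h2
  simp only [add_tsub_cancel_right] at h2
  exact_mod_cast h2

theorem key (N Y R1 R q : ℕ) (hq : 0 < q) (hY : 2 * Y ≤ N) (hR1 : 0 < R1) (T : ℝ) (hT0 : 0 ≤ T)
    (hT : ∀ m, 0 < m → m ≤ 2 * Y → (m.divisors.card : ℝ) ≤ T) (hTq : (q.divisors.card : ℝ) ≤ T)
    (c : ℝ) (hc : 0 ≤ c) :
    LL R1 R * GG N Y R ≤ Real.sqrt (VV N q c * ∑ a ∈ range q, WW Y R1 R q a ^ 2) +
      |Offp N Y R1 R q + Offm N Y R1 R q| +
      T * ((((2 * Y / q : ℕ) : ℝ) + 1) * (Y * (T * (1 + Real.log R)))) +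
      c * ((Y : ℝ) ^ 2 * (T ^ 2 / R1) + T * (Y * (R * (1 + Real.log R)))) +
      R * (Y * (2 * (1 + Real.log R))) := by
  have h1 := WW_primes N Y R1 R q hq hY
  have h2 : ∑ p ∈ Pr N, WW Y R1 R q (p % q) =
      ∑ p ∈ (Pr N).filter (fun p => p.Coprime q), WW Y R1 R q (p % q) +
      ∑ p ∈ (Pr N).filter (fun p => ¬ p.Coprime q), WW Y R1 R q (p % q) :=
    (sum_filter_add_sum_filter_not _ _ _).symm
  have h3 : ∑ p ∈ Pr N, (g Y p : ℝ) * wt R1 R p =
      ∑ p ∈ (Pr N).filter (fun p => R < p), (g Y p : ℝ) * wt R1 R p +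
      ∑ p ∈ (Pr N).filter (fun p => ¬ R < p), (g Y p : ℝ) * wt R1 R p :=
    (sum_filter_add_sum_filter_not _ _ _).symm
  have h4 : ∑ p ∈ (Pr N).filter (fun p => R < p), (g Y p : ℝ) * wt R1 R p = LL R1 R * GG N Y R := by
    unfold GG
    rw [mul_sum]
    apply sum_congr rfl
    intro p hp
    unfold Pr at hp
    rw [mem_filter, mem_filter, mem_Icc] at hp
    rw [wt_prime R1 R p hp.1.2 hp.2, mul_comm]
  have h5 := duality N Y R1 R q hq c
  have h6 := bad_primes N Y R1 R q hq T hT0 hT hTq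
  have h7 := small_primes N Y R1 R
  have h8 := mean_le Y R1 R q hq hR1 T hTq
  have h9 : c * |∑ m ∈ (range (2 * Y)).filter (fun m => m.Coprime q), (g Y m : ℝ) * wt R1 R m| ≤
      c * ((Y : ℝ) ^ 2 * (T ^ 2 / R1) + T * (Y * (R * (1 + Real.log R)))) :=
    mul_le_mul_of_nonneg_left h8 hc
  rw [h2] at h1
  rw [h3, h4] at h1
  have a1 := (abs_le.1 h5).2
  have a2 := (abs_le.1 h6).2
  have a3 := (abs_le.1 h7).1
  have a4 := neg_abs_le (Offp N Y R1 R q + Offm N Y R1 R q)
  have a5 := le_abs_self (∑ m ∈ (range (2 * Y)).filter (fun m => m.Coprime q), (g Y m : ℝ) * wt R1 R m)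
  have a6 := mul_le_mul_of_nonneg_left a5 hc
  linarith

end Pool.Agent.H52
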