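import Mathlib
import Pool.Agent.H52.EH5
import Pool.Agent.H52.LB8

/-!
The expansion of the weight in primitive characters.
-/

set_option autoImplicit false

open Finset

namespace Pool.Agent.H52

open Classical

lemma level_eq (m : ℕ) [NeZero m] (w : DirichletCharacter ℂ m → ℂ)
    (W : (f : ℕ) → DirichletCharacter ℂ f → ℂ)
    (hW : ∀ f (h : f ∣ m) (ψ : DirichletCharacter ℂ f),
      w (DirichletCharacter.changeLevel h ψ) = W f ψ) :
    ∑ χ : DirichletCharacter ℂ m, w χ =
      ∑ f ∈ m.divisors,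
        ∑ ψ ∈ (univ : Finset (DirichletCharacter ℂ f)).filter (fun χ => χ.IsPrimitive), W f ψ := by
  have h1 : ∀ χ ∈ (univ : Finset (DirichletCharacter ℂ m)), χ.conductor ∈ m.divisors := by
    intro χ _
    exact Nat.mem_divisors.mpr ⟨χ.conductor_dvd_level, NeZero.ne m⟩
  rw [← sum_fiberwise_of_maps_to h1]
  apply sum_congr rfl
  intro f hf
  have hfm := (Nat.mem_divisors.1 hf).1
  have h2 : ((univ : Finset (DirichletCharacter ℂ m)).filter (fun χ => χ.conductor = f)) =
      ((univ : Finset (DirichletCharacter ℂ f)).filter (fun χ => χ.IsPrimitive)).image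
        (DirichletCharacter.changeLevel hfm) := by
    ext χ
    rw [mem_filter, mem_image]
    constructor
    · rintro ⟨_, hc⟩
      subst hc
      exact ⟨χ.primitiveCharacter, by
        rw [mem_filter]; exact ⟨mem_univ _, χ.primitiveCharacter_isPrimitive⟩,
        χ.changeLevel_primitiveCharacter⟩
    · rintro ⟨ψ, hψ, rfl⟩
      rw [mem_filter] at hψ
      refine ⟨mem_univ _, ?_⟩
      rw [DirichletCharacter.conductor_changeLevel]
      exact hψ.2
  rw [h2, sum_image]
  · exact sum_congr rfl fun ψ _ => hW f hfm ψ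
  · intro x _ y _ hxy
    exact DirichletCharacter.changeLevel_injective hfm hxy

/-- sum over the primitive characters -/
noncomputable def ZF (f p : ℕ) (a : ℤ) : ℂ :=
  ∑ ψ ∈ (univ : Finset (DirichletCharacter ℂ f)).filter (fun χ => χ.IsPrimitive),
    ψ (p : ZMod f) * (starRingEnd ℂ) (ψ (a : ZMod f))

lemma ind_prim (d p : ℕ) (a : ℤ) (hd : 0 < d) (hp : p.Coprime d) (ha : IsCoprime a (d : ℤ)) :
    (if ((a : ℤ) : ZMod d) = (p : ZMod d) then (Nat.totient d : ℂ) else 0) =
      ∑ f ∈ d.divisors, ZF f p a := by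
  have : NeZero d := ⟨hd.ne'⟩
  have hau : IsUnit ((a : ℤ) : ZMod d) := by
    rw [← ZMod.coe_unitOfIsCoprime a ha]
    exact Units.isUnit _
  have hpi : IsCoprime (p : ℤ) (d : ℤ) := Nat.isCoprime_iff_coprime.2 hp
  have h1 := DirichletCharacter.sum_char_inv_mul_char_eq ℂ hau (p : ZMod d)
  rw [← h1]
  unfold ZF
  apply level_eq d (fun χ => χ (((a : ℤ) : ZMod d)⁻¹) * χ (p : ZMod d))
    (fun f ψ => ψ (p : ZMod f) * (starRingEnd ℂ) (ψ (a : ZMod f)))
  intro f h ψ
  have e1 : ∀ χ : DirichletCharacter ℂ d, χ (((a : ℤ) : ZMod d)⁻¹) = (starRingEnd ℂ) (χ ((a : ℤ) : ZMod d)) := by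
    intro χ
    obtain ⟨v, hv⟩ := hau
    rw [← hv, ← RCLike.star_def, MulChar.star_apply', MulChar.inv_apply, ZMod.inv_coe_unit, Ring.inverse_unit]
  have e2 := DirichletCharacter.changeLevel_eq_cast_of_dvd' ψ h hpi
  have e3 := DirichletCharacter.changeLevel_eq_cast_of_dvd' ψ h ha
  rw [e1, e3, mul_comm]
  congr 1
  have e4 : ((p : ℤ) : ZMod d) = (p : ZMod d) := by push_cast; rfl
  have e5 : ((p : ℤ) : ZMod f) = (p : ZMod f) := by push_cast; rfl
  rw [e4, e5] at e2
  exact e2

/-- the expansion of the weight -/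
theorem wt_expand (R1 R n p m : ℕ) (a : ℤ) (hp : p.Prime) (hpR : R < p) (ham : a.natAbs = m)
    (hn : (n : ℤ) = p - a) :
    ((wt R1 R n : ℝ) : ℂ) = ∑ f ∈ Icc 1 R, ((BF R1 R f m : ℝ) : ℂ) * ZF f p a := by
  have h1 : ∀ r ∈ Ioc R1 R, ((cr r n : ℝ) : ℂ) =
      ∑ f ∈ Icc 1 R, if f ∣ r then ((Din f r m : ℝ) : ℂ) * ZF f p a else 0 := by
    intro r hr
    rw [mem_Ioc] at hr
    have hr0 : 0 < r := by omega
    have h2 : ((cr r n : ℝ) : ℂ) = ∑ d ∈ r.divisors.filter (fun d => m.Coprime d),
        ((d / Nat.totient d * mu (r / d) : ℝ) : ℂ) * ∑ f ∈ d.divisors, ZF f p a := by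
      unfold cr
      rw [Complex.ofReal_sum]
      have h3 : (r.divisors.filter (fun d => d ∣ n)) =
          (r.divisors.filter (fun d => m.Coprime d)).filter (fun d => d ∣ n) := by
        ext d
        simp only [mem_filter]
        constructor
        · rintro ⟨h4, h5⟩
          refine ⟨⟨h4, ?_⟩, h5⟩
          by_contra hcon
          obtain ⟨l, hl, hlm, hld⟩ := Nat.Prime.not_coprime_iff_dvd.1 hcon
          have h6 : (l : ℤ) ∣ (p : ℤ) := by
            have e1 : (l : ℤ) ∣ n := by
              rw [Int.natCast_dvd_natCast]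
              exact hld.trans h5
            have e2 : (l : ℤ) ∣ a := by
              rw [Int.natCast_dvd, ham]
              exact hlm
            have e3 : (p : ℤ) = n + a := by rw [hn]; ring
            rw [e3]
            exact dvd_add e1 e2
          rw [Int.natCast_dvd_natCast] at h6
          have h7 : l = p := (Nat.prime_dvd_prime_iff_eq hl hp).1 h6
          have h8 : d ≤ r := Nat.divisor_le h4
          have h9 : l ≤ d := Nat.le_of_dvd (Nat.pos_of_mem_divisors h4) hld
          omega
        · rintro ⟨⟨h4, _⟩, h5⟩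
          exact ⟨h4, h5⟩
      rw [h3, sum_filter]
      apply sum_congr rfl
      intro d hd
      rw [mem_filter] at hd
      have hd0 : 0 < d := Nat.pos_of_mem_divisors hd.1
      have hdr : d ≤ r := Nat.divisor_le hd.1
      have hpd : p.Coprime d := by
        rw [hp.coprime_iff_not_dvd]
        intro hcon
        have := Nat.le_of_dvd hd0 hcon
        omega
      have had : IsCoprime a (d : ℤ) := by
        rw [Int.isCoprime_iff_gcd_eq_one, Int.gcd, Int.natAbs_natCast, ham]
        exact hd.2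
      rw [← ind_prim d p a hd0 hpd had]
      have hφ : (Nat.totient d : ℂ) ≠ 0 := by
        have := (Nat.totient_pos.2 hd0).ne'
        exact_mod_cast this
      have h4 : d ∣ n ↔ ((a : ℤ) : ZMod d) = (p : ZMod d) := by
        have e1 : ((n : ℕ) : ZMod d) = (p : ZMod d) - ((a : ℤ) : ZMod d) := by
          have := congrArg (fun z : ℤ => (z : ZMod d)) hn
          push_cast at this
          exact this
        rw [← ZMod.natCast_eq_zero_iff, e1, sub_eq_zero, eq_comm]
      by_cases h5 : d ∣ n
      · rw [if_pos h5, if_pos (h4.1 h5)]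
        push_cast
        field_simp
      · rw [if_neg h5, if_neg (fun h => h5 (h4.2 h)), mul_zero]
    rw [h2]
    have h3 : ∀ d ∈ r.divisors.filter (fun d => m.Coprime d),
        ((d / Nat.totient d * mu (r / d) : ℝ) : ℂ) * ∑ f ∈ d.divisors, ZF f p a =
        ∑ f ∈ Icc 1 R, if f ∣ d then ((d / Nat.totient d * mu (r / d) : ℝ) : ℂ) * ZF f p a else 0 := by
      intro d hd
      rw [mem_filter] at hd
      have hd0 : 0 < d := Nat.pos_of_mem_divisors hd.1
      have hdr : d ≤ r := Nat.divisor_le hd.1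
      rw [mul_sum, ← sum_filter]
      apply sum_congr _ (fun _ _ => rfl)
      ext f
      rw [Nat.mem_divisors, mem_filter, mem_Icc]
      constructor
      · rintro ⟨h4, _⟩
        have := Nat.le_of_dvd hd0 h4
        exact ⟨⟨Nat.pos_of_dvd_of_pos h4 hd0, by omega⟩, h4⟩
      · rintro ⟨_, h4⟩
        exact ⟨h4, hd0.ne'⟩
    rw [sum_congr rfl h3, sum_comm]
    apply sum_congr rfl
    intro f _
    unfold Din
    split_ifs with hfr
    · rw [Complex.ofReal_sum, sum_mul, ← sum_filter, filter_filter]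
      apply sum_congr _ (fun _ _ => rfl)
      ext d
      simp only [mem_filter]
      tauto
    · apply sum_eq_zero
      intro d hd
      rw [mem_filter] at hd
      rw [if_neg]
      intro h
      exact hfr (h.trans (Nat.dvd_of_mem_divisors hd.1))
  unfold wt
  rw [Complex.ofReal_sum]
  have h2 : ∀ r ∈ Ioc R1 R, (((mu r / r) * cr r n : ℝ) : ℂ) =
      ∑ f ∈ Icc 1 R, if f ∣ r then (((mu r / r) * Din f r m : ℝ) : ℂ) * ZF f p a else 0 := by
    intro r hr
    rw [Complex.ofReal_mul, h1 r hr, mul_sum]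
    apply sum_congr rfl
    intro f _
    split_ifs
    · push_cast
      ring
    · simp
  rw [sum_congr rfl h2, sum_comm]
  apply sum_congr rfl
  intro f _
  unfold BF
  rw [Complex.ofReal_sum, sum_mul, sum_filter]

end Pool.Agent.H52
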