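import Mathlib
import Pool.Agent.H52.LB8

/-!
Lower bounds for the main term.
-/

set_option autoImplicit false

open Finset

namespace Pool.Agent.H52

open Filter in
lemma ev_theta : ∃ Y0 : ℕ, ∀ Y : ℕ, Y0 ≤ Y →
    Real.log (Y + 1) + 2 * Real.sqrt Y * Real.log Y ≤ (Real.log 2 / 4) * Y := by
  have hl2 : 0 < Real.log 2 := Real.log_pos (by norm_num)
  have h1 : ∀ᶠ x : ℝ in atTop, ‖Real.log x‖ ≤ (Real.log 2 / 32) * ‖x ^ (1 / 2 : ℝ)‖ :=
    (isLittleO_log_rpow_atTop (by norm_num : (0 : ℝ) < 1 / 2)).bound (by positivity)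
  obtain ⟨x0, hx0⟩ := (h1.and (eventually_ge_atTop (1 : ℝ))).exists_forall_of_atTop
  refine ⟨⌈x0⌉₊ + 1, fun Y hY => ?_⟩
  have hYx : x0 ≤ Y := by
    have := Nat.le_ceil x0
    have h2 : ((⌈x0⌉₊ : ℕ) : ℝ) ≤ Y := by exact_mod_cast (by omega : ⌈x0⌉₊ ≤ Y)
    linarith
  have hY1 : (1 : ℝ) ≤ Y := by exact_mod_cast (by omega : 1 ≤ Y)
  obtain ⟨e1, _⟩ := hx0 Y hYx
  obtain ⟨e2, _⟩ := hx0 (Y + 1) (by linarith)
  have hlog : 0 ≤ Real.log Y := Real.log_nonneg hY1
  have hlog1 : 0 ≤ Real.log ((Y : ℝ) + 1) := Real.log_nonneg (by linarith)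
  rw [Real.norm_of_nonneg hlog, Real.norm_of_nonneg (by positivity), ← Real.sqrt_eq_rpow] at e1
  rw [Real.norm_of_nonneg hlog1, Real.norm_of_nonneg (by positivity), ← Real.sqrt_eq_rpow] at e2
  have hs : Real.sqrt Y ≤ Y := by
    rw [Real.sqrt_le_left (by linarith)]
    nlinarith
  have hs1 : Real.sqrt ((Y : ℝ) + 1) ≤ 2 * Y := by
    rw [Real.sqrt_le_left (by linarith)]
    nlinarith
  have hsq : Real.sqrt Y * Real.sqrt Y = Y := Real.mul_self_sqrt (by linarith)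
  have e3 : 2 * Real.sqrt Y * Real.log Y ≤ 2 * Real.sqrt Y * (Real.log 2 / 32 * Real.sqrt Y) :=
    mul_le_mul_of_nonneg_left e1 (by positivity)
  have e4 : 2 * Real.sqrt Y * (Real.log 2 / 32 * Real.sqrt Y) = Real.log 2 / 16 * Y := by
    rw [show 2 * Real.sqrt Y * (Real.log 2 / 32 * Real.sqrt Y) =
      Real.log 2 / 16 * (Real.sqrt Y * Real.sqrt Y) by ring, hsq]
  have e5 : Real.log 2 / 32 * Real.sqrt ((Y : ℝ) + 1) ≤ Real.log 2 / 32 * (2 * Y) :=
    mul_le_mul_of_nonneg_left hs1 (by positivity)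
  nlinarith

lemma GG_lower : ∃ Y0 : ℕ, ∀ N Y R : ℕ, Y0 ≤ Y → Y ≤ N → 8 * R ≤ Y →
    (Y : ℝ) ^ 2 / 32 ≤ GG N Y R * Real.log N := by
  obtain ⟨Y0, hY0⟩ := ev_theta
  refine ⟨Y0 + 1, fun N Y R hY hYN hR => ?_⟩
  have hl2 : 0.6931471803 < Real.log 2 := Real.log_two_gt_d9
  have hl2' : Real.log 2 < 0.6931471808 := Real.log_two_lt_d9
  have hY1 : (1 : ℝ) ≤ Y := by exact_mod_cast (by omega : 1 ≤ Y)
  have hN1 : (1 : ℝ) ≤ N := by exact_mod_cast (by omega : 1 ≤ N)
  have hlogN : 0 ≤ Real.log N := Real.log_nonneg hN1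
  have e0 := hY0 Y (by omega)
  have e1 := Chebyshev.theta_ge Y
  have e2 := Chebyshev.theta_le_log4_mul_x (x := ((Y / 8 : ℕ) : ℝ)) (by positivity)
  have hl4 : Real.log 4 = 2 * Real.log 2 := by
    rw [show (4 : ℝ) = 2 ^ 2 by norm_num, Real.log_pow]
    push_cast
    ring
  rw [hl4] at e2
  have e3 : ((Y / 8 : ℕ) : ℝ) ≤ (Y : ℝ) / 8 := by exact_mod_cast Nat.cast_div_le
  -- the theta difference
  have hdiff : Chebyshev.theta Y - Chebyshev.theta ((Y / 8 : ℕ) : ℝ) =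
      ∑ p ∈ (Ioc (Y / 8) Y).filter Nat.Prime, Real.log p := by
    rw [Chebyshev.theta_eq_sum_Icc, Chebyshev.theta_eq_sum_Icc, Nat.floor_natCast, Nat.floor_natCast,
      sub_eq_iff_eq_add, sum_filter, sum_filter, sum_filter]
    have hU : Icc 0 Y = Ioc (Y / 8) Y ∪ Icc 0 (Y / 8) := by
      ext n
      simp only [mem_union, mem_Icc, mem_Ioc]
      omega
    rw [hU, sum_union]
    rw [disjoint_left]
    intro n hn hn2
    rw [mem_Ioc] at hn
    rw [mem_Icc] at hn2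
    omega
  have h1 : ∑ p ∈ (Ioc (Y / 8) Y).filter Nat.Prime, Real.log p ≤
      ((Ioc (Y / 8) Y).filter Nat.Prime).card * Real.log N := by
    rw [← nsmul_eq_mul, ← sum_const]
    apply sum_le_sum
    intro p hp
    rw [mem_filter, mem_Ioc] at hp
    apply Real.log_le_log (by exact_mod_cast hp.2.pos)
    exact_mod_cast (by omega : p ≤ N)
  have h2 : (((Ioc (Y / 8) Y).filter Nat.Prime).card : ℝ) * (Y / 8) ≤ GG N Y R := by
    unfold GG
    rw [← nsmul_eq_mul, ← sum_const]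
    have hsub : (Ioc (Y / 8) Y).filter Nat.Prime ⊆ (Pr N).filter (fun p => R < p) := by
      intro p hp
      rw [mem_filter, mem_Ioc] at hp
      unfold Pr
      rw [mem_filter, mem_filter, mem_Icc]
      exact ⟨⟨⟨hp.2.pos, by omega⟩, hp.2⟩, by omega⟩
    refine le_trans ?_ (sum_le_sum_of_subset_of_nonneg hsub (fun p _ _ => by positivity))
    apply sum_le_sum
    intro p hp
    rw [mem_filter, mem_Ioc] at hp
    have e4 : g Y p = p := by unfold g; omega
    rw [e4]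
    have e5 : Y ≤ 8 * p := by omega
    have e6 : (Y : ℝ) ≤ 8 * p := by exact_mod_cast e5
    linarith
  have h3 : Real.log 2 / 2 * Y ≤ Chebyshev.theta Y - Chebyshev.theta ((Y / 8 : ℕ) : ℝ) := by
    nlinarith
  have h4 : Real.log 2 / 2 * Y ≤ (((Ioc (Y / 8) Y).filter Nat.Prime).card : ℝ) * Real.log N := by
    rw [hdiff] at h3
    linarith
  calc (Y : ℝ) ^ 2 / 32 ≤ (Real.log 2 / 2 * Y) * (Y / 8) := by nlinarith
    _ ≤ ((((Ioc (Y / 8) Y).filter Nat.Prime).card : ℝ) * Real.log N) * (Y / 8) := by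
        apply mul_le_mul_of_nonneg_right h4 (by positivity)
    _ = ((((Ioc (Y / 8) Y).filter Nat.Prime).card : ℝ) * (Y / 8)) * Real.log N := by ring
    _ ≤ GG N Y R * Real.log N := mul_le_mul_of_nonneg_right h2 hlogN

/-! squarefree numbers in dyadic intervals -/

lemma mu_sq (r : ℕ) : (mu r) ^ 2 = if Squarefree r then 1 else 0 := by
  unfold mu
  rw [← Int.cast_pow, ArithmeticFunction.moebius_sq]
  split_ifs <;> simp

lemma sq_tail (D : ℕ) : ∑ d ∈ Icc 3 D, (1 / ((d : ℝ) ^ 2)) ≤ 1 / 2 := by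
  have h : ∀ D : ℕ, 2 ≤ D → ∑ d ∈ Icc 3 D, (1 / ((d : ℝ) ^ 2)) ≤ 1 / 2 - 1 / (D : ℝ) := by
    intro D hD
    induction D, hD using Nat.le_induction with
    | base => norm_num
    | succ n hn ih =>
      rw [sum_Icc_succ_top (by omega)]
      have hn0 : (0 : ℝ) < n := by exact_mod_cast (by omega : 0 < n)
      have e : 1 / (((n + 1 : ℕ) : ℝ) ^ 2) ≤ 1 / n - 1 / ((n + 1 : ℕ) : ℝ) := by
        push_cast
        rw [div_sub_div _ _ hn0.ne' (by positivity), div_le_div_iff₀ (by positivity) (by positivity)]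
        nlinarith
      linarith
  rcases le_or_gt 2 D with hD | hD
  · have := h D hD
    have h2 : (0 : ℝ) ≤ 1 / D := by positivity
    linarith
  · rw [Icc_eq_empty (by omega)]
    norm_num

lemma nsq_count (z : ℕ) :
    (((Ioc z (2 * z)).filter (fun r => ¬ Squarefree r)).card : ℝ) ≤ 3 / 4 * z + Nat.sqrt (2 * z) := by
  have h1 : (Ioc z (2 * z)).filter (fun r => ¬ Squarefree r) ⊆
      (Icc 2 (Nat.sqrt (2 * z))).biUnion (fun d => (Ioc z (z + z)).filter (fun r => d ^ 2 ∣ r)) := by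
    intro r hr
    rw [mem_filter, mem_Ioc] at hr
    rw [mem_biUnion]
    obtain ⟨⟨hr1, hr2⟩, hr3⟩ := hr
    rw [Nat.squarefree_iff_prime_squarefree] at hr3
    push Not at hr3
    obtain ⟨p, hp, hpr⟩ := hr3
    refine ⟨p, ?_, ?_⟩
    · rw [mem_Icc]
      refine ⟨hp.two_le, ?_⟩
      rw [Nat.le_sqrt]
      exact (Nat.le_of_dvd (by omega) hpr).trans hr2
    · rw [mem_filter, mem_Ioc]
      refine ⟨⟨hr1, by omega⟩, ?_⟩
      rw [pow_two]
      exact hpr
  have h2 := (card_le_card h1).trans card_biUnion_le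
  have h3 : (((Ioc z (2 * z)).filter (fun r => ¬ Squarefree r)).card : ℝ) ≤
      ∑ d ∈ Icc 2 (Nat.sqrt (2 * z)), (((Ioc z (z + z)).filter (fun r => d ^ 2 ∣ r)).card : ℝ) := by
    exact_mod_cast h2
  refine h3.trans ?_
  have h4 : ∀ d ∈ Icc 2 (Nat.sqrt (2 * z)), (((Ioc z (z + z)).filter (fun r => d ^ 2 ∣ r)).card : ℝ) ≤
      z * (1 / (d : ℝ) ^ 2) + 1 := by
    intro d hd
    rw [mem_Icc] at hd
    have h5 := (abs_le.1 (count_mult z z (d ^ 2) (Nat.pow_pos (by omega)))).2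
    push_cast at h5
    have h6 : (z : ℝ) / (d : ℝ) ^ 2 = z * (1 / (d : ℝ) ^ 2) := by ring
    rw [← h6]
    linarith
  refine (sum_le_sum h4).trans ?_
  rw [sum_add_distrib, ← mul_sum]
  rcases le_or_gt 2 (Nat.sqrt (2 * z)) with hS | hS
  · have h7 : Icc 2 (Nat.sqrt (2 * z)) = insert 2 (Icc 3 (Nat.sqrt (2 * z))) := by
      ext n
      simp only [mem_insert, mem_Icc]
      omega
    have h8 : ∑ d ∈ Icc 2 (Nat.sqrt (2 * z)), (1 / ((d : ℝ) ^ 2)) ≤ 3 / 4 := by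
      rw [h7, sum_insert (by simp)]
      have := sq_tail (Nat.sqrt (2 * z))
      push_cast
      linarith
    have h9 : ∑ d ∈ Icc 2 (Nat.sqrt (2 * z)), (1 : ℝ) ≤ Nat.sqrt (2 * z) := by
      rw [sum_const, nsmul_eq_mul, mul_one, Nat.card_Icc]
      exact_mod_cast (by omega : Nat.sqrt (2 * z) + 1 - 2 ≤ Nat.sqrt (2 * z))
    have h10 : (z : ℝ) * ∑ d ∈ Icc 2 (Nat.sqrt (2 * z)), (1 / ((d : ℝ) ^ 2)) ≤ z * (3 / 4) :=
      mul_le_mul_of_nonneg_left h8 (by positivity)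
    linarith
  · rw [Icc_eq_empty (by omega)]
    simp only [sum_empty, mul_zero, zero_add]
    positivity

lemma LL_block (z : ℕ) (hz : 128 ≤ z) : 1 / 16 ≤ LL z (2 * z) := by
  have hz0 : (0 : ℝ) < z := by exact_mod_cast (by omega : 0 < z)
  have h1 : (((Ioc z (2 * z)).filter (fun r => Squarefree r)).card : ℝ) * (1 / (2 * z)) ≤ LL z (2 * z) := by
    unfold LL
    rw [← nsmul_eq_mul, ← sum_const, sum_filter]
    apply sum_le_sum
    intro r hr
    rw [mem_Ioc] at hr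
    rw [mu_sq]
    have hr0 : (0 : ℝ) < r := by exact_mod_cast (by omega : 0 < r)
    split_ifs
    · apply one_div_le_one_div_of_le hr0
      exact_mod_cast hr.2
    · simp
  have h2 : (((Ioc z (2 * z)).filter (fun r => Squarefree r)).card : ℝ) +
      (((Ioc z (2 * z)).filter (fun r => ¬ Squarefree r)).card : ℝ) = z := by
    rw [← Nat.cast_add, card_filter_add_card_filter_not, Nat.card_Ioc]
    congr 1
    omega
  have h3 := nsq_count z
  have h4 : (Nat.sqrt (2 * z) : ℝ) ≤ z / 8 := by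
    have h5 : Nat.sqrt (2 * z) * Nat.sqrt (2 * z) ≤ 2 * z := Nat.sqrt_le _
    have h6 : (Nat.sqrt (2 * z) : ℝ) * Nat.sqrt (2 * z) ≤ 2 * z := by exact_mod_cast h5
    have h7 : (128 : ℝ) ≤ z := by exact_mod_cast hz
    by_contra hcon
    push Not at hcon
    have h8 : (z / 8 : ℝ) * (z / 8) < (Nat.sqrt (2 * z) : ℝ) * Nat.sqrt (2 * z) :=
      mul_lt_mul'' hcon hcon (by positivity) (by positivity)
    nlinarith
  have h5 : (z : ℝ) / 8 ≤ (((Ioc z (2 * z)).filter (fun r => Squarefree r)).card : ℝ) := by linarith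
  refine le_trans ?_ h1
  calc (1 / 16 : ℝ) = (z / 8) * (1 / (2 * z)) := by field_simp; norm_num
    _ ≤ _ := mul_le_mul_of_nonneg_right h5 (by positivity)

lemma LL_mono (R1 a b : ℕ) (h : a ≤ b) : LL R1 a ≤ LL R1 b := by
  unfold LL
  apply sum_le_sum_of_subset_of_nonneg
  · intro r hr
    rw [mem_Ioc] at *
    omega
  · intro r _ _
    positivity

lemma LL_add (a b c : ℕ) (h : a ≤ b) (h2 : b ≤ c) : LL a c = LL a b + LL b c := by
  unfold LL
  rw [sum_Ioc_consecutive _ h h2]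

lemma LL_lower (z j : ℕ) (hz : 128 ≤ z) : (j : ℝ) / 16 ≤ LL z (2 ^ j * z) := by
  induction j with
  | zero => simp [LL]
  | succ n ih =>
    have h1 : 2 ^ (n + 1) * z = 2 * (2 ^ n * z) := by ring
    have h2 : z ≤ 2 ^ n * z := Nat.le_mul_of_pos_left z (by positivity)
    rw [h1, LL_add z (2 ^ n * z) _ h2 (by omega)]
    have h3 := LL_block (2 ^ n * z) (by omega)
    push_cast
    linarith

lemma LL_upper (R1 R : ℕ) : LL R1 R ≤ 1 + Real.log R := by
  refine le_trans ?_ (harm R)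
  unfold LL
  refine le_trans (sum_le_sum (g := fun r : ℕ => 1 / (r : ℝ)) ?_) ?_
  · intro r _
    have := abs_mu_le r
    have h2 : (mu r) ^ 2 ≤ 1 := by
      rw [← sq_abs]
      exact pow_le_one₀ (abs_nonneg _) this
    apply div_le_div_of_nonneg_right h2 (by positivity)
  · apply sum_le_sum_of_subset_of_nonneg
    · intro r hr
      rw [mem_Ioc] at hr
      rw [mem_Icc]
      omega
    · intro r _ _
      positivity

end Pool.Agent.H52
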