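import Mathlib
import Pool.Agent.H52.LB9

/-!
One modulus: from the basic inequality to the variance.
-/

set_option autoImplicit false

open Finset

namespace Pool.Agent.H52

lemma totient_ge (q : ℕ) (u : ℝ) (hq : 0 < q) (hu : 0 < u) (hT : (q.divisors.card : ℝ) ≤ u) :
    (q : ℝ) / u ≤ Nat.totient q := by
  have h1 : q ≤ q.divisors.card * Nat.totient q := by
    calc q = ∑ d ∈ q.divisors, Nat.totient d := (Nat.sum_totient q).symm
      _ ≤ ∑ d ∈ q.divisors, Nat.totient q := by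
          apply sum_le_sum
          intro d hd
          apply Nat.le_of_dvd (Nat.totient_pos.2 hq)
          exact Nat.totient_dvd_of_dvd (Nat.dvd_of_mem_divisors hd)
      _ = q.divisors.card * Nat.totient q := by rw [sum_const, smul_eq_mul]
  have h2 : (q : ℝ) ≤ q.divisors.card * Nat.totient q := by exact_mod_cast h1
  rw [div_le_iff₀ hu]
  have h3 : (q.divisors.card : ℝ) * Nat.totient q ≤ u * Nat.totient q :=
    mul_le_mul_of_nonneg_right hT (by positivity)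
  linarith

theorem single (N Y R1 R q Q : ℕ) (s u c1 : ℝ)
    (hs : s ^ 2 = N) (hs0 : 0 < s) (hu : 1 ≤ u) (hus : u ^ 64 ≤ s) (hQ1 : s * u ^ 64 ≤ Q)
    (hq1 : Q < q) (hY1 : 2 * Y ≤ N)
    (hR : (R : ℝ) ≤ s / u ^ 8) (hR1 : (N / Q : ℝ) * u ^ 8 ≤ R1)
    (hT : ∀ n : ℕ, 0 < n → n ≤ 2 * N → (n.divisors.card : ℝ) ≤ u) (hq2 : q ≤ 2 * N)
    (hH : 1 + Real.log R ≤ u) (hR2Y : (R : ℝ) ^ 2 ≤ Y) (hLL1 : 1 ≤ LL R1 R)
    (hGG : c1 * (N : ℝ) ^ 2 ≤ LL R1 R * GG N Y R) (hc1 : 14 ≤ c1 * u ^ 2)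
    (hOff : |Offp N Y R1 R q + Offm N Y R1 R q| ≤ (N : ℝ) ^ 2 / u ^ 2) :
    (LL R1 R * GG N Y R / 2) ^ 2 ≤
      VV N q ((Nat.primeCounting N : ℝ) / Nat.totient q) * (3 * (N : ℝ) ^ 3 * LL R1 R) := by
  have hu0 : 0 < u := by linarith
  have hN0 : (0 : ℝ) < N := by rw [← hs]; positivity
  have hQ0 : (0 : ℝ) < Q := lt_of_lt_of_le (by positivity) hQ1
  have hQn : 0 < Q := by exact_mod_cast hQ0
  have hq : 0 < q := by omega
  have hqR : (0 : ℝ) < q := by exact_mod_cast hq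
  have hqQ : (Q : ℝ) ≤ q := by exact_mod_cast hq1.le
  have hu8 : (1 : ℝ) ≤ u ^ 8 := one_le_pow₀ hu
  have hu64 : (1 : ℝ) ≤ u ^ 64 := one_le_pow₀ hu
  have hR1R : (0 : ℝ) < R1 := lt_of_lt_of_le (by positivity) hR1
  have hR1n : 0 < R1 := by exact_mod_cast hR1R
  have hYN : 2 * (Y : ℝ) ≤ N := by exact_mod_cast hY1
  have hY0 : (0 : ℝ) ≤ Y := by positivity
  have hYN' : (Y : ℝ) ≤ N := by linarith
  have hTq : (q.divisors.card : ℝ) ≤ u := hT q hq hq2
  have hL := logR_nonneg R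
  have hss : s * s = N := by rw [← hs]; ring
  -- u^2 ≤ s
  have hu2s : u ^ 2 ≤ s := le_trans (pow_le_pow_right₀ hu (by norm_num)) hus
  have hsN : s * N ≤ (N : ℝ) ^ 2 / u ^ 2 := by
    rw [le_div_iff₀ (by positivity)]
    calc s * N * u ^ 2 = (s * u ^ 2) * N := by ring
      _ ≤ (s * s) * N := by gcongr
      _ = (N : ℝ) ^ 2 := by rw [hss]; ring
  have hNQ : (N : ℝ) / Q ≤ s / u ^ 64 := by
    rw [div_le_div_iff₀ hQ0 (by positivity), ← hss]
    calc s * s * u ^ 64 = s * (s * u ^ 64) := by ring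
      _ ≤ s * Q := by gcongr
  have h1s : 1 ≤ s / u ^ 64 := by
    rw [le_div_iff₀ (by positivity)]
    linarith
  -- E2
  have hdiv : ((2 * Y / q : ℕ) : ℝ) ≤ N / Q := by
    calc ((2 * Y / q : ℕ) : ℝ) ≤ ((2 * Y : ℕ) : ℝ) / q := Nat.cast_div_le
      _ ≤ N / q := by
          apply div_le_div_of_nonneg_right _ hqR.le
          push_cast
          linarith
      _ ≤ N / Q := by
          apply div_le_div_of_nonneg_left hN0.le hQ0 hqQ
  have E2 : u * ((((2 * Y / q : ℕ) : ℝ) + 1) * (Y * (u * (1 + Real.log R)))) ≤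
      2 * ((N : ℝ) ^ 2 / u ^ 2) := by
    have e1 : ((2 * Y / q : ℕ) : ℝ) + 1 ≤ 2 * (s / u ^ 64) := by linarith
    calc u * ((((2 * Y / q : ℕ) : ℝ) + 1) * (Y * (u * (1 + Real.log R))))
        ≤ u * ((2 * (s / u ^ 64)) * (N * (u * u))) := by gcongr
      _ = 2 * (s * N) * (u ^ 3 / u ^ 64) := by ring
      _ ≤ 2 * (s * N) * 1 := by
          gcongr
          rw [div_le_one (by positivity)]
          exact pow_le_pow_right₀ hu (by norm_num)
      _ ≤ _ := by linarith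
  -- E3
  set c := (Nat.primeCounting N : ℝ) / Nat.totient q with hc
  have hc0 : 0 ≤ c := by positivity
  have hcle : c ≤ u * N / Q := by
    have e1 := totient_ge q u hq hu0 hTq
    have e2 : (Q : ℝ) / u ≤ Nat.totient q := le_trans (div_le_div_of_nonneg_right hqQ hu0.le) e1
    have e3 : (Nat.primeCounting N : ℝ) ≤ N := by
      have : Nat.primeCounting N ≤ N := by
        rw [Nat.primeCounting, Nat.primeCounting', Nat.count_eq_card_filter_range]
        have : (range (N + 1)).filter Nat.Prime ⊆ Icc 1 N := by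
          intro p hp
          rw [mem_filter, mem_range] at hp
          rw [mem_Icc]
          have := hp.2.pos
          omega
        simpa using card_le_card this
      exact_mod_cast this
    calc c ≤ N / (Q / u) := by
          rw [hc]
          exact div_le_div₀ hN0.le e3 (by positivity) e2
      _ = u * N / Q := by field_simp
  have hR1inv : 1 / (R1 : ℝ) ≤ Q / (N * u ^ 8) := by
    rw [div_le_div_iff₀ hR1R (by positivity)]
    have e1 : (N / Q : ℝ) * u ^ 8 * Q ≤ R1 * Q := mul_le_mul_of_nonneg_right hR1 hQ0.le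
    have e2 : (N / Q : ℝ) * u ^ 8 * Q = N * u ^ 8 := by field_simp
    linarith
  have E3 : c * ((Y : ℝ) ^ 2 * (u ^ 2 / R1) + u * (Y * (R * (1 + Real.log R)))) ≤
      2 * ((N : ℝ) ^ 2 / u ^ 2) := by
    have e1 : (Y : ℝ) ^ 2 * (u ^ 2 / R1) ≤ N * Q / u ^ 6 := by
      calc (Y : ℝ) ^ 2 * (u ^ 2 / R1) = (Y : ℝ) ^ 2 * u ^ 2 * (1 / R1) := by ring
        _ ≤ (N : ℝ) ^ 2 * u ^ 2 * (Q / (N * u ^ 8)) := by gcongr
        _ = N * Q / u ^ 6 := by field_simp
    have e2 : u * (Y * (R * (1 + Real.log R))) ≤ N * s / u ^ 6 := by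
      calc u * (Y * (R * (1 + Real.log R))) ≤ u * (N * ((s / u ^ 8) * u)) := by gcongr
        _ = N * s / u ^ 6 := by field_simp
    have e3 : s ≤ Q := by nlinarith
    have e4 : N * s / u ^ 6 ≤ N * Q / u ^ 6 := by gcongr
    calc c * ((Y : ℝ) ^ 2 * (u ^ 2 / R1) + u * (Y * (R * (1 + Real.log R))))
        ≤ (u * N / Q) * (N * Q / u ^ 6 + N * Q / u ^ 6) := by
          gcongr
          exact e2.trans e4
      _ = 2 * (N : ℝ) ^ 2 / u ^ 5 := by field_simp; ring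
      _ ≤ 2 * (N : ℝ) ^ 2 / u ^ 2 := by
          apply div_le_div_of_nonneg_left (by positivity) (by positivity)
          exact pow_le_pow_right₀ hu (by norm_num)
      _ = _ := by ring
  -- E4
  have E4 : R * (Y * (2 * (1 + Real.log R))) ≤ 2 * ((N : ℝ) ^ 2 / u ^ 2) := by
    calc R * (Y * (2 * (1 + Real.log R))) ≤ (s / u ^ 8) * (N * (2 * u)) := by gcongr
      _ = 2 * (s * N) * (u / u ^ 8) := by ring
      _ ≤ 2 * (s * N) * 1 := by
          gcongr
          rw [div_le_one (by positivity)]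
          calc u = u ^ 1 := by ring
            _ ≤ u ^ 8 := pow_le_pow_right₀ hu (by norm_num)
      _ ≤ _ := by linarith
  have hkey := key N Y R1 R q hq hY1 hR1n u hu0.le (fun m hm hm2 => hT m hm (by omega)) hTq c hc0
  have hsmall : 7 * ((N : ℝ) ^ 2 / u ^ 2) ≤ c1 * (N : ℝ) ^ 2 / 2 := by
    have e1 : 14 * ((N : ℝ) ^ 2 / u ^ 2) ≤ c1 * (N : ℝ) ^ 2 := by
      rw [← mul_div_assoc, div_le_iff₀ (by positivity)]
      nlinarith [sq_nonneg (N : ℝ)]
    linarith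
  have hmain : LL R1 R * GG N Y R / 2 ≤ Real.sqrt (VV N q c * ∑ a ∈ range q, WW Y R1 R q a ^ 2) := by
    linarith
  -- DD
  have hDD : ∑ a ∈ range q, WW Y R1 R q a ^ 2 ≤ 3 * (N : ℝ) ^ 3 * LL R1 R := by
    refine (DD_bound Y R1 R q hq).trans ?_
    have e1 := gcd_sum R1 R q hq hR1n
    have e2 : ∑ r ∈ Ioc R1 R, (Nat.gcd q r : ℝ) / (r : ℝ) ^ 2 ≤ (Q / (N * u ^ 8)) * (u * u) := by
      refine e1.trans ?_
      gcongr
    have e3 : (Y / q : ℝ) * ∑ r ∈ Ioc R1 R, (Nat.gcd q r : ℝ) / (r : ℝ) ^ 2 ≤ 1 := by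
      calc (Y / q : ℝ) * ∑ r ∈ Ioc R1 R, (Nat.gcd q r : ℝ) / (r : ℝ) ^ 2
          ≤ (N / Q : ℝ) * ((Q / (N * u ^ 8)) * (u * u)) := by gcongr
        _ = u ^ 2 / u ^ 8 := by field_simp
        _ ≤ 1 := by
            rw [div_le_one (by positivity)]
            exact pow_le_pow_right₀ hu (by norm_num)
    have e4 : 6 * (Y + (R : ℝ) ^ 2) * (Y : ℝ) ^ 2 ≤ 12 * (Y : ℝ) ^ 3 := by
      have : 6 * (Y + (R : ℝ) ^ 2) ≤ 12 * Y := by linarith
      calc 6 * (Y + (R : ℝ) ^ 2) * (Y : ℝ) ^ 2 ≤ (12 * Y) * (Y : ℝ) ^ 2 := by gcongr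
        _ = _ := by ring
    have e5 : LL R1 R + (Y / q : ℝ) * ∑ r ∈ Ioc R1 R, (Nat.gcd q r : ℝ) / (r : ℝ) ^ 2 ≤ 2 * LL R1 R := by
      linarith
    have e6 : (2 * (Y : ℝ)) ^ 3 ≤ (N : ℝ) ^ 3 := pow_le_pow_left₀ (by positivity) hYN 3
    calc _ ≤ (12 * (Y : ℝ) ^ 3) * (2 * LL R1 R) := by
          apply mul_le_mul e4 e5 _ (by positivity)
          have : 0 ≤ (Y / q : ℝ) * ∑ r ∈ Ioc R1 R, (Nat.gcd q r : ℝ) / (r : ℝ) ^ 2 := by
            apply mul_nonneg (by positivity)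
            apply sum_nonneg
            intro r _
            positivity
          linarith
      _ = 3 * (2 * (Y : ℝ)) ^ 3 * LL R1 R := by ring
      _ ≤ 3 * (N : ℝ) ^ 3 * LL R1 R := by gcongr
  have hV0 : 0 ≤ VV N q c := by
    unfold VV
    apply sum_nonneg
    intro b _
    positivity
  have hLG : 0 ≤ LL R1 R * GG N Y R := by
    have : 0 ≤ c1 := by
      by_contra hcon
      push Not at hcon
      nlinarith [sq_nonneg u]
    exact le_trans (by positivity) hGG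
  calc (LL R1 R * GG N Y R / 2) ^ 2 ≤
        (Real.sqrt (VV N q c * ∑ a ∈ range q, WW Y R1 R q a ^ 2)) ^ 2 :=
        pow_le_pow_left₀ (by positivity) hmain 2
    _ = VV N q c * ∑ a ∈ range q, WW Y R1 R q a ^ 2 := by
        rw [Real.sq_sqrt]
        apply mul_nonneg hV0
        apply sum_nonneg
        intro a _
        positivity
    _ ≤ _ := mul_le_mul_of_nonneg_left hDD hV0

end Pool.Agent.H52
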