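import Mathlib
import Pool.Agent.H52.EH6
import Pool.Agent.H52.LB10

/-!
Bounds for the coefficients.
-/

set_option autoImplicit false

open Finset

namespace Pool.Agent.H52

open Classical

lemma gcd_sum_k (n K : ℕ) (_hn : 0 < n) : ∑ k ∈ Icc 1 K, (Nat.gcd n k : ℝ) ≤ K * n.divisors.card := by
  have h1 : ∀ k ∈ Icc 1 K, (Nat.gcd n k : ℝ) ≤ ∑ d ∈ n.divisors, if d ∣ k then (d : ℝ) else 0 := by
    intro k hk
    rw [mem_Icc] at hk
    have hd : Nat.gcd n k ∈ n.divisors := by
      rw [Nat.mem_divisors]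
      exact ⟨Nat.gcd_dvd_left n k, by omega⟩
    have h2 := single_le_sum (f := fun d : ℕ => if d ∣ k then (d : ℝ) else 0)
      (fun d _ => by split_ifs <;> positivity) hd
    refine le_trans (le_of_eq ?_) h2
    rw [if_pos (Nat.gcd_dvd_right n k)]
  refine (sum_le_sum h1).trans ?_
  rw [sum_comm]
  have h2 : ∀ d ∈ n.divisors, (∑ k ∈ Icc 1 K, if d ∣ k then (d : ℝ) else 0) ≤ K := by
    intro d hd
    have hd0 : 0 < d := Nat.pos_of_mem_divisors hd
    rw [← sum_filter, sum_const, nsmul_eq_mul]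
    have h3 : ((Icc 1 K).filter (fun k => d ∣ k)).card = K / d := by
      have := Nat.card_multiples' K d
      have h4 : (Icc 1 K).filter (fun k => d ∣ k) = (range K.succ).filter (fun k => k ≠ 0 ∧ d ∣ k) := by
        ext k
        simp only [mem_filter, mem_Icc, mem_range]
        constructor
        · rintro ⟨⟨h5, h6⟩, h7⟩
          exact ⟨by omega, by omega, h7⟩
        · rintro ⟨h5, h6, h7⟩
          exact ⟨⟨by omega, by omega⟩, h7⟩
      rw [h4]
      exact this
    rw [h3]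
    exact_mod_cast Nat.div_mul_le_self K d
  refine (sum_le_sum h2).trans ?_
  rw [sum_const, nsmul_eq_mul, mul_comm]

/-- small conductors -/
lemma BF_sum (R1 R f q K : ℕ) (hf : 0 < f) (hfR : f ≤ R1) (hq : 0 < q) (T : ℝ) (hT1 : 1 ≤ T)
    (hT : ∀ n : ℕ, 0 < n → n ≤ R → (n.divisors.card : ℝ) ≤ T) (hTq : (q.divisors.card : ℝ) ≤ T) :
    ∑ k ∈ Icc 1 K, |BF R1 R f (k * q)| ≤
      (1 / Nat.totient f) * (2 * f / R1 * (K * (T ^ 3 * (1 + Real.log R)))) := by
  have hL := logR_nonneg R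
  have hT0 : 0 < T := by linarith
  have hR10 : (0 : ℝ) < R1 := by exact_mod_cast (by omega : 0 < R1)
  have hf0 : (0 : ℝ) < f := by exact_mod_cast hf
  refine (sum_le_sum fun k _ => BF_le R1 R f (k * q) hf).trans ?_
  rw [← mul_sum]
  apply mul_le_mul_of_nonneg_left _ (by positivity)
  rw [sum_comm]
  have hdiv : 0 < R1 / f := Nat.div_pos hfR hf
  have h1 : ∀ n ∈ Ioc (R1 / f) R, ∑ k ∈ Icc 1 K, (Nat.gcd n (k * q) : ℝ) / (n * Nat.totient n) ≤
      (K * T ^ 2) * ((Nat.gcd q n : ℝ) / (n : ℝ) ^ 2) := by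
    intro n hn
    rw [mem_Ioc] at hn
    have hn0 : 0 < n := by omega
    have hnR : (0 : ℝ) < n := by exact_mod_cast hn0
    have hφ : (0 : ℝ) < Nat.totient n := by exact_mod_cast Nat.totient_pos.2 hn0
    have hTn := hT n hn0 hn.2
    have hφ2 := totient_ge n T hn0 hT0 hTn
    rw [← sum_div]
    have h2 : ∑ k ∈ Icc 1 K, (Nat.gcd n (k * q) : ℝ) ≤ (Nat.gcd q n) * (K * T) := by
      calc ∑ k ∈ Icc 1 K, (Nat.gcd n (k * q) : ℝ) ≤ ∑ k ∈ Icc 1 K, (Nat.gcd q n : ℝ) * Nat.gcd n k := by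
            apply sum_le_sum
            intro k hk
            rw [mem_Icc] at hk
            have h3 : Nat.gcd n (k * q) ≤ Nat.gcd n k * Nat.gcd n q :=
              Nat.le_of_dvd (Nat.mul_pos (Nat.gcd_pos_of_pos_left _ hn0) (Nat.gcd_pos_of_pos_left _ hn0))
                (Nat.gcd_mul_right_dvd_mul_gcd n k q)
            rw [Nat.gcd_comm n q, mul_comm (Nat.gcd n k)] at h3
            exact_mod_cast h3
        _ = (Nat.gcd q n : ℝ) * ∑ k ∈ Icc 1 K, (Nat.gcd n k : ℝ) := (mul_sum _ _ _).symm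
        _ ≤ (Nat.gcd q n : ℝ) * (K * T) := by
            apply mul_le_mul_of_nonneg_left _ (by positivity)
            exact (gcd_sum_k n K hn0).trans (by gcongr)
    have h4 : 1 / ((n : ℝ) * Nat.totient n) ≤ T / (n : ℝ) ^ 2 := by
      rw [div_le_div_iff₀ (by positivity) (by positivity)]
      rw [div_le_iff₀ hT0] at hφ2
      calc 1 * (n : ℝ) ^ 2 = n * n := by ring
        _ ≤ n * (Nat.totient n * T) := by gcongr
        _ = T * (n * Nat.totient n) := by ring
    calc (∑ k ∈ Icc 1 K, (Nat.gcd n (k * q) : ℝ)) / (n * Nat.totient n) =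
          (∑ k ∈ Icc 1 K, (Nat.gcd n (k * q) : ℝ)) * (1 / (n * Nat.totient n)) := by ring
      _ ≤ ((Nat.gcd q n) * (K * T)) * (T / (n : ℝ) ^ 2) := by gcongr
      _ = _ := by ring
  refine (sum_le_sum h1).trans ?_
  rw [← mul_sum]
  have h2 := gcd_sum (R1 / f) R q hq hdiv
  have h3 : 1 / ((R1 / f : ℕ) : ℝ) ≤ 2 * f / R1 := by
    have h4 : (0 : ℝ) < ((R1 / f : ℕ) : ℝ) := by exact_mod_cast hdiv
    rw [div_le_div_iff₀ h4 hR10]
    have h5 : R1 ≤ 2 * f * (R1 / f) := by
      have h6 := Nat.div_add_mod R1 f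
      have h7 := Nat.mod_lt R1 hf
      have h8 : f ≤ f * (R1 / f) := Nat.le_mul_of_pos_right f hdiv
      have h9 : 2 * f * (R1 / f) = f * (R1 / f) + f * (R1 / f) := by ring
      omega
    have h6 : (R1 : ℝ) ≤ 2 * f * ((R1 / f : ℕ) : ℝ) := by exact_mod_cast h5
    linarith
  calc (K * T ^ 2) * ∑ n ∈ Ioc (R1 / f) R, (Nat.gcd q n : ℝ) / (n : ℝ) ^ 2
      ≤ (K * T ^ 2) * ((2 * f / R1) * (T * (1 + Real.log R))) := by
        apply mul_le_mul_of_nonneg_left _ (by positivity)
        refine h2.trans ?_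
        gcongr
    _ = _ := by ring

/-- the character sum over `k` -/
noncomputable def CK (R1 R q K : ℕ) (s : ℤ) (f : ℕ) (ψ : DirichletCharacter ℂ f) : ℂ :=
  ∑ k ∈ Icc 1 K, ((BF R1 R f (k * q) : ℝ) : ℂ) * (starRingEnd ℂ) (ψ (((s * (k * q) : ℤ)) : ZMod f))

lemma CK_triv (R1 R q K : ℕ) (s : ℤ) (f : ℕ) (ψ : DirichletCharacter ℂ f) :
    ‖CK R1 R q K s f ψ‖ ≤ ∑ k ∈ Icc 1 K, |BF R1 R f (k * q)| := by
  unfold CK
  refine (norm_sum_le _ _).trans (sum_le_sum fun k _ => ?_)
  rw [norm_mul, Complex.norm_real, Real.norm_eq_abs, RCLike.norm_conj]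
  exact mul_le_of_le_one_right (abs_nonneg _) (DirichletCharacter.norm_le_one _ _)

/-- large conductors -/
lemma CK_le (R1 R q K : ℕ) (s : ℤ) (f : ℕ) (hf : 2 ≤ f) (ψ : DirichletCharacter ℂ f)
    (hψ : ψ.IsPrimitive) (T : ℝ) (hT1 : 1 ≤ T)
    (hT : ∀ n : ℕ, 0 < n → n ≤ R → (n.divisors.card : ℝ) ≤ T) :
    ‖CK R1 R q K s f ψ‖ ≤ (1 / f) * (1 + Real.log R) * (T ^ 3 * (2 * Real.sqrt f * (1 + Real.log f))) := by
  have hL := logR_nonneg R
  have hT0 : 0 < T := by linarith
  have hlogf : 0 ≤ Real.log f := Real.log_natCast_nonneg f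
  set G : ℝ := 2 * Real.sqrt f * (1 + Real.log f) with hG
  have hG0 : 0 ≤ G := by positivity
  have h1 : CK R1 R q K s f ψ = ∑ r ∈ (Ioc R1 R).filter (fun r => f ∣ r),
      ∑ d ∈ r.divisors.filter (fun d => f ∣ d), (((mu r / r) * ((d / Nat.totient d) * mu (r / d)) : ℝ) : ℂ) *
        ∑ k ∈ (Icc 1 K).filter (fun k => (k * q).Coprime d),
          (starRingEnd ℂ) (ψ (((s * (k * q) : ℤ)) : ZMod f)) := by
    unfold CK BF Din
    have h2 : ∀ k ∈ Icc 1 K, (((∑ r ∈ (Ioc R1 R).filter (fun r => f ∣ r), (mu r / r) *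
        ∑ d ∈ r.divisors.filter (fun d => f ∣ d ∧ (k * q).Coprime d),
          ((d : ℝ) / Nat.totient d) * mu (r / d) : ℝ)) : ℂ) *
          (starRingEnd ℂ) (ψ (((s * (k * q) : ℤ)) : ZMod f)) =
        ∑ r ∈ (Ioc R1 R).filter (fun r => f ∣ r), ∑ d ∈ r.divisors.filter (fun d => f ∣ d),
          if (k * q).Coprime d then (((mu r / r) * ((d / Nat.totient d) * mu (r / d)) : ℝ) : ℂ) *
            (starRingEnd ℂ) (ψ (((s * (k * q) : ℤ)) : ZMod f)) else 0 := by
      intro k _
      rw [Complex.ofReal_sum, sum_mul]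
      apply sum_congr rfl
      intro r _
      rw [← sum_filter, filter_filter, Complex.ofReal_mul, Complex.ofReal_sum, mul_sum, sum_mul]
      apply sum_congr rfl
      intro d _
      push_cast
      ring
    rw [sum_congr rfl h2, sum_comm]
    apply sum_congr rfl
    intro r _
    rw [sum_comm]
    apply sum_congr rfl
    intro d _
    rw [mul_sum, sum_filter]
  have h3 : ∀ r ∈ (Ioc R1 R).filter (fun r => f ∣ r), ∀ d ∈ r.divisors.filter (fun d => f ∣ d),
      ‖∑ k ∈ (Icc 1 K).filter (fun k => (k * q).Coprime d),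
          (starRingEnd ℂ) (ψ (((s * (k * q) : ℤ)) : ZMod f))‖ ≤ T * G := by
    intro r hr d hd
    rw [mem_filter, mem_Ioc] at hr
    rw [mem_filter] at hd
    have hd0 : 0 < d := Nat.pos_of_mem_divisors hd.1
    have hdR : d ≤ R := (Nat.divisor_le hd.1).trans hr.1.2
    by_cases hqd : q.Coprime d
    · have e1 : (Icc 1 K).filter (fun k => (k * q).Coprime d) = (Icc 1 K).filter (fun k => k.Coprime d) := by
        apply filter_congr
        intro k _
        constructor
        · intro h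
          exact Nat.Coprime.coprime_mul_right h
        · intro h
          exact Nat.Coprime.mul_left h hqd
      rw [e1]
      have e2 : ∑ k ∈ (Icc 1 K).filter (fun k => k.Coprime d),
          (starRingEnd ℂ) (ψ (((s * (k * q) : ℤ)) : ZMod f)) =
          (starRingEnd ℂ) (ψ (((s * q : ℤ)) : ZMod f) *
            ∑ k ∈ (Icc 1 K).filter (fun k => k.Coprime d), ψ (k : ZMod f)) := by
        rw [mul_sum, map_sum]
        apply sum_congr rfl
        intro k _
        rw [← map_mul]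
        congr 2
        push_cast
        ring
      rw [e2, RCLike.norm_conj, norm_mul]
      have e3 : ‖ψ (((s * q : ℤ)) : ZMod f)‖ ≤ 1 := DirichletCharacter.norm_le_one _ _
      have e4 := PVL.PV f d K hf hd0 ψ hψ
      calc _ ≤ 1 * (d.divisors.card * (2 * Real.sqrt f * (1 + Real.log f))) := by gcongr
        _ ≤ 1 * (T * G) := by
            rw [hG]
            gcongr
            exact hT d hd0 hdR
        _ = T * G := one_mul _
    · have e1 : (Icc 1 K).filter (fun k => (k * q).Coprime d) = ∅ := by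
        rw [filter_eq_empty_iff]
        intro k _ h
        exact hqd (Nat.Coprime.coprime_mul_left h)
      rw [e1, sum_empty, norm_zero]
      positivity
  rw [h1]
  refine (norm_sum_le _ _).trans ?_
  have h4 : ∀ r ∈ (Ioc R1 R).filter (fun r => f ∣ r),
      ‖∑ d ∈ r.divisors.filter (fun d => f ∣ d), (((mu r / r) * ((d / Nat.totient d) * mu (r / d)) : ℝ) : ℂ) *
        ∑ k ∈ (Icc 1 K).filter (fun k => (k * q).Coprime d),
          (starRingEnd ℂ) (ψ (((s * (k * q) : ℤ)) : ZMod f))‖ ≤ (1 / (r : ℝ)) * (T ^ 3 * G) := by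
    intro r hr
    refine (norm_sum_le _ _).trans ?_
    have hr' := hr
    rw [mem_filter, mem_Ioc] at hr
    have hr0 : 0 < r := by omega
    have hrR : (0 : ℝ) < r := by exact_mod_cast hr0
    have h5 : ∀ d ∈ r.divisors.filter (fun d => f ∣ d),
        ‖(((mu r / r) * ((d / Nat.totient d) * mu (r / d)) : ℝ) : ℂ) *
        ∑ k ∈ (Icc 1 K).filter (fun k => (k * q).Coprime d),
          (starRingEnd ℂ) (ψ (((s * (k * q) : ℤ)) : ZMod f))‖ ≤ (1 / (r : ℝ)) * (T ^ 2 * G) := by
      intro d hd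
      have h6 := h3 r hr' d hd
      rw [mem_filter] at hd
      have hd0 : 0 < d := Nat.pos_of_mem_divisors hd.1
      have hdR : d ≤ R := (Nat.divisor_le hd.1).trans hr.1.2
      have hdR' : (0 : ℝ) < d := by exact_mod_cast hd0
      have hφ : (0 : ℝ) < Nat.totient d := by exact_mod_cast Nat.totient_pos.2 hd0
      have hφ2 := totient_ge d T hd0 hT0 (hT d hd0 hdR)
      have h7 : (d : ℝ) / Nat.totient d ≤ T := by
        rw [div_le_iff₀ hφ]
        rw [div_le_iff₀ hT0] at hφ2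
        linarith
      rw [norm_mul, Complex.norm_real, Real.norm_eq_abs, abs_mul, abs_mul, abs_div, Nat.abs_cast,
        abs_of_nonneg (by positivity : (0 : ℝ) ≤ (d : ℝ) / Nat.totient d)]
      calc |mu r| / (r : ℝ) * ((d : ℝ) / Nat.totient d * |mu (r / d)|) * _ ≤
            (1 / (r : ℝ)) * (T * 1) * (T * G) := by
            gcongr
            · exact abs_mu_le r
            · exact abs_mu_le _
        _ = _ := by ring
    refine (sum_le_sum h5).trans ?_
    rw [sum_const, nsmul_eq_mul]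
    have h8 : ((r.divisors.filter (fun d => f ∣ d)).card : ℝ) ≤ T :=
      le_trans (by exact_mod_cast card_filter_le _ _) (hT r hr0 hr.1.2)
    calc _ ≤ T * ((1 / (r : ℝ)) * (T ^ 2 * G)) := by gcongr
      _ = _ := by ring
  refine (sum_le_sum h4).trans ?_
  rw [← sum_mul]
  have h9 : ∑ r ∈ (Ioc R1 R).filter (fun r => f ∣ r), (1 / (r : ℝ)) ≤ (1 / f) * (1 + Real.log R) := by
    refine le_trans ?_ (harm_mult f R (by omega))
    apply sum_le_sum_of_subset_of_nonneg
    · intro r hr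
      rw [mem_filter, mem_Ioc] at hr
      rw [mem_filter, mem_Icc]
      exact ⟨⟨by omega, hr.1.2⟩, hr.2⟩
    · intro r _ _
      positivity
  exact mul_le_mul_of_nonneg_right h9 (by positivity)

end Pool.Agent.H52
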