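import Mathlib
import Pool.Agent.H52.EH7

/-!
The off-diagonal terms of one modulus.
-/

set_option autoImplicit false

open Finset

namespace Pool.Agent.H52

open Classical

lemma Pr_card (N : ℕ) : ((Pr N).card : ℝ) ≤ N := by
  have : (Pr N).card ≤ N := by
    refine (card_filter_le _ _).trans ?_
    simp
  exact_mod_cast this

/-- primes in `(a, b]` -/
noncomputable def QS (a b f : ℕ) (ψ : DirichletCharacter ℂ f) : ℂ :=
  ∑ p ∈ (Pr b).filter (fun p => a < p), ψ (p : ZMod f)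

lemma QS_triv (a b N f : ℕ) (hb : b ≤ N) (ψ : DirichletCharacter ℂ f) : ‖QS a b f ψ‖ ≤ N := by
  unfold QS
  refine (norm_sum_le _ _).trans ?_
  refine (sum_le_sum fun p _ => DirichletCharacter.norm_le_one _ _).trans ?_
  rw [sum_const, nsmul_eq_mul, mul_one]
  have h1 : (((Pr b).filter (fun p => a < p)).card : ℝ) ≤ (Pr b).card := by
    exact_mod_cast card_filter_le _ _
  have h2 := Pr_card b
  have h3 : (b : ℝ) ≤ N := by exact_mod_cast hb
  linarith

lemma QS_PS (a b f : ℕ) (hab : a ≤ b) (ψ : DirichletCharacter ℂ f) :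
    ‖QS a b f ψ‖ ≤ ‖PS b f ψ‖ + ‖PS a f ψ‖ := by
  have h1 : QS a b f ψ = PS b f ψ - PS a f ψ := by
    unfold QS PS
    rw [eq_sub_iff_add_eq, ← sum_filter_add_sum_filter_not (Pr b) (fun p => a < p)]
    congr 1
    apply sum_congr _ (fun _ _ => rfl)
    ext p
    unfold Pr
    simp only [mem_filter, mem_Icc, not_lt]
    constructor
    · rintro ⟨⟨h1, h2⟩, h3⟩
      exact ⟨⟨⟨h1, by omega⟩, h3⟩, h2⟩
    · rintro ⟨⟨⟨h1, _⟩, h3⟩, h2⟩
      exact ⟨⟨h1, h2⟩, h3⟩
  rw [h1]
  exact norm_sub_le _ _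

theorem offT (N R1 R q K a b F0 : ℕ) (s : ℤ) (hs : s = 1 ∨ s = -1) (nn : ℕ → ℕ → ℕ)
    (hnn : ∀ p ∈ (Pr b).filter (fun p => a < p), ∀ k ∈ Icc 1 K, (nn p k : ℤ) = p - s * (k * q))
    (hRa : R ≤ a) (hbN : b ≤ N) (hF0 : 1 ≤ F0) (hF0R : F0 ≤ R1) (hq : 0 < q) (T : ℝ) (hT1 : 1 ≤ T)
    (hT : ∀ n : ℕ, 0 < n → n ≤ R → (n.divisors.card : ℝ) ≤ T) (hTq : (q.divisors.card : ℝ) ≤ T)
    (M2 : ℝ) (hM2 : ∀ y ≤ N, ∑ f ∈ Ioc F0 R, Real.sqrt f * Mn f (fun ψ => ‖PS y f ψ‖) ≤ M2) :
    |∑ p ∈ (Pr b).filter (fun p => a < p), ∑ k ∈ Icc 1 K, wt R1 R (nn p k)| ≤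
      F0 * (2 * F0 / R1 * (K * (T ^ 3 * (1 + Real.log R)))) * N +
        4 * T ^ 3 * (1 + Real.log R) ^ 2 * M2 := by
  have hL := logR_nonneg R
  have hT0 : 0 < T := by linarith
  have hM20 : 0 ≤ M2 := le_trans (sum_nonneg fun f _ => mul_nonneg (Real.sqrt_nonneg _)
    (Mn_nonneg f _ (fun ψ => norm_nonneg _))) (hM2 0 (Nat.zero_le _))
  have hR10 : (0 : ℝ) < R1 := by exact_mod_cast (by omega : 0 < R1)
  rcases lt_or_ge b a with hab | hab
  · have h0 : (Pr b).filter (fun p => a < p) = ∅ := by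
      rw [filter_eq_empty_iff]
      intro p hp h
      unfold Pr at hp
      rw [mem_filter, mem_Icc] at hp
      omega
    rw [h0, sum_empty, abs_zero]
    positivity
  have h1 : ((∑ p ∈ (Pr b).filter (fun p => a < p), ∑ k ∈ Icc 1 K, wt R1 R (nn p k) : ℝ) : ℂ) =
      ∑ f ∈ Icc 1 R, ∑ ψ ∈ (univ : Finset (DirichletCharacter ℂ f)).filter (fun χ => χ.IsPrimitive),
        QS a b f ψ * CK R1 R q K s f ψ := by
    have h2 : ∀ p ∈ (Pr b).filter (fun p => a < p), ∀ k ∈ Icc 1 K, ((wt R1 R (nn p k) : ℝ) : ℂ) =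
        ∑ f ∈ Icc 1 R, ∑ ψ ∈ (univ : Finset (DirichletCharacter ℂ f)).filter (fun χ => χ.IsPrimitive),
          ψ (p : ZMod f) * (((BF R1 R f (k * q) : ℝ) : ℂ) * (starRingEnd ℂ) (ψ (((s * (k * q) : ℤ)) : ZMod f))) := by
      intro p hp k hk
      have hnn' := hnn p hp k hk
      rw [mem_filter] at hp
      unfold Pr at hp
      rw [mem_filter, mem_Icc] at hp
      rw [wt_expand R1 R (nn p k) p (k * q) (s * (k * q)) hp.1.2 (by omega)
        (by
          rcases hs with h | h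
          · rw [h, one_mul]
            exact_mod_cast Int.natAbs_natCast (k * q)
          · rw [h, neg_one_mul, Int.natAbs_neg]
            exact_mod_cast Int.natAbs_natCast (k * q)) hnn']
      apply sum_congr rfl
      intro f _
      unfold ZF
      rw [mul_sum]
      apply sum_congr rfl
      intro ψ _
      push_cast
      ring
    rw [Complex.ofReal_sum]
    have h3 : ∀ p ∈ (Pr b).filter (fun p => a < p), ((∑ k ∈ Icc 1 K, wt R1 R (nn p k) : ℝ) : ℂ) =
        ∑ f ∈ Icc 1 R, ∑ ψ ∈ (univ : Finset (DirichletCharacter ℂ f)).filter (fun χ => χ.IsPrimitive),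
          ψ (p : ZMod f) * CK R1 R q K s f ψ := by
      intro p hp
      rw [Complex.ofReal_sum, sum_congr rfl (h2 p hp), sum_comm]
      apply sum_congr rfl
      intro f _
      rw [sum_comm]
      apply sum_congr rfl
      intro ψ _
      unfold CK
      rw [mul_sum]
    rw [sum_congr rfl h3, sum_comm]
    apply sum_congr rfl
    intro f _
    rw [sum_comm]
    apply sum_congr rfl
    intro ψ _
    unfold QS
    rw [sum_mul]
  rw [← Real.norm_eq_abs, ← Complex.norm_real, h1]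
  -- split the conductors
  have h4 : ∑ f ∈ Icc 1 R, ∑ ψ ∈ (univ : Finset (DirichletCharacter ℂ f)).filter (fun χ => χ.IsPrimitive),
      ‖QS a b f ψ * CK R1 R q K s f ψ‖ ≤
      ∑ f ∈ Icc 1 F0, ∑ ψ ∈ (univ : Finset (DirichletCharacter ℂ f)).filter (fun χ => χ.IsPrimitive),
      ‖QS a b f ψ * CK R1 R q K s f ψ‖ +
      ∑ f ∈ Ioc F0 R, ∑ ψ ∈ (univ : Finset (DirichletCharacter ℂ f)).filter (fun χ => χ.IsPrimitive),
      ‖QS a b f ψ * CK R1 R q K s f ψ‖ := by
    rw [← sum_union]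
    · apply sum_le_sum_of_subset_of_nonneg
      · intro f hf
        rw [mem_union, mem_Icc, mem_Ioc]
        rw [mem_Icc] at hf
        omega
      · intro f _ _
        exact sum_nonneg fun ψ _ => norm_nonneg _
    · rw [disjoint_left]
      intro f hf hf2
      rw [mem_Icc] at hf
      rw [mem_Ioc] at hf2
      omega
  refine (norm_sum_le _ _).trans ((sum_le_sum fun f _ => norm_sum_le _ _).trans (h4.trans ?_))
  apply add_le_add
  · -- small conductors
    have h5 : ∀ f ∈ Icc 1 F0, ∑ ψ ∈ (univ : Finset (DirichletCharacter ℂ f)).filter (fun χ => χ.IsPrimitive),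
        ‖QS a b f ψ * CK R1 R q K s f ψ‖ ≤ (2 * F0 / R1 * (K * (T ^ 3 * (1 + Real.log R)))) * N := by
      intro f hf
      rw [mem_Icc] at hf
      have hf0 : 0 < f := hf.1
      have hφ : (0 : ℝ) < Nat.totient f := by exact_mod_cast Nat.totient_pos.2 hf0
      have hfF : (f : ℝ) ≤ F0 := by exact_mod_cast hf.2
      set Z := 2 * (f : ℝ) / R1 * (K * (T ^ 3 * (1 + Real.log R))) with hZ
      have hZ0 : 0 ≤ Z := by positivity
      have h6 : ∀ ψ ∈ (univ : Finset (DirichletCharacter ℂ f)).filter (fun χ => χ.IsPrimitive),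
          ‖QS a b f ψ * CK R1 R q K s f ψ‖ ≤ N * ((1 / Nat.totient f) * Z) := by
        intro ψ _
        rw [norm_mul]
        apply mul_le_mul (QS_triv a b N f hbN ψ) _ (norm_nonneg _) (by positivity)
        exact (CK_triv R1 R q K s f ψ).trans (BF_sum R1 R f q K hf0 (by omega) hq T hT1 hT hTq)
      refine (sum_le_sum h6).trans ?_
      rw [sum_const, nsmul_eq_mul]
      have h7 := card_prim f hf0
      calc _ ≤ (Nat.totient f : ℝ) * (N * ((1 / Nat.totient f) * Z)) := by gcongr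
        _ = Z * N := by field_simp
        _ ≤ _ := by
            rw [hZ]
            gcongr
    refine (sum_le_sum h5).trans (le_of_eq ?_)
    rw [sum_const, Nat.card_Icc, nsmul_eq_mul, Nat.add_sub_cancel]
    ring
  · -- large conductors
    have h5 : ∀ f ∈ Ioc F0 R, ∑ ψ ∈ (univ : Finset (DirichletCharacter ℂ f)).filter (fun χ => χ.IsPrimitive),
        ‖QS a b f ψ * CK R1 R q K s f ψ‖ ≤ 2 * T ^ 3 * (1 + Real.log R) ^ 2 *
          (Real.sqrt f * Mn f (fun ψ => ‖PS b f ψ‖) + Real.sqrt f * Mn f (fun ψ => ‖PS a f ψ‖)) := by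
      intro f hf
      rw [mem_Ioc] at hf
      have hf2 : 2 ≤ f := by omega
      have hf0 : 0 < f := by omega
      have hfR : (0 : ℝ) < f := by exact_mod_cast hf0
      have hφ : (0 : ℝ) < Nat.totient f := by exact_mod_cast Nat.totient_pos.2 hf0
      have hφf : (Nat.totient f : ℝ) ≤ f := by exact_mod_cast Nat.totient_le f
      have hlogf : 0 ≤ Real.log f := Real.log_natCast_nonneg f
      have hlogfR : Real.log f ≤ Real.log R := Real.log_le_log hfR (by exact_mod_cast hf.2)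
      have h6 : ∀ ψ ∈ (univ : Finset (DirichletCharacter ℂ f)).filter (fun χ => χ.IsPrimitive),
          ‖QS a b f ψ * CK R1 R q K s f ψ‖ ≤
          (2 * T ^ 3 * (1 + Real.log R) ^ 2 * Real.sqrt f) * ((1 / Nat.totient f) *
            (‖PS b f ψ‖ + ‖PS a f ψ‖)) := by
        intro ψ hψ
        rw [mem_filter] at hψ
        rw [norm_mul]
        have e1 := QS_PS a b f hab ψ
        have e2 := CK_le R1 R q K s f hf2 ψ hψ.2 T hT1 hT
        have e3 : (1 / (f : ℝ)) * (1 + Real.log R) * (T ^ 3 * (2 * Real.sqrt f * (1 + Real.log f))) ≤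
            (1 / Nat.totient f) * (1 + Real.log R) * (T ^ 3 * (2 * Real.sqrt f * (1 + Real.log R))) := by
          gcongr
        calc _ ≤ (‖PS b f ψ‖ + ‖PS a f ψ‖) * ((1 / Nat.totient f) * (1 + Real.log R) *
              (T ^ 3 * (2 * Real.sqrt f * (1 + Real.log R)))) :=
              mul_le_mul e1 (e2.trans e3) (norm_nonneg _) (by positivity)
          _ = _ := by ring
      refine (sum_le_sum h6).trans (le_of_eq ?_)
      rw [← mul_sum, ← mul_sum, sum_add_distrib]
      unfold Mn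
      ring
    refine (sum_le_sum h5).trans ?_
    rw [← mul_sum, sum_add_distrib]
    have h6 := hM2 b hbN
    have h7 := hM2 a (hab.trans hbN)
    calc _ ≤ 2 * T ^ 3 * (1 + Real.log R) ^ 2 * (M2 + M2) := by gcongr
      _ = _ := by ring

end Pool.Agent.H52
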