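import Mathlib
import Pool.Agent.H52.EH8

/-!
The off-diagonal terms of one modulus, with the tent weight.
-/

set_option autoImplicit false

open Finset

namespace Pool.Agent.H52

/-- the bound for one cut-off -/
noncomputable def Om (N R1 R K F0 : ℕ) (T M2 : ℝ) : ℝ :=
  F0 * (2 * F0 / R1 * (K * (T ^ 3 * (1 + Real.log R)))) * N +
        4 * T ^ 3 * (1 + Real.log R) ^ 2 * M2

/-- the hypotheses -/
structure Hyp (N R1 R q F0 : ℕ) (T M2 : ℝ) : Prop where
  hF0 : 1 ≤ F0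
  hF0R : F0 ≤ R1
  hq : 0 < q
  hT1 : 1 ≤ T
  hM20 : 0 ≤ M2
  hT : ∀ n : ℕ, 0 < n → n ≤ R → (n.divisors.card : ℝ) ≤ T
  hTq : (q.divisors.card : ℝ) ≤ T
  hM2 : ∀ y ≤ N, ∑ f ∈ Ioc F0 R, Real.sqrt f * Mn f (fun ψ => ‖PS y f ψ‖) ≤ M2

lemma Om_mono (N R1 R K K0 F0 : ℕ) (T M2 : ℝ) (hT : 0 ≤ T) (hK : K ≤ K0) :
    Om N R1 R K F0 T M2 ≤ Om N R1 R K0 F0 T M2 := by
  unfold Om
  have hL := logR_nonneg R
  have hKR : (K : ℝ) ≤ K0 := by exact_mod_cast hK
  gcongr

lemma Om_nonneg (N R1 R K F0 : ℕ) (T M2 : ℝ) (hT : 0 ≤ T) (hM : 0 ≤ M2) : 0 ≤ Om N R1 R K F0 T M2 := by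
  unfold Om
  have hL := logR_nonneg R
  positivity

lemma off1 (N R1 R q F0 A : ℕ) (T M2 : ℝ) (h : Hyp N R1 R q F0 T M2) (hA : A ≤ N) :
    |∑ p ∈ (Pr N).filter (fun p => R < p), ∑ k ∈ Icc 1 (N / q),
      ((A - (p + k * q) : ℕ) : ℝ) * wt R1 R (p + k * q)| ≤ A * Om N R1 R (N / q) F0 T M2 := by
  have hT0 : 0 ≤ T := by linarith [h.hT1]
  have h1 : ∑ p ∈ (Pr N).filter (fun p => R < p), ∑ k ∈ Icc 1 (N / q),
      ((A - (p + k * q) : ℕ) : ℝ) * wt R1 R (p + k * q) =
      ∑ t ∈ range A, ∑ p ∈ (Pr t).filter (fun p => R < p), ∑ k ∈ Icc 1 ((A - t - 1) / q),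
        wt R1 R (p + k * q) := by
    have h2 : ∀ p ∈ (Pr N).filter (fun p => R < p), ∑ k ∈ Icc 1 (N / q),
        ((A - (p + k * q) : ℕ) : ℝ) * wt R1 R (p + k * q) =
        ∑ t ∈ range A, if p ≤ t then ∑ k ∈ Icc 1 ((A - t - 1) / q), wt R1 R (p + k * q) else 0 := by
      intro p _
      have h3 : ∀ k ∈ Icc 1 (N / q), ((A - (p + k * q) : ℕ) : ℝ) * wt R1 R (p + k * q) =
          ∑ t ∈ range A, if p ≤ t ∧ k * q < A - t then wt R1 R (p + k * q) else 0 := by
        intro k _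
        rw [← cntA A p (k * q), ← sum_filter, sum_const, nsmul_eq_mul]
      rw [sum_congr rfl h3, sum_comm]
      apply sum_congr rfl
      intro t ht
      rw [mem_range] at ht
      split_ifs with hpt
      · rw [← sum_filter]
        apply sum_congr _ (fun _ _ => rfl)
        ext k
        simp only [mem_filter, mem_Icc]
        rw [Nat.le_div_iff_mul_le h.hq, Nat.le_div_iff_mul_le h.hq]
        constructor
        · rintro ⟨⟨h4, _⟩, _, h6⟩
          exact ⟨h4, by omega⟩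
        · rintro ⟨h4, h5⟩
          exact ⟨⟨h4, by omega⟩, hpt, by omega⟩
      · apply sum_eq_zero
        intro k _
        rw [if_neg (fun hh => hpt hh.1)]
    rw [sum_congr rfl h2, sum_comm]
    apply sum_congr rfl
    intro t ht
    rw [mem_range] at ht
    rw [← sum_filter, filter_filter]
    apply sum_congr _ (fun _ _ => rfl)
    ext p
    unfold Pr
    simp only [mem_filter, mem_Icc]
    constructor
    · rintro ⟨⟨⟨h3, _⟩, h4⟩, h5, h6⟩
      exact ⟨⟨⟨h3, h6⟩, h4⟩, h5⟩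
    · rintro ⟨⟨⟨h3, h6⟩, h4⟩, h5⟩
      exact ⟨⟨⟨h3, by omega⟩, h4⟩, h5, h6⟩
  rw [h1]
  refine (abs_sum_le_sum_abs _ _).trans ?_
  have h2 : ∀ t ∈ range A, |∑ p ∈ (Pr t).filter (fun p => R < p), ∑ k ∈ Icc 1 ((A - t - 1) / q),
        wt R1 R (p + k * q)| ≤ Om N R1 R (N / q) F0 T M2 := by
    intro t ht
    rw [mem_range] at ht
    have h3 := offT N R1 R q ((A - t - 1) / q) R t F0 (-1) (Or.inr rfl) (fun p k => p + k * q)
      (by intro p _ k _; push_cast; ring) le_rfl (by omega) h.hF0 h.hF0R h.hq T h.hT1 h.hT h.hTq M2 h.hM2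
    refine h3.trans ?_
    exact Om_mono N R1 R _ _ F0 T M2 hT0 (Nat.div_le_div_right (by omega))
  refine (sum_le_sum h2).trans ?_
  rw [sum_const, card_range, nsmul_eq_mul]

lemma off2 (N R1 R q F0 A : ℕ) (T M2 : ℝ) (h : Hyp N R1 R q F0 T M2) :
    |∑ p ∈ (Pr N).filter (fun p => R < p), ∑ k ∈ Icc 1 (N / q),
      ((p - k * q - A : ℕ) : ℝ) * wt R1 R (p - k * q)| ≤ N * Om N R1 R (N / q) F0 T M2 := by
  have hT0 : 0 ≤ T := by linarith [h.hT1]
  have h1 : ∑ p ∈ (Pr N).filter (fun p => R < p), ∑ k ∈ Icc 1 (N / q),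
      ((p - k * q - A : ℕ) : ℝ) * wt R1 R (p - k * q) =
      ∑ t ∈ range N, ∑ p ∈ (Pr N).filter (fun p => max R t < p), ∑ k ∈ Icc 1 ((t - A) / q),
        wt R1 R (p - k * q) := by
    have h2 : ∀ p ∈ (Pr N).filter (fun p => R < p), ∑ k ∈ Icc 1 (N / q),
        ((p - k * q - A : ℕ) : ℝ) * wt R1 R (p - k * q) =
        ∑ t ∈ range N, if t < p then ∑ k ∈ Icc 1 ((t - A) / q), wt R1 R (p - k * q) else 0 := by
      intro p hp
      have hpN : p ≤ N := by
        unfold Pr at hp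
        rw [mem_filter, mem_filter, mem_Icc] at hp
        exact hp.1.1.2
      have h3 : ∀ k ∈ Icc 1 (N / q), ((p - k * q - A : ℕ) : ℝ) * wt R1 R (p - k * q) =
          ∑ t ∈ range N, if t < p ∧ k * q < t + 1 - A then wt R1 R (p - k * q) else 0 := by
        intro k _
        rw [← cntB N A p (k * q) hpN, ← sum_filter, sum_const, nsmul_eq_mul]
      rw [sum_congr rfl h3, sum_comm]
      apply sum_congr rfl
      intro t ht
      rw [mem_range] at ht
      split_ifs with hpt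
      · rw [← sum_filter]
        apply sum_congr _ (fun _ _ => rfl)
        ext k
        simp only [mem_filter, mem_Icc]
        rw [Nat.le_div_iff_mul_le h.hq, Nat.le_div_iff_mul_le h.hq]
        constructor
        · rintro ⟨⟨h4, _⟩, _, h6⟩
          exact ⟨h4, by omega⟩
        · rintro ⟨h4, h5⟩
          have h6 : 1 ≤ k * q := Nat.mul_pos h4 h.hq
          exact ⟨⟨h4, by omega⟩, hpt, by omega⟩
      · apply sum_eq_zero
        intro k _
        rw [if_neg (fun hh => hpt hh.1)]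
    rw [sum_congr rfl h2, sum_comm]
    apply sum_congr rfl
    intro t ht
    rw [mem_range] at ht
    rw [← sum_filter, filter_filter]
    apply sum_congr _ (fun _ _ => rfl)
    ext p
    simp only [mem_filter, max_lt_iff]
  rw [h1]
  refine (abs_sum_le_sum_abs _ _).trans ?_
  have h2 : ∀ t ∈ range N, |∑ p ∈ (Pr N).filter (fun p => max R t < p), ∑ k ∈ Icc 1 ((t - A) / q),
        wt R1 R (p - k * q)| ≤ Om N R1 R (N / q) F0 T M2 := by
    intro t ht
    rw [mem_range] at ht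
    have h3 := offT N R1 R q ((t - A) / q) (max R t) N F0 1 (Or.inl rfl) (fun p k => p - k * q)
      (by
        intro p hp k hk
        rw [mem_filter] at hp
        rw [mem_Icc, Nat.le_div_iff_mul_le h.hq] at hk
        have h4 : t < p := lt_of_le_of_lt (le_max_right _ _) hp.2
        have h5 : k * q ≤ p := by omega
        push_cast [Nat.cast_sub h5]
        ring) (le_max_left _ _) le_rfl h.hF0 h.hF0R h.hq T h.hT1 h.hT h.hTq M2 h.hM2
    refine h3.trans ?_
    exact Om_mono N R1 R _ _ F0 T M2 hT0 (Nat.div_le_div_right (by omega))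
  refine (sum_le_sum h2).trans ?_
  rw [sum_const, card_range, nsmul_eq_mul]

lemma restrict_k (N q : ℕ) (hq : 0 < q) (F : ℕ → ℝ) (hF : ∀ k, N < k * q → F k = 0) :
    ∑ k ∈ Icc 1 N, F k = ∑ k ∈ Icc 1 (N / q), F k := by
  symm
  apply sum_subset (Icc_subset_Icc_right (Nat.div_le_self _ _))
  intro k hk hk2
  rw [mem_Icc] at hk hk2
  apply hF
  by_contra hcon
  apply hk2
  rw [Nat.le_div_iff_mul_le hq]
  exact ⟨hk.1, by omega⟩

lemma small_off (N Y R1 R q : ℕ) (_hY : 2 * Y ≤ N) (T : ℝ) (hT0 : 0 ≤ T)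
    (hT : ∀ m, 0 < m → m ≤ 2 * Y → (m.divisors.card : ℝ) ≤ T) (nn : ℕ → ℕ → ℕ) :
    |∑ p ∈ (Pr N).filter (fun p => ¬ R < p), ∑ k ∈ Icc 1 (N / q), (g Y (nn p k) : ℝ) * wt R1 R (nn p k)| ≤
      R * (N / q * (Y * (T * (1 + Real.log R)))) := by
  have hL := logR_nonneg R
  have h1 : ∀ m : ℕ, |(g Y m : ℝ) * wt R1 R m| ≤ Y * (T * (1 + Real.log R)) := by
    intro m
    rcases Nat.eq_zero_or_pos m with h | h
    · subst h
      rw [g_zero]
      simp only [Nat.cast_zero, zero_mul, abs_zero]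
      positivity
    · rcases le_or_gt (2 * Y) m with h2 | h2
      · rw [g_big Y m h2]
        simp only [Nat.cast_zero, zero_mul, abs_zero]
        positivity
      · rw [abs_mul, Nat.abs_cast]
        have e1 : (g Y m : ℝ) ≤ Y := by exact_mod_cast g_le Y m
        have e2 := wt_le R1 R m h
        have e3 : (m.divisors.card : ℝ) * (1 + Real.log R) ≤ T * (1 + Real.log R) :=
          mul_le_mul_of_nonneg_right (hT m h h2.le) hL
        exact mul_le_mul e1 (e2.trans e3) (abs_nonneg _) (by positivity)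
  refine (abs_sum_le_sum_abs _ _).trans ?_
  have h2 : ∀ p ∈ (Pr N).filter (fun p => ¬ R < p),
      |∑ k ∈ Icc 1 (N / q), (g Y (nn p k) : ℝ) * wt R1 R (nn p k)| ≤ N / q * (Y * (T * (1 + Real.log R))) := by
    intro p _
    refine (abs_sum_le_sum_abs _ _).trans ((sum_le_sum fun k _ => h1 _).trans ?_)
    rw [sum_const, Nat.card_Icc, nsmul_eq_mul, Nat.add_sub_cancel]
    apply mul_le_mul_of_nonneg_right Nat.cast_div_le (by positivity)
  refine (sum_le_sum h2).trans ?_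
  rw [sum_const, nsmul_eq_mul]
  apply mul_le_mul_of_nonneg_right _ (by positivity)
  have : (Pr N).filter (fun p => ¬ R < p) ⊆ Icc 1 R := by
    intro p hp
    unfold Pr at hp
    rw [mem_filter, mem_filter, mem_Icc] at hp
    rw [mem_Icc]
    omega
  have h3 := card_le_card this
  rw [Nat.card_Icc, Nat.add_sub_cancel] at h3
  exact_mod_cast h3

theorem off_single (N Y R1 R q F0 : ℕ) (T M2 : ℝ) (h : Hyp N R1 R q F0 T M2) (hY : 2 * Y ≤ N)
    (hY2 : N ≤ 2 * Y + 1) (hT : ∀ m, 0 < m → m ≤ 2 * Y → (m.divisors.card : ℝ) ≤ T) :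
    |Offp N Y R1 R q + Offm N Y R1 R q| ≤ 2 * (R * (N / q * (Y * (T * (1 + Real.log R))))) +
      5 * N * Om N R1 R (N / q) F0 T M2 := by
  have hT0 : 0 ≤ T := by linarith [h.hT1]
  have hOm := Om_nonneg N R1 R (N / q) F0 T M2 hT0 h.hM20
  set W := Om N R1 R (N / q) F0 T M2 with hW
  set Z := R * (N / q * (Y * (T * (1 + Real.log R)))) with hZ
  have hYR : 2 * (Y : ℝ) ≤ N := by exact_mod_cast hY
  -- plus
  have hp1 : Offp N Y R1 R q =
      ∑ p ∈ (Pr N).filter (fun p => R < p), ∑ k ∈ Icc 1 (N / q), (g Y (p + k * q) : ℝ) * wt R1 R (p + k * q) +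
      ∑ p ∈ (Pr N).filter (fun p => ¬ R < p), ∑ k ∈ Icc 1 (N / q),
        (g Y (p + k * q) : ℝ) * wt R1 R (p + k * q) := by
    rw [sum_filter_add_sum_filter_not]
    unfold Offp
    apply sum_congr rfl
    intro p _
    apply restrict_k N q h.hq
    intro k hk
    rw [g_big Y _ (by omega)]
    simp
  have hp2 : ∑ p ∈ (Pr N).filter (fun p => R < p), ∑ k ∈ Icc 1 (N / q),
      (g Y (p + k * q) : ℝ) * wt R1 R (p + k * q) =
      (∑ p ∈ (Pr N).filter (fun p => R < p), ∑ k ∈ Icc 1 (N / q),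
      ((2 * Y - (p + k * q) : ℕ) : ℝ) * wt R1 R (p + k * q)) - 2 *
      (∑ p ∈ (Pr N).filter (fun p => R < p), ∑ k ∈ Icc 1 (N / q),
      ((Y - (p + k * q) : ℕ) : ℝ) * wt R1 R (p + k * q)) := by
    rw [mul_sum, ← sum_sub_distrib]
    apply sum_congr rfl
    intro p _
    rw [mul_sum, ← sum_sub_distrib]
    apply sum_congr rfl
    intro k _
    rw [g_up]
    ring
  have p1 := abs_le.1 (off1 N R1 R q F0 (2 * Y) T M2 h hY)
  have p2 := abs_le.1 (off1 N R1 R q F0 Y T M2 h (by omega))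
  have p3 := abs_le.1 (small_off N Y R1 R q hY T hT0 hT (fun p k => p + k * q))
  -- minus
  have hm1 : Offm N Y R1 R q =
      ∑ p ∈ (Pr N).filter (fun p => R < p), ∑ k ∈ Icc 1 (N / q), (g Y (p - k * q) : ℝ) * wt R1 R (p - k * q) +
      ∑ p ∈ (Pr N).filter (fun p => ¬ R < p), ∑ k ∈ Icc 1 (N / q),
        (g Y (p - k * q) : ℝ) * wt R1 R (p - k * q) := by
    rw [sum_filter_add_sum_filter_not]
    unfold Offm
    apply sum_congr rfl
    intro p hp
    unfold Pr at hp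
    rw [mem_filter, mem_Icc] at hp
    apply restrict_k N q h.hq
    intro k hk
    have : p - k * q = 0 := by omega
    rw [this, g_zero]
    simp
  have hm2 : ∑ p ∈ (Pr N).filter (fun p => R < p), ∑ k ∈ Icc 1 (N / q),
      (g Y (p - k * q) : ℝ) * wt R1 R (p - k * q) =
      (∑ p ∈ (Pr N).filter (fun p => R < p), ∑ k ∈ Icc 1 (N / q),
      ((p - k * q - 0 : ℕ) : ℝ) * wt R1 R (p - k * q)) - 2 *
      (∑ p ∈ (Pr N).filter (fun p => R < p), ∑ k ∈ Icc 1 (N / q),
      ((p - k * q - Y : ℕ) : ℝ) * wt R1 R (p - k * q)) := by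
    rw [mul_sum, ← sum_sub_distrib]
    apply sum_congr rfl
    intro p hp
    unfold Pr at hp
    rw [mem_filter, mem_filter, mem_Icc] at hp
    rw [mul_sum, ← sum_sub_distrib]
    apply sum_congr rfl
    intro k hk
    rw [mem_Icc] at hk
    have h6 : 1 ≤ k * q := Nat.mul_pos hk.1 h.hq
    rw [g_down Y (p - k * q) (by omega)]
    simp only [Nat.sub_zero]
    ring
  have m1 := abs_le.1 (off2 N R1 R q F0 0 T M2 h)
  have m2 := abs_le.1 (off2 N R1 R q F0 Y T M2 h)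
  have m3 := abs_le.1 (small_off N Y R1 R q hY T hT0 hT (fun p k => p - k * q))
  rw [← hW] at p1 p2 m1 m2
  rw [← hZ] at p3 m3
  rw [hp1, hp2, hm1, hm2]
  push_cast at p1
  have e1 : 2 * (Y : ℝ) * W ≤ N * W := mul_le_mul_of_nonneg_right hYR hOm
  rw [abs_le]
  constructor <;> nlinarith [p1.1, p1.2, p2.1, p2.2, m1.1, m1.2, m2.1, m2.2, p3.1, p3.2, m3.1, m3.2, e1]

end Pool.Agent.H52
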