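import Mathlib
import Pool.Agent.H52.EH9

/-!
The mean value of the prime sums over the conductors.
-/

set_option autoImplicit false

open Finset

namespace Pool.Agent.H52

theorem mean_blocks (N U L F0 R : ℕ) (hU : 1 ≤ U) (hUN : U * U * U ≤ N) (hL : N < 2 ^ L)
    (hF0 : 2 ≤ F0) (hRN : R ≤ N) (T : ℝ) (hT1 : 1 ≤ T)
    (hTd : ∀ m ∈ Icc 1 N, (m.divisors.card : ℝ) ≤ T)
    (hTl : Real.log N ≤ T) (M1 : ℝ) (hM10 : 0 ≤ M1)
    (hM1 : ∀ F : ℕ, F0 ≤ F → F ≤ R →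
      Real.sqrt (2 * F) * (2 * (BB N U L F T + (F + 1) * (2 * Real.sqrt N * Real.log N))) ≤ M1)
    (y : ℕ) (hy : y ≤ N) :
    ∑ f ∈ Ioc F0 R, Real.sqrt f * Mn f (fun ψ => ‖PS y f ψ‖) ≤ L * M1 := by
  have hR : R < 2 ^ L * F0 := lt_of_le_of_lt hRN (lt_of_lt_of_le hL (Nat.le_mul_of_pos_right _ (by omega)))
  rw [dyad F0 R L hR]
  have h1 : ∀ i ∈ range L, ∑ f ∈ Ioc (2 ^ i * F0) (min (2 ^ (i + 1) * F0) R),
      Real.sqrt f * Mn f (fun ψ => ‖PS y f ψ‖) ≤ M1 := by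
    intro i _
    set F := 2 ^ i * F0 with hF
    have hF0F : F0 ≤ F := Nat.le_mul_of_pos_left F0 (by positivity)
    have h2F : 2 ^ (i + 1) * F0 = 2 * F := by rw [hF]; ring
    rw [h2F]
    rcases le_or_gt F R with hFR | hFR
    · refine le_trans ?_ (hM1 F hF0F hFR)
      calc ∑ f ∈ Ioc F (min (2 * F) R), Real.sqrt f * Mn f (fun ψ => ‖PS y f ψ‖) ≤
            ∑ f ∈ Icc F (2 * F), Real.sqrt (2 * F) * Mn f (fun ψ => ‖PS y f ψ‖) := by
            refine le_trans (sum_le_sum (g := fun f : ℕ => Real.sqrt (2 * F) * Mn f (fun ψ => ‖PS y f ψ‖)) ?_) ?_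
            · intro f hf
              rw [mem_Ioc] at hf
              apply mul_le_mul_of_nonneg_right _ (Mn_nonneg f _ (fun ψ => norm_nonneg _))
              apply Real.sqrt_le_sqrt
              have : f ≤ 2 * F := by omega
              exact_mod_cast this
            · apply sum_le_sum_of_subset_of_nonneg
              · intro f hf
                rw [mem_Ioc] at hf
                rw [mem_Icc]
                omega
              · intro f _ _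
                exact mul_nonneg (Real.sqrt_nonneg _) (Mn_nonneg f _ (fun ψ => norm_nonneg _))
        _ = Real.sqrt (2 * F) * ∑ f ∈ Icc F (2 * F), Mn f (fun ψ => ‖PS y f ψ‖) := (mul_sum _ _ _).symm
        _ ≤ Real.sqrt (2 * F) * (2 * (BB N U L F T + (F + 1) * (2 * Real.sqrt N * Real.log N))) := by
            apply mul_le_mul_of_nonneg_left _ (Real.sqrt_nonneg _)
            have h3 := block_PS N (Icc F (2 * F)) (by
                intro f hf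
                rw [mem_Icc] at hf
                omega) (BB N U L F T)
              (fun y hy => block_psi N U y L F hU hUN hy hL (by omega) T hT1 hTd hTl) y hy
            have h4 : ((Icc F (2 * F)).card : ℝ) = F + 1 := by
              rw [Nat.card_Icc]
              have : 2 * F + 1 - F = F + 1 := by omega
              rw [this]
              push_cast
              ring
            rw [h4] at h3
            exact h3
    · rw [Ioc_eq_empty (by omega), sum_empty]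
      exact hM10
  refine (sum_le_sum h1).trans (le_of_eq ?_)
  rw [sum_const, card_range, nsmul_eq_mul]

/-- the size of one block -/
lemma block_size (N U L F : ℕ) (T u v : ℝ) (hu : 100 ≤ u) (hv3 : v ^ 3 = N) (hv : 1 ≤ v)
    (hUv : (U : ℝ) ≤ v) (hvU : v ≤ 2 * U) (hLu : (L : ℝ) ≤ u) (hTu : T ≤ u) (hT0 : 0 ≤ T)
    (hlogN : Real.log N ≤ u) (hlogF : 1 + Real.log (2 * F) ≤ u)
    (hF1 : u ^ 40 ≤ 2 * F) (hF2 : F ≤ 2 * v / u ^ 40) :
    Real.sqrt (2 * F) * (2 * (BB N U L F T + (F + 1) * (2 * Real.sqrt N * Real.log N))) ≤ N / u ^ 11 := by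
  have hu0 : 0 < u := by linarith
  have hv0 : 0 < v := by linarith
  have hN0 : (0 : ℝ) < N := by rw [← hv3]; positivity
  have hlogN0 : 0 ≤ Real.log N := Real.log_natCast_nonneg N
  have hF0 : (0 : ℝ) < F := by
    have : 0 < u ^ 40 := by positivity
    linarith
  have hF1' : (1 : ℝ) ≤ F := by
    have h1 : (0 : ℕ) < F := by exact_mod_cast hF0
    exact_mod_cast h1
  have hlogF0 : 0 ≤ Real.log (2 * F) := Real.log_nonneg (by linarith)
  -- square roots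
  obtain ⟨w, hw⟩ : ∃ w, w = Real.sqrt v := ⟨_, rfl⟩
  have hw0 : 0 < w := by rw [hw]; exact Real.sqrt_pos.2 hv0
  have hw2 : w ^ 2 = v := by rw [hw]; exact Real.sq_sqrt hv0.le
  obtain ⟨ρ, hρ⟩ : ∃ ρ, ρ = Real.sqrt F := ⟨_, rfl⟩
  have hρ0 : 0 < ρ := by rw [hρ]; exact Real.sqrt_pos.2 hF0
  have hρ2 : ρ ^ 2 = F := by rw [hρ]; exact Real.sq_sqrt hF0.le
  have hsN : Real.sqrt N = w ^ 3 := by
    rw [← hv3, ← hw2, show (w ^ 2) ^ 3 = (w ^ 3) ^ 2 by ring]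
    exact Real.sqrt_sq (by positivity)
  have hs2F : Real.sqrt (2 * F) ≤ 2 * ρ := by
    rw [Real.sqrt_le_left (by positivity), mul_pow, hρ2]
    linarith
  have hsNU : Real.sqrt (N / U) ≤ 2 * v := by
    rw [Real.sqrt_le_left (by positivity)]
    have hU0 : (0 : ℝ) < U := by linarith
    rw [div_le_iff₀ hU0, ← hv3]
    nlinarith [sq_nonneg v, mul_pos (mul_pos hv0 hv0) hU0]
  -- ρ ≥ u^20 / 2, ρ ≤ 2 w / u^20
  have hρ1 : u ^ 20 ≤ 2 * ρ := by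
    have h1 : (u ^ 20) ^ 2 ≤ (2 * ρ) ^ 2 := by
      rw [mul_pow, hρ2]
      calc (u ^ 20) ^ 2 = u ^ 40 := by ring
        _ ≤ 2 * (F : ℝ) := hF1
        _ ≤ (2 : ℝ) ^ 2 * (F : ℝ) := by linarith
    exact le_of_sq_le_sq h1 (by positivity)
  have hρ3 : ρ ≤ 2 * w / u ^ 20 := by
    have h1 : ρ ^ 2 ≤ (2 * w / u ^ 20) ^ 2 := by
      rw [hρ2, div_pow, mul_pow, hw2]
      calc (F : ℝ) ≤ 2 * v / u ^ 40 := hF2
        _ ≤ 2 ^ 2 * v / (u ^ 20) ^ 2 := by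
            rw [← pow_mul]
            apply div_le_div_of_nonneg_right _ (by positivity)
            linarith
    exact le_of_sq_le_sq h1 (by positivity)
  -- main estimate
  have hNw : (N : ℝ) = w ^ 6 := by rw [← hv3, ← hw2]; ring
  have hBB : BB N U L F T + (F + 1) * (2 * Real.sqrt N * Real.log N) ≤
      16 * ρ ^ 3 * w ^ 2 * u ^ 2 + 48 * u ^ 5 * (w ^ 6 / ρ ^ 2 + 4 * w ^ 5 + 2 * ρ ^ 2 * w ^ 3) +
        4 * ρ ^ 2 * w ^ 3 * u := by
    unfold BB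
    have e1 : ((F : ℝ) + 1) * (4 * U * Real.log N * (Real.sqrt (2 * F) * (1 + Real.log (2 * F)))) ≤
        16 * ρ ^ 3 * w ^ 2 * u ^ 2 := by
      calc ((F : ℝ) + 1) * (4 * U * Real.log N * (Real.sqrt (2 * F) * (1 + Real.log (2 * F)))) ≤
            (2 * F) * (4 * v * u * ((2 * ρ) * u)) := by
            gcongr
            linarith
        _ = 16 * ρ ^ 3 * w ^ 2 * u ^ 2 := by rw [← hρ2, ← hw2]; ring
    have e2 : 2 * ((L : ℝ) * (L * (24 * (1 + Real.log (2 * F)) * (Real.sqrt N / F + 2 * Real.sqrt (N / U) + 2 * F) *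
        (Real.sqrt N * T ^ 2)))) ≤ 48 * u ^ 5 * (w ^ 6 / ρ ^ 2 + 4 * w ^ 5 + 2 * ρ ^ 2 * w ^ 3) := by
      calc 2 * ((L : ℝ) * (L * (24 * (1 + Real.log (2 * F)) * (Real.sqrt N / F + 2 * Real.sqrt (N / U) + 2 * F) *
          (Real.sqrt N * T ^ 2)))) ≤
            2 * (u * (u * (24 * u * (w ^ 3 / F + 2 * (2 * v) + 2 * F) * (w ^ 3 * u ^ 2)))) := by
            rw [hsN]
            gcongr
        _ = 48 * u ^ 5 * (w ^ 6 / ρ ^ 2 + 4 * w ^ 5 + 2 * ρ ^ 2 * w ^ 3) := by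
            rw [← hρ2, ← hw2]
            field_simp
            ring
    have e3 : ((F : ℝ) + 1) * (2 * Real.sqrt N * Real.log N) ≤ 4 * ρ ^ 2 * w ^ 3 * u := by
      calc ((F : ℝ) + 1) * (2 * Real.sqrt N * Real.log N) ≤ (2 * F) * (2 * w ^ 3 * u) := by
            rw [hsN]
            gcongr
            linarith
        _ = 4 * ρ ^ 2 * w ^ 3 * u := by rw [← hρ2]; ring
    linarith
  have hBB0 : 0 ≤ 16 * ρ ^ 3 * w ^ 2 * u ^ 2 + 48 * u ^ 5 * (w ^ 6 / ρ ^ 2 + 4 * w ^ 5 + 2 * ρ ^ 2 * w ^ 3) +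
        4 * ρ ^ 2 * w ^ 3 * u := by positivity
  have h1 : Real.sqrt (2 * F) * (2 * (BB N U L F T + (F + 1) * (2 * Real.sqrt N * Real.log N))) ≤
      (2 * ρ) * (2 * (16 * ρ ^ 3 * w ^ 2 * u ^ 2 + 48 * u ^ 5 * (w ^ 6 / ρ ^ 2 + 4 * w ^ 5 + 2 * ρ ^ 2 * w ^ 3) +
        4 * ρ ^ 2 * w ^ 3 * u)) := by
    calc _ ≤ Real.sqrt (2 * F) * (2 * (16 * ρ ^ 3 * w ^ 2 * u ^ 2 + 48 * u ^ 5 * (w ^ 6 / ρ ^ 2 + 4 * w ^ 5 + 2 * ρ ^ 2 * w ^ 3) +
        4 * ρ ^ 2 * w ^ 3 * u)) := by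
          apply mul_le_mul_of_nonneg_left _ (Real.sqrt_nonneg _)
          linarith
      _ ≤ _ := mul_le_mul_of_nonneg_right hs2F (by positivity)
  refine h1.trans ?_
  -- the four terms
  have t1 : ρ ^ 4 * w ^ 2 ≤ 16 * w ^ 6 / u ^ 80 := by
    calc ρ ^ 4 * w ^ 2 ≤ (2 * w / u ^ 20) ^ 4 * w ^ 2 := by gcongr
      _ = 16 * w ^ 6 / u ^ 80 := by field_simp; ring
  have t2 : w ^ 6 / ρ ≤ 2 * w ^ 6 / u ^ 20 := by
    rw [div_le_div_iff₀ hρ0 (by positivity)]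
    calc w ^ 6 * u ^ 20 ≤ w ^ 6 * (2 * ρ) := by gcongr
      _ = _ := by ring
  have t3 : ρ * w ^ 5 ≤ 2 * w ^ 6 / u ^ 20 := by
    calc ρ * w ^ 5 ≤ (2 * w / u ^ 20) * w ^ 5 := by gcongr
      _ = _ := by ring
  have t4 : ρ ^ 3 * w ^ 3 ≤ 8 * w ^ 6 / u ^ 60 := by
    calc ρ ^ 3 * w ^ 3 ≤ (2 * w / u ^ 20) ^ 3 * w ^ 3 := by gcongr
      _ = _ := by field_simp; ring
  have hw6 : 0 < w ^ 6 := by positivity
  have p1 : w ^ 6 / u ^ 80 * u ^ 2 ≤ w ^ 6 / u ^ 15 := by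
    rw [div_mul_eq_mul_div, div_le_div_iff₀ (by positivity) (by positivity)]
    calc w ^ 6 * u ^ 2 * u ^ 15 = w ^ 6 * u ^ 17 := by ring
      _ ≤ w ^ 6 * u ^ 80 := by
          gcongr
          · linarith
          · norm_num
  have p2 : w ^ 6 / u ^ 20 * u ^ 5 = w ^ 6 / u ^ 15 := by
    field_simp
  have p3 : w ^ 6 / u ^ 60 * u ^ 5 ≤ w ^ 6 / u ^ 15 := by
    rw [div_mul_eq_mul_div, div_le_div_iff₀ (by positivity) (by positivity)]
    calc w ^ 6 * u ^ 5 * u ^ 15 = w ^ 6 * u ^ 20 := by ring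
      _ ≤ w ^ 6 * u ^ 60 := by
          gcongr
          · linarith
          · norm_num
  have p4 : w ^ 6 / u ^ 60 * u ≤ w ^ 6 / u ^ 15 := by
    rw [div_mul_eq_mul_div, div_le_div_iff₀ (by positivity) (by positivity)]
    calc w ^ 6 * u * u ^ 15 = w ^ 6 * u ^ 16 := by ring
      _ ≤ w ^ 6 * u ^ 60 := by
          gcongr
          · linarith
          · norm_num
  calc (2 * ρ) * (2 * (16 * ρ ^ 3 * w ^ 2 * u ^ 2 + 48 * u ^ 5 * (w ^ 6 / ρ ^ 2 + 4 * w ^ 5 + 2 * ρ ^ 2 * w ^ 3) +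
        4 * ρ ^ 2 * w ^ 3 * u)) =
        64 * (ρ ^ 4 * w ^ 2) * u ^ 2 + 192 * u ^ 5 * (w ^ 6 / ρ) + 768 * u ^ 5 * (ρ * w ^ 5) +
          384 * u ^ 5 * (ρ ^ 3 * w ^ 3) + 16 * (ρ ^ 3 * w ^ 3) * u := by
        field_simp
        ring
    _ ≤ 64 * (16 * w ^ 6 / u ^ 80) * u ^ 2 + 192 * u ^ 5 * (2 * w ^ 6 / u ^ 20) +
          768 * u ^ 5 * (2 * w ^ 6 / u ^ 20) + 384 * u ^ 5 * (8 * w ^ 6 / u ^ 60) +
          16 * (8 * w ^ 6 / u ^ 60) * u := by gcongr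
    _ = 1024 * (w ^ 6 / u ^ 80 * u ^ 2) + 1920 * (w ^ 6 / u ^ 20 * u ^ 5) +
          3072 * (w ^ 6 / u ^ 60 * u ^ 5) + 128 * (w ^ 6 / u ^ 60 * u) := by ring
    _ ≤ 1024 * (w ^ 6 / u ^ 15) + 1920 * (w ^ 6 / u ^ 15) + 3072 * (w ^ 6 / u ^ 15) +
          128 * (w ^ 6 / u ^ 15) := by
        rw [p2]
        gcongr
    _ = 6144 * (w ^ 6 / u ^ 15) := by ring
    _ ≤ u ^ 4 * (w ^ 6 / u ^ 15) := by
        gcongr
        calc (6144 : ℝ) ≤ 100 ^ 4 := by norm_num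
          _ ≤ u ^ 4 := pow_le_pow_left₀ (by norm_num) hu 4
    _ = N / u ^ 11 := by
        rw [hNw]
        field_simp

end Pool.Agent.H52
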