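import Mathlib
import Pool.Agent.H52.LB10

/-!
The divisor bound, and the variance of primes in progressions for almost all moduli.
-/

set_option autoImplicit false

open Finset

namespace Pool.Agent.H52

theorem prime_pow_aux (ε : ℝ) (hε : 0 < ε) : ∃ C : ℝ, 1 ≤ C ∧ ∀ p : ℕ, 2 ≤ p → ∀ v : ℕ,
    (v : ℝ) + 1 ≤ C * ((p : ℝ) ^ v) ^ ε := by
  set c := ε * Real.log 2 with hc
  have hl2 : 0 < Real.log 2 := Real.log_pos (by norm_num)
  have hc0 : 0 < c := by positivity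
  refine ⟨max 1 (1 / c), le_max_left _ _, ?_⟩
  intro p hp v
  have hp' : (2:ℝ) ≤ p := by exact_mod_cast hp
  have h1 : ((2:ℝ) ^ v) ^ ε ≤ ((p:ℝ) ^ v) ^ ε := by
    apply Real.rpow_le_rpow (by positivity) _ hε.le
    exact pow_le_pow_left₀ (by norm_num) hp' v
  have h2 : 1 + v * c ≤ ((2:ℝ) ^ v) ^ ε := by
    have : ((2:ℝ) ^ v) ^ ε = Real.exp (v * c) := by
      rw [← Real.rpow_natCast, ← Real.rpow_mul (by norm_num), Real.rpow_def_of_pos (by norm_num)]
      congr 1; rw [hc]; ring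
    rw [this]
    have := Real.add_one_le_exp (v * c)
    linarith
  have hC : (1:ℝ) ≤ max 1 (1 / c) := le_max_left _ _
  have hC2 : 1 / c ≤ max 1 (1 / c) := le_max_right _ _
  calc (v : ℝ) + 1 = 1 + v * c * (1 / c) := by field_simp; ring
    _ ≤ max 1 (1/c) * 1 + v * c * max 1 (1 / c) := by
        have : (0:ℝ) ≤ v * c := by positivity
        have := mul_le_mul_of_nonneg_left hC2 this
        linarith
    _ = max 1 (1/c) * (1 + v * c) := by ring
    _ ≤ max 1 (1/c) * ((p:ℝ) ^ v) ^ ε := by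
        apply mul_le_mul_of_nonneg_left (h2.trans h1) (by positivity)

/-- T5a. divisor bound -/
theorem divisor_bound (ε : ℝ) (hε : 0 < ε) :
    ∃ C : ℝ, 0 < C ∧ ∀ n : ℕ, 1 ≤ n → (n.divisors.card : ℝ) ≤ C * (n : ℝ) ^ ε := by
  classical
  obtain ⟨C, hC1, hC⟩ := prime_pow_aux ε hε
  obtain ⟨P, hP⟩ := exists_nat_ge ((2:ℝ) ^ (1/ε))
  refine ⟨C ^ P, by positivity, ?_⟩
  intro n hn
  have hn0 : n ≠ 0 := by omega
  rw [Nat.card_divisors hn0]
  push_cast
  have hnprod : (n:ℝ) ^ ε = ∏ p ∈ n.primeFactors, ((p:ℝ) ^ (n.factorization p)) ^ ε := by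
    rw [Real.finsetProd_rpow _ _ (fun p _ => by positivity)]
    congr 1
    conv_lhs => rw [← Nat.prod_factorization_pow_eq_self hn0]
    rw [Finsupp.prod]
    push_cast
    rfl
  have hterm : ∀ p ∈ n.primeFactors, ((n.factorization p : ℝ) + 1) ≤
      (if p < P then C else 1) * ((p:ℝ) ^ (n.factorization p)) ^ ε := by
    intro p hp
    have hpp := Nat.prime_of_mem_primeFactors hp
    split_ifs with h
    · exact hC p hpp.two_le _
    · push Not at h
      have h1 : (2:ℝ) ^ (1/ε) ≤ p := hP.trans (by exact_mod_cast h)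
      have h2 : (2:ℝ) ≤ (p:ℝ) ^ ε := by
        have := Real.rpow_le_rpow (by positivity) h1 hε.le
        rwa [← Real.rpow_mul (by norm_num), one_div_mul_cancel hε.ne', Real.rpow_one] at this
      have h3 : ((p:ℝ) ^ (n.factorization p)) ^ ε = ((p:ℝ) ^ ε) ^ (n.factorization p) := by
        rw [← Real.rpow_natCast, ← Real.rpow_natCast, ← Real.rpow_mul (by positivity),
          ← Real.rpow_mul (by positivity), mul_comm]
      rw [one_mul, h3]
      have h4 : ((n.factorization p : ℝ) + 1) ≤ 2 ^ (n.factorization p) := by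
        exact_mod_cast Nat.lt_two_pow_self
      exact h4.trans (pow_le_pow_left₀ (by norm_num) h2 _)
  calc ∏ p ∈ n.primeFactors, ((n.factorization p : ℝ) + 1)
      ≤ ∏ p ∈ n.primeFactors, ((if p < P then C else 1) * ((p:ℝ) ^ (n.factorization p)) ^ ε) :=
        Finset.prod_le_prod (fun p _ => by positivity) hterm
    _ = (∏ p ∈ n.primeFactors, (if p < P then C else 1)) * (n:ℝ) ^ ε := by
        rw [Finset.prod_mul_distrib, hnprod]
    _ ≤ C ^ P * (n:ℝ) ^ ε := by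
        apply mul_le_mul_of_nonneg_right _ (by positivity)
        rw [← Finset.prod_filter, Finset.prod_const]
        apply pow_le_pow_right₀ hC1
        calc _ ≤ (Finset.range P).card := Finset.card_le_card (by
              intro p hp; rw [Finset.mem_filter] at hp; exact Finset.mem_range.mpr hp.2)
          _ = P := Finset.card_range P

open Filter in
lemma ev_u (δ : ℝ) (hδ : 0 < δ) (K : ℝ) : ∃ x0 : ℕ, ∀ N : ℕ, x0 ≤ N →
    1 ≤ N ∧ K ≤ (N : ℝ) ^ (δ / 64) ∧ 2 * Real.log N ≤ (N : ℝ) ^ (δ / 64) ∧ K ≤ Real.log N ∧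
    ∀ n : ℕ, 0 < n → n ≤ 2 * N → (n.divisors.card : ℝ) ≤ (N : ℝ) ^ (δ / 64) := by
  obtain ⟨C, hC0, hC⟩ := divisor_bound (δ / 128) (by positivity)
  have h1 : ∀ᶠ x : ℝ in atTop, K ≤ x ^ (δ / 64) := (tendsto_rpow_atTop (by positivity)).eventually_ge_atTop K
  have h2 : ∀ᶠ x : ℝ in atTop, ‖Real.log x‖ ≤ (1 / 2) * ‖x ^ (δ / 64)‖ :=
    (isLittleO_log_rpow_atTop (by positivity : (0 : ℝ) < δ / 64)).bound (by positivity)
  have h3 : ∀ᶠ x : ℝ in atTop, K ≤ Real.log x := Real.tendsto_log_atTop.eventually_ge_atTop K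
  have h4 : ∀ᶠ x : ℝ in atTop, C * (2 : ℝ) ^ (δ / 128) ≤ x ^ (δ / 128) :=
    (tendsto_rpow_atTop (by positivity)).eventually_ge_atTop _
  obtain ⟨x0, hx0⟩ := ((((h1.and h2).and h3).and h4).and (eventually_ge_atTop (1 : ℝ))).exists_forall_of_atTop
  refine ⟨⌈x0⌉₊ + 1, fun N hN => ?_⟩
  have hNx : x0 ≤ N := by
    have := Nat.le_ceil x0
    have h2 : ((⌈x0⌉₊ : ℕ) : ℝ) ≤ N := by exact_mod_cast (by omega : ⌈x0⌉₊ ≤ N)
    linarith
  obtain ⟨⟨⟨⟨e1, e2⟩, e3⟩, e4⟩, e5⟩ := hx0 N hNx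
  have hN0 : (0 : ℝ) < N := by linarith
  refine ⟨by omega, e1, ?_, e3, ?_⟩
  · rw [Real.norm_of_nonneg (Real.log_nonneg e5), Real.norm_of_nonneg (by positivity)] at e2
    linarith
  · intro n hn hn2
    refine (hC n hn).trans ?_
    have e6 : (n : ℝ) ^ (δ / 128) ≤ (2 * (N : ℝ)) ^ (δ / 128) := by
      apply Real.rpow_le_rpow (by positivity) _ (by positivity)
      exact_mod_cast hn2
    rw [Real.mul_rpow (by norm_num) hN0.le] at e6
    calc C * (n : ℝ) ^ (δ / 128) ≤ C * ((2 : ℝ) ^ (δ / 128) * (N : ℝ) ^ (δ / 128)) := by gcongr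
      _ = (C * (2 : ℝ) ^ (δ / 128)) * (N : ℝ) ^ (δ / 128) := by ring
      _ ≤ (N : ℝ) ^ (δ / 128) * (N : ℝ) ^ (δ / 128) := by gcongr
      _ = (N : ℝ) ^ (δ / 64) := by
          rw [← Real.rpow_add hN0]
          congr 1
          ring

lemma LL_big (s u : ℝ) (R1 R : ℕ) (hs0 : 0 < s) (hu : 4 ≤ u) (_hus : u ^ 64 ≤ s)
    (hR : s / (2 * u ^ 8) ≤ R) (hR1 : (R1 : ℝ) ≤ 2 * s / u ^ 56) (hR1' : 128 ≤ R1) :
    (40 * Real.log u / Real.log 2 - 1) / 16 ≤ LL R1 R := by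
  have hu0 : (0 : ℝ) < u := by linarith
  have hl2 : 0 < Real.log 2 := Real.log_pos (by norm_num)
  have hR1R : (0 : ℝ) < R1 := by exact_mod_cast (by omega : 0 < R1)
  have h1 : u ^ 48 / 4 ≤ (R : ℝ) / R1 := by
    rw [le_div_iff₀ hR1R]
    calc u ^ 48 / 4 * R1 ≤ u ^ 48 / 4 * (2 * s / u ^ 56) := by gcongr
      _ = s / (2 * u ^ 8) := by field_simp; ring
      _ ≤ R := hR
  have h2 : u ^ 40 ≤ u ^ 48 / 4 := by
    rw [le_div_iff₀ (by norm_num)]
    have : (4 : ℝ) ≤ u ^ 8 := by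
      calc (4 : ℝ) ≤ u := hu
        _ = u ^ 1 := by ring
        _ ≤ u ^ 8 := pow_le_pow_right₀ (by linarith) (by norm_num)
    calc u ^ 40 * 4 ≤ u ^ 40 * u ^ 8 := by gcongr
      _ = u ^ 48 := by ring
  have h3 : (1 : ℝ) ≤ u ^ 40 := one_le_pow₀ (by linarith)
  have h4 : (R : ℝ) / R1 < ((R / R1 : ℕ) : ℝ) + 1 := div_lt_succ R R1 (by omega)
  have hpos : R / R1 ≠ 0 := by
    intro h
    rw [h] at h4
    have : (u ^ 40 : ℝ) < 1 := by
      calc u ^ 40 ≤ R / R1 := h2.trans h1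
        _ < ((0 : ℕ) : ℝ) + 1 := h4
        _ = 1 := by norm_num
    linarith
  set j := Nat.log 2 (R / R1) with hj
  have h5 : 2 ^ j ≤ R / R1 := Nat.pow_log_le_self 2 hpos
  have h6 : R / R1 < 2 ^ (j + 1) := Nat.lt_pow_succ_log_self (by norm_num) _
  have h7 : 2 ^ j * R1 ≤ R := by
    calc 2 ^ j * R1 ≤ (R / R1) * R1 := Nat.mul_le_mul_right _ h5
      _ ≤ R := Nat.div_mul_le_self _ _
  have h8 : (u : ℝ) ^ 40 ≤ 2 ^ (j + 1) := by
    have : ((R / R1 : ℕ) : ℝ) + 1 ≤ 2 ^ (j + 1) := by exact_mod_cast h6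
    linarith
  have h9 : 40 * Real.log u ≤ (j + 1) * Real.log 2 := by
    have := Real.log_le_log (by positivity) h8
    rw [Real.log_pow, Real.log_pow] at this
    push_cast at this
    linarith
  have h10 := LL_lower R1 j hR1'
  have h11 := LL_mono R1 _ _ h7
  have h12 : 40 * Real.log u / Real.log 2 ≤ j + 1 := by
    rw [div_le_iff₀ hl2]
    exact h9
  linarith

theorem almost_all (δ : ℝ) (hδ : 0 < δ) (hδ2 : δ ≤ 1 / 2) : ∃ x0 : ℕ, ∀ N : ℕ, x0 ≤ N → ∀ Q : ℕ,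
    (N : ℝ) ^ (1 / 2 + δ) ≤ Q → Q ≤ N →
    (((Ioc Q (2 * Q)).filter (fun q => VV N q ((Nat.primeCounting N : ℝ) / Nat.totient q) <
      (δ / 2 ^ 27) * (N / Real.log N))).card : ℝ) ≤ Q * (N : ℝ) ^ (-(δ / 16)) := by
  obtain ⟨Y0, hY0⟩ := GG_lower
  obtain ⟨x0, hx0⟩ := ev_u δ hδ (max 128 (2 ^ 18 / δ))
  refine ⟨x0 + 4 * Y0 + 300, fun N hN Q hQ1 hQ2 => ?_⟩
  obtain ⟨hN1, hu, hlogu, hlog, hdiv⟩ := hx0 N (by omega)
  have hNR : (0 : ℝ) < N := by exact_mod_cast (by omega : 0 < N)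
  have hN1R : (1 : ℝ) ≤ N := by exact_mod_cast hN1
  set u : ℝ := (N : ℝ) ^ (δ / 64) with hudef
  have hu128 : 128 ≤ u := le_trans (le_max_left _ _) hu
  have hud : 2 ^ 18 / δ ≤ u := le_trans (le_max_right _ _) hu
  have hlog128 : 128 ≤ Real.log N := le_trans (le_max_left _ _) hlog
  have hlogd : 2 ^ 18 / δ ≤ Real.log N := le_trans (le_max_right _ _) hlog
  have hu0 : 0 < u := by linarith
  set s : ℝ := Real.sqrt N with hsdef
  have hs0 : 0 < s := Real.sqrt_pos.2 hNR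
  have hs : s ^ 2 = N := Real.sq_sqrt hNR.le
  have hu64 : u ^ 64 = (N : ℝ) ^ δ := by
    rw [hudef, ← Real.rpow_natCast, ← Real.rpow_mul hNR.le]
    congr 1
    push_cast
    ring
  have hus : u ^ 64 ≤ s := by
    rw [hu64, hsdef, Real.sqrt_eq_rpow]
    exact Real.rpow_le_rpow_of_exponent_le hN1R hδ2
  have hQs : s * u ^ 64 ≤ Q := by
    rw [hu64, hsdef, Real.sqrt_eq_rpow, ← Real.rpow_add hNR]
    exact hQ1
  have hQ0 : (0 : ℝ) < Q := lt_of_lt_of_le (by positivity) hQs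
  have hQN : (Q : ℝ) ≤ N := by exact_mod_cast hQ2
  have hNQ1 : 1 ≤ (N : ℝ) / Q := by rw [le_div_iff₀ hQ0]; linarith
  have hu8 : 128 ≤ u ^ 8 := by
    calc (128 : ℝ) ≤ u := hu128
      _ = u ^ 1 := by ring
      _ ≤ u ^ 8 := pow_le_pow_right₀ (by linarith) (by norm_num)
  set Y : ℕ := N / 2 with hYdef
  set R : ℕ := ⌊s / u ^ 8⌋₊ with hRdef
  set R1 : ℕ := ⌈(N / Q : ℝ) * u ^ 8⌉₊ with hR1def
  have hR : (R : ℝ) ≤ s / u ^ 8 := Nat.floor_le (by positivity)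
  have hR1 : (N / Q : ℝ) * u ^ 8 ≤ R1 := Nat.le_ceil _
  have hR1_128 : 128 ≤ R1 := by
    have : (128 : ℝ) ≤ R1 := by nlinarith
    exact_mod_cast this
  have hR1R : (0 : ℝ) < R1 := by exact_mod_cast (by omega : 0 < R1)
  have hNQ : (N : ℝ) / Q ≤ s / u ^ 64 := by
    rw [div_le_div_iff₀ hQ0 (by positivity), ← hs]
    calc s ^ 2 * u ^ 64 = s * (s * u ^ 64) := by ring
      _ ≤ s * Q := by gcongr
  have hR1up : (R1 : ℝ) ≤ 2 * s / u ^ 56 := by
    have e1 : (R1 : ℝ) < (N / Q : ℝ) * u ^ 8 + 1 := Nat.ceil_lt_add_one (by positivity)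
    have e2 : 1 ≤ (N / Q : ℝ) * u ^ 8 := by nlinarith
    calc (R1 : ℝ) ≤ 2 * ((N / Q : ℝ) * u ^ 8) := by linarith
      _ ≤ 2 * ((s / u ^ 64) * u ^ 8) := by gcongr
      _ = 2 * s / u ^ 56 := by field_simp
  have hsu8 : 2 ≤ s / u ^ 8 := by
    rw [le_div_iff₀ (by positivity)]
    calc 2 * u ^ 8 ≤ u ^ 8 * u ^ 8 := by nlinarith
      _ = u ^ 16 := by ring
      _ ≤ u ^ 64 := pow_le_pow_right₀ (by linarith) (by norm_num)
      _ ≤ s := hus
  have hRlow : s / (2 * u ^ 8) ≤ R := by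
    have e1 : s / u ^ 8 < R + 1 := Nat.lt_floor_add_one _
    have e2 : s / (2 * u ^ 8) = (s / u ^ 8) / 2 := by field_simp
    rw [e2]
    linarith
  -- Y
  have hY1 : 2 * Y ≤ N := by omega
  have hY2 : N ≤ 2 * Y + 1 := by omega
  have hY4 : (N : ℝ) / 4 ≤ Y := by
    have : N ≤ 4 * Y := by omega
    have : (N : ℝ) ≤ 4 * Y := by exact_mod_cast this
    linarith
  have hR2 : (R : ℝ) ^ 2 ≤ N / 128 := by
    calc (R : ℝ) ^ 2 ≤ (s / u ^ 8) ^ 2 := pow_le_pow_left₀ (by positivity) hR 2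
      _ = N / (u ^ 8 * u ^ 8) := by rw [div_pow, hs]; ring
      _ ≤ N / 128 := by
          apply div_le_div_of_nonneg_left hNR.le (by norm_num)
          nlinarith
  have hR2Y : (R : ℝ) ^ 2 ≤ Y := by linarith
  have hRN : R ≤ N := by
    have e1 : (R : ℝ) ≤ s := hR.trans (div_le_self hs0.le (by linarith))
    have e2 : s ≤ N := by
      rw [← hs]
      have : 1 ≤ s := le_trans (one_le_pow₀ (by linarith)) hus
      nlinarith
    exact_mod_cast e1.trans e2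
  have h8R : 8 * R ≤ Y := by
    have e1 : (R : ℝ) ≤ s / 128 := by
      refine hR.trans ?_
      apply div_le_div_of_nonneg_left hs0.le (by norm_num) hu8
    have e2 : 1 ≤ s := le_trans (one_le_pow₀ (by linarith)) hus
    have e3 : 8 * (R : ℝ) ≤ Y := by nlinarith
    exact_mod_cast e3
  have hH : 1 + Real.log R ≤ u := by
    rcases Nat.eq_zero_or_pos R with h | h
    · rw [h]
      simp only [Nat.cast_zero, Real.log_zero]
      linarith
    · have : Real.log R ≤ Real.log N := Real.log_le_log (by exact_mod_cast h) (by exact_mod_cast hRN)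
      linarith
  have hlu : Real.log u = δ / 64 * Real.log N := by
    rw [hudef, Real.log_rpow hNR]
  have hLLlow : δ / 32 * Real.log N ≤ LL R1 R := by
    refine le_trans ?_ (LL_big s u R1 R hs0 (by linarith) hus hRlow hR1up hR1_128)
    rw [hlu]
    have hl2 : 0 < Real.log 2 := Real.log_pos (by norm_num)
    have hl2' : Real.log 2 < 0.6931471808 := Real.log_two_lt_d9
    have hδl : 2 ^ 18 ≤ δ * Real.log N := by
      rw [div_le_iff₀ hδ] at hlogd
      linarith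
    have e1 : (0.8 : ℝ) * (δ * Real.log N) ≤ 40 * (δ / 64 * Real.log N) / Real.log 2 := by
      rw [le_div_iff₀ hl2]
      nlinarith
    linarith
  have hLL1 : 1 ≤ LL R1 R := by
    refine le_trans ?_ hLLlow
    have hδl : 2 ^ 18 ≤ δ * Real.log N := by
      rw [div_le_iff₀ hδ] at hlogd
      linarith
    linarith
  have hlogN0 : 0 < Real.log N := by linarith
  have hGlow : (N : ℝ) ^ 2 / 512 ≤ GG N Y R * Real.log N := by
    have e1 := hY0 N Y R (by omega) (by omega) h8R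
    have e2 : ((N : ℝ) / 4) ^ 2 ≤ (Y : ℝ) ^ 2 := pow_le_pow_left₀ (by positivity) hY4 2
    linarith
  have hG0 : 0 ≤ GG N Y R := by
    unfold GG
    positivity
  have hGG : (δ / 2 ^ 14) * (N : ℝ) ^ 2 ≤ LL R1 R * GG N Y R := by
    calc (δ / 2 ^ 14) * (N : ℝ) ^ 2 = δ / 32 * ((N : ℝ) ^ 2 / 512) := by ring
      _ ≤ δ / 32 * (GG N Y R * Real.log N) := by gcongr
      _ = (δ / 32 * Real.log N) * GG N Y R := by ring
      _ ≤ LL R1 R * GG N Y R := by gcongr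
  have hc1 : 14 ≤ (δ / 2 ^ 14) * u ^ 2 := by
    have e1 : 2 ^ 18 ≤ δ * u := by
      rw [div_le_iff₀ hδ] at hud
      linarith
    have e2 : δ * u ≤ δ * u ^ 2 := by nlinarith
    linarith
  -- bad moduli
  have hsub : (Ioc Q (2 * Q)).filter (fun q => VV N q ((Nat.primeCounting N : ℝ) / Nat.totient q) <
      (δ / 2 ^ 27) * (N / Real.log N)) ⊆
      (Ioc Q (2 * Q)).filter (fun q => (N : ℝ) ^ 2 / u ^ 2 < |Offp N Y R1 R q + Offm N Y R1 R q|) := by
    intro q hq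
    rw [mem_filter, mem_Ioc] at hq
    rw [mem_filter, mem_Ioc]
    refine ⟨hq.1, ?_⟩
    by_contra hcon
    push Not at hcon
    have hsing := single N Y R1 R q Q s u (δ / 2 ^ 14) hs hs0 (by linarith) hus hQs hq.1.1 hY1 hR hR1
      hdiv (by omega) hH hR2Y hLL1 hGG hc1 hcon
    set V := VV N q ((Nat.primeCounting N : ℝ) / Nat.totient q) with hV
    have hV2 := hq.2
    have hLLpos : 0 < LL R1 R := by linarith
    -- V log N ≥ δ N / 2^27
    have e1 : LL R1 R * GG N Y R ^ 2 ≤ V * (12 * (N : ℝ) ^ 3) := by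
      have e2 : LL R1 R * (LL R1 R * GG N Y R ^ 2) ≤ LL R1 R * (V * (12 * (N : ℝ) ^ 3)) := by nlinarith
      exact le_of_mul_le_mul_left e2 hLLpos
    have e3 : (N : ℝ) ^ 4 / 2 ^ 18 ≤ (GG N Y R * Real.log N) ^ 2 := by
      have := pow_le_pow_left₀ (by positivity) hGlow 2
      calc (N : ℝ) ^ 4 / 2 ^ 18 = ((N : ℝ) ^ 2 / 512) ^ 2 := by ring
        _ ≤ _ := this
    have e4 : (δ / 32 * Real.log N) * ((N : ℝ) ^ 4 / 2 ^ 18) ≤ V * (12 * (N : ℝ) ^ 3) * (Real.log N) ^ 2 := by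
      calc (δ / 32 * Real.log N) * ((N : ℝ) ^ 4 / 2 ^ 18) ≤ LL R1 R * (GG N Y R * Real.log N) ^ 2 := by
            gcongr
        _ = (LL R1 R * GG N Y R ^ 2) * (Real.log N) ^ 2 := by ring
        _ ≤ V * (12 * (N : ℝ) ^ 3) * (Real.log N) ^ 2 := by gcongr
    have e5 : V * Real.log N < (δ / 2 ^ 27) * N := by
      have := mul_lt_mul_of_pos_right hV2 hlogN0
      calc V * Real.log N < (δ / 2 ^ 27) * (N / Real.log N) * Real.log N := this
        _ = (δ / 2 ^ 27) * N := by field_simp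
    have e6 : V * (12 * (N : ℝ) ^ 3) * (Real.log N) ^ 2 < (δ / 32 * Real.log N) * ((N : ℝ) ^ 4 / 2 ^ 18) := by
      calc V * (12 * (N : ℝ) ^ 3) * (Real.log N) ^ 2 = (V * Real.log N) * (12 * (N : ℝ) ^ 3 * Real.log N) := by ring
        _ < ((δ / 2 ^ 27) * N) * (12 * (N : ℝ) ^ 3 * Real.log N) := by
            apply mul_lt_mul_of_pos_right e5
            positivity
        _ = (12 / 2 ^ 27) * (δ * Real.log N * (N : ℝ) ^ 4) := by ring
        _ ≤ (1 / 2 ^ 23) * (δ * Real.log N * (N : ℝ) ^ 4) := by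
            apply mul_le_mul_of_nonneg_right _ (by positivity)
            norm_num
        _ = (δ / 32 * Real.log N) * ((N : ℝ) ^ 4 / 2 ^ 18) := by ring
    linarith
  refine le_trans (Nat.cast_le.2 (card_le_card hsub)) ?_
  set B := (Ioc Q (2 * Q)).filter
    (fun q => (N : ℝ) ^ 2 / u ^ 2 < |Offp N Y R1 R q + Offm N Y R1 R q|) with hB
  have hoff := off_bound N Y R1 R Q (by omega) hY1 hY2 (by exact_mod_cast hQ0)
    (fun q => if 0 ≤ Offp N Y R1 R q + Offm N Y R1 R q then 1 else -1)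
    (by intro q; split_ifs <;> simp) u hu0.le
    (by
      intro j hj
      rw [mem_Icc] at hj
      exact hdiv j (by omega) (by omega))
  have e1 : ∑ q ∈ Ioc Q (2 * Q), (if 0 ≤ Offp N Y R1 R q + Offm N Y R1 R q then (1 : ℝ) else -1) *
      (Offp N Y R1 R q + Offm N Y R1 R q) = ∑ q ∈ Ioc Q (2 * Q), |Offp N Y R1 R q + Offm N Y R1 R q| := by
    apply sum_congr rfl
    intro q _
    split_ifs with h
    · rw [one_mul, abs_of_nonneg h]
    · rw [abs_of_neg (by linarith)]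
      ring
  rw [e1] at hoff
  have e2 := (le_abs_self _).trans hoff
  have e3 : (B.card : ℝ) * ((N : ℝ) ^ 2 / u ^ 2) ≤
      ∑ q ∈ Ioc Q (2 * Q), |Offp N Y R1 R q + Offm N Y R1 R q| := by
    rw [← nsmul_eq_mul, ← sum_const]
    refine le_trans (sum_le_sum (g := fun q => |Offp N Y R1 R q + Offm N Y R1 R q|) ?_) ?_
    · intro q hq
      rw [hB, mem_filter] at hq
      exact hq.2.le
    · apply sum_le_sum_of_subset_of_nonneg (filter_subset _ _)
      intro q _ _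
      exact abs_nonneg _
  have hR1inv : 1 / (R1 : ℝ) ≤ Q / (N * u ^ 8) := by
    rw [div_le_div_iff₀ hR1R (by positivity)]
    have e1 : (N / Q : ℝ) * u ^ 8 * Q ≤ R1 * Q := mul_le_mul_of_nonneg_right hR1 hQ0.le
    have e2 : (N / Q : ℝ) * u ^ 8 * Q = N * u ^ 8 := by field_simp
    linarith
  have e4 : 5 * (N : ℝ) * (6 * (N + (R : ℝ) ^ 2) * N * u / R1) ≤ 60 * (N : ℝ) ^ 2 * Q / u ^ 7 := by
    calc 5 * (N : ℝ) * (6 * (N + (R : ℝ) ^ 2) * N * u / R1) =
          30 * (N : ℝ) ^ 2 * (N + (R : ℝ) ^ 2) * u * (1 / R1) := by ring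
      _ ≤ 30 * (N : ℝ) ^ 2 * (N + N) * u * (Q / (N * u ^ 8)) := by
          gcongr
          linarith
      _ = 60 * (N : ℝ) ^ 2 * Q / u ^ 7 := by field_simp; ring
  have e5 : (B.card : ℝ) * ((N : ℝ) ^ 2 / u ^ 2) ≤ (Q / u ^ 4) * ((N : ℝ) ^ 2 / u ^ 2) := by
    calc (B.card : ℝ) * ((N : ℝ) ^ 2 / u ^ 2) ≤ 60 * (N : ℝ) ^ 2 * Q / u ^ 7 := by linarith
      _ = (60 / u) * ((Q / u ^ 4) * ((N : ℝ) ^ 2 / u ^ 2)) := by field_simp
      _ ≤ 1 * ((Q / u ^ 4) * ((N : ℝ) ^ 2 / u ^ 2)) := by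
          gcongr
          rw [div_le_one hu0]
          linarith
      _ = _ := by ring
  have e6 : (B.card : ℝ) ≤ Q / u ^ 4 := le_of_mul_le_mul_right e5 (by positivity)
  refine e6.trans (le_of_eq ?_)
  have e7 : (N : ℝ) ^ (-(δ / 16)) = (u ^ 4)⁻¹ := by
    rw [Real.rpow_neg hNR.le, hudef, ← Real.rpow_natCast, ← Real.rpow_mul hNR.le]
    congr 2
    push_cast
    ring
  rw [e7]
  rfl

end Pool.Agent.H52
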