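import Mathlib
import Pool.Agent.H52.EH10
import Pool.Agent.H52.LB11

/-!
The variance of primes in progressions for every large modulus.
-/

set_option autoImplicit false

open Finset

namespace Pool.Agent.H52

lemma LL_big2 (R1 R : ℕ) (t : ℝ) (ht : 1 ≤ t) (h1 : t ≤ (R : ℝ) / R1) (hR1' : 128 ≤ R1) :
    (Real.log t / Real.log 2 - 1) / 16 ≤ LL R1 R := by
  have hl2 : 0 < Real.log 2 := Real.log_pos (by norm_num)
  have h4 : (R : ℝ) / R1 < ((R / R1 : ℕ) : ℝ) + 1 := div_lt_succ R R1 (by omega)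
  have hpos : R / R1 ≠ 0 := by
    intro h
    rw [h] at h4
    have : t < 1 := by
      calc t ≤ R / R1 := h1
        _ < ((0 : ℕ) : ℝ) + 1 := h4
        _ = 1 := by norm_num
    linarith
  set j := Nat.log 2 (R / R1) with hj
  have h5 : 2 ^ j ≤ R / R1 := Nat.pow_log_le_self 2 hpos
  have h6 : R / R1 < 2 ^ (j + 1) := Nat.lt_pow_succ_log_self (by norm_num) _
  have h7 : 2 ^ j * R1 ≤ R := by
    calc 2 ^ j * R1 ≤ (R / R1) * R1 := Nat.mul_le_mul_right _ h5
      _ ≤ R := Nat.div_mul_le_self _ _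
  have h8 : t ≤ 2 ^ (j + 1) := by
    have : ((R / R1 : ℕ) : ℝ) + 1 ≤ 2 ^ (j + 1) := by exact_mod_cast h6
    linarith
  have h9 : Real.log t ≤ (j + 1) * Real.log 2 := by
    have := Real.log_le_log (by linarith) h8
    rw [Real.log_pow] at this
    push_cast at this
    linarith
  have h10 := LL_lower R1 j hR1'
  have h11 := LL_mono R1 _ _ h7
  have h12 : Real.log t / Real.log 2 ≤ j + 1 := by
    rw [div_le_iff₀ hl2]
    exact h9
  linarith

theorem every_q (δ : ℝ) (hδ : 0 < δ) (hδ2 : δ ≤ 1 / 3) : ∃ x0 : ℕ, ∀ N : ℕ, x0 ≤ N → ∀ q : ℕ,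
    (N : ℝ) ^ (2 / 3 + δ) ≤ q → q ≤ N →
    (δ / 2 ^ 30) * (N / Real.log N) ≤ VV N q ((Nat.primeCounting N : ℝ) / Nat.totient q) := by
  obtain ⟨Y0, hY0⟩ := GG_lower
  obtain ⟨x0, hx0⟩ := ev_u (2 * δ / 5) (by positivity) (max 128 (2 ^ 21 / δ))
  refine ⟨x0 + 4 * Y0 + 300, fun N hN q hq1 hq2 => ?_⟩
  obtain ⟨hN1, hu, hlogu, hlog, hdiv⟩ := hx0 N (by omega)
  have hNR : (0 : ℝ) < N := by exact_mod_cast (by omega : 0 < N)
  have hN1R : (1 : ℝ) ≤ N := by exact_mod_cast hN1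
  set u : ℝ := (N : ℝ) ^ (2 * δ / 5 / 64) with hudef
  have hu128 : 128 ≤ u := le_trans (le_max_left _ _) hu
  have hud : 2 ^ 21 / δ ≤ u := le_trans (le_max_right _ _) hu
  have hlog128 : 128 ≤ Real.log N := le_trans (le_max_left _ _) hlog
  have hlogd : 2 ^ 21 / δ ≤ Real.log N := le_trans (le_max_right _ _) hlog
  have hu0 : 0 < u := by linarith
  have hu1 : 1 ≤ u := by linarith
  have hlogN0 : 0 < Real.log N := by linarith
  -- powers
  obtain ⟨v, hvdef⟩ : ∃ v : ℝ, v = (N : ℝ) ^ (1 / 3 : ℝ) := ⟨_, rfl⟩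
  have hv0 : 0 < v := by rw [hvdef]; positivity
  have hv3 : v ^ 3 = N := by
    rw [hvdef, ← Real.rpow_natCast, ← Real.rpow_mul hNR.le]
    norm_num
  have hu160 : u ^ 160 = (N : ℝ) ^ δ := by
    rw [hudef, ← Real.rpow_natCast, ← Real.rpow_mul hNR.le]
    congr 1
    push_cast
    ring
  have huv : u ^ 160 ≤ v := by
    rw [hu160, hvdef]
    exact Real.rpow_le_rpow_of_exponent_le hN1R hδ2
  have hv1 : 1 ≤ v := le_trans (one_le_pow₀ hu1) huv
  have hqv : v ^ 2 * u ^ 160 ≤ q := by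
    have h1 : v ^ 2 * u ^ 160 = (N : ℝ) ^ (2 / 3 + δ) := by
      rw [hu160, hvdef, ← Real.rpow_natCast, ← Real.rpow_mul hNR.le, ← Real.rpow_add hNR]
      congr 1
      push_cast
      ring
    rw [h1]
    exact hq1
  set s : ℝ := Real.sqrt N with hsdef
  have hs0 : 0 < s := Real.sqrt_pos.2 hNR
  have hs : s ^ 2 = N := Real.sq_sqrt hNR.le
  have hvs : v ≤ s := by
    have h1 : v ^ 2 ≤ s ^ 2 := by
      rw [hs, ← hv3]
      calc v ^ 2 = v ^ 2 * 1 := by ring
        _ ≤ v ^ 2 * v := by gcongr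
        _ = v ^ 3 := by ring
    exact le_of_sq_le_sq h1 hs0.le
  have hsv : s ≤ v ^ 2 := by
    have h1 : s ^ 2 ≤ (v ^ 2) ^ 2 := by
      rw [hs, ← hv3]
      calc v ^ 3 = v ^ 3 * 1 := by ring
        _ ≤ v ^ 3 * v := by gcongr
        _ = (v ^ 2) ^ 2 := by ring
    exact le_of_sq_le_sq h1 (by positivity)
  -- the modulus
  have hqR0 : (0 : ℝ) < q := lt_of_lt_of_le (by positivity) hqv
  have hq0 : 0 < q := by exact_mod_cast hqR0
  have hu2 : (2 : ℝ) ≤ u ^ 160 := by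
    calc (2 : ℝ) ≤ u := by linarith
      _ = u ^ 1 := by ring
      _ ≤ u ^ 160 := pow_le_pow_right₀ hu1 (by norm_num)
  have hq2' : (2 : ℝ) ≤ q := by
    calc (2 : ℝ) ≤ u ^ 160 := hu2
      _ = 1 * u ^ 160 := by ring
      _ ≤ v ^ 2 * u ^ 160 := by gcongr; exact one_le_pow₀ hv1
      _ ≤ q := hqv
  have hqN2 : 2 ≤ q := by exact_mod_cast hq2'
  set Q : ℕ := q - 1 with hQdef
  have hQcast : (Q : ℝ) = q - 1 := by
    rw [hQdef, Nat.cast_sub (by omega)]
    simp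
  have hQhalf : (q : ℝ) / 2 ≤ Q := by rw [hQcast]; linarith
  have hQ0 : (0 : ℝ) < Q := by linarith
  have hQN : (Q : ℝ) ≤ N := by
    have : (q : ℝ) ≤ N := by exact_mod_cast hq2
    rw [hQcast]
    linarith
  have hNQ1 : 1 ≤ (N : ℝ) / Q := by rw [le_div_iff₀ hQ0]; linarith
  have hNQ : (N : ℝ) / Q ≤ 2 * v / u ^ 160 := by
    rw [div_le_div_iff₀ hQ0 (by positivity), ← hv3]
    calc v ^ 3 * u ^ 160 = v * (v ^ 2 * u ^ 160) := by ring
      _ ≤ v * q := by gcongr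
      _ ≤ v * (2 * Q) := by gcongr; linarith
      _ = 2 * v * Q := by ring
  have hNqQ : ((N / q : ℕ) : ℝ) ≤ N / Q := by
    calc ((N / q : ℕ) : ℝ) ≤ (N : ℝ) / q := Nat.cast_div_le
      _ ≤ N / Q := by
          apply div_le_div_of_nonneg_left hNR.le hQ0
          rw [hQcast]
          linarith
  -- parameters
  set Y : ℕ := N / 2 with hYdef
  set R : ℕ := ⌊(N / Q : ℝ) * u ^ 110⌋₊ with hRdef
  set R1 : ℕ := ⌈(N / Q : ℝ) * u ^ 100⌉₊ with hR1def
  set F0 : ℕ := ⌈u ^ 40⌉₊ with hF0def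
  set U : ℕ := ⌊v⌋₊ with hUdef
  set L : ℕ := Nat.log 2 N + 1 with hLdef
  have hR : (R : ℝ) ≤ (N / Q : ℝ) * u ^ 110 := Nat.floor_le (by positivity)
  have hR1 : (N / Q : ℝ) * u ^ 100 ≤ R1 := Nat.le_ceil _
  have hu100 : 128 ≤ u ^ 100 := by
    calc (128 : ℝ) ≤ u := hu128
      _ = u ^ 1 := by ring
      _ ≤ u ^ 100 := pow_le_pow_right₀ hu1 (by norm_num)
  have hNQu : 128 ≤ (N / Q : ℝ) * u ^ 100 := by
    calc (128 : ℝ) = 1 * 128 := by norm_num
      _ ≤ (N / Q : ℝ) * u ^ 100 := mul_le_mul hNQ1 hu100 (by norm_num) (by linarith only [hNQ1])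
  have hR1_128 : 128 ≤ R1 := by
    have : (128 : ℝ) ≤ R1 := by linarith
    exact_mod_cast this
  have hR1R : (0 : ℝ) < R1 := by exact_mod_cast (by omega : 0 < R1)
  have hR1up : (R1 : ℝ) ≤ 2 * ((N / Q : ℝ) * u ^ 100) := by
    have e1 : (R1 : ℝ) < (N / Q : ℝ) * u ^ 100 + 1 := Nat.ceil_lt_add_one (by positivity)
    linarith
  have hRv : (R : ℝ) ≤ 2 * v / u ^ 50 := by
    calc (R : ℝ) ≤ (N / Q : ℝ) * u ^ 110 := hR
      _ ≤ (2 * v / u ^ 160) * u ^ 110 := by gcongr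
      _ = 2 * v / u ^ 50 := by field_simp
  have hRlow : (N / Q : ℝ) * u ^ 110 / 2 ≤ R := by
    have e1 : (N / Q : ℝ) * u ^ 110 < R + 1 := Nat.lt_floor_add_one _
    have e2 : 2 ≤ (N / Q : ℝ) * u ^ 110 := by
      calc (2 : ℝ) ≤ (N / Q : ℝ) * u ^ 100 := by linarith
        _ ≤ (N / Q : ℝ) * u ^ 110 := by
            gcongr
            norm_num
    linarith
  have hR50 : 2 * v / u ^ 50 ≤ v / u ^ 8 := by
    rw [div_le_div_iff₀ (by positivity) (by positivity)]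
    calc 2 * v * u ^ 8 ≤ u * v * u ^ 8 := by gcongr; linarith
      _ = v * u ^ 9 := by ring
      _ ≤ v * u ^ 50 := by
          gcongr
          norm_num
  have hR8 : (R : ℝ) ≤ s / u ^ 8 := by
    calc (R : ℝ) ≤ v / u ^ 8 := hRv.trans hR50
      _ ≤ s / u ^ 8 := by gcongr
  have hRvv : (R : ℝ) ≤ v / u := by
    calc (R : ℝ) ≤ v / u ^ 8 := hRv.trans hR50
      _ ≤ v / u ^ 1 := by
          apply div_le_div_of_nonneg_left hv0.le (by positivity)
          exact pow_le_pow_right₀ hu1 (by norm_num)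
      _ = v / u := by rw [pow_one]
  have hvN : v ≤ N := by
    rw [← hv3]
    calc v = v * 1 := by ring
      _ ≤ v * v ^ 2 := by gcongr; exact one_le_pow₀ hv1
      _ = v ^ 3 := by ring
  have hRN : R ≤ N := by
    have e1 : (R : ℝ) ≤ N := hRvv.trans ((div_le_self hv0.le hu1).trans hvN)
    exact_mod_cast e1
  -- Y
  have hY1 : 2 * Y ≤ N := by omega
  have hY2 : N ≤ 2 * Y + 1 := by omega
  have hY4 : (N : ℝ) / 4 ≤ Y := by
    have : N ≤ 4 * Y := by omega
    have : (N : ℝ) ≤ 4 * Y := by exact_mod_cast this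
    linarith
  have hYN : (Y : ℝ) ≤ N := by
    have : Y ≤ N := by omega
    exact_mod_cast this
  have hR128 : (R : ℝ) ≤ v / 128 := by
    refine hRvv.trans ?_
    apply div_le_div_of_nonneg_left hv0.le (by norm_num) hu128
  have hv2N : v ^ 2 ≤ N := by
    rw [← hv3]
    calc v ^ 2 = v ^ 2 * 1 := by ring
      _ ≤ v ^ 2 * v := by gcongr
      _ = v ^ 3 := by ring
  have hR2 : (R : ℝ) ^ 2 ≤ N / 128 := by
    calc (R : ℝ) ^ 2 ≤ (v / 128) ^ 2 := pow_le_pow_left₀ (by positivity) hR128 2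
      _ = v ^ 2 / 16384 := by ring
      _ ≤ N / 128 := by linarith
  have hR2Y : (R : ℝ) ^ 2 ≤ Y := by linarith
  have h8R : 8 * R ≤ Y := by
    have e3 : 8 * (R : ℝ) ≤ Y := by linarith
    exact_mod_cast e3
  have hlogR : Real.log R ≤ Real.log N := by
    rcases Nat.eq_zero_or_pos R with h | h
    · rw [h]
      simp only [Nat.cast_zero, Real.log_zero]
      linarith
    · exact Real.log_le_log (by exact_mod_cast h) (by exact_mod_cast hRN)
  have hH : 1 + Real.log R ≤ u := by linarith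
  have hH0 := logR_nonneg R
  -- the main term
  have hlu : Real.log u = δ / 160 * Real.log N := by
    rw [hudef, Real.log_rpow hNR]
    ring
  have hδl : 2 ^ 21 ≤ δ * Real.log N := by
    rw [div_le_iff₀ hδ] at hlogd
    linarith
  have hLLlow : δ / 256 * Real.log N ≤ LL R1 R := by
    have ht : u ^ 9 ≤ (R : ℝ) / R1 := by
      rw [le_div_iff₀ hR1R]
      calc u ^ 9 * R1 ≤ u ^ 9 * (2 * ((N / Q : ℝ) * u ^ 100)) := by gcongr
        _ = 4 * ((N / Q : ℝ) * u ^ 109) / 2 := by ring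
        _ ≤ u * ((N / Q : ℝ) * u ^ 109) / 2 := by gcongr; linarith
        _ = (N / Q : ℝ) * u ^ 110 / 2 := by ring
        _ ≤ R := hRlow
    refine le_trans ?_ (LL_big2 R1 R (u ^ 9) (one_le_pow₀ hu1) ht hR1_128)
    rw [Real.log_pow, hlu]
    have hl2 : 0 < Real.log 2 := Real.log_pos (by norm_num)
    have hl2' : Real.log 2 < 0.6931471808 := Real.log_two_lt_d9
    have e1 : (0.08 : ℝ) * (δ * Real.log N) ≤ ((9 : ℕ) : ℝ) * (δ / 160 * Real.log N) / Real.log 2 := by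
      rw [le_div_iff₀ hl2]
      push_cast
      have e0 : 0 ≤ 0.08 * (δ * Real.log N) := by positivity
      have e2 := mul_le_mul_of_nonneg_left hl2'.le e0
      have e3 : 0 ≤ δ * Real.log N := by positivity
      have e4 : (9 : ℝ) * (δ / 160 * Real.log N) = 0.05625 * (δ * Real.log N) := by ring
      rw [e4]
      linarith only [e2, e3]
    linarith only [e1, hδl]
  have hLL1 : 1 ≤ LL R1 R := by
    refine le_trans ?_ hLLlow
    linarith
  have hGlow : (N : ℝ) ^ 2 / 512 ≤ GG N Y R * Real.log N := by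
    have e1 := hY0 N Y R (by omega) (by omega) h8R
    have e2 : ((N : ℝ) / 4) ^ 2 ≤ (Y : ℝ) ^ 2 := pow_le_pow_left₀ (by positivity) hY4 2
    linarith
  have hG0 : 0 ≤ GG N Y R := by
    unfold GG
    positivity
  have hGG : (δ / 2 ^ 17) * (N : ℝ) ^ 2 ≤ LL R1 R * GG N Y R := by
    calc (δ / 2 ^ 17) * (N : ℝ) ^ 2 = δ / 256 * ((N : ℝ) ^ 2 / 512) := by ring
      _ ≤ δ / 256 * (GG N Y R * Real.log N) := by gcongr
      _ = (δ / 256 * Real.log N) * GG N Y R := by ring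
      _ ≤ LL R1 R * GG N Y R := by gcongr
  have hc1 : 14 ≤ (δ / 2 ^ 17) * u ^ 2 := by
    have e1 : 2 ^ 21 ≤ δ * u := by
      rw [div_le_iff₀ hδ] at hud
      linarith
    have e2 : δ * u ≤ δ * u ^ 2 := by
      apply mul_le_mul_of_nonneg_left _ hδ.le
      calc u = u ^ 1 := by ring
        _ ≤ u ^ 2 := pow_le_pow_right₀ hu1 (by norm_num)
    linarith only [e1, e2]
  -- the mean value
  have hUv : (U : ℝ) ≤ v := Nat.floor_le hv0.le
  have hU1 : 1 ≤ U := by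
    rw [hUdef]
    exact Nat.le_floor (by simpa using hv1)
  have hvU : v ≤ 2 * U := by
    have e1 : v < U + 1 := Nat.lt_floor_add_one _
    have e2 : (1 : ℝ) ≤ U := by exact_mod_cast hU1
    linarith
  have hUN : U * U * U ≤ N := by
    have e1 : (U : ℝ) * U * U ≤ N := by
      rw [← hv3]
      calc (U : ℝ) * U * U = (U : ℝ) ^ 3 := by ring
        _ ≤ v ^ 3 := pow_le_pow_left₀ (by positivity) hUv 3
    exact_mod_cast e1
  have hNL : N < 2 ^ L := Nat.lt_pow_succ_log_self (by norm_num) _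
  have hLu : (L : ℝ) ≤ u := by
    have e1 : (Nat.log 2 N : ℝ) * Real.log 2 ≤ Real.log N := by
      have h1 : 2 ^ Nat.log 2 N ≤ N := Nat.pow_log_le_self 2 (by omega)
      have h2 : (2 : ℝ) ^ Nat.log 2 N ≤ N := by exact_mod_cast h1
      have h3 := Real.log_le_log (by positivity) h2
      rwa [Real.log_pow] at h3
    have hl2 : 0.6931471803 < Real.log 2 := Real.log_two_gt_d9
    have e2 : (0 : ℝ) ≤ Nat.log 2 N := by positivity
    have e3 : (L : ℝ) = Nat.log 2 N + 1 := by rw [hLdef]; push_cast; ring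
    rw [e3]
    have e4 := mul_le_mul_of_nonneg_left hl2.le e2
    linarith only [e1, e4, hlogu, hlog128]
  have hF0low : u ^ 40 ≤ F0 := Nat.le_ceil _
  have hF0up : (F0 : ℝ) ≤ 2 * u ^ 40 := by
    have e1 : (F0 : ℝ) < u ^ 40 + 1 := Nat.ceil_lt_add_one (by positivity)
    have e2 : (1 : ℝ) ≤ u ^ 40 := one_le_pow₀ hu1
    linarith
  have hF02 : 2 ≤ F0 := by
    have : (2 : ℝ) ≤ F0 := by
      calc (2 : ℝ) ≤ u := by linarith
        _ = u ^ 1 := by ring
        _ ≤ u ^ 40 := pow_le_pow_right₀ hu1 (by norm_num)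
        _ ≤ F0 := hF0low
    exact_mod_cast this
  have hF0R1 : F0 ≤ R1 := by
    have e1 : (F0 : ℝ) ≤ R1 := by
      calc (F0 : ℝ) ≤ 2 * u ^ 40 := hF0up
        _ ≤ u * u ^ 40 := by gcongr; linarith
        _ = 1 * u ^ 41 := by ring
        _ ≤ (N / Q : ℝ) * u ^ 100 := by
            gcongr
            norm_num
        _ ≤ R1 := hR1
    exact_mod_cast e1
  have hM1 : ∀ F : ℕ, F0 ≤ F → F ≤ R →
      Real.sqrt (2 * F) * (2 * (BB N U L F u + (F + 1) * (2 * Real.sqrt N * Real.log N))) ≤ N / u ^ 11 := by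
    intro F hF1 hF2
    have hFR : (F : ℝ) ≤ R := by exact_mod_cast hF2
    have hF0F : (F0 : ℝ) ≤ F := by exact_mod_cast hF1
    have hFN : F ≤ N := hF2.trans hRN
    have hFpos : (0 : ℝ) < F := by exact_mod_cast (by omega : 0 < F)
    apply block_size N U L F u u v (by linarith) hv3 hv1 hUv hvU hLu le_rfl hu0.le (by linarith)
    · have e1 : Real.log (2 * F) ≤ Real.log 2 + Real.log N := by
        rw [Real.log_mul (by norm_num) hFpos.ne']
        have := Real.log_le_log hFpos (by exact_mod_cast hFN : (F : ℝ) ≤ N)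
        linarith
      have hl2' : Real.log 2 < 0.6931471808 := Real.log_two_lt_d9
      linarith
    · linarith
    · calc (F : ℝ) ≤ 2 * v / u ^ 50 := hFR.trans hRv
        _ ≤ 2 * v / u ^ 40 := by
            apply div_le_div_of_nonneg_left (by positivity) (by positivity)
            exact pow_le_pow_right₀ hu1 (by norm_num)
  have hM2 : ∀ y ≤ N, ∑ f ∈ Ioc F0 R, Real.sqrt f * Mn f (fun ψ => ‖PS y f ψ‖) ≤ N / u ^ 10 := by
    intro y hy
    have h1 := mean_blocks N U L F0 R hU1 hUN hNL hF02 hRN u hu1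
      (fun m hm => by
        rw [mem_Icc] at hm
        exact hdiv m (by omega) (by omega)) (by linarith) (N / u ^ 11) (by positivity) hM1 y hy
    refine h1.trans ?_
    calc (L : ℝ) * (N / u ^ 11) ≤ u * (N / u ^ 11) := by gcongr
      _ = N / u ^ 10 := by field_simp
  have hHyp : Hyp N R1 R q F0 u (N / u ^ 10) :=
    { hF0 := by omega
      hF0R := hF0R1
      hq := hq0
      hT1 := hu1
      hM20 := by positivity
      hT := fun n hn hn2 => hdiv n hn (by omega)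
      hTq := hdiv q hq0 (by omega)
      hM2 := hM2 }
  have hoff := off_single N Y R1 R q F0 u (N / u ^ 10) hHyp hY1 hY2
    (fun m hm hm2 => hdiv m hm (by omega))
  -- size of the off-diagonal terms
  have hOm : Om N R1 R (N / q) F0 u (N / u ^ 10) ≤ N / u ^ 4 := by
    unfold Om
    have e1 : ((N / q : ℕ) : ℝ) / R1 ≤ 1 / u ^ 100 := by
      rw [div_le_div_iff₀ hR1R (by positivity)]
      calc ((N / q : ℕ) : ℝ) * u ^ 100 ≤ ((N : ℝ) / Q) * u ^ 100 := by gcongr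
        _ ≤ 1 * (R1 : ℝ) := by linarith
    have e2 : (F0 : ℝ) * (2 * F0 / R1 * ((N / q : ℕ) * (u ^ 3 * (1 + Real.log R)))) * N ≤ 8 * N / u ^ 16 := by
      calc (F0 : ℝ) * (2 * F0 / R1 * ((N / q : ℕ) * (u ^ 3 * (1 + Real.log R)))) * N =
            2 * (F0 : ℝ) ^ 2 * (((N / q : ℕ) : ℝ) / R1) * (u ^ 3 * (1 + Real.log R)) * N := by ring
        _ ≤ 2 * (2 * u ^ 40) ^ 2 * (1 / u ^ 100) * (u ^ 3 * u) * N := by gcongr
        _ = 8 * N / u ^ 16 := by field_simp; ring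
    have e3 : 4 * u ^ 3 * (1 + Real.log R) ^ 2 * (N / u ^ 10) ≤ 4 * N / u ^ 5 := by
      calc 4 * u ^ 3 * (1 + Real.log R) ^ 2 * (N / u ^ 10) ≤ 4 * u ^ 3 * u ^ 2 * (N / u ^ 10) := by gcongr
        _ = 4 * N / u ^ 5 := by field_simp
    have e4 : 8 * N / u ^ 16 ≤ 8 * N / u ^ 5 := by
      apply div_le_div_of_nonneg_left (by positivity) (by positivity)
      exact pow_le_pow_right₀ hu1 (by norm_num)
    calc _ ≤ 8 * N / u ^ 5 + 4 * N / u ^ 5 := by linarith
      _ = 12 * N / u ^ 5 := by ring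
      _ ≤ u * N / u ^ 5 := by gcongr; linarith
      _ = N / u ^ 4 := by field_simp
  have hsmall : 2 * ((R : ℝ) * (N / q * (Y * (u * (1 + Real.log R))))) ≤ (N : ℝ) ^ 2 / (2 * u ^ 2) := by
    have e1 : (N : ℝ) / q ≤ v / u ^ 160 := by
      rw [div_le_div_iff₀ hqR0 (by positivity), ← hv3]
      calc v ^ 3 * u ^ 160 = v * (v ^ 2 * u ^ 160) := by ring
        _ ≤ v * q := by gcongr
    calc 2 * ((R : ℝ) * (N / q * (Y * (u * (1 + Real.log R))))) ≤
          2 * ((v / u) * ((v / u ^ 160) * (N * (u * u)))) := by gcongr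
      _ = v ^ 2 * N * (2 / u ^ 159) := by field_simp
      _ ≤ v ^ 2 * N * (v / (2 * u ^ 2)) := by
          apply mul_le_mul_of_nonneg_left _ (by positivity)
          rw [div_le_div_iff₀ (by positivity) (by positivity)]
          calc 2 * (2 * u ^ 2) = 4 * u ^ 2 := by ring
            _ ≤ u * u ^ 2 := by gcongr; linarith
            _ = 1 * u ^ 3 := by ring
            _ ≤ v * u ^ 159 := by
                gcongr
                norm_num
      _ = (N : ℝ) ^ 2 / (2 * u ^ 2) := by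
          have : (N : ℝ) ^ 2 = v ^ 3 * N := by rw [hv3]; ring
          rw [this]
          ring
  have hOff : |Offp N Y R1 R q + Offm N Y R1 R q| ≤ (N : ℝ) ^ 2 / u ^ 2 := by
    refine hoff.trans ?_
    have e1 : 5 * (N : ℝ) * Om N R1 R (N / q) F0 u (N / u ^ 10) ≤ (N : ℝ) ^ 2 / (2 * u ^ 2) := by
      calc 5 * (N : ℝ) * Om N R1 R (N / q) F0 u (N / u ^ 10) ≤ 5 * (N : ℝ) * (N / u ^ 4) := by gcongr
        _ = (N : ℝ) ^ 2 / (2 * u ^ 2) * (10 / u ^ 2) := by field_simp; ring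
        _ ≤ (N : ℝ) ^ 2 / (2 * u ^ 2) * 1 := by
            apply mul_le_mul_of_nonneg_left _ (by positivity)
            rw [div_le_one (by positivity)]
            calc (10 : ℝ) ≤ 128 := by norm_num
              _ ≤ u := hu128
              _ = u ^ 1 := by ring
              _ ≤ u ^ 2 := pow_le_pow_right₀ hu1 (by norm_num)
        _ = _ := by ring
    calc _ ≤ (N : ℝ) ^ 2 / (2 * u ^ 2) + (N : ℝ) ^ 2 / (2 * u ^ 2) := add_le_add hsmall e1
      _ = (N : ℝ) ^ 2 / u ^ 2 := by field_simp; ring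
  have hus : u ^ 64 ≤ s := by
    calc u ^ 64 ≤ u ^ 160 := pow_le_pow_right₀ hu1 (by norm_num)
      _ ≤ v := huv
      _ ≤ s := hvs
  have hQs : s * u ^ 64 ≤ Q := by
    calc s * u ^ 64 ≤ v ^ 2 * u ^ 64 := by gcongr
      _ = v ^ 2 * (u ^ 64 * 2) / 2 := by ring
      _ ≤ v ^ 2 * (u ^ 64 * u) / 2 := by gcongr; linarith
      _ = v ^ 2 * u ^ 65 / 2 := by ring
      _ ≤ v ^ 2 * u ^ 160 / 2 := by
          gcongr
          norm_num
      _ ≤ q / 2 := by gcongr
      _ ≤ Q := hQhalf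
  have hR1' : (N / Q : ℝ) * u ^ 8 ≤ R1 := by
    calc ((N : ℝ) / Q) * u ^ 8 ≤ ((N : ℝ) / Q) * u ^ 100 := by
          gcongr
          norm_num
      _ ≤ (R1 : ℝ) := hR1
  have hsing := single N Y R1 R q Q s u (δ / 2 ^ 17) hs hs0 hu1 hus hQs (by omega) hY1 hR8 hR1'
      hdiv (by omega) hH hR2Y hLL1 hGG hc1 hOff
  set V := VV N q ((Nat.primeCounting N : ℝ) / Nat.totient q) with hV
  have hLLpos : 0 < LL R1 R := by linarith
  have e1 : LL R1 R * GG N Y R ^ 2 ≤ V * (12 * (N : ℝ) ^ 3) := by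
    have e2 : LL R1 R * (LL R1 R * GG N Y R ^ 2) ≤ LL R1 R * (V * (12 * (N : ℝ) ^ 3)) := by
      have e3 : LL R1 R * (LL R1 R * GG N Y R ^ 2) = 4 * (LL R1 R * GG N Y R / 2) ^ 2 := by ring
      have e4 : LL R1 R * (V * (12 * (N : ℝ) ^ 3)) = 4 * (V * (3 * (N : ℝ) ^ 3 * LL R1 R)) := by ring
      rw [e3, e4]
      linarith only [hsing]
    exact le_of_mul_le_mul_left e2 hLLpos
  have e3 : (N : ℝ) ^ 4 / 2 ^ 18 ≤ (GG N Y R * Real.log N) ^ 2 := by
    have := pow_le_pow_left₀ (by positivity) hGlow 2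
    calc (N : ℝ) ^ 4 / 2 ^ 18 = ((N : ℝ) ^ 2 / 512) ^ 2 := by ring
      _ ≤ _ := this
  have e4 : (δ / 256 * Real.log N) * ((N : ℝ) ^ 4 / 2 ^ 18) ≤ V * (12 * (N : ℝ) ^ 3) * (Real.log N) ^ 2 := by
    calc (δ / 256 * Real.log N) * ((N : ℝ) ^ 4 / 2 ^ 18) ≤ LL R1 R * (GG N Y R * Real.log N) ^ 2 := by
          gcongr
      _ = (LL R1 R * GG N Y R ^ 2) * (Real.log N) ^ 2 := by ring
      _ ≤ V * (12 * (N : ℝ) ^ 3) * (Real.log N) ^ 2 := by gcongr
  by_contra hcon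
  push Not at hcon
  have e5 : V * Real.log N < (δ / 2 ^ 30) * N := by
    have := mul_lt_mul_of_pos_right hcon hlogN0
    calc V * Real.log N < (δ / 2 ^ 30) * (N / Real.log N) * Real.log N := this
      _ = (δ / 2 ^ 30) * N := by field_simp
  have e6 : V * (12 * (N : ℝ) ^ 3) * (Real.log N) ^ 2 < (δ / 256 * Real.log N) * ((N : ℝ) ^ 4 / 2 ^ 18) := by
    calc V * (12 * (N : ℝ) ^ 3) * (Real.log N) ^ 2 = (V * Real.log N) * (12 * (N : ℝ) ^ 3 * Real.log N) := by ring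
      _ < ((δ / 2 ^ 30) * N) * (12 * (N : ℝ) ^ 3 * Real.log N) := by
          apply mul_lt_mul_of_pos_right e5
          positivity
      _ = (12 / 2 ^ 30) * (δ * Real.log N * (N : ℝ) ^ 4) := by ring
      _ ≤ (1 / 2 ^ 26) * (δ * Real.log N * (N : ℝ) ^ 4) := by
          apply mul_le_mul_of_nonneg_right _ (by positivity)
          norm_num
      _ = (δ / 256 * Real.log N) * ((N : ℝ) ^ 4 / 2 ^ 18) := by ring
  linarith

end Pool.Agent.H52
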